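import Pool.Agent.Lib.MP_28303a_al.NT.NL.Defs
import Pool.Agent.Lib.MP_28303a_al.NT.ER91.Base0

/-! # Local trees: the base for all directions -/

set_option autoImplicit false
set_option linter.unusedSectionVars false
set_option linter.unusedVariables false

namespace Pool.Agent.NegK.NT.NL

universe u

open CategoryTheory Limits Pretriangulated Pool.Agent.NegK.NT.ER

/-- BAJ. Everything which is acyclic in all directions extends. -/
theorem baj : BajStatement.{u} := by
  intro Γ _ T D hRet hcls k _ hk X hX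
  obtain ⟨AA, hA, hAr⟩ := hcls (Polynomial k) (regP k hk)
  obtain ⟨AA', hA', hAr'⟩ := hcls (LaurentPolynomial k) (regL k hk)
  have hJ : (Finset.univ : Finset (Fin T.m)) ⊆ Finset.univ := Finset.subset_univ _
  refine ER91.dev0 (fun X => ∃ Y : KK (Polynomial k) (T.P Finset.univ),
      T.PJ Finset.univ Finset.univ (Polynomial k) Y ∧
      Nonempty ((loc k (T.P Finset.univ)).obj Y ≅ X)) ?_ ?_ X hX.per ?_ ?_
  · intro Z hZ
    obtain ⟨Z0, h1⟩ := (inferInstance : HasZeroObject (KK (Polynomial k) (T.P Finset.univ))).zero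
    exact ⟨_, Sys.pj_zero h1, ⟨((loc k (T.P Finset.univ)).map_isZero h1).iso hZ⟩⟩
  · intro Δ hΔ h1 h3
    exact H90.conex perS denS Γ T Finset.univ Finset.univ k Δ hΔ h1 h3
  · intro n
    exact hAr' _ (ER91.haa0 hA' X hX.per n) fun j =>
      (tacS Γ T D Finset.univ j (LaurentPolynomial k) X (Finset.mem_univ j) hX.per).1
        (hX.ac j (Finset.mem_univ j)) n
  · intro n R hR hRX hR0
    obtain ⟨N, f, hN, hac, hf⟩ :=
      ER91.extab0 Γ T D Finset.univ Finset.univ hJ hRet k AA hA X hX n
    obtain ⟨e⟩ := hRX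
    have h1 := (uniloc k Γ T.Box (T.P Finset.univ)).2.2 _ _ _ _ f hf (Iso.refl N) e.symm
    exact ER91.extr0 Γ T D Finset.univ Finset.univ hJ k n R N _ hR hR0
      (hAr _ hN fun j => hac j (Finset.mem_univ j)) hac h1

end Pool.Agent.NegK.NT.NL
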