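import Pool.Agent.Lib.MP_28303a_al.NT.NL.Ax

/-! # Local trees: products with groups in the class -/

set_option autoImplicit false
set_option linter.unusedSectionVars false
set_option linter.unusedVariables false

namespace Pool.Agent.NegK.NT.NL

universe u

open Pool.Agent.NegK.TW Pool.Agent.NegK.TT Pool.Agent.NegK.NT.ER Pool.Agent.NegK.NT.ER61

namespace X5

section

variable {C N : GCls.{u}} {D : HCls.{u}}

/-- Classes closed under injective maps. -/
def Inj (E : GCls.{u}) : Prop :=
  ∀ (G G' : Type u) [Group G] [Group G'] (f : G →* G'), Function.Injective f → E G' → E G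

theorem inj_C (hA : Ax C D N) : Inj C := fun G G' _ _ f hf h => hA.C_inj G G' f hf h

theorem d_inj (hA : Ax C D N) {Γ Q P : Type u} [Group Γ] [Group Q] [Group P] (f : Γ →* Q)
    (g : Q →* P) (hg : Function.Injective g) (hf : D Γ Q f) : D Γ P (g.comp f) :=
  hA.comp Γ Q P f g hf (hA.N_one _ ⟨fun x y => Subtype.ext (hg (x.2.trans y.2.symm))⟩)

theorem eg_inj (hA : Ax C D N) {P Q : Type u} [Group P] [Group Q] (f : Q →* P)
    (hf : Function.Injective f) {m : ℕ} (M : Fin m → MTL P) (h : EGx D M) : EGx D (cms f M) :=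
  fun Γ _ g hg => h Γ (f.comp g) (d_inj hA g f hf hg)

/-- Change of the second factor. -/
theorem of_hom (hA : Ax C D N) {E : GCls.{u}} {Q Q' : Type u} [Group Q] [Group Q'] (f : Q' →* Q)
    (hf : N f.ker) (h : T1x E D Q) : T1x E D Q' := by
  intro P _ m M hM Γ _ g hg
  refine h P m M hM Γ (((MonoidHom.id P).prodMap f).comp g) (hA.comp _ _ _ g _ hg ?_)
  refine hA.N_inj _ f.ker
    { toFun := fun x => ⟨x.1.2, congrArg Prod.snd x.2⟩
      map_one' := rfl
      map_mul' := fun x y => rfl } ?_ hf
  intro x y hxy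
  have h1 : x.1.1 = 1 := congrArg Prod.fst x.2
  have h2 : y.1.1 = 1 := congrArg Prod.fst y.2
  exact Subtype.ext (Prod.ext (h1.trans h2.symm) (congrArg Subtype.val hxy))

theorem bg_fst {E F H : GCls.{u}} (hE : Inj H)
    (hpr : ∀ (A B : Type u) [Group A] [Group B], E A → F B → H (A × B)) {P Q : Type u} [Group P]
    [Group Q] {m : ℕ} {M : Fin m → MTL P} (hM : BGx E M) (h : F Q) :
    BGx H (cms (MonoidHom.fst P Q) M) := fun U hU => by
  refine hE _ ((MulAction.stabilizer P (α := ∀ i, (M i).L.B) U) × Q)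
    { toFun := fun x => (⟨x.1.1, x.2⟩, x.1.2)
      map_one' := rfl
      map_mul' := fun x y => rfl } ?_ (hpr _ _ (hM U hU) h)
  intro x y hxy
  have h1 := congrArg (fun z => z.1.1) hxy
  have h2 := congrArg Prod.snd hxy
  exact Subtype.ext (Prod.ext h1 h2)

/-- The restriction of a homomorphism to the stabilizers. -/
def sth {Γ P : Type u} [Group Γ] [Group P] (f : Γ →* P) {X : Type u} (a : MulAction P X)
    (x : X) : (letI := MulAction.compHom X f; MulAction.stabilizer Γ x) →*
      MulAction.stabilizer P x :=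
  letI := MulAction.compHom X f
  (f.comp (MulAction.stabilizer Γ x).subtype).codRestrict _ fun g => g.2

theorem d_sth (hA : Ax C D N) {Γ P : Type u} [Group Γ] [Group P] {f : Γ →* P} (h : D Γ P f)
    {X : Type u} (a : MulAction P X) (x : X) :
    letI := MulAction.compHom X f
    D (MulAction.stabilizer Γ x) (MulAction.stabilizer P x) (sth f a x) :=
  letI := MulAction.compHom X f
  hA.sub Γ P _ _ f (sth f a x) (MulAction.stabilizer Γ x).subtype
    (MulAction.stabilizer P x).subtype (Subgroup.subtype_injective _)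
    (Subgroup.subtype_injective _) (fun g => rfl) h

/-- The groups all of whose good groups have regular coherent group rings. -/
def RCx (D : HCls.{u}) (P : Type u) [Group P] : Prop :=
  ∀ (Γ : Type u) [Group Γ] (f : Γ →* P), D Γ P f → InRC Γ

theorem inj_rc (hA : Ax C D N) : Inj (fun P _ => RCx D P) := fun G G' _ _ f hf h Γ _ g hg =>
  h Γ (f.comp g) (d_inj hA g f hf hg)

/-- The base. -/
theorem eg_rc (hR : RefStatement.{u}) (hA : Ax C D N) {P : Type u} [Group P] {m : ℕ}
    {M : Fin m → MTL P} (hM : BGx (fun P _ => RCx D P) M) : EGx D M := by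
  intro Γ _ f hf
  refine hR Γ m (cms f M) fun U hU => ?_
  exact hM U hU _ (sth f (inferInstance : MulAction P (∀ i, (M i).L.B)) U) (d_sth hA hf _ _)

theorem t1_rc (hR : RefStatement.{u}) (hA : Ax C D N) {E : GCls.{u}} {Q : Type u} [Group Q]
    (h : ∀ (A : Type u) [Group A], E A → RCx D (A × Q)) : T1x E D Q := fun P _ m M hM =>
  eg_rc hR hA (bg_fst (F := fun B i => ∀ (A : Type u) [Group A], E A → @RCx D (A × B) _)
    (inj_rc hA) (fun A B _ _ h1 h2 => h2 A h1) hM h)

end

section

variable {G : Type u} [Group G] (Y : Trees G)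

/-- The invariant of the families. -/
def Inv (C : GCls.{u}) {P G2 : Type u} [Group P] [Group G2] (κ : G2 →* G)
    (B : Finset (Fin Y.m)) {l : ℕ} (W : Fin l → MTL (P × G2)) : Prop :=
  ∀ U : ∀ i, (W i).L.B, (∀ i v, U i ≠ (W i).L.vt v) →
    ∃ (A : Subgroup P) (v w : ∀ j, Y.V j), C A ∧ (∀ j ∈ B, (Y.G j).Adj (v j) (w j)) ∧
      ∀ x : P × G2, (∀ i, x • U i = U i) → x.1 ∈ A ∧
        ∀ j ∈ B, κ x.2 • v j = v j ∧ κ x.2 • w j = w j

variable {Y} {C : GCls.{u}}

theorem Inv.res {P G2 G3 : Type u} [Group P] [Group G2] [Group G3] {κ : G2 →* G}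
    {B : Finset (Fin Y.m)} {l : ℕ} {W : Fin l → MTL (P × G2)} (h : Inv Y C κ B W)
    (μ : G3 →* G2) :
    Inv Y C (κ.comp μ) B (cms ((MonoidHom.id P).prodMap μ) W) := by
  intro U hU
  obtain ⟨A, v, w, h1, h2, h3⟩ := h U hU
  exact ⟨A, v, w, h1, h2, fun x hx => h3 ((MonoidHom.id P).prodMap μ x) hx⟩

theorem Inv.cons {P G2 : Type u} [Group P] [Group G2] {κ : G2 →* G}
    {B : Finset (Fin Y.m)} {l : ℕ} {W : Fin l → MTL (P × G2)} (h : Inv Y C κ B W) {i : Fin Y.m}
    (hi : i ∉ B) (M0 : MTL G)
    (hM : ∀ c : M0.L.B, (∀ v, c ≠ M0.L.vt v) → ∃ v w : Y.V i, (Y.G i).Adj v w ∧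
      MulAction.stabilizer G c ≤ MulAction.stabilizer G v ⊓ MulAction.stabilizer G w) :
    Inv Y C κ (insert i B) (Fin.cons (α := fun _ => MTL (P × G2))
      (M0.cm (κ.comp (MonoidHom.snd P G2))) W) := by
  intro U hU
  obtain ⟨A, v, w, h1, h2, h3⟩ := h (fun a => U a.succ) fun a => hU a.succ
  obtain ⟨v0, w0, h4, h5⟩ := hM (U 0) (hU 0)
  refine ⟨A, Function.update v i v0, Function.update w i w0, h1, fun j hj => ?_, fun x hx => ?_⟩
  · rcases Finset.mem_insert.1 hj with rfl | hj
    · rw [Function.update_self, Function.update_self]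
      exact h4
    · have hne : j ≠ i := fun e => hi (e ▸ hj)
      rw [Function.update_of_ne hne, Function.update_of_ne hne]
      exact h2 j hj
  · obtain ⟨h6, h7⟩ := h3 x fun a => hx a.succ
    refine ⟨h6, fun j hj => ?_⟩
    rcases Finset.mem_insert.1 hj with rfl | hj
    · rw [Function.update_self, Function.update_self]
      have h8 : κ x.2 ∈ MulAction.stabilizer G (α := M0.L.B) (U 0) := hx 0
      exact h5 h8
    · have hne : j ≠ i := fun e => hi (e ▸ hj)
      rw [Function.update_of_ne hne, Function.update_of_ne hne]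
      exact h7 j hj

variable (Y)

theorem exists_vert : Nonempty (∀ j, Y.V j) :=
  ⟨fun j => (Y.tree j).tree.connected.nonempty.some⟩

theorem walk_eq {V : Type u} {G : SimpleGraph V} (h : ¬ ∃ v w, G.Adj v w) :
    ∀ a b : V, G.Walk a b → a = b := by
  intro a b p
  induction p with
  | nil => rfl
  | cons h' _ _ => exact absurd ⟨_, _, h'⟩ h

/-- The tree without edges. -/
theorem fixed_of_no_edge {G2 : Type u} [Group G2] (κ : G2 →* G) (i : Fin Y.m)
    (h : ¬ ∃ v w, (Y.G i).Adj v w) : ∃ v : Y.V i, ∀ g : G2, κ g • v = v := by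
  have hc := (Y.tree i).tree.connected
  obtain ⟨v⟩ := hc.nonempty
  refine ⟨v, fun g => ?_⟩
  obtain ⟨p⟩ := hc.preconnected (κ g • v) v
  exact walk_eq h _ _ p

section

variable {Y} {N E H : GCls.{u}} {D : HCls.{u}} (hA : Ax C D N) (hH : Inj H)
  (hpr : ∀ (A B : Type u) [Group A] [Group B], C A → E B → H (A × B))
  (hEgs : EgsxStatement.{u}) (hMrk : MrkStatement.{u})
  (he : ∀ (j : Fin Y.m) (v : ∀ i, Y.V i) (w : Y.V j), (Y.G j).Adj (v j) w →
    E (Y.st v ⊓ MulAction.stabilizer G w : Subgroup G))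
  {Q : Type u} [Group Q] (hQ : T1x H D Q) (P : Type u) [Group P]

include hA hH hpr hEgs hMrk he hQ in
/-- The induction. -/
theorem claim : ∀ (n : ℕ) (R B : Finset (Fin Y.m)), B ⊆ R → (R \ B).card = n →
    ∀ (G2 : Type u) [Group G2] (κ : G2 →* G), Function.Injective κ →
    (∀ j, j ∉ R → ∃ v : Y.V j, ∀ g : G2, κ g • v = v) →
    ∀ (l : ℕ) (W : Fin l → MTL (P × G2)), Inv Y C κ B W →
    (B = ∅ → ∀ (G3 : Type u) [Group G3] (μ : G3 →* G2), Function.Injective μ →
      (∀ j, ∃ v : Y.V j, ∀ g : G3, κ (μ g) • v = v) →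
      EGx D (cms (MonoidHom.fst (P × G3) Q) (cms ((MonoidHom.id P).prodMap μ) W))) →
    EGx D (cms (MonoidHom.fst (P × G2) Q) W) := by
  classical
  intro n
  induction n with
  | zero =>
    intro R B hBR hn G2 _ κ hκ hfix l W hW hF
    have hR : R = B := by
      refine Finset.Subset.antisymm ?_ hBR
      rw [← Finset.sdiff_eq_empty_iff_subset]
      exact Finset.card_eq_zero.1 hn
    subst hR
    by_cases hBe : R = ∅
    · exact hF hBe G2 (MonoidHom.id G2) Function.injective_id fun j =>
        hfix j (by rw [hBe]; exact Finset.notMem_empty j)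
    · obtain ⟨j, hj⟩ := Finset.nonempty_iff_ne_empty.2 hBe
      refine hQ (P × G2) l W fun U hU => ?_
      obtain ⟨A, v, w, h1, h2, h3⟩ := hW U hU
      choose u hu using hfix
      let v' : ∀ i, Y.V i := fun i => if hi : i ∈ R then v i else u i hi
      have hv' : ∀ i, i ∈ R → v' i = v i := fun i hi => dif_pos hi
      have h4 := he j v' (w j) (by
        rw [hv' j hj]
        exact h2 j hj)
      have h5 : ∀ x : MulAction.stabilizer (P × G2) (α := ∀ i, (W i).L.B) U,
          x.1.1 ∈ A ∧ κ x.1.2 ∈ (Y.st v' ⊓ MulAction.stabilizer G (w j) : Subgroup G) := by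
        intro x
        obtain ⟨h6, h7⟩ := h3 x.1 fun i => congrFun x.2 i
        refine ⟨h6, ?_, (h7 j hj).2⟩
        refine Subgroup.mem_iInf.2 fun i => ?_
        by_cases hi : i ∈ R
        · rw [hv' i hi]
          exact (h7 i hi).1
        · have e1 : v' i = u i hi := dif_neg hi
          rw [e1]
          exact hu i hi x.1.2
      refine hH _ (A × (Y.st v' ⊓ MulAction.stabilizer G (w j) : Subgroup G))
        { toFun := fun x => (⟨x.1.1, (h5 x).1⟩, ⟨κ x.1.2, (h5 x).2⟩)
          map_one' := Prod.ext rfl (Subtype.ext (map_one κ))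
          map_mul' := fun x y => Prod.ext rfl (Subtype.ext (map_mul κ _ _)) } ?_
        (hpr _ _ h1 h4)
      intro x y hxy
      have e1 := congrArg (fun z => z.1.1) hxy
      have e2 := congrArg (fun z => z.2.1) hxy
      exact Subtype.ext (Prod.ext e1 (hκ e2))
  | succ n ih =>
    intro R B hBR hn G2 _ κ hκ hfix l W hW hF
    obtain ⟨i, hi⟩ : (R \ B).Nonempty := by
      rw [← Finset.card_pos, hn]
      exact Nat.succ_pos n
    obtain ⟨hiR, hiB⟩ := Finset.mem_sdiff.1 hi
    have hB' : B ⊆ R.erase i := fun j hj => Finset.mem_erase.2 ⟨fun e => hiB (e ▸ hj), hBR hj⟩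
    have hcard : (R.erase i \ B).card = n := by
      rw [Finset.erase_sdiff_comm, Finset.card_erase_of_mem hi, hn]
      rfl
    by_cases hedge : ∃ v w, (Y.G i).Adj v w
    · obtain ⟨M0, hM1, hM2⟩ := hMrk G (Y.V i) (Y.G i) (Y.tree i) hedge
      let Z' : MTL (P × G2) := M0.cm (κ.comp (MonoidHom.snd P G2))
      refine hEgs C D N hA ((P × G2) × Q) l (cms (MonoidHom.fst (P × G2) Q) W)
        (Z'.cm (MonoidHom.fst (P × G2) Q)) ?_ fun c => ?_
      · have e : (Fin.cons (α := fun _ => MTL ((P × G2) × Q)) (Z'.cm (MonoidHom.fst (P × G2) Q))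
            (cms (MonoidHom.fst (P × G2) Q) W)) =
            cms (MonoidHom.fst (P × G2) Q) (Fin.cons (α := fun _ => MTL (P × G2)) Z' W) := by
          funext a
          refine Fin.cases rfl (fun _ => rfl) a
        rw [e]
        refine ih R (insert i B) (Finset.insert_subset hiR hBR) ?_ G2 κ hκ hfix (l + 1) _
          (hW.cons hiB M0 hM2) fun h => absurd h (Finset.insert_ne_empty _ _)
        rw [Finset.sdiff_insert, Finset.card_erase_of_mem hi, hn]
        rfl
      · let c' : M0.L.B := c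
        let G3 : Subgroup G2 := (MulAction.stabilizer G (α := M0.L.B) c').comap κ
        let S : Subgroup ((P × G2) × Q) :=
          MulAction.stabilizer ((P × G2) × Q) (α := (Z'.cm (MonoidHom.fst (P × G2) Q)).L.B) c
        have hS : ∀ x : S, x.1.1.2 ∈ G3 := fun x => x.2
        let e : S →* (P × G3) × Q :=
          { toFun := fun x => ((x.1.1.1, ⟨x.1.1.2, hS x⟩), x.1.2)
            map_one' := rfl
            map_mul' := fun x y => rfl }
        have hinj : Function.Injective e := by
          intro x y hxy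
          have e1 := congrArg (fun z => z.1.1) hxy
          have e2 := congrArg (fun z => z.1.2.1) hxy
          have e3 := congrArg (fun z => z.2) hxy
          exact Subtype.ext (Prod.ext (Prod.ext e1 e2) e3)
        obtain ⟨v0, hv0⟩ := hM1 c'
        have key := ih (R.erase i) B hB' hcard G3 (κ.comp G3.subtype)
          (hκ.comp G3.subtype_injective) (fun j hj => ?_) l
          (cms ((MonoidHom.id P).prodMap G3.subtype) W) (hW.res G3.subtype)
          fun hB G4 _ μ hμ hf => hF hB G4 (G3.subtype.comp μ)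
            (G3.subtype_injective.comp hμ) hf
        · exact eg_inj hA e hinj _ key
        · by_cases hji : j = i
          · subst hji
            exact ⟨v0, fun g => hv0 g.2⟩
          · obtain ⟨v, hv⟩ := hfix j fun h => hj (Finset.mem_erase.2 ⟨hji, h⟩)
            exact ⟨v, fun g => hv g.1⟩
    · refine ih (R.erase i) B hB' hcard G2 κ hκ (fun j hj => ?_) l W hW hF
      by_cases hji : j = i
      · subst hji
        exact fixed_of_no_edge Y κ j hedge
      · exact hfix j fun h => hj (Finset.mem_erase.2 ⟨hji, h⟩)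

include hA hH hpr hEgs hMrk he in
/-- Products with groups acting on trees. -/
theorem t1_tree {Q : Type u} [Group Q] (hQ : T1x H D Q)
    (hv : ∀ v : ∀ j, Y.V j, T1x C D (Y.st v × Q)) : T1x C D (G × Q) := by
  intro P _ m M hM
  have key := claim hA hH hpr hEgs hMrk he hQ P _ Finset.univ ∅ (Finset.empty_subset _) rfl G
    (MonoidHom.id G) Function.injective_id (fun j hj => absurd (Finset.mem_univ j) hj) m
    (cms (MonoidHom.fst P G) M) (fun U hU => ?_) fun _ G3 _ μ hμ hf => ?_
  · exact eg_inj hA (f := ({ toFun := fun x => ((x.1, x.2.1), x.2.2)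
                             map_one' := rfl
                             map_mul' := fun x y => rfl } : P × (G × Q) →* (P × G) × Q))
      (fun x y hxy => by
        have e1 := congrArg (fun z => z.1.1) hxy
        have e2 := congrArg (fun z => z.1.2) hxy
        have e3 := congrArg (fun z => z.2) hxy
        exact Prod.ext e1 (Prod.ext e2 e3)) _ key
  · obtain ⟨v⟩ := exists_vert Y
    refine ⟨MulAction.stabilizer P (α := ∀ i, (M i).L.B) U, v, v, hM U hU,
      fun j hj => absurd hj (Finset.notMem_empty j), fun x hx => ⟨funext hx,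
      fun j hj => absurd hj (Finset.notMem_empty j)⟩⟩
  · choose v hv' using hf
    have h1 : ∀ g : G3, μ g ∈ Y.st v := fun g => Subgroup.mem_iInf.2 fun j => hv' j g
    exact eg_inj hA (f := ({ toFun := fun x => (x.1.1, (⟨μ x.1.2, h1 x.1.2⟩, x.2))
                             map_one' := Prod.ext rfl (Prod.ext (Subtype.ext (map_one μ)) rfl)
                             map_mul' := fun x y =>
                               Prod.ext rfl (Prod.ext (Subtype.ext (map_mul μ _ _)) rfl) } :
        (P × G3) × Q →* P × (Y.st v × Q)))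
      (fun x y hxy => by
        have e1 := congrArg (fun z => z.1) hxy
        have e2 := congrArg (fun z => z.2.1.1) hxy
        have e3 := congrArg (fun z => z.2.2) hxy
        exact Prod.ext (Prod.ext e1 (hμ e2)) e3) _ (hv v P m M hM)

end

end

section

variable {C N : GCls.{u}} {D : HCls.{u}}

/-- Unions. -/
theorem t1_fg (hF : EgfxStatement.{u}) (hA : Ax C D N) {G Q : Type u} [Group G] [Group Q]
    (h : ∀ S : Subgroup G, S.FG → T1x C D (S × Q)) : T1x C D (G × Q) := by
  intro P _ m M hM
  refine hF C D N hA (P × (G × Q)) m _ fun R hR => ?_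
  let f : P × (G × Q) →* G := (MonoidHom.fst G Q).comp (MonoidHom.snd P (G × Q))
  have hS : (R.map f).FG := by
    classical
    obtain ⟨T, hT⟩ := hR
    exact ⟨T.image f, by rw [Finset.coe_image, ← MonoidHom.map_closure, hT]⟩
  have key := h (R.map f) hS P m M hM
  exact eg_inj hA (f := ({ toFun := fun x => (x.1.1, (⟨x.1.2.1, ⟨x.1, x.2, rfl⟩⟩, x.1.2.2))
                           map_one' := rfl
                           map_mul' := fun x y => rfl } : R →* P × (R.map f × Q)))
    (fun x y hxy => by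
      have e1 := congrArg (fun z => z.1) hxy
      have e2 := congrArg (fun z => z.2.1.1) hxy
      have e3 := congrArg (fun z => z.2.2) hxy
      exact Subtype.ext (Prod.ext e1 (Prod.ext e2 e3))) _ key

/-- The products with groups in `C`. -/
theorem t1_C (hA : Ax C D N) {G Q : Type u} [Group G] [Group Q] (h : C G) (hQ : T1x C D Q) :
    T1x C D (G × Q) := by
  intro P _ m M hM
  exact eg_inj hA (f := ({ toFun := fun x => ((x.1, x.2.1), x.2.2)
                           map_one' := rfl
                           map_mul' := fun x y => rfl } : P × (G × Q) →* (P × G) × Q))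
    (fun x y hxy => by
      have e1 := congrArg (fun z => z.1.1) hxy
      have e2 := congrArg (fun z => z.1.2) hxy
      have e3 := congrArg (fun z => z.2) hxy
      exact Prod.ext e1 (Prod.ext e2 e3)) _ (hQ (P × G) m _ (bg_fst (inj_C hA) hA.C_prod hM h))

/-- The kernels. -/
theorem t1_tk (hA : Ax C D N) {G G' Q : Type u} [Group G] [Group G'] [Group Q] (f : G →* G')
    (hf : N f.ker) (hQ : T1x C D (G' × Q)) : T1x C D (G × Q) := by
  refine of_hom hA (f.prodMap (MonoidHom.id Q)) (hA.N_inj _ f.ker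
    { toFun := fun x => ⟨x.1.1, congrArg Prod.fst x.2⟩
      map_one' := rfl
      map_mul' := fun x y => rfl } ?_ hf) hQ
  intro x y hxy
  have h1 : x.1.2 = 1 := congrArg Prod.snd x.2
  have h2 : y.1.2 = 1 := congrArg Prod.snd y.2
  exact Subtype.ext (Prod.ext (congrArg Subtype.val hxy) (h1.trans h2.symm))

theorem t1_inj (hA : Ax C D N) {Q Q' : Type u} [Group Q] [Group Q'] (f : Q' →* Q)
    (hf : Function.Injective f) (h : T1x C D Q) : T1x C D Q' :=
  of_hom hA f (hA.N_one _ ⟨fun x y => Subtype.ext (hf (x.2.trans y.2.symm))⟩) h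

/-- CLS. -/
theorem clsx (hEgs : EgsxStatement.{u}) (hF : EgfxStatement.{u}) (hMrk : MrkStatement.{u}) :
    ClsxStatement.{u} := by
  intro C D N hA G i h
  induction h with
  | c0 G h => exact fun Q _ hQ => t1_C hA h hQ
  | tk G G' f _ hf ih => exact fun Q _ hQ => t1_tk hA f hf (ih Q hQ)
  | fg G _ ih => exact fun Q _ hQ => t1_fg hF hA fun S hS => ih S hS Q hQ
  | pr G G' _ _ ih ih' =>
    intro Q _ hQ
    refine t1_inj hA (Q := G × (G' × Q))
      { toFun := fun x => (x.1.1, (x.1.2, x.2))
        map_one' := rfl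
        map_mul' := fun x y => rfl } (fun x y hxy => ?_) (ih _ (ih' Q hQ))
    have e1 := congrArg (fun z => z.1) hxy
    have e2 := congrArg (fun z => z.2.1) hxy
    have e3 := congrArg (fun z => z.2.2) hxy
    exact Prod.ext (Prod.ext e1 e2) e3
  | tree G Y he _ ih =>
    exact fun Q _ hQ => t1_tree hA (inj_C hA) hA.C_prod hEgs hMrk he hQ fun v => ih v Q hQ

theorem t1_one (hA : Ax C D N) {E : GCls.{u}} {Q : Type u} [Group Q] (h : T1x E D Q) :
    T1x E D (Q × PUnit.{u + 1}) :=
  of_hom hA (MonoidHom.fst Q PUnit) (hA.N_one _ ⟨fun x y => Subtype.ext (Prod.ext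
    ((show x.1.1 = 1 from x.2).trans (show y.1.1 = 1 from y.2).symm) rfl)⟩) h

theorem t1_of_one (hA : Ax C D N) {E : GCls.{u}} {Q : Type u} [Group Q]
    (h : T1x E D (Q × PUnit.{u + 1})) : T1x E D Q :=
  of_hom hA (MonoidHom.inl Q PUnit) (hA.N_one _ ⟨fun x y => Subtype.ext
    ((congrArg Prod.fst (show MonoidHom.inl Q PUnit x.1 = 1 from x.2)).trans
      (congrArg Prod.fst (show MonoidHom.inl Q PUnit y.1 = 1 from y.2)).symm)⟩) h

/-- The groups for the last factor. -/
theorem t1_j0 (hR : RefStatement.{u}) (hA : Ax C D N) {Q : Type u} [Group Q] (h : J0x C D Q) :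
    T1x C D Q := t1_rc hR hA fun A _ hA' Γ _ f hf => h A Γ f hA' hf

/-- Trees for the last factor: the groups of the edges are in `J0x`. -/
theorem t1_treeJ (hR : RefStatement.{u}) (hEgs : EgsxStatement.{u}) (hMrk : MrkStatement.{u})
    (hA : Ax C D N) {G : Type u} [Group G] (Y : Trees G)
    (he : ∀ (j : Fin Y.m) (v : ∀ i, Y.V i) (w : Y.V j), (Y.G j).Adj (v j) w →
      J0x C D (Y.st v ⊓ MulAction.stabilizer G w : Subgroup G))
    (hv : ∀ v, T1x C D (Y.st v)) : T1x C D G :=
  t1_of_one hA (t1_tree (E := fun G _ => J0x C D G) (H := fun P _ => RCx D P) hA (inj_rc hA)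
    (fun A B _ _ h1 h2 Γ _ f hf => h2 A Γ f h1 hf) hEgs hMrk he
    (t1_rc hR hA fun A _ h => inj_rc hA (A × PUnit) A (MonoidHom.fst A PUnit)
      (fun x y hxy => Prod.ext hxy rfl) h)
    fun v => t1_one hA (hv v))

/-- The class of the groups for the last factor. -/
inductive Tlx (C N : GCls.{u}) (D : HCls.{u}) : (G : Type u) → Group G → Prop
  | j0 (G : Type u) [i : Group G] (h : J0x C D G) : Tlx C N D G i
  | tk (G G' : Type u) [i : Group G] [i' : Group G'] (f : G →* G') (h : Tlx C N D G' i')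
      (hf : N f.ker) : Tlx C N D G i
  | fg (G : Type u) [i : Group G] (h : ∀ S : Subgroup G, S.FG → Tlx C N D S inferInstance) :
      Tlx C N D G i
  | pr (G G' : Type u) [i : Group G] [i' : Group G'] (h : Clx C N G i) (h' : Tlx C N D G' i') :
      Tlx C N D (G × G') inferInstance
  | tree (G : Type u) [i : Group G] (Y : Trees G)
      (he : ∀ (j : Fin Y.m) (v : ∀ i, Y.V i) (w : Y.V j), (Y.G j).Adj (v j) w →
        J0x C D (Y.st v ⊓ MulAction.stabilizer G w : Subgroup G))
      (hv : ∀ v, Tlx C N D (Y.st v) inferInstance) : Tlx C N D G i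

theorem Tlx.t1 (hR : RefStatement.{u}) (hEgs : EgsxStatement.{u}) (hF : EgfxStatement.{u})
    (hMrk : MrkStatement.{u}) (hA : Ax C D N) {G : Type u} {i : Group G}
    (h : Tlx C N D G i) : T1x C D G := by
  induction h with
  | j0 G h => exact t1_j0 hR hA h
  | tk G G' f _ hf ih => exact of_hom hA f hf ih
  | fg G _ ih => exact t1_of_one hA (t1_fg hF hA fun S hS => t1_one hA (ih S hS))
  | pr G G' h _ ih => exact clsx hEgs hF hMrk C D N hA G _ h G' ih
  | tree G Y he _ ih => exact t1_treeJ hR hEgs hMrk hA Y he ih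

theorem j0_of_C (hA : Ax C D N) {G : Type u} [Group G] (h : C G) : J0x C D G :=
  fun P Γ _ _ f hP hf => hA.rc Γ (P × G) f hf (hA.C_prod P G hP h)

theorem tlx_of_clx (hA : Ax C D N) {G : Type u} {i : Group G} (h : Clx C N G i) :
    Tlx C N D G i := by
  induction h with
  | c0 G h => exact Tlx.j0 G (j0_of_C hA h)
  | tk G G' f _ hf ih => exact Tlx.tk G G' f ih hf
  | fg G _ ih => exact Tlx.fg G ih
  | pr G G' h _ _ ih => exact Tlx.pr G G' h ih
  | tree G Y he _ ih => exact Tlx.tree G Y (fun j v w h => j0_of_C hA (he j v w h)) ih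

theorem cl_inj (hA : Ax C D N) {G G' : Type u} [i : Group G] [i' : Group G'] (f : G →* G')
    (hf : Function.Injective f) (h : Clx C N G' i') : Clx C N G i :=
  Clx.tk G G' f h (hA.N_one _ ⟨fun x y => Subtype.ext (hf (x.2.trans y.2.symm))⟩)

/-- Finite products of groups of the class. -/
theorem cl_pi (hA : Ax C D N) (hC1 : ∀ (G : Type u) [Group G], Subsingleton G → C G) :
    ∀ (s : ℕ) (G : Fin s → Type u) (i : ∀ j, Group (G j)), (∀ j, Clx C N (G j) (i j)) →
      Clx C N (∀ j, G j) inferInstance := by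
  intro s
  induction s with
  | zero => exact fun G i _ => Clx.c0 _ (hC1 _ ⟨fun x y => funext fun j => j.elim0⟩)
  | succ s ih =>
    intro G i h
    refine cl_inj hA ({ toFun := fun x => (x 0, fun j => x j.succ)
                        map_one' := rfl
                        map_mul' := fun x y => rfl } : (∀ j, G j) →* G 0 × (∀ j : Fin s, G j.succ))
      (fun x y hxy => ?_) (Clx.pr (G 0) (∀ j : Fin s, G j.succ) (h 0) (ih (fun j => G j.succ)
        (fun j => i j.succ) fun j => h j.succ))
    funext j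
    refine Fin.cases ?_ (fun a => ?_) j
    · exact congrArg Prod.fst hxy
    · exact congrFun (congrArg Prod.snd hxy) a

/-- Finite products. -/
theorem t1_pi (hc : ClsxStatement.{u}) (hA : Ax C D N) {Q : Type u} [Group Q]
    (hQ : T1x C D Q) : ∀ (s : ℕ) (G : Fin s → Type u) (i : ∀ j, Group (G j)),
    (∀ j, Clx C N (G j) (i j)) → T1x C D ((∀ j, G j) × Q) := by
  intro s
  induction s with
  | zero =>
    intro G i _
    exact t1_inj hA (MonoidHom.snd (∀ j, G j) Q)
      (fun x y hxy => Prod.ext (Subsingleton.elim _ _) hxy) hQ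
  | succ s ih =>
    intro G i h
    refine t1_inj hA (Q := G 0 × ((∀ j : Fin s, G j.succ) × Q))
      ({ toFun := fun x => (x.1 0, (fun j => x.1 j.succ, x.2))
         map_one' := rfl
         map_mul' := fun x y => rfl } : (∀ j, G j) × Q →* G 0 × ((∀ j : Fin s, G j.succ) × Q))
      (fun x y hxy => ?_) (hc C D N hA (G 0) (i 0) (h 0) _ (ih (fun j => G j.succ)
        (fun j => i j.succ) fun j => h j.succ))
    refine Prod.ext (funext fun j => ?_) (congrArg (fun z => z.2.2) hxy)
    refine Fin.cases ?_ (fun a => ?_) j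
    · exact congrArg Prod.fst hxy
    · exact congrFun (congrArg (fun z => z.2.1) hxy) a

/-- The theorem for the groups in `T1x`. -/
theorem kneg_t1 (hZ : KnzStatement.{u}) (hA : Ax C D N)
    (hC1 : ∀ (G : Type u) [Group G], Subsingleton G → C G) {Q : Type u} [Group Q]
    (hQ : T1x C D Q) {Γ : Type u} [Group Γ] (f : Γ →* Q) (hf : D Γ Q f) (R : Type u) [Ring R]
    (hR : RegularRing R) (n : ℕ) : Subsingleton (KNeg (n + 1) (MonoidAlgebra R Γ)) := by
  refine hZ Γ ?_ R hR n
  have h1 := hQ PUnit 0 (fun i => i.elim0) fun U _ => hC1 _ inferInstance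
  have h2 := eg_inj hA (MonoidHom.inr PUnit Q)
    (fun x y hxy => congrArg Prod.snd hxy) _ h1 Γ f hf
  have h3 : (fun i : Fin 0 => (i.elim0 : TL Γ)) = fun i => (cms f (cms (MonoidHom.inr PUnit Q)
      (cms (MonoidHom.fst PUnit Q) fun i : Fin 0 => (i.elim0 : MTL PUnit))) i).L :=
    funext fun i => i.elim0
  rw [h3]
  exact h2

/-- MAINX. -/
theorem mainx (hc : ClsxStatement.{u}) (hZ : KnzStatement.{u}) (hA : Ax C D N)
    (hC1 : ∀ (G : Type u) [Group G], Subsingleton G → C G)
    (s : ℕ) (G : Fin s → Type u) (i : ∀ j, Group (G j)) (h : ∀ j, Clx C N (G j) (i j))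
    (Q : Type u) [Group Q] (hQ : T1x C D Q) (Γ : Type u) [Group Γ] (f : Γ →* (∀ j, G j) × Q)
    (hf : D Γ ((∀ j, G j) × Q) f) (R : Type u) [Ring R] (hR : RegularRing R) (n : ℕ) :
    Subsingleton (KNeg (n + 1) (MonoidAlgebra R Γ)) :=
  kneg_t1 hZ hA hC1 (t1_pi hc hA hQ s G i h) f hf R hR n

end

end X5

end Pool.Agent.NegK.NT.NL
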