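import Pool.Agent.Lib.MP_28303a_al.NT.NL.Defs
import Pool.Agent.Lib.MP_28303a_al.NT.H90.Conex
import Pool.Agent.Lib.MP_28303a_al.NT.A.Adapt

/-! # CNX: extensions of objects which extend to `k[t]` -/

set_option autoImplicit false
set_option linter.unusedSectionVars false
set_option linter.unusedVariables false

namespace Pool.Agent.NegK.NT.NL

universe u

open CategoryTheory Limits Pretriangulated

/-- CNX. -/
theorem cnx : CnxStatement.{u} := by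
  intro Γ B _ _ F k _ Δ hΔ
  rintro ⟨Y1, hY1, ⟨e1⟩⟩ ⟨Y3, hY3, ⟨e3⟩⟩
  obtain ⟨n, ψ, hψ⟩ := denS k Γ B F.P Y3 (Y1⟦(1 : ℤ)⟧) hY3.per
    (e3.hom ≫ Δ.mor₃ ≫ (e1.inv)⟦(1 : ℤ)⟧' ≫ ((loc k F.P).commShiftIso (1 : ℤ)).inv.app Y1)
  obtain ⟨Y2, f, g, hT⟩ := distinguished_cocone_triangle₂ ψ
  refine ⟨Y2, ⟨(perS (Polynomial k) Γ B F.P).2 _ hT hY1.per hY3.per, fun j => ?_⟩, ?_⟩
  · exact Triangle.isZero₂_of_isZero₁₃ _
      ((hk (k := Polynomial k) (k' := Polynomial k) (Loc.push (F.fg j))).map_distinguished _ hT)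
      (hY1.ac j) (hY3.ac j)
  · exact H90.lift_tri (loc k F.P) Δ hΔ e1 e3
      ((tn (n : ℤ)).app ((loc k F.P).obj Y3)) (H90.isIso_tn (n : ℤ) _) f g ψ hT hψ

end Pool.Agent.NegK.NT.NL
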