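import Pool.Agent.Lib.MP_28303a_al.NT.NL.Tru

/-! # Devissage along a map to a set with sizes -/

set_option autoImplicit false
set_option linter.unusedSectionVars false
set_option linter.unusedVariables false

namespace Pool.Agent.NegK.NT.L92

universe u

open CategoryTheory Limits Pretriangulated

section

variable {k : Type u} [Ring k] {Γ : Type u} [Group Γ] {B C : Type u} [MulAction Γ B]
  [MulAction Γ C] {P : Pre Γ B} {Q : Pre Γ C}

/-- Invariant sizes. -/
structure Szd (Q : Pre Γ C) (sz : C → ℕ) : Prop where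
  inv : ∀ (g : Γ) (c : C), sz (g • c) = sz c
  lt : ∀ c c' : C, Q.le c c' → c = c' ∨ sz c < sz c'

theorem Cv.pre (m : Loc.Mono P Q) {S : Set C} (hS : Cv Q S) : Cv P (m.φ ⁻¹' S) where
  smul g x hx := by
    show m.φ (g • x) ∈ S
    rw [m.smul]
    exact hS.smul g _ hx
  conv h1 h2 hx hz := hS.conv (m.le h1) (m.le h2) hx hz

theorem Szd.le {sz : C → ℕ} (hs : Szd Q sz) {c c' : C} (h : Q.le c c') : sz c ≤ sz c' := by
  rcases hs.lt _ _ h with h | h
  · rw [h]
  · exact h.le

/-- Orbits are convex. -/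
theorem Szd.orb {sz : C → ℕ} (hs : Szd Q sz) (c₀ : C) : Cv Q (MulAction.orbit Γ c₀) where
  smul g x hx := by
    obtain ⟨h, rfl⟩ := hx
    exact ⟨g * h, mul_smul g h c₀⟩
  conv {x y z} h1 h2 hx hz := by
    obtain ⟨g, rfl⟩ := hx
    obtain ⟨h, rfl⟩ := hz
    rcases hs.lt _ _ h1 with h3 | h3
    · exact ⟨g, h3⟩
    · have h4 := hs.le h2
      have h5 : sz (g • c₀) = sz (h • c₀) := by rw [hs.inv, hs.inv]
      change sz (g • c₀) < sz y at h3
      change sz y ≤ sz (h • c₀) at h4
      lia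

theorem Szd.part₁ {sz : C → ℕ} (hs : Szd Q sz) {S : Set C} (hS : Cv Q S) (n : ℕ) :
    Cv Q {c | c ∈ S ∧ n < sz c} where
  smul g x hx := ⟨hS.smul g x hx.1, by
    have := hs.inv g x
    have := hx.2
    lia⟩
  conv {x y z} h1 h2 hx hz := ⟨hS.conv h1 h2 hx.1 hz.1, by
    have := hs.le h1
    have := hx.2
    lia⟩

/-- The upper part of the devissage. -/
theorem Szd.part₂ {sz : C → ℕ} (hs : Szd Q sz) {S : Set C} (hS : Cv Q S) {c₀ : C} (h₀ : c₀ ∈ S) :
    Part Q {c | c ∈ S ∧ sz c₀ < sz c} (MulAction.orbit Γ c₀) where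
  cv := by
    refine ⟨?_, ?_⟩
    · rintro g x (hx | hx)
      · exact Or.inl ((hs.part₁ hS _).smul g x hx)
      · exact Or.inr ((hs.orb c₀).smul g x hx)
    · intro x y z h1 h2 hx hz
      have hx' : x ∈ S := by
        rcases hx with hx | ⟨g, rfl⟩
        · exact hx.1
        · exact hS.smul g c₀ h₀
      have hz' : z ∈ S := by
        rcases hz with hz | ⟨g, rfl⟩
        · exact hz.1
        · exact hS.smul g c₀ h₀
      have hy : y ∈ S := hS.conv h1 h2 hx' hz'
      rcases hx with hx | ⟨g, rfl⟩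
      · left
        refine ⟨hy, ?_⟩
        have := hs.le h1
        have := hx.2
        lia
      · rcases hs.lt _ _ h1 with h3 | h3
        · exact Or.inr ⟨g, h3⟩
        · left
          refine ⟨hy, ?_⟩
          change sz (g • c₀) < sz y at h3
          rwa [hs.inv] at h3
  cv₁ := hs.part₁ hS _
  cv₂ := hs.orb c₀
  dis := by
    rw [Set.disjoint_left]
    rintro x hx ⟨g, rfl⟩
    have h1 : sz c₀ < sz (g • c₀) := hx.2
    rw [hs.inv] at h1
    exact lt_irrefl _ h1
  up := by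
    rintro x hx y ⟨g, rfl⟩ h
    have h1 : sz x ≤ sz (g • c₀) := hs.le h
    rw [hs.inv] at h1
    have := hx.2
    lia

/-- The devissage of a convex set. -/
theorem Szd.part₃ {sz : C → ℕ} (hs : Szd Q sz) {S : Set C} (hS : Cv Q S) {c₀ : C} (h₀ : c₀ ∈ S) :
    Part Q ({c | c ∈ S ∧ sz c₀ < sz c} ∪ MulAction.orbit Γ c₀)
      {c | c ∈ S ∧ c ∉ MulAction.orbit Γ c₀ ∧ sz c ≤ sz c₀} where
  cv := by
    have h : ({c | c ∈ S ∧ sz c₀ < sz c} ∪ MulAction.orbit Γ c₀) ∪
      {c | c ∈ S ∧ c ∉ MulAction.orbit Γ c₀ ∧ sz c ≤ sz c₀} = S := by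
      ext c
      constructor
      · rintro ((h | ⟨g, rfl⟩) | h)
        · exact h.1
        · exact hS.smul g c₀ h₀
        · exact h.1
      · intro h
        by_cases h1 : sz c₀ < sz c
        · exact Or.inl (Or.inl ⟨h, h1⟩)
        · by_cases h2 : c ∈ MulAction.orbit Γ c₀
          · exact Or.inl (Or.inr h2)
          · exact Or.inr ⟨h, h2, not_lt.1 h1⟩
    rw [h]
    exact hS
  cv₁ := (hs.part₂ hS h₀).cv
  cv₂ := by
    refine ⟨?_, ?_⟩
    · rintro g x ⟨h1, h2, h3⟩
      refine ⟨hS.smul g x h1, fun h => h2 ((hs.orb c₀).inv h), ?_⟩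
      rwa [hs.inv]
    · rintro x y z h1 h2 ⟨hx, hx', hx''⟩ ⟨hz, hz', hz''⟩
      refine ⟨hS.conv h1 h2 hx hz, ?_, (hs.le h2).trans hz''⟩
      rintro ⟨g, rfl⟩
      rcases hs.lt _ _ h2 with h3 | h3
      · exact hz' ⟨g, h3⟩
      · change sz (g • c₀) < sz z at h3
        rw [hs.inv] at h3
        lia
  dis := by
    rw [Set.disjoint_left]
    rintro x (h1 | h1) ⟨h2, h3, h4⟩
    · have := h1.2
      lia
    · exact h3 h1
  up := by
    rintro x (h1 | ⟨g, rfl⟩) y ⟨h2, h3, h4⟩ h
    · have := hs.le h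
      have := h1.2
      lia
    · rcases hs.lt _ _ h with h5 | h5
      · exact h3 ⟨g, h5⟩
      · change sz (g • c₀) < sz y at h5
        rw [hs.inv] at h5
        lia

/-- The preimage of a partition. -/
theorem Part.pre (m : Loc.Mono P Q) {S₁ S₂ : Set C} (h : Part Q S₁ S₂) :
    Part P (m.φ ⁻¹' S₁) (m.φ ⁻¹' S₂) where
  cv := h.cv.pre m
  cv₁ := h.cv₁.pre m
  cv₂ := h.cv₂.pre m
  dis := h.dis.preimage m.φ
  up x hx y hy hxy := h.up _ hx _ hy (m.le hxy)

/-- Devissage: a property which is closed under extensions and true for the parts of `X` over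
the orbits is true for `X`. -/
theorem devissage (m : Loc.Mono P Q) {sz : C → ℕ} (hs : Szd Q sz) (E : KK k P → Prop)
    (hz : ∀ X, IsZero X → E X) (hi : ∀ X Y : KK k P, (X ≅ Y) → E X → E Y)
    (ht : ∀ (X Y Z : KK k P) (f : X ⟶ Y) (g : Y ⟶ Z) (δ : Z ⟶ X⟦(1 : ℤ)⟧),
      Triangle.mk f g δ ∈ distTriang (KK k P) → E X → E Z → E Y)
    (X : KK k P) (hX : Per X)
    (ho : ∀ c₀ : C, E ((hk (prt ((hs.orb c₀).pre m))).obj X)) : E X := by
  classical
  obtain ⟨D, hD, ⟨r⟩⟩ := hX
  obtain ⟨a, b, hab⟩ := hD.bdd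
  -- the values
  have hfin : {c : C | ∃ n i, m.φ ((D.X n).loc i) = c}.Finite := by
    have h1 : {c : C | ∃ n i, m.φ ((D.X n).loc i) = c} ⊆
        ⋃ n ∈ Set.Icc a b, Set.range fun i => m.φ ((D.X n).loc i) := by
      rintro c ⟨n, i, h⟩
      have hn : a ≤ n ∧ n ≤ b := by
        by_contra hc
        have : n < a ∨ b < n := by lia
        exact (hab n this).elim i
      exact Set.mem_biUnion (show n ∈ Set.Icc a b from hn) ⟨i, h⟩
    refine Set.Finite.subset ?_ h1
    refine Set.Finite.biUnion (Set.finite_Icc a b) fun n _ => ?_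
    have := hD.fin n
    exact Set.finite_range _
  have key : ∀ F : Finset C, ∀ (S : Set C) (hS : Cv Q S),
      (∀ n i, m.φ ((D.X n).loc i) ∈ S → m.φ ((D.X n).loc i) ∈ F) →
      E ((hk (prt (hS.pre m))).obj X) := by
    intro F
    induction F using Finset.induction_on with
    | empty =>
      intro S hS h
      exact hz _ (prt_zero _ r fun n i hi => absurd (h n i hi) (Finset.notMem_empty _))
    | insert c₀ F _ ih =>
      intro S hS h
      by_cases h₀ : c₀ ∈ S
      · have e : S = ({c | c ∈ S ∧ sz c₀ < sz c} ∪ MulAction.orbit Γ c₀) ∪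
            {c | c ∈ S ∧ c ∉ MulAction.orbit Γ c₀ ∧ sz c ≤ sz c₀} := by
          ext c
          constructor
          · intro h
            by_cases h1 : sz c₀ < sz c
            · exact Or.inl (Or.inl ⟨h, h1⟩)
            · by_cases h2 : c ∈ MulAction.orbit Γ c₀
              · exact Or.inl (Or.inr h2)
              · exact Or.inr ⟨h, h2, not_lt.1 h1⟩
          · rintro ((h | ⟨g, rfl⟩) | h)
            · exact h.1
            · exact hS.smul g c₀ h₀
            · exact h.1
        have hT₁ := (hs.part₂ hS h₀).pre m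
        have hT₂ := (hs.part₃ hS h₀).pre m
        obtain ⟨f, g, δ, hT⟩ := hT₁.tri X
        obtain ⟨f', g', δ', hT'⟩ := hT₂.tri X
        have h1 : E ((hk (prt (hs.part₁ hS (sz c₀) |>.pre m))).obj X) :=
          ih _ (hs.part₁ hS (sz c₀)) fun n i hi =>
            (Finset.mem_insert.1 (h n i hi.1)).resolve_left fun h2 => by
            have h3 := hi.2
            rw [h2] at h3
            exact lt_irrefl _ h3
        have h2 := ht _ _ _ f g δ hT h1 (ho c₀)
        have h3 : E ((hk (prt ((hs.part₃ hS h₀).cv₂.pre m))).obj X) :=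
          ih _ (hs.part₃ hS h₀).cv₂ fun n i hi =>
            (Finset.mem_insert.1 (h n i hi.1)).resolve_left fun h4 =>
              hi.2.1 (by rw [h4]; exact ⟨1, one_smul _ _⟩)
        have h4 := ht _ _ _ f' g' δ' hT' h2 h3
        have h5 : ∀ (S' : Set C) (hS' : Cv Q S'), S = S' →
            E ((hk (prt (hS'.pre m))).obj X) → E ((hk (prt (hS.pre m))).obj X) := by
          rintro S' hS' rfl h
          exact h
        exact h5 _ (hs.part₃ hS h₀).cv e h4
      · exact ih S hS fun n i hi => (Finset.mem_insert.1 (h n i hi)).resolve_left fun h2 =>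
          h₀ (h2 ▸ hi)
  have h1 := key hfin.toFinset Set.univ (Cv.univ Q) fun n i _ =>
    hfin.mem_toFinset.2 ⟨n, i, rfl⟩
  exact hi _ _ (hkPrtUniv X) h1

end

end Pool.Agent.NegK.NT.L92
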