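import Pool.Agent.Lib.MP_28303a_al.NT.NL.Defs
import Pool.Agent.Lib.MP_28303a_al.NT.NL.Dvc

/-! # DEV: devissage along the orbits -/

set_option autoImplicit false
set_option linter.unusedSectionVars false
set_option linter.unusedVariables false

namespace Pool.Agent.NegK.NT.NL

universe u

open CategoryTheory Limits Pretriangulated L92

section

variable {Γ : Type u} [Group Γ] {B : Type u} [MulAction Γ B] (F : Fam Γ B) (k : Type u) [Ring k]

theorem Fam.ext_iso {X Y : KK (LaurentPolynomial k) F.P} (e : X ≅ Y) (h : F.Ext k X) :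
    F.Ext k Y := by
  obtain ⟨Z, hZ, ⟨e'⟩⟩ := h
  exact ⟨Z, hZ, ⟨e' ≪≫ e⟩⟩

theorem Fam.ext_zero {X : KK (LaurentPolynomial k) F.P} (h : IsZero X) : F.Ext k X := by
  obtain ⟨Z, hZ⟩ := (inferInstance : HasZeroObject (KK (Polynomial k) F.P)).zero
  refine ⟨Z, ⟨per_zero hZ, fun j => (hk (Loc.push (F.fg j))).map_isZero hZ⟩, ⟨?_⟩⟩
  exact ((loc k F.P).map_isZero hZ).iso h

end

/-- The first coordinate. -/
def fstM {Γ C B : Type u} [Group Γ] [MulAction Γ C] [MulAction Γ B] (Q : Pre Γ C) (P : Pre Γ B) :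
    Loc.Mono (prP Q P) Q where
  φ x := x.1
  smul _ _ := rfl
  le h := h.1

/-- DEV. -/
theorem dev (hCnx : CnxStatement.{u}) (hIgr : IgrStatement.{u}) : DevStatement.{u} := by
  intro Γ C B _ _ _ Q F sz hinv hlt hst k _ hk' X hX
  have hs : Szd Q sz := ⟨hinv, fun c c' h => by
    by_cases hc : c = c'
    · exact Or.inl hc
    · exact Or.inr (hlt c c' h hc)⟩
  refine devissage (P := (Fam.pr Q F).P) (Q := Q) (fstM Q F.P) hs (fun Y => (Fam.pr Q F).Ext k Y)
    (fun Y hY => (Fam.pr Q F).ext_zero k hY) (fun Y Z e h => (Fam.pr Q F).ext_iso k e h)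
    (fun X' Y' Z' f g δ hT h1 h3 => hCnx Γ (C × B) (Fam.pr Q F) k _ hT h1 h3) X hX.per fun c => ?_
  refine hIgr Γ C B Q F sz hinv hlt c (hst c) k hk' _ ⟨per_prt _ hX.per, fun j => ?_⟩ ?_
  · refine IsZero.of_iso ?_ (hkPrtPush ((Fam.pr Q F).fg j)
      (S' := Prod.fst ⁻¹' MulAction.orbit Γ c) ((hs.orb c).pre (fstM Q F.P))
      ((hs.orb c).pre (fstM Q (F.Q j))) X)
    exact (hk (prt ((hs.orb c).pre (fstM Q (F.Q j))))).map_isZero (hX.ac j)
  · obtain ⟨D, hD, ⟨r⟩⟩ := hX.per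
    have hc : Cv (Fam.pr Q F).P (Prod.fst ⁻¹' MulAction.orbit Γ c) :=
      (hs.orb c).pre (fstM Q F.P)
    refine ⟨((prt (k := LaurentPolynomial k) hc).mapHomologicalComplex (ComplexShape.up ℤ)).obj D,
      finC_map (prt hc) (keepFin_prt hc) hD, fun n i => ?_, ⟨?_⟩⟩
    · obtain ⟨g, hg⟩ := i.2
      exact ⟨g, hg.symm⟩
    · exact (r.map (hk (prt hc))).trans (Retract.ofIso
        (((prt hc).mapHomotopyCategoryFactors (ComplexShape.up ℤ)).app D))

end Pool.Agent.NegK.NT.NL
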