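import Pool.Agent.Lib.MP_28303a_al.NT.NL.IrrT

/-! # Devissage for the labels of trees -/

set_option autoImplicit false
set_option linter.unusedSectionVars false
set_option linter.unusedVariables false

namespace Pool.Agent.NegK.NT.NL

universe u

open CategoryTheory Limits Opposite Pretriangulated
open Pool.Agent.NegK.TW Pool.Agent.NegK.TT Pool.Agent.NegK.NT.ER Pool.Agent.NegK.NT.ER61

section

variable {Γ : Type u} [Group Γ]

/-- The preorder of the labels of a tree. -/
def tlP (Z : TL Γ) : Pre Γ Z.B where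
  le x y := x ≤ y
  refl x := le_refl x
  trans h h' := le_trans h h'
  smul g x y h := Z.mono g x y h

/-- The labels for a subgroup. -/
theorem ex_sb (hEqv : EqvStatement.{u}) {m : ℕ} (L : Fin m → TL Γ) (H : Subgroup Γ)
    (h : Ex fun i => cm H.subtype (L i)) :
    ((fam (TL.sys L) Finset.univ Finset.univ).sb H).EXT := by
  refine hEqv H (∀ i, (L i).B) (∀ i, (L i).B)
    (fam (TL.sys fun i => cm H.subtype (L i)) Finset.univ Finset.univ)
    ((fam (TL.sys L) Finset.univ Finset.univ).sb H) ?_ ((ext_fam _ _ _).2 h)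
  exact
    { a := fun x => x
      b := fun x => x
      aP := fun x y g hxy => hxy
      bP := fun x y g hxy => hxy
      aQ := fun j => ⟨j, fun x y g hxy => hxy⟩
      bQ := fun j => ⟨j, fun x y g hxy => hxy⟩
      ab := fun x => ⟨fun i _ => le_refl _, fun i _ => le_refl _⟩
      ba := fun x => ⟨fun i _ => le_refl _, fun i _ => le_refl _⟩ }

end

/-- DEVT. -/
theorem devT (hEqv : EqvStatement.{u}) (hDev : DevStatement.{u}) : DevTStatement.{u} := by
  classical
  intro Γ _ m L Z h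
  have h1 : (Fam.pr (tlP Z) (fam (TL.sys L) Finset.univ Finset.univ)).EXT :=
    hDev Γ Z.B (∀ i, (L i).B) (tlP Z) (fam (TL.sys L) Finset.univ Finset.univ) Z.sz Z.sz_smul
      Z.sz_lt fun c => ex_sb hEqv L _ (h c)
  refine (ext_fam (sysC L Z) Finset.univ (Finset.univ.erase (0 : Fin (m + 1)))).1
    (hEqv Γ _ _ _ _ ?_ h1)
  refine
    { a := fun p => cb L Z p.1 p.2
      b := fun x => (cz L Z x, ct L Z x)
      aP := ?_
      bP := ?_
      aQ := ?_
      bQ := ?_
      ab := ?_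
      ba := ?_ }
  · intro x y g hxy
    exact (le_iff L Z _ _ _ g).2 ⟨fun _ => hxy.1, fun i _ => hxy.2 i (Finset.mem_univ i)⟩
  · intro x y g hxy
    have h2 := (le_iff L Z _ x y g).1 hxy
    exact ⟨h2.1 (Finset.mem_univ _), fun i _ => h2.2 i (Finset.mem_univ _)⟩
  · rintro ⟨j, hj⟩
    obtain ⟨j, rfl⟩ : ∃ j' : Fin m, j'.succ = j := Fin.exists_succ_eq.2 (Finset.mem_erase.1 hj).1
    refine ⟨⟨j, Finset.mem_univ _⟩, ?_⟩
    intro x y g hxy
    refine (le_iff L Z _ _ _ g).2 ⟨fun _ => hxy.1, fun i hi => ?_⟩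
    refine hxy.2 i (Finset.mem_erase.2 ⟨fun e => ?_, Finset.mem_univ _⟩)
    subst e
    exact (Finset.mem_erase.1 hi).1 rfl
  · rintro ⟨j, hj⟩
    refine ⟨⟨j.succ, Finset.mem_erase.2 ⟨Fin.succ_ne_zero j, Finset.mem_univ _⟩⟩, ?_⟩
    intro x y g hxy
    have h2 := (le_iff L Z _ x y g).1 hxy
    refine ⟨h2.1 (Finset.mem_erase.2 ⟨(Fin.succ_ne_zero j).symm, Finset.mem_univ _⟩),
      fun i hi => h2.2 i (Finset.mem_erase.2 ⟨fun e => ?_, Finset.mem_univ _⟩)⟩
    exact (Finset.mem_erase.1 hi).1 (Fin.succ_injective _ e)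
  · intro x
    have h2 : cb L Z (cz L Z x) (ct L Z x) = x := cb_cz_ct L Z x
    show ((sysC L Z).P Finset.univ).le (cb L Z (cz L Z x) (ct L Z x)) x ∧
      ((sysC L Z).P Finset.univ).le x (cb L Z (cz L Z x) (ct L Z x))
    rw [h2]
    exact ⟨((sysC L Z).P Finset.univ).refl x, ((sysC L Z).P Finset.univ).refl x⟩
  · intro x
    exact ⟨(prP (tlP Z) (fam (TL.sys L) Finset.univ Finset.univ).P).refl x,
      (prP (tlP Z) (fam (TL.sys L) Finset.univ Finset.univ).P).refl x⟩

end Pool.Agent.NegK.NT.NL
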