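import Pool.Agent.Lib.MP_28303a_al.NT.NL.Ax

/-! # Row EG over `Ax`: good homomorphisms and families of marked trees -/

set_option autoImplicit false
set_option linter.unusedSectionVars false
set_option linter.unusedVariables false

namespace Pool.Agent.NegK.NT.NL

universe u

open Pool.Agent.NegK.TW Pool.Agent.NegK.TT Pool.Agent.NegK.NT.ER Pool.Agent.NegK.NT.ER61

/-- The restriction of a homomorphism to the stabilizers. -/
def stabHx {Γ P : Type u} [Group Γ] [Group P] (f : Γ →* P) {X : Type u} (a : MulAction P X)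
    (x : X) : (letI := MulAction.compHom X f; MulAction.stabilizer Γ x) →*
      MulAction.stabilizer P x :=
  letI := MulAction.compHom X f
  (f.comp (MulAction.stabilizer Γ x).subtype).codRestrict _ fun g => g.2

theorem Ax.D_stab {C N : GCls.{u}} {D : HCls.{u}} (h : Ax C D N) {Γ P : Type u} [Group Γ]
    [Group P] {f : Γ →* P} (hf : D Γ P f) {X : Type u} (a : MulAction P X) (x : X) :
    D _ _ (stabHx f a x) :=
  letI := MulAction.compHom X f
  h.sub _ _ _ _ f (stabHx f a x) (MulAction.stabilizer Γ x).subtype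
    (MulAction.stabilizer P x).subtype (Subgroup.subtype_injective _)
    (Subgroup.subtype_injective _) (fun g => rfl) hf

/-- EGB. -/
theorem egbx (hRef : RefStatement.{u}) : EgbxStatement.{u} := by
  intro C D N h P _ m M hM Γ _ f hf
  refine hRef Γ m (cms f M) fun U hU => ?_
  have h1 : C (MulAction.stabilizer P (α := ∀ i, (M i).L.B) U) := hM U hU
  exact h.rc _ _ (stabHx f (inferInstance : MulAction P (∀ i, (M i).L.B)) U)
    (h.D_stab hf _ _) h1

/-- EGS. -/
theorem egsx (hStep : StepStatement.{u}) : EgsxStatement.{u} := by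
  intro C D N h P _ m M Z h0 h1 Γ _ f hf
  refine hStep Γ m (fun i => (cms f M i).L) (Z.cm f).L ?_ fun c => ?_
  · have h2 := h0 Γ f hf
    have h3 : (fun i => (cms f (Fin.cons (α := fun _ => MTL P) Z M) i).L) =
        Fin.cons (α := fun _ => TL Γ) (Z.cm f).L (fun i => (cms f M i).L) := by
      funext i
      refine Fin.cases rfl (fun i => rfl) i
    rw [h3] at h2
    exact h2
  · exact h1 c _ (stabHx f Z.L.act c) (h.D_stab hf _ _)

/-- EGF. -/
theorem egfx (hLoc : LocTStatement.{u}) : EgfxStatement.{u} := by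
  intro C D N h P _ m M h1 Γ _ f hf
  refine hLoc Γ m (fun i => (cms f M i).L) fun S hS => ?_
  have h3 : Group.FG S := (Group.fg_iff_subgroup_fg S).2 hS
  have h4 : Group.FG (S.map f) := Group.fg_of_surjective (f.subgroupMap_surjective S)
  have h2 : (S.map f).FG := (Group.fg_iff_subgroup_fg _).1 h4
  exact h1 (S.map f) h2 S (f.subgroupMap S)
    (h.sub _ _ _ _ f (f.subgroupMap S) S.subtype (S.map f).subtype
      (Subgroup.subtype_injective _) (Subgroup.subtype_injective _) (fun g => rfl) hf)

/-- EGK. -/
theorem egkx : EgkxStatement.{u} := by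
  intro C D N h P Q _ _ f m M hM hf Γ _ g hg
  exact hM Γ (f.comp g) (h.comp Γ Q P g f hg hf)

end Pool.Agent.NegK.NT.NL
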