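import Pool.Agent.Lib.MP_28303a_al.NT.NL.Defs
import Pool.Agent.Lib.MP_28303a_al.NT.ER98.Zs
import Pool.Agent.Lib.MP_28303a_al.NT.ER47.Ys

/-! # Rows EXZ and VNZ: the functors `Zf` and `Yf` are exact; vanishing -/

set_option autoImplicit false
set_option linter.unusedSectionVars false

namespace Pool.Agent.NegK.NT.NL

universe u

open CategoryTheory Limits Opposite
open Pool.Agent.NegK.TW Pool.Agent.NegK.NT.ER Pool.Agent.NegK.NT.ER61

namespace Exz60

/-- Short exactness, on values. -/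
theorem val_of_se {k : Type u} [Ring k] {C : Type u} [Category.{u} C]
    (S : ShortComplex (Cᵒᵖ ⥤ ModuleCat.{u} k)) (hS : S.ShortExact) (U : Cᵒᵖ) :
    Function.Injective (S.f.app U).hom ∧
      (∀ x, (S.g.app U).hom x = 0 → ∃ y, (S.f.app U).hom y = x) ∧
      Function.Surjective (S.g.app U).hom := by
  have i1 := hS.mono_f
  have i3 := hS.epi_g
  have h2 := hS.map_of_exact ((evaluation Cᵒᵖ (ModuleCat.{u} k)).obj U)
  exact ⟨(ModuleCat.mono_iff_injective (S.f.app U)).1 inferInstance,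
    fun x hx => (ShortComplex.moduleCat_exact_iff _).1 h2.exact x hx,
    (ModuleCat.epi_iff_surjective (S.g.app U)).1 inferInstance⟩

/-- The restriction is exact. -/
theorem pb_se {k : Type u} [Ring k] {Γ : Type u} [Group Γ] {B C : Type u} [MulAction Γ B]
    [MulAction Γ C] {Q : Pre Γ C} {P : Pre Γ B} (m : Loc.Mono Q P) (S : ShortComplex (Fn k P))
    (hS : S.ShortExact) :
    ∃ w, (ShortComplex.mk ((pb k m).map S.f) ((pb k m).map S.g) w).ShortExact := by
  refine ⟨?_, Zs98.se_of_val _ ?_ ?_ ?_⟩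
  · rw [← Functor.map_comp, S.zero]
    refine NatTrans.ext (funext fun U => ModuleCat.hom_ext (LinearMap.ext fun x => ?_))
    rfl
  · intro U
    exact (val_of_se S hS (op ((bxF m).obj U.unop))).1
  · intro U
    exact (val_of_se S hS (op ((bxF m).obj U.unop))).2.1
  · intro U
    exact (val_of_se S hS (op ((bxF m).obj U.unop))).2.2

end Exz60

open Exz60

/-- **Row EXZ.** -/
theorem exz : ExzStatement.{u} := by
  intro Γ _ T D _ _ K k _ j
  constructor
  · intro S hS
    obtain ⟨w, hw⟩ := pb_se (inc (T.P Finset.univ) (nv (K j))) S hS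
    obtain ⟨w', hw'⟩ := (zs k Γ T.Box (T.P Finset.univ) (nv (K j)) (up_nv (K j))).2 _ hw
    exact ⟨w', hw'⟩
  · intro S hS
    let := flAct (K j)
    obtain ⟨w, hw⟩ := pb_se (flr (K j)) S hS
    obtain ⟨w', hw'⟩ := (ER47.ys k Γ T.Box (Fl D j) (T.P Finset.univ) (flP (K j)) (flq (K j))).1 _ hw
    exact ⟨w', hw'⟩

end Pool.Agent.NegK.NT.NL
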