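import Pool.Agent.Lib.MP_28303a_al.NT.NL.Ax

/-! # Row GENT: generation by the stabilizers of the labels of one tree -/

set_option autoImplicit false
set_option linter.unusedSectionVars false
set_option linter.unusedVariables false

namespace Pool.Agent.NegK.NT.NL

universe u

open CategoryTheory Limits
open Pool.Agent.NegK.TW Pool.Agent.NegK.TT Pool.Agent.NegK.NT.ER Pool.Agent.NegK.NT.ER61

/-- GENT. If everything extends for one tree then `K₀` is generated by the stabilizers. -/
def GentStatement : Prop :=
  ∀ (Γ : Type u) [Group Γ] (L : TL Γ), Ex (fun _ : Fin 1 => L) →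
    ∀ (k : Type u) [Ring k], RegularRing k →
      ⨆ x : L.B, img k (MulAction.stabilizer Γ x) = ⊤

theorem gent : GentStatement.{u} := by
  intro Γ _ L h k _ hk
  let T : Sys Γ := TL.sys fun _ : Fin 1 => L
  have hB : ∀ J : Finset (Fin T.m), (0 : Fin 1) ∈ J → T.EXT Finset.univ J := by
    intro J hJ
    have h1 : J = Finset.univ := by
      refine Finset.eq_univ_of_forall fun i => ?_
      have h2 : i = (0 : Fin 1) := Subsingleton.elim (α := Fin 1) _ _
      rw [h2]
      exact hJ
    rw [h1]
    exact h
  exact ER68.kg Γ T (0 : Fin 1) ⟨L.sz, L.sz_smul, L.sz_lt⟩ k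
    (ER53.ind Γ T (0 : Fin 1) (stepB T) hB k hk)

end Pool.Agent.NegK.NT.NL
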