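import Pool.Agent.Lib.MP_28303a_al.NT.NL.Lay

/-! # Row IGR: the objects whose locations are over one orbit of `C` -/

set_option autoImplicit false
set_option linter.unusedSectionVars false
set_option linter.unusedVariables false

namespace Pool.Agent.NegK.NT.NL53

universe u v w

open CategoryTheory Limits
open Pool.Agent.NegK.NT.NL

/-! ### Induction -/

section

variable {k : Type u} [Ring k] {Γ C B : Type u} [Group Γ] [MulAction Γ C] [MulAction Γ B]
  {Q : Pre Γ C} {P : Pre Γ B} (c : C)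

variable (Q P) in
/-- The induction from the stabilizer. -/
def im : IM (MulAction.stabilizer Γ c).subtype (sbP P (MulAction.stabilizer Γ c)) (prP Q P) where
  φ b := (c, b)
  le x y h hxy := ⟨by
    have h1 : h.1 • c = c := h.2
    show Q.le c (h.1 • c)
    rw [h1]
    exact Q.refl c, hxy⟩

/-- The comparison. -/
noncomputable def phi (A : Loc k (prP Q P)) : ((im Q P c).ob k (lob c A)) ⟶ A :=
  Loc.ofB (A := (im Q P c).ob k (lob c A)) (A' := A) (fun i => si c _ (Finsupp.single i 1)) (by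
    intro i j g h
    exact supp1 c (𝟙 A) i j g h)

theorem lin_phi (A : Loc k (prP Q P)) (x : (lob c A).F) :
    Loc.lin (phi c A) (fm k (MulAction.stabilizer Γ c).subtype (lob c A).ι x) = si c _ x := by
  induction x using Finsupp.induction_linear with
  | zero => rw [map_zero, map_zero, map_zero]
  | add x y hx hy => rw [map_add, map_add, hx, hy, map_add]
  | single i b =>
    have h1 : (Finsupp.single i b : (lob c A).F) =
        b • Finsupp.single i (1 : MonoidAlgebra k (MulAction.stabilizer Γ c)) := by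
      rw [Finsupp.smul_single, smul_eq_mul, mul_one]
    have h2 : fm k (MulAction.stabilizer Γ c).subtype (lob c A).ι (Finsupp.single i 1) =
        Finsupp.single i 1 := by
      rw [fm_single, map_one]
    rw [h1, fm_smul, map_smul, si_smul, h2]
    exact congrArg _ (Loc.lin_ofB (A := (im Q P c).ob k (lob c A)) (A' := A) _ _ i)

theorem lin_phi1 (A : Loc k (prP Q P)) (i : (lob c A).ι) :
    Loc.lin (phi c A) (Finsupp.single i 1) = si c _ (Finsupp.single i 1) :=
  Loc.lin_ofB (A := (im Q P c).ob k (lob c A)) (A' := A) _ _ i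

variable {sz : C → ℕ} (h1 : ∀ (g : Γ) (c : C), sz (g • c) = sz c)
  (h2 : ∀ c c', Q.le c c' → c ≠ c' → sz c < sz c')

/-- All locations are over the orbit. -/
def Ov (A : Loc k (prP Q P)) : Prop := ∀ i, ∃ g : Γ, (A.loc i).1 = g • c

include h1 h2 in
theorem si_ro {A : Loc k (prP Q P)} (hA : Ov c A) (v : A.F)
    (hv : ∀ j g, (v j).coeff g ≠ 0 → Q.le c (g • (A.loc j).1)) :
    si c _ (ro c (fun i => (A.loc i).1) v) = v := by
  refine eq_on ((si c _).comp (ro c (fun i => (A.loc i).1))) (AddMonoidHom.id _) v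
    fun j g r hg => ?_
  refine si_ro_pos c (fun i => (A.loc i).1) ?_ r
  by_contra hc
  have h3 := h2 _ _ (hv j g hg) (Ne.symm hc)
  obtain ⟨g', hg'⟩ := hA j
  rw [hg', h1, h1] at h3
  exact lt_irrefl _ h3

include h1 h2 in
/-- The comparison is natural. -/
theorem phi_nat {A A' : Loc k (prP Q P)} (hA' : Ov c A') (f : A ⟶ A') :
    ((im Q P c).F k).map ((lay c h2).map f) ≫ phi c A' = phi c A ≫ f := by
  refine Loc.ext_basis (A := (im Q P c).ob k (lob c A)) (A' := A') fun i => ?_
  have e1 : (Finsupp.single i 1 : ((im Q P c).ob k (lob c A)).F) =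
      fm k (MulAction.stabilizer Γ c).subtype (lob c A).ι (Finsupp.single i 1) := by
    rw [fm_single, map_one]
  change Loc.lin (phi c A') (Loc.lin ((im Q P c).hm k (lmp c f)) (Finsupp.single i 1)) =
    Loc.lin f (Loc.lin (phi c A) (Finsupp.single i 1))
  rw [e1, IM.hm_fm, lin_phi, lin_phi, lin_lmp]
  exact si_ro c h1 h2 hA' _ fun j g h => (supp1 c f i j g h).1

/-- The inverse of the comparison. -/
noncomputable def psi {A : Loc k (prP Q P)} (hA : Ov c A) : A ⟶ ((im Q P c).ob k (lob c A)) :=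
  Loc.ofB (A := A) (A' := (im Q P c).ob k (lob c A)) (fun j => Finsupp.single ⟨j, hA j⟩
    (MonoidAlgebra.single (ga c (fun i => (A.loc i).1) ⟨j, hA j⟩) 1)) (by
    classical
    intro j i g h
    rw [Finsupp.single_apply] at h
    split_ifs at h with h3
    · subst h3
      rw [MonoidAlgebra.coeff_single, Finsupp.single_apply] at h
      split_ifs at h with h4
      · subst h4
        have h5 : ga c (fun i => (A.loc i).1) ⟨j, hA j⟩ • ((im Q P c).ob k (lob c A)).loc ⟨j, hA j⟩ =
            A.loc j := by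
          refine Prod.ext (ga_spec c (fun i => (A.loc i).1) ⟨j, hA j⟩).symm ?_
          exact smul_inv_smul _ _
        rw [h5]
        exact (prP Q P).refl _
      · exact absurd rfl h
    · exact absurd rfl h)

theorem lin_psi {A : Loc k (prP Q P)} (hA : Ov c A) (j : A.ι) :
    Loc.lin (psi c hA) (Finsupp.single j 1) = Finsupp.single (⟨j, hA j⟩ : (lob c A).ι)
      (MonoidAlgebra.single (ga c (fun i => (A.loc i).1) ⟨j, hA j⟩) 1) :=
  Loc.lin_ofB (A := A) (A' := (im Q P c).ob k (lob c A)) _ _ j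

/-- The comparison is an isomorphism for objects over the orbit. -/
noncomputable def phiIso {A : Loc k (prP Q P)} (hA : Ov c A) :
    ((im Q P c).ob k (lob c A)) ≅ A where
  hom := phi c A
  inv := psi c hA
  hom_inv_id := by
    refine Loc.ext_basis (A := (im Q P c).ob k (lob c A)) (A' := (im Q P c).ob k (lob c A))
      fun i => ?_
    rw [Loc.lin_comp, LinearMap.comp_apply, lin_phi1, si_one, map_smul, lin_psi, Loc.lin_id,
      LinearMap.id_apply, Finsupp.smul_single, smul_eq_mul, MonoidAlgebra.single_mul_single,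
      inv_mul_cancel, mul_one]
    rfl
  inv_hom_id := by
    refine Loc.ext_basis (A := A) (A' := A) fun j => ?_
    have h3 : (Finsupp.single (⟨j, hA j⟩ : (lob c A).ι)
        (MonoidAlgebra.single (ga c (fun i => (A.loc i).1) ⟨j, hA j⟩) (1 : k))) =
        (MonoidAlgebra.single (ga c (fun i => (A.loc i).1) ⟨j, hA j⟩) (1 : k)) •
          Finsupp.single (⟨j, hA j⟩ : (lob c A).ι) (1 : MonoidAlgebra k Γ) := by
      rw [Finsupp.smul_single, smul_eq_mul, mul_one]
    rw [Loc.lin_comp, LinearMap.comp_apply, lin_psi, h3, map_smul]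
    refine (congrArg _ (lin_phi1 c A ⟨j, hA j⟩)).trans ?_
    rw [si_one, smul_smul, MonoidAlgebra.single_mul_single, mul_inv_cancel, mul_one, Loc.lin_id,
      LinearMap.id_apply, ← MonoidAlgebra.one_def, one_smul]

end

/-! ### Retracts -/

theorem ret_iso {𝒞 : Type w} [Category.{v} 𝒞] (G : 𝒞 ⥤ 𝒞) {X E : 𝒞} (r : Retract X E)
    (Φ : G.obj E ≅ E) (h : G.map (r.r ≫ r.i) ≫ Φ.hom = Φ.hom ≫ (r.r ≫ r.i)) :
    Nonempty (G.obj X ≅ X) := by
  have h' : (r.r ≫ r.i) ≫ Φ.inv = Φ.inv ≫ G.map (r.r ≫ r.i) := by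
    rw [Iso.comp_inv_eq, Category.assoc, h, Iso.inv_hom_id_assoc]
  refine ⟨⟨G.map r.i ≫ Φ.hom ≫ r.r, r.i ≫ Φ.inv ≫ G.map r.r, ?_, ?_⟩⟩
  · have e1 : (G.map r.i ≫ Φ.hom ≫ r.r) ≫ r.i ≫ Φ.inv ≫ G.map r.r =
        G.map r.i ≫ (Φ.hom ≫ ((r.r ≫ r.i) ≫ Φ.inv)) ≫ G.map r.r := by
      simp only [Category.assoc]
    rw [e1, h', Iso.hom_inv_id_assoc, ← G.map_comp, ← G.map_comp]
    have e2 : r.i ≫ (r.r ≫ r.i) ≫ r.r = 𝟙 X := by
      rw [Category.assoc, r.retract_assoc, r.retract]
    rw [e2, G.map_id]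
  · have e1 : (r.i ≫ Φ.inv ≫ G.map r.r) ≫ G.map r.i ≫ Φ.hom ≫ r.r =
        r.i ≫ (Φ.inv ≫ (G.map (r.r ≫ r.i) ≫ Φ.hom)) ≫ r.r := by
      rw [G.map_comp]
      simp only [Category.assoc]
    rw [e1, h, Iso.inv_hom_id_assoc, Category.assoc, r.retract_assoc, r.retract]

/-! ### Functors between categories of located modules -/

section

variable {k k' : Type u} [Ring k] [Ring k'] {G G' : Type u} [Group G] [Group G'] {B B' : Type u}
  [MulAction G B] [MulAction G' B'] {P : Pre G B} {P' : Pre G' B'}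

/-- Perfect objects are mapped to perfect objects. -/
theorem per_map (F : Loc k P ⥤ Loc k' P') [F.Additive]
    (hf : ∀ A : Loc k P, Finite A.ι → Finite (F.obj A).ι)
    (he : ∀ A : Loc k P, IsEmpty A.ι → IsEmpty (F.obj A).ι) {X : KK k P} (h : Per X) :
    Per ((F.mapHomotopyCategory (ComplexShape.up ℤ)).obj X) := by
  obtain ⟨E, hE, ⟨r⟩⟩ := h
  obtain ⟨a, b, hab⟩ := hE.bdd
  exact ⟨(F.mapHomologicalComplex (ComplexShape.up ℤ)).obj E,
    ⟨fun n => hf _ (hE.fin n), a, b, fun n hn => he _ (hab n hn)⟩,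
    ⟨r.map (F.mapHomotopyCategory (ComplexShape.up ℤ))⟩⟩

end

section

variable {k : Type u} [Ring k] {Γ C B : Type u} [Group Γ] [MulAction Γ C] [MulAction Γ B]
  {Q : Pre Γ C} {P : Pre Γ B} (c : C) {sz : C → ℕ} (h1 : ∀ (g : Γ) (c : C), sz (g • c) = sz c)
  (h2 : ∀ c c', Q.le c c' → c ≠ c' → sz c < sz c')

/-- The layer functor on the homotopy categories. -/
noncomputable abbrev LK (k : Type u) [Ring k] (P : Pre Γ B) :
    KK k (prP Q P) ⥤ KK k (sbP P (MulAction.stabilizer Γ c)) :=
  letI := lay_add (k := k) (P := P) c h2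
  (lay (k := k) (P := P) c h2).mapHomotopyCategory (ComplexShape.up ℤ)

/-- The induction on the homotopy categories. -/
noncomputable abbrev IK (Q : Pre Γ C) (c : C) (k : Type u) [Ring k] (P : Pre Γ B) :
    KK k (sbP P (MulAction.stabilizer Γ c)) ⥤ KK k (prP Q P) :=
  ((im Q P c).F k).mapHomotopyCategory (ComplexShape.up ℤ)

include h1 in
/-- Retracts of complexes over the orbit are induced. -/
theorem ind_lay (X : KK k (prP Q P)) (E : CochainComplex (Loc k (prP Q P)) ℤ)
    (hE : ∀ n, Ov c (E.X n)) (r : Retract X (qo E)) :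
    Nonempty ((IK Q c k P).obj ((LK c h2 k P).obj X) ≅ X) := by
  have := lay_add (k := k) (P := P) c h2
  let e : ((((im Q P c).F k).mapHomologicalComplex (ComplexShape.up ℤ)).obj
      (((lay (k := k) (P := P) c h2).mapHomologicalComplex (ComplexShape.up ℤ)).obj E)) ≅ E :=
    HomologicalComplex.Hom.isoOfComponents (fun n => phiIso c (hE n))
      (fun i j _ => (phi_nat c h1 h2 (hE j) (E.d i j)).symm)
  let Φ : (LK c h2 k P ⋙ IK Q c k P).obj (qo E) ≅ qo E :=
    (HomotopyCategory.quotient (Loc k (prP Q P)) (ComplexShape.up ℤ)).mapIso e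
  refine ret_iso (LK c h2 k P ⋙ IK Q c k P) r Φ ?_
  obtain ⟨f, hf⟩ := (HomotopyCategory.quotient (Loc k (prP Q P))
    (ComplexShape.up ℤ)).map_surjective (r.r ≫ r.i)
  rw [← hf]
  change (HomotopyCategory.quotient (Loc k (prP Q P)) (ComplexShape.up ℤ)).map
    ((((im Q P c).F k).mapHomologicalComplex (ComplexShape.up ℤ)).map
      (((lay (k := k) (P := P) c h2).mapHomologicalComplex (ComplexShape.up ℤ)).map f)) ≫
    (HomotopyCategory.quotient (Loc k (prP Q P)) (ComplexShape.up ℤ)).map e.hom =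
    (HomotopyCategory.quotient (Loc k (prP Q P)) (ComplexShape.up ℤ)).map e.hom ≫
    (HomotopyCategory.quotient (Loc k (prP Q P)) (ComplexShape.up ℤ)).map f
  rw [← Functor.map_comp, ← Functor.map_comp]
  congr 1
  exact HomologicalComplex.hom_ext _ _ fun n => phi_nat c h1 h2 (hE n) (f.f n)

theorem per_IK {X : KK k (sbP P (MulAction.stabilizer Γ c))} (h : Per X) :
    Per ((IK Q c k P).obj X) :=
  per_map _ (fun _ h => h) (fun _ h => h) h

theorem per_LK {X : KK k (prP Q P)} (h : Per X) : Per ((LK c h2 k P).obj X) := by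
  have := lay_add (k := k) (P := P) c h2
  exact per_map (lay (k := k) (P := P) c h2) (fun A hA => Subtype.finite)
    (fun A hA => ⟨fun i => hA.false (Subtype.val i)⟩) h

/-- Induction and the change of the ring: elements. -/
theorem mf_fm {k' : Type u} [Ring k'] (φ : k →+* k') {H : Type u} [Group H] (f : H →* Γ)
    (ι : Type u) (x : ι →₀ MonoidAlgebra k H) :
    Loc.mf φ ι (fm k f ι x) = fm k' f ι (Loc.mf φ ι x) := by
  induction x using Finsupp.induction_linear with
  | zero => simp only [map_zero]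
  | add x y hx hy => rw [map_add, map_add, map_add, map_add, hx, hy]
  | single i b =>
    rw [fm_single, Loc.mf_single, Loc.mf_single, fm_single]
    congr 1
    induction b using MonoidAlgebra.induction_linear with
    | zero => simp only [map_zero]
    | add x y hx hy => rw [map_add, map_add, map_add, map_add, hx, hy]
    | single g r =>
      rw [mdr_single, MonoidAlgebra.mapRingHom_single, MonoidAlgebra.mapRingHom_single, mdr_single]

/-- Induction and the change of the ring. -/
noncomputable def imBc {k' : Type u} [Ring k'] (φ : k →+* k') :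
    (im Q P c).F k ⋙ Loc.bc φ ≅ Loc.bc φ ⋙ (im Q P c).F k' :=
  NatIso.ofComponents (fun A => Iso.refl _) (by
    intro A A' f
    refine (Category.comp_id _).trans (Eq.trans ?_ (Category.id_comp _).symm)
    refine Loc.ext_basis (A := (im Q P c).ob k' (Loc.bo A)) (A' := (im Q P c).ob k' (Loc.bo A'))
      fun i => ?_
    have e1 : Loc.lin (Loc.bm φ ((im Q P c).hm k f)) (Finsupp.single i 1) =
        Loc.mf φ A'.ι (Loc.lin ((im Q P c).hm k f) (Finsupp.single i 1)) :=
      Loc.lin_ofB (A := (im Q P c).ob k' (Loc.bo A)) (A' := (im Q P c).ob k' (Loc.bo A')) _ _ i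
    have e2 : Loc.lin ((im Q P c).hm k' (Loc.bm φ f)) (Finsupp.single i 1) =
        fm k' _ A'.ι (Loc.lin (Loc.bm φ f) (Finsupp.single i 1)) :=
      Loc.lin_ofB (A := (im Q P c).ob k' (Loc.bo A)) (A' := (im Q P c).ob k' (Loc.bo A')) _ _ i
    have e3 : Loc.lin ((im Q P c).hm k f) (Finsupp.single i 1) =
        fm k _ A'.ι (Loc.lin f (Finsupp.single i 1)) :=
      Loc.lin_ofB (A := (im Q P c).ob k A) (A' := (im Q P c).ob k A') _ _ i
    have e4 : Loc.lin (Loc.bm φ f) (Finsupp.single i 1) =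
        Loc.mf φ A'.ι (Loc.lin f (Finsupp.single i 1)) :=
      Loc.lin_ofB (A := (Loc.bo A : Loc k' _)) (A' := Loc.bo A') _ _ i
    refine e1.trans (Eq.trans ?_ e2.symm)
    rw [e3, e4, mf_fm])

end

/-! ### Squares -/

/-- Squares of functors on the homotopy categories. -/
noncomputable def sq {V₁ V₂ V₃ V₄ : Type*} [Category V₁] [Category V₂] [Category V₃]
    [Category V₄] [Preadditive V₁] [Preadditive V₂] [Preadditive V₃] [Preadditive V₄]
    (F : V₁ ⥤ V₂) (G : V₂ ⥤ V₃) (F' : V₁ ⥤ V₄) (G' : V₄ ⥤ V₃) [F.Additive] [G.Additive]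
    [F'.Additive] [G'.Additive] (e : F ⋙ G ≅ F' ⋙ G') :
    F.mapHomotopyCategory (ComplexShape.up ℤ) ⋙ G.mapHomotopyCategory (ComplexShape.up ℤ) ≅
      F'.mapHomotopyCategory (ComplexShape.up ℤ) ⋙ G'.mapHomotopyCategory (ComplexShape.up ℤ) :=
  Functor.mapHomotopyCategoryCompIso (H := F' ⋙ G') e _ ≪≫
    (Functor.mapHomotopyCategoryCompIso (H := F' ⋙ G') (Iso.refl (F' ⋙ G')) _).symm

section

variable {k : Type u} [Ring k] {Γ C B : Type u} [Group Γ] [MulAction Γ C] [MulAction Γ B]
  {Q : Pre Γ C} {P P' : Pre Γ B} (hP : ∀ {x y : B}, P.le x y → P'.le x y) (c : C) {sz : C → ℕ}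
  (h2 : ∀ c c', Q.le c c' → c ≠ c' → sz c < sz c')

/-- From a preorder to a coarser one, for a subgroup. -/
def ms (P P' : Pre Γ B) (hP : ∀ {x y : B}, P.le x y → P'.le x y) (H : Subgroup Γ) :
    Loc.Mono (sbP P H) (sbP P' H) where
  φ x := x
  smul _ _ := rfl
  le h := hP h

/-- From a preorder to a coarser one, for the product. -/
def mp (Q : Pre Γ C) (P P' : Pre Γ B) (hP : ∀ {x y : B}, P.le x y → P'.le x y) :
    Loc.Mono (prP Q P) (prP Q P') where
  φ x := x
  smul _ _ := rfl
  le h := ⟨h.1, hP h.2⟩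

/-- The layer functor and the coarser preorders. -/
noncomputable def layPush (k : Type u) [Ring k] :
    lay (k := k) (P := P) c h2 ⋙ Loc.push (ms P P' hP (MulAction.stabilizer Γ c)) ≅
      Loc.push (mp Q P P' hP) ⋙ lay (k := k) (P := P') c h2 :=
  NatIso.ofComponents (fun A => Iso.refl _) (by
    intro A A' f
    refine (Category.comp_id _).trans (Eq.trans ?_ (Category.id_comp _).symm)
    rfl)

/-- The induction and the coarser preorders. -/
noncomputable def imPush (Q : Pre Γ C) (k : Type u) [Ring k] :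
    Loc.push (ms P P' hP (MulAction.stabilizer Γ c)) ⋙ (im Q P' c).F k ≅
      (im Q P c).F k ⋙ Loc.push (mp Q P P' hP) :=
  NatIso.ofComponents (fun A => Iso.refl _) (by
    intro A A' f
    refine (Category.comp_id _).trans (Eq.trans ?_ (Category.id_comp _).symm)
    rfl)

/-- The layers of acyclic objects are acyclic. -/
theorem ac_LK (k : Type u) [Ring k] (X : KK k (prP Q P))
    (h : IsZero ((hk (Loc.push (mp Q P P' hP))).obj X)) :
    IsZero ((hk (Loc.push (ms P P' hP (MulAction.stabilizer Γ c)))).obj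
      ((LK c h2 k P).obj X)) := by
  have a1 := lay_add (k := k) (P := P) c h2
  have a2 := lay_add (k := k) (P := P') c h2
  refine IsZero.of_iso ?_ ((sq _ _ _ _ (layPush hP c h2 k)).app X)
  exact Functor.map_isZero ((lay (k := k) (P := P') c h2).mapHomotopyCategory
    (ComplexShape.up ℤ)) h

/-- Induced objects are acyclic. -/
theorem ac_IK (Q : Pre Γ C) (k : Type u) [Ring k] (X : KK k (sbP P (MulAction.stabilizer Γ c)))
    (h : IsZero ((hk (Loc.push (ms P P' hP (MulAction.stabilizer Γ c)))).obj X)) :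
    IsZero ((hk (Loc.push (mp Q P P' hP))).obj ((IK Q c k P).obj X)) := by
  refine IsZero.of_iso ?_ ((sq _ _ _ _ (imPush hP c Q k)).app X).symm
  exact Functor.map_isZero (((im Q P' c).F k).mapHomotopyCategory (ComplexShape.up ℤ)) h

end

/-- Row IGR. -/
theorem igr : IgrStatement.{u} := by
  intro Γ C B _ _ _ Q F sz h1 h2 c hE k _ hk X hX hX0
  obtain ⟨E, hE1, hE2, ⟨r⟩⟩ := hX0
  obtain ⟨i0⟩ := ind_lay c h1 h2 X E hE2 r
  obtain ⟨Y', hY', ⟨e⟩⟩ := hE k hk ((LK c h2 (LaurentPolynomial k) F.P).obj X)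
    ⟨per_LK c h2 hX.per, fun j =>
      ac_LK (P := F.P) (P' := F.Q j) (F.le j) c h2 (LaurentPolynomial k) X (hX.ac j)⟩
  refine ⟨(IK Q c (Polynomial k) F.P).obj Y', ⟨per_IK c hY'.per, fun j =>
    ac_IK (P := F.P) (P' := F.Q j) (F.le j) c Q (Polynomial k) Y' (hY'.ac j)⟩, ⟨?_⟩⟩
  exact (sq _ _ _ _ (imBc (P := F.P) (Q := Q) c (Polynomial.toLaurent (R := k)))).app Y' ≪≫
    (IK Q c (LaurentPolynomial k) F.P).mapIso e ≪≫ i0

end Pool.Agent.NegK.NT.NL53
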