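import Pool.Agent.Lib.MP_28303a_al.NT.NL.Defs

/-! # The family of a system with one more direction -/

set_option autoImplicit false
set_option linter.unusedSectionVars false
set_option linter.unusedVariables false

namespace Pool.Agent.NegK.NT.NL

universe u

open CategoryTheory Limits Opposite Pretriangulated
open Pool.Agent.NegK.TW Pool.Agent.NegK.TT Pool.Agent.NegK.NT.ER Pool.Agent.NegK.NT.ER61

/-- `EXT` of the family of a system. -/
theorem ext_fam {Γ : Type u} [Group Γ] (T : Sys Γ) (S J : Finset (Fin T.m)) :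
    (fam T S J).EXT ↔ T.EXT S J := by
  constructor
  · intro h k _ hk X hX
    obtain ⟨Y, hY, e⟩ := h k hk X ⟨hX.per, fun j => hX.ac j.1 j.2⟩
    exact ⟨Y, ⟨hY.per, fun j hj => hY.ac ⟨j, hj⟩⟩, e⟩
  · intro h k _ hk X hX
    obtain ⟨Y, hY, e⟩ := h k hk X ⟨hX.per, fun j hj => hX.ac ⟨j, hj⟩⟩
    exact ⟨Y, ⟨hY.per, fun j => hY.ac j.1 j.2⟩, e⟩

section

variable {Γ : Type u} [Group Γ] {m : ℕ} (L : Fin m → TL Γ) (Z : TL Γ)

/-- The system with the direction `Z` first. -/
abbrev sysC : Sys Γ := TL.sys (Fin.cons (α := fun _ => TL Γ) Z L)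

/-- A box of the new system. -/
def cb (z : Z.B) (x : ∀ i, (L i).B) : (sysC L Z).Box :=
  Fin.cons (α := fun i => (Fin.cons (α := fun _ => TL Γ) Z L i : TL Γ).B) z x

/-- The first coordinate. -/
def cz (x : (sysC L Z).Box) : Z.B := x (0 : Fin (m + 1))

/-- The other coordinates. -/
def ct (x : (sysC L Z).Box) : ∀ i, (L i).B := fun i => x i.succ

theorem cb_cz_ct (x : (sysC L Z).Box) : cb L Z (cz L Z x) (ct L Z x) = x := by
  funext i
  refine Fin.cases ?_ (fun j => ?_) i
  · rfl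
  · rfl

theorem le_iff (S : Finset (Fin (m + 1))) (x y : (sysC L Z).Box) (g : Γ) :
    ((sysC L Z).P S).le x (g • y) ↔
      ((0 : Fin (m + 1)) ∈ S → cz L Z x ≤ g • cz L Z y) ∧
        ∀ i : Fin m, i.succ ∈ S → ct L Z x i ≤ g • ct L Z y i := by
  constructor
  · intro h
    exact ⟨fun h0 => h _ h0, fun i hi => h _ hi⟩
  · rintro ⟨h0, h1⟩ i
    refine Fin.cases ?_ (fun j => ?_) i
    · exact fun h => h0 h
    · exact fun h => h1 j h

end

/-- IRRT. -/
theorem irrT (hEqv : EqvStatement.{u}) : IrrTStatement.{u} := by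
  classical
  intro Γ _ m L Z h
  have z0 : Z.B := Classical.arbitrary Z.B
  refine (ext_fam (TL.sys L) Finset.univ Finset.univ).1 (hEqv Γ _ _ _ _ ?_
    ((ext_fam (sysC L Z) _ _).2 h))
  refine
    { a := ct L Z
      b := cb L Z z0
      aP := ?_
      bP := ?_
      aQ := ?_
      bQ := ?_
      ab := ?_
      ba := ?_ }
  · intro x y g hxy i _
    exact ((le_iff L Z _ x y g).1 hxy).2 i (Finset.mem_erase.2 ⟨Fin.succ_ne_zero i,
      Finset.mem_univ _⟩)
  · intro x y g hxy
    refine (le_iff L Z _ _ _ g).2 ⟨fun h0 => absurd h0 (Finset.notMem_erase _ _), fun i _ => ?_⟩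
    exact hxy i (Finset.mem_univ i)
  · rintro ⟨j, hj⟩
    refine ⟨⟨j.succ, Finset.mem_erase.2 ⟨Fin.succ_ne_zero j, Finset.mem_univ _⟩⟩, ?_⟩
    intro x y g hxy i hi
    refine ((le_iff L Z _ x y g).1 hxy).2 i (Finset.mem_erase.2 ⟨fun e => ?_,
      Finset.mem_erase.2 ⟨Fin.succ_ne_zero i, Finset.mem_univ _⟩⟩)
    exact (Finset.mem_erase.1 hi).1 (Fin.succ_injective _ e)
  · rintro ⟨j, hj⟩
    obtain ⟨j, rfl⟩ : ∃ j' : Fin m, j'.succ = j := Fin.exists_succ_eq.2 (Finset.mem_erase.1 hj).1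
    refine ⟨⟨j, Finset.mem_univ _⟩, ?_⟩
    intro x y g hxy
    refine (le_iff L Z _ _ _ g).2 ⟨fun h0 => absurd (Finset.mem_of_mem_erase h0)
      (Finset.notMem_erase _ _), fun i hi => ?_⟩
    refine hxy i (Finset.mem_erase.2 ⟨fun e => ?_, Finset.mem_univ _⟩)
    subst e
    exact (Finset.mem_erase.1 hi).1 rfl
  · intro x
    exact ⟨fun i _ => le_refl _, fun i _ => le_refl _⟩
  · intro x
    constructor
    · have h1 := (le_iff L Z (Finset.univ.erase (0 : Fin (m + 1))) (cb L Z z0 (ct L Z x)) x 1).2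
        ⟨fun h0 => absurd h0 (Finset.notMem_erase _ _), fun i _ => by
          rw [one_smul]
          exact le_refl _⟩
      rw [one_smul] at h1
      exact h1
    · have h1 := (le_iff L Z (Finset.univ.erase (0 : Fin (m + 1))) x (cb L Z z0 (ct L Z x)) 1).2
        ⟨fun h0 => absurd h0 (Finset.notMem_erase _ _), fun i _ => by
          rw [one_smul]
          exact le_refl _⟩
      rw [one_smul] at h1
      exact h1

end Pool.Agent.NegK.NT.NL
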