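import Pool.Agent.Lib.MP_28303a_al.NT.NL.Defs
import Pool.Agent.Lib.MP_28303a_al.NT.EX47.Bas
import Pool.Agent.Lib.MP_28303a_al.NT.H91.Kgen
import Pool.Agent.Lib.MP_28303a_al.NT.H60.Ic
import Pool.Agent.Lib.MP_28303a_al.NT.H7.Spl

/-! # Local trees: EXT for the empty family and the negative K-groups -/

set_option autoImplicit false
set_option linter.unusedSectionVars false
set_option linter.unusedVariables false

namespace Pool.Agent.NegK.NT.NL

universe u

open CategoryTheory Limits Opposite Pretriangulated Idempotents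
open Pool.Agent.NegK.TW Pool.Agent.NegK.TT Pool.Agent.NegK.NT.ER Pool.Agent.NegK.NT.ER61

section

variable {k k' : Type u} [Ring k] [Ring k'] {Γ : Type u} [Group Γ] {B C : Type u} [MulAction Γ B]
  [MulAction Γ C] {P : Pre Γ B} {Q : Pre Γ C}

/-- The functor on located projective modules. -/
noncomputable def kg (c : Loc k P ⥤ Loc k' Q) : KL k P ⥤ KL k' Q where
  obj X := ⟨c.obj X.X, c.map X.p, by rw [← Functor.map_comp, X.idem]⟩
  map f := ⟨c.map f.f, by
    show c.map _ ≫ c.map f.f ≫ c.map _ = c.map f.f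
    rw [← c.map_comp, ← c.map_comp, f.comm]⟩
  map_id X := rfl
  map_comp f g := Karoubi.hom_ext _ _ (c.map_comp _ _)

instance (c : Loc k P ⥤ Loc k' Q) [c.Additive] : (kg c).Additive where
  map_add {X Y} {f g} := Karoubi.hom_ext _ _ (c.map_add (f := f.f) (g := g.f))

/-- The functor on homotopy categories. -/
noncomputable abbrev kgK (c : Loc k P ⥤ Loc k' Q) [c.Additive] : KKL k P ⥤ KKL k' Q :=
  (kg c).mapHomotopyCategory (ComplexShape.up ℤ)

/-- The functors commute with the inclusion of the free modules. -/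
noncomputable def gTk (c : Loc k P ⥤ Loc k' Q) :
    c ⋙ toKaroubi (Loc k' Q) ≅ toKaroubi (Loc k P) ⋙ kg c :=
  NatIso.ofComponents (fun A => ⟨⟨𝟙 (c.obj A), by
      show 𝟙 _ ≫ 𝟙 _ ≫ c.map (𝟙 A) = 𝟙 _
      rw [c.map_id, Category.comp_id, Category.comp_id]⟩, ⟨𝟙 (c.obj A), by
      show c.map (𝟙 A) ≫ 𝟙 _ ≫ 𝟙 _ = 𝟙 _
      rw [c.map_id, Category.comp_id, Category.comp_id]⟩,
      Karoubi.hom_ext _ _ (Category.comp_id _), Karoubi.hom_ext _ _ (by
        show 𝟙 _ ≫ 𝟙 _ = c.map (𝟙 A)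
        rw [c.map_id, Category.comp_id])⟩) (by
    intro A A' f
    refine Karoubi.hom_ext _ _ ?_
    show c.map f ≫ 𝟙 _ = 𝟙 _ ≫ c.map f
    rw [Category.comp_id, Category.id_comp])

noncomputable def tkSqg (c : Loc k P ⥤ Loc k' Q) [c.Additive] :
    hk c ⋙ tk k' Q ≅ tk k P ⋙ kgK c :=
  Functor.mapHomotopyCategoryCompIso (gTk c) (ComplexShape.up ℤ) ≪≫
    (Functor.mapHomotopyCategoryCompIso (Iso.refl (toKaroubi (Loc k P) ⋙ kg c))
      (ComplexShape.up ℤ)).symm

/-- The class after a change of the ring. -/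
theorem clsK_bc (φ : k →+* k') (X : KL k P) [hX : Finite X.X.ι] :
    clsK ((kg (Loc.bc φ)).obj X) = K0.map (cmap Γ φ) (clsK X) := by
  have h1 : Finite ((kg (Loc.bc (P := P) φ)).obj X).X.ι := inferInstanceAs (Finite X.X.ι)
  rw [H65.clsK_fin X, H65.clsK_fin ((kg (Loc.bc (P := P) φ)).obj X), K0.map_cls, ← mcls_self,
    ← mcls_self]
  refine mcls_congr _ ?_
  refine Matrix.ext fun i j => ?_
  change (Loc.lin (Loc.bm φ X.p) (Finsupp.single ((Finite.equivFin X.X.ι).symm i) 1))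
    ((Finite.equivFin X.X.ι).symm j) = cmap Γ φ ((Loc.lin X.p (Finsupp.single
      ((Finite.equivFin X.X.ι).symm i) 1)) ((Finite.equivFin X.X.ι).symm j))
  rw [← Loc.mf_apply]
  exact congrArg (fun x => x ((Finite.equivFin X.X.ι).symm j))
    (Loc.lin_ofB (A := Loc.bo (k' := k') X.X) (A' := Loc.bo (k' := k') X.X) _ _ _)

/-- If all perfect objects extend then the change of the ring is onto. -/
theorem surj_of_ext (φ : k →+* k') (hP : ∀ x y : B, P.le x y) (U : B)
    (hE : ∀ X : KK k' P, Per X → ∃ Y : KK k P, Per Y ∧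
      Nonempty ((hk (Loc.bc (P := P) φ)).obj Y ≅ X)) :
    Function.Surjective (K0.map (cmap Γ φ)) := by
  have key : ∀ p : Idem (MonoidAlgebra k' Γ), K0.cls p ∈ (K0.map (cmap Γ φ)).range := by
    intro p
    let Y : KL k' P := H91.Yp p U hP
    have hY : Finite Y.X.ι := inferInstanceAs (Finite (ULift.{u} (Fin p.n)))
    obtain ⟨X, hX, ⟨eX⟩⟩ := spl k' P Y hY
    obtain ⟨D, hD, ⟨eD⟩⟩ := hE X hX
    obtain ⟨E, hE1, ⟨eE⟩⟩ := ic k P D hD
    obtain ⟨E', hE', hchi, ⟨e'⟩⟩ := H91.exists_sgl Y hY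
    let c : Loc k P ⥤ Loc k' P := Loc.bc φ
    let KE : CochainComplex (KL k' P) ℤ :=
      ((kg c).mapHomologicalComplex (ComplexShape.up ℤ)).obj E
    have hKE : FinK KE := by
      refine ⟨fun n => hE1.fin n, ?_⟩
      obtain ⟨a, b, hab⟩ := hE1.bdd
      exact ⟨a, b, fun n hn => (kg c).map_isZero (hab n hn)⟩
    have e1 : (HomotopyCategory.quotient (KL k' P) (ComplexShape.up ℤ)).obj KE ≅
        (HomotopyCategory.quotient (KL k' P) (ComplexShape.up ℤ)).obj E' := by
      refine ((kgK c).mapIso eE.symm) ≪≫ ?_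
      refine (tkSqg c).symm.app D ≪≫ ?_
      refine (tk k' P).mapIso eD ≪≫ ?_
      exact eX ≪≫ (HomotopyCategory.quotient _ _).mapIso e'
    have h1 := H65.eul k' P KE E' hKE hE' ⟨e1⟩
    rw [← H91.clsK_Yp p U hP, ← hchi, ← h1]
    unfold chi
    refine finsum_induction (fun x => x ∈ (K0.map (cmap Γ φ)).range) (zero_mem _)
      (fun x y hx hy => add_mem hx hy) fun n => ?_
    refine zsmul_mem ?_ _
    have hf : Finite (E.X n).X.ι := hE1.fin n
    exact ⟨clsK (E.X n), (clsK_bc φ (E.X n)).symm⟩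
  intro z
  obtain ⟨p, q, rfl⟩ := exists_sub z
  exact sub_mem (key p) (key q)

end

/-- KNZ. -/
theorem knz : KnzStatement.{u} := by
  intro Γ _ hEx R _ hR n
  induction n generalizing R with
  | zero =>
    have h1 : Function.Surjective (K0.map (cmap Γ (posMap R))) := by
      refine surj_of_ext (P := (TL.sys (fun i : Fin 0 => (i.elim0 : TL Γ))).P Finset.univ)
        (posMap R) (fun x y i => i.elim0) (fun i => i.elim0) fun X hX => ?_
      obtain ⟨Y, hY, hYX⟩ := hEx R hR X ⟨hX, fun j => j.elim0⟩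
      exact ⟨Y, hY.per, hYX⟩
    refine ⟨fun x y => ?_⟩
    have h2 : ∀ x : KNeg (0 + 1) (MonoidAlgebra R Γ), x = 0 := by
      intro x
      obtain ⟨y, rfl⟩ := EX47.th_surj K0Fun R Γ x
      obtain ⟨z, rfl⟩ := h1 y
      exact EX47.th_pos K0Fun R Γ (posMap R) (Or.inl rfl) z
    rw [h2 x, h2 y]
  | succ n ih =>
    have h1 : Subsingleton (KNeg (n + 1) (LG R Γ)) :=
      ih (LaurentPolynomial R) (H78.lreg H50.ext R hR)
    refine ⟨fun x y => ?_⟩
    have h2 : ∀ x : KNeg (n + 1 + 1) (MonoidAlgebra R Γ), x = 0 := by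
      intro x
      obtain ⟨y, rfl⟩ := EX47.th_surj (KNegFun (n + 1)) R Γ x
      exact (congrArg _ (Subsingleton.elim y 0)).trans (map_zero (EX47.th (KNegFun (n + 1)) R Γ))
    rw [h2 x, h2 y]

end Pool.Agent.NegK.NT.NL
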