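import Pool.Agent.Lib.MP_28303a_al.NT.NL.Defs
import Pool.Agent.Lib.MP_28303a_al.NT.ER73.Cop
import Pool.Agent.Lib.MP_28303a_al.NT.H7.Spl

/-! # LOC: finitely generated subgroups -/

set_option autoImplicit false
set_option linter.unusedSectionVars false
set_option linter.unusedVariables false

namespace Pool.Agent.NegK.NT.NL.H66L

universe u

open CategoryTheory Limits
open Pool.Agent.NegK.TW Pool.Agent.NegK.TT

section

variable {k : Type u} [Ring k] {Γ : Type u} [Group Γ] {B : Type u} [MulAction Γ B] {P : Pre Γ B}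
  {H : Subgroup Γ}

theorem coeff_mdr (a : MonoidAlgebra k H) (h : H) :
    (mdr k H.subtype a).coeff (h : Γ) = a.coeff h := by
  show (MonoidAlgebra.mapDomainRingHom k H.subtype a).coeff (h : Γ) = a.coeff h
  rw [MonoidAlgebra.mapDomainRingHom_apply, MonoidAlgebra.coeff_mapDomain]
  exact Finsupp.mapDomain_apply H.subtype_injective _ h

theorem mem_of_mdr (a : MonoidAlgebra k H) {g : Γ}
    (hg : (mdr k H.subtype a).coeff g ≠ 0) : g ∈ H := by
  obtain ⟨h, rfl, -⟩ := mdr_supp k H.subtype hg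
  exact h.2

variable (H)

theorem fm_injective (ι : Type u) : Function.Injective (fm k H.subtype ι) := by
  intro x y h
  ext i g
  have := congrArg (fun z : ι →₀ MonoidAlgebra k Γ => (z i).coeff (g : Γ)) h
  simpa only [fm_apply, coeff_mdr] using this

variable (P)

/-- The inclusion of a subgroup. -/
def si : IM H.subtype (sbP P H) P where
  φ x := x
  le _ _ _ h := h

theorem si_single {A A' : Loc k (sbP P H)} (f : A ⟶ A') (i : A.ι) :
    Loc.lin ((si P H).hm k f) (Finsupp.single i 1) =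
      fm k H.subtype A'.ι (Loc.lin f (Finsupp.single i 1)) :=
  Loc.lin_ofB (A := (si P H).ob k A) (A' := (si P H).ob k A') _ _ i

theorem si_inj {A A' : Loc k (sbP P H)} {f g : A ⟶ A'}
    (h : (si P H).hm k f = (si P H).hm k g) : f = g := by
  refine Loc.ext_basis fun i => fm_injective H A'.ι ?_
  rw [← si_single P H f, ← si_single P H g, h]

/-- The part of a map in the subgroup. -/
noncomputable def cut {A A' : Loc k (sbP P H)} (f : ((si P H).ob k A) ⟶ (si P H).ob k A')
    (i : A.ι) : A'.ι →₀ MonoidAlgebra k H :=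
  Finsupp.mapRange (MonoidAlgebra.comapDomain (R := k) (H.subtype : H → Γ) H.subtype_injective)
    (by simp) (Loc.lin f (Finsupp.single i 1))

theorem coeff_cut {A A' : Loc k (sbP P H)} (f : ((si P H).ob k A) ⟶ (si P H).ob k A')
    (i : A.ι) (j : A'.ι) (h : H) :
    (cut P H f i j).coeff h = (Loc.lin f (Finsupp.single i 1) j).coeff (h : Γ) := rfl

/-- Morphisms with support in the subgroup come from the subgroup. -/
theorem si_surj {A A' : Loc k (sbP P H)} (f : ((si P H).ob k A) ⟶ (si P H).ob k A')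
    (hf : ∀ (i : A.ι) (j : A'.ι) (g : Γ), ent (Loc.lin f) i j g ≠ 0 → g ∈ H) :
    ∃ f' : A ⟶ A', (si P H).hm k f' = f := by
  have hc : ∀ (i : A.ι) (j : A'.ι) (g : H), (cut P H f i j).coeff g ≠ 0 →
      (sbP P H).le (A.loc i) (g • A'.loc j) := fun i j g hg => Loc.spt_lin f i j g hg
  refine ⟨Loc.ofB (A := A) (A' := A') (cut P H f) hc, ?_⟩
  refine Loc.ext_basis fun i => ?_
  have h0 : Loc.lin (Loc.ofB (A := A) (A' := A') (cut P H f) hc) (Finsupp.single i 1) =
      cut P H f i := Loc.lin_ofB (A := A) (A' := A') _ _ i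
  rw [si_single, h0]
  ext j g
  rw [fm_apply]
  by_cases hg : g ∈ H
  · have h1 := coeff_mdr (cut P H f i j) ⟨g, hg⟩
    rw [h1]
    exact coeff_cut P H f i j ⟨g, hg⟩
  · have h1 : (mdr k H.subtype (cut P H f i j)).coeff g = 0 := by
      by_contra h
      exact hg (mem_of_mdr _ h)
    have h2 : ent (Loc.lin f) i j g = 0 := by
      by_contra h
      exact hg (hf i j g h)
    rw [h1]
    exact h2.symm

end

/-! ### Compatibilities -/

section

variable {k k' : Type u} [Ring k] [Ring k'] {Γ : Type u} [Group Γ] {B : Type u}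
  [MulAction Γ B] {P Q : Pre Γ B} (H : Subgroup Γ)

theorem mdr_mapRing (φ : k →+* k') (a : MonoidAlgebra k H) :
    mdr k' H.subtype (MonoidAlgebra.mapRingHom H φ a) =
      MonoidAlgebra.mapRingHom Γ φ (mdr k H.subtype a) := by
  induction a using MonoidAlgebra.induction_linear with
  | zero => rw [map_zero, map_zero, map_zero, map_zero]
  | add x y hx hy => rw [map_add, map_add, map_add, map_add, hx, hy]
  | single g a =>
    show MonoidAlgebra.mapDomainRingHom k' H.subtype _ =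
      MonoidAlgebra.mapRingHom Γ φ (MonoidAlgebra.mapDomainRingHom k H.subtype _)
    rw [MonoidAlgebra.mapRingHom_single, MonoidAlgebra.mapDomainRingHom_apply,
      MonoidAlgebra.mapDomainRingHom_apply, MonoidAlgebra.mapDomain_single,
      MonoidAlgebra.mapDomain_single, MonoidAlgebra.mapRingHom_single]

/-- Induction and the change of rings. -/
noncomputable def siBc (φ : k →+* k') :
    (si P H).F k ⋙ Loc.bc φ ≅ Loc.bc φ ⋙ (si P H).F k' :=
  NatIso.ofComponents (fun A => Iso.refl _) (by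
    intro A A' f
    simp only [Iso.refl_hom]
    refine Loc.ext_basis (A := (⟨A.ι, A.loc⟩ : Loc k' P)) (A' := (⟨A'.ι, A'.loc⟩ : Loc k' P))
      fun i => ?_
    have h1 : Loc.lin (A := (⟨A.ι, A.loc⟩ : Loc k' P)) (A' := (⟨A'.ι, A'.loc⟩ : Loc k' P))
        (Loc.bm φ ((si P H).hm k f)) (Finsupp.single i 1) =
        Loc.mf φ A'.ι (Loc.lin ((si P H).hm k f) (Finsupp.single i 1)) :=
      Loc.lin_ofB (A := Loc.bo ((si P H).ob k A)) (A' := Loc.bo ((si P H).ob k A')) _ _ i
    have h2 : Loc.lin (A := (⟨A.ι, A.loc⟩ : Loc k' P)) (A' := (⟨A'.ι, A'.loc⟩ : Loc k' P))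
        ((si P H).hm k' (Loc.bm φ f)) (Finsupp.single i 1) =
        fm k' H.subtype A'.ι (Loc.lin (Loc.bm φ f) (Finsupp.single i 1)) :=
      si_single P H (A := Loc.bo A) (A' := Loc.bo A') (Loc.bm φ f) i
    have h3 : Loc.lin (Loc.bm φ f) (Finsupp.single i 1) =
        Loc.mf φ A'.ι (Loc.lin f (Finsupp.single i 1)) :=
      Loc.lin_ofB (A := Loc.bo A) (A' := Loc.bo A') _ _ i
    refine h1.trans (Eq.trans ?_ h2.symm)
    rw [h3, si_single]
    ext1 j
    rw [Loc.mf_apply, fm_apply, fm_apply, Loc.mf_apply, mdr_mapRing])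

/-- A monotone map which is the identity. -/
def idm (hPQ : ∀ {x y : B}, P.le x y → Q.le x y) : Loc.Mono P Q where
  φ x := x
  smul _ _ := rfl
  le h := hPQ h

/-- Induction and changes of preorders. -/
noncomputable def siPush (hPQ : ∀ {x y : B}, P.le x y → Q.le x y) :
    (si P H).F k ⋙ Loc.push (idm hPQ) ≅
      Loc.push (idm (P := sbP P H) (Q := sbP Q H) hPQ) ⋙ (si Q H).F k :=
  NatIso.ofComponents (fun A => Iso.refl _) (by
    intro A A' f
    simp only [Iso.refl_hom]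
    rfl)

end

/-! ### Homotopy categories -/

section

variable {k : Type u} [Ring k] {Γ : Type u} [Group Γ] {B : Type u} [MulAction Γ B] {P : Pre Γ B}
  {H : Subgroup Γ}

/-- The functor on complexes. -/
noncomputable abbrev cI (P : Pre Γ B) (H : Subgroup Γ) (k : Type u) [Ring k] :
    CochainComplex (Loc k (sbP P H)) ℤ ⥤ CochainComplex (Loc k P) ℤ :=
  ((si P H).F k).mapHomologicalComplex (ComplexShape.up ℤ)

/-- The functor on homotopy categories. -/
noncomputable abbrev hI (P : Pre Γ B) (H : Subgroup Γ) (k : Type u) [Ring k] :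
    KK k (sbP P H) ⥤ KK k P :=
  ((si P H).F k).mapHomotopyCategory (ComplexShape.up ℤ)

theorem finC_cI {E : CochainComplex (Loc k (sbP P H)) ℤ} (hE : FinC E) :
    FinC ((cI P H k).obj E) := ⟨fun n => hE.fin n, hE.bdd⟩

theorem per_hI {X : KK k (sbP P H)} (hX : Per X) : Per ((hI P H k).obj X) := by
  obtain ⟨E, hE, ⟨r⟩⟩ := hX
  exact ⟨_, finC_cI hE, ⟨r.map (hI P H k)⟩⟩

/-- The group elements of a family of maps of finite complexes. -/
theorem fin_supp {E E' : CochainComplex (Loc k P) ℤ} (hE : FinC E) (hE' : FinC E')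
    (φ : ∀ n n' : ℤ, (E.X n).F →ₗ[MonoidAlgebra k Γ] (E'.X n').F) :
    {g : Γ | ∃ (n n' : ℤ) (i : (E.X n).ι) (j : (E'.X n').ι), ent (φ n n') i j g ≠ 0}.Finite := by
  obtain ⟨a, b, hab⟩ := hE.bdd
  obtain ⟨a', b', hab'⟩ := hE'.bdd
  have h1 : ∀ n n' : ℤ, {g : Γ | ∃ (i : (E.X n).ι) (j : (E'.X n').ι),
      ent (φ n n') i j g ≠ 0}.Finite := by
    intro n n'
    have := hE.fin n
    have := hE'.fin n'
    have h2 : {g : Γ | ∃ (i : (E.X n).ι) (j : (E'.X n').ι), ent (φ n n') i j g ≠ 0} =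
        ⋃ i : (E.X n).ι, ⋃ j : (E'.X n').ι,
          (((φ n n') (Finsupp.single i 1) j).coeff.support : Set Γ) := by
      ext g
      simp only [Set.mem_ofPred_eq, Set.mem_iUnion, Finset.mem_coe, Finsupp.mem_support_iff]
      exact Iff.rfl
    rw [h2]
    exact Set.finite_iUnion fun i => Set.finite_iUnion fun j => Finset.finite_toSet _
  refine Set.Finite.subset (Set.Finite.biUnion (Set.finite_Icc a b) fun n _ =>
    Set.Finite.biUnion (Set.finite_Icc a' b') fun n' _ => h1 n n') ?_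
  rintro g ⟨n, n', i, j, hg⟩
  have hn : n ∈ Set.Icc a b := by
    by_contra h
    rw [Set.mem_Icc, not_and_or, not_le, not_le] at h
    exact (hab n h).false i
  have hn' : n' ∈ Set.Icc a' b' := by
    by_contra h
    rw [Set.mem_Icc, not_and_or, not_le, not_le] at h
    exact (hab' n' h).false j
  simp only [Set.mem_iUnion]
  exact ⟨n, hn, n', hn', i, j, hg⟩

/-- The complex over the subgroup. -/
theorem exists_cplx (E : CochainComplex (Loc k P) ℤ)
    (hE : ∀ (n n' : ℤ) (i : (E.X n).ι) (j : (E.X n').ι) (g : Γ),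
      ent (Loc.lin (E.d n n')) i j g ≠ 0 → g ∈ H) :
    ∃ E' : CochainComplex (Loc k (sbP P H)) ℤ, (cI P H k).obj E' = E := by
  obtain ⟨X, d, shape, dd⟩ := E
  let X' : ℤ → Loc k (sbP P H) := fun n => ⟨(X n).ι, (X n).loc⟩
  have h1 : ∀ n n' : ℤ, ∃ f' : X' n ⟶ X' n', (si P H).hm k f' = d n n' := fun n n' =>
    si_surj P H (A := X' n) (A' := X' n') (d n n') (hE n n')
  choose d' hd' using h1
  refine ⟨{ X := X', d := d', shape := ?_, d_comp_d' := ?_ }, ?_⟩
  · intro n n' h
    refine si_inj P H ?_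
    rw [hd', shape n n' h]
    exact ((si P H).F k).map_zero (X' n) (X' n') |>.symm
  · intro n n' n'' h h'
    refine si_inj P H ?_
    have h2 : (si P H).hm k (d' n n' ≫ d' n' n'') =
        (si P H).hm k (d' n n') ≫ (si P H).hm k (d' n' n'') :=
      ((si P H).F k).map_comp (d' n n') (d' n' n'')
    rw [h2, hd', hd']
    exact (dd n n' n'' h h').trans (((si P H).F k).map_zero (X' n) (X' n'')).symm
  · have h2 : (fun n n' => (si P H).hm k (d' n n')) = d := funext fun n => funext fun n' => hd' n n'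
    subst h2
    rfl

/-- Chain maps with support in the subgroup. -/
theorem exists_map {E E' : CochainComplex (Loc k (sbP P H)) ℤ}
    (f : (cI P H k).obj E ⟶ (cI P H k).obj E')
    (hf : ∀ (n : ℤ) (i : (E.X n).ι) (j : (E'.X n).ι) (g : Γ),
      ent (Loc.lin (A := (si P H).ob k (E.X n)) (A' := (si P H).ob k (E'.X n)) (f.f n)) i j g ≠ 0 →
        g ∈ H) :
    ∃ f' : E ⟶ E', (cI P H k).map f' = f := by
  have h1 : ∀ n : ℤ, ∃ f' : E.X n ⟶ E'.X n, (si P H).hm k f' = f.f n := fun n =>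
    si_surj P H (A := E.X n) (A' := E'.X n) (f.f n) (hf n)
  choose f' hf' using h1
  refine ⟨{ f := f', comm' := ?_ }, ?_⟩
  · intro n n' _
    refine si_inj P H ?_
    have h2 : (si P H).hm k (f' n ≫ E'.d n n') =
        (si P H).hm k (f' n) ≫ (si P H).hm k (E'.d n n') :=
      ((si P H).F k).map_comp (f' n) (E'.d n n')
    have h3 : (si P H).hm k (E.d n n' ≫ f' n') =
        (si P H).hm k (E.d n n') ≫ (si P H).hm k (f' n') :=
      ((si P H).F k).map_comp (E.d n n') (f' n')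
    rw [h2, h3, hf', hf']
    exact f.comm n n'
  · exact HomologicalComplex.hom_ext _ _ fun n => hf' n

/-- Homotopies with support in the subgroup. -/
theorem exists_htpy {E E' : CochainComplex (Loc k (sbP P H)) ℤ} {a b : E ⟶ E'}
    {α β : (cI P H k).obj E ⟶ (cI P H k).obj E'} (ha : (cI P H k).map a = α)
    (hb : (cI P H k).map b = β) (h : Homotopy α β)
    (hh : ∀ (n n' : ℤ) (i : (E.X n).ι) (j : (E'.X n').ι) (g : Γ),
      ent (Loc.lin (A := (si P H).ob k (E.X n)) (A' := (si P H).ob k (E'.X n')) (h.hom n n'))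
        i j g ≠ 0 → g ∈ H) :
    Nonempty (Homotopy a b) := by
  subst ha hb
  have h1 : ∀ n n' : ℤ, ∃ f' : E.X n ⟶ E'.X n', (si P H).hm k f' = h.hom n n' := fun n n' =>
    si_surj P H (A := E.X n) (A' := E'.X n') (h.hom n n') (hh n n')
  choose s hs using h1
  refine ⟨{ hom := s, zero := ?_, comm := ?_ }⟩
  · intro n n' hn
    refine si_inj P H ?_
    rw [hs, h.zero n n' hn]
    exact (((si P H).F k).map_zero (E.X n) (E'.X n')).symm
  · intro n
    refine si_inj P H ?_
    have h2 := h.comm n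
    have h3 : ((si P H).F k).map (dNext n s + prevD n s + b.f n) =
        dNext n h.hom + prevD n h.hom + ((cI P H k).map b).f n := by
      have h5 : ∀ n n' : ℤ, h.hom n n' = ((si P H).F k).map (s n n') := fun n n' =>
        (hs n n').symm
      have e1 : dNext n s = E.d n ((ComplexShape.up ℤ).next n) ≫
        s ((ComplexShape.up ℤ).next n) n := rfl
      have e2 : prevD n s = s n ((ComplexShape.up ℤ).prev n) ≫
        E'.d ((ComplexShape.up ℤ).prev n) n := rfl
      have e3 : dNext n h.hom = ((cI P H k).obj E).d n ((ComplexShape.up ℤ).next n) ≫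
        h.hom ((ComplexShape.up ℤ).next n) n := rfl
      have e4 : prevD n h.hom = h.hom n ((ComplexShape.up ℤ).prev n) ≫
        ((cI P H k).obj E').d ((ComplexShape.up ℤ).prev n) n := rfl
      rw [Functor.map_add, Functor.map_add, e1, e2, Functor.map_comp, Functor.map_comp, e3, e4,
        h5, h5]
      rfl
    exact h2.trans h3.symm

end

/-! ### The main step -/

section

/-- Isomorphisms of composites. -/
noncomputable def sq {C₁ C₂ C₃ C₄ : Type*} [Category C₁] [Category C₂] [Category C₃] [Category C₄]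
    [Preadditive C₁] [Preadditive C₂] [Preadditive C₃] [Preadditive C₄]
    {F : C₁ ⥤ C₂} {G : C₂ ⥤ C₃} {F' : C₁ ⥤ C₄} {G' : C₄ ⥤ C₃}
    [F.Additive] [G.Additive] [F'.Additive] [G'.Additive]
    (e : F ⋙ G ≅ F' ⋙ G') :
    F.mapHomotopyCategory (ComplexShape.up ℤ) ⋙ G.mapHomotopyCategory (ComplexShape.up ℤ) ≅
      F'.mapHomotopyCategory (ComplexShape.up ℤ) ⋙ G'.mapHomotopyCategory (ComplexShape.up ℤ) :=
  Functor.mapHomotopyCategoryCompIso e _ ≪≫
    (Functor.mapHomotopyCategoryCompIso (Iso.refl (F' ⋙ G')) _).symm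

theorem zero_of_ret {C D : Type*} [Category C] [Category D] [HasZeroMorphisms D] (G : C ⥤ D)
    {X Z : C} (ρ : Retract X Z) (h : G.map (ρ.r ≫ ρ.i) = 0) : IsZero (G.obj X) := by
  rw [IsZero.iff_id_eq_zero, ← G.map_id]
  have h5 : 𝟙 X = ρ.i ≫ (ρ.r ≫ ρ.i) ≫ ρ.r := by
    rw [Category.assoc, ρ.retract, Category.comp_id, ρ.retract]
  rw [h5, G.map_comp, G.map_comp, h, zero_comp, comp_zero]

variable {Γ : Type u} [Group Γ] {B : Type u} [MulAction Γ B] (F : Fam Γ B)

/-- Induction of the objects which vanish for the coarser preorders. -/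
theorem pj_hI (H : Subgroup Γ) (k : Type u) [Ring k] {Y : KK k (F.sb H).P}
    (hY : (F.sb H).PJ k Y) : F.PJ k ((hI F.P H k).obj Y) := by
  refine ⟨per_hI hY.per, fun j => ?_⟩
  have e : (hk (Loc.push (F.fg j))).obj ((hI F.P H k).obj Y) ≅
      (hI (F.Q j) H k).obj ((hk (Loc.push ((F.sb H).fg j))).obj Y) :=
    (sq (siPush (k := k) (P := F.P) (Q := F.Q j) H (fun h => F.le j h))).app Y
  exact ((hI (F.Q j) H k).map_isZero (hY.ac j)).of_iso e

/-- Objects which extend. -/
theorem ext_hI (H : Subgroup Γ) (k : Type u) [Ring k] {X : KK (LaurentPolynomial k) (F.sb H).P}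
    (hX : (F.sb H).Ext k X) : F.Ext k ((hI F.P H (LaurentPolynomial k)).obj X) := by
  obtain ⟨Y, hY, ⟨ψ⟩⟩ := hX
  refine ⟨(hI F.P H (Polynomial k)).obj Y, pj_hI F H _ hY, ⟨?_⟩⟩
  exact (sq (siBc (P := F.P) H (Polynomial.toLaurent (R := k)))).app Y ≪≫
    (hI F.P H (LaurentPolynomial k)).mapIso ψ

/-- Every object comes from a finitely generated subgroup. -/
theorem exists_sub (hJ : Finite F.J) (k : Type u) [Ring k] (X : KK k F.P) (hX : F.PJ k X) :
    ∃ H : Subgroup Γ, H.FG ∧ ∃ X' : KK k (F.sb H).P, (F.sb H).PJ k X' ∧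
      Nonempty ((hI F.P H k).obj X' ≅ X) := by
  obtain ⟨E, hE, ⟨ρ⟩⟩ := hX.per
  obtain ⟨ε, hε⟩ := (HomotopyCategory.quotient (Loc k F.P) (ComplexShape.up ℤ)).map_surjective
    (ρ.r ≫ ρ.i)
  have hee : (ρ.r ≫ ρ.i) ≫ ρ.r ≫ ρ.i = ρ.r ≫ ρ.i := by
    rw [Category.assoc, ← Category.assoc ρ.i, ρ.retract, Category.id_comp]
  have h1 : Homotopy (ε ≫ ε) ε := HomotopyCategory.homotopyOfEq _ _ (by
    rw [Functor.map_comp, hε, hee])
  have h2 : ∀ j : F.J, Nonempty (Homotopy
      (((Loc.push (F.fg j)).mapHomologicalComplex (ComplexShape.up ℤ)).map ε) 0) := by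
    intro j
    refine ⟨HomotopyCategory.homotopyOfEq _ _ ?_⟩
    have h3 : (hk (Loc.push (F.fg j))).map (ρ.r ≫ ρ.i) = 0 := by
      rw [Functor.map_comp, (hX.ac j).eq_of_tgt ((hk (Loc.push (F.fg j))).map ρ.r) 0, zero_comp]
    rw [Functor.map_zero, ← hε] at *
    exact h3
  have h2 := fun j => Classical.choice (h2 j)
  obtain ⟨H, hfg, hE1, hε1, hh1, hh2⟩ : ∃ H : Subgroup Γ, H.FG ∧
      (∀ (n n' : ℤ) (i : (E.X n).ι) (j : (E.X n').ι) (g : Γ),
        ent (Loc.lin (E.d n n')) i j g ≠ 0 → g ∈ H) ∧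
      (∀ (n : ℤ) (i : (E.X n).ι) (j : (E.X n).ι) (g : Γ),
        ent (Loc.lin (ε.f n)) i j g ≠ 0 → g ∈ H) ∧
      (∀ (n n' : ℤ) (i : (E.X n).ι) (j : (E.X n').ι) (g : Γ),
        ent (Loc.lin (h1.hom n n')) i j g ≠ 0 → g ∈ H) ∧
      ∀ (a : F.J) (n n' : ℤ) (i : (E.X n).ι) (j : (E.X n').ι) (g : Γ),
        ent (Loc.lin (A := Loc.tr (F.fg a) (E.X n)) (A' := Loc.tr (F.fg a) (E.X n'))
          ((h2 a).hom n n')) i j g ≠ 0 → g ∈ H := by
    have f1 := fin_supp hE hE fun n n' => Loc.lin (E.d n n')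
    have f2 := fin_supp hE hE fun n n' => if h : n = n' then
      (h ▸ Loc.lin (ε.f n) : (E.X n).F →ₗ[MonoidAlgebra k Γ] (E.X n').F) else 0
    have f3 := fin_supp hE hE fun n n' => Loc.lin (h1.hom n n')
    have f4 : ∀ a : F.J, _ := fun a => fin_supp hE hE fun n n' =>
      (Loc.lin (A := Loc.tr (F.fg a) (E.X n)) (A' := Loc.tr (F.fg a) (E.X n'))
          ((h2 a).hom n n') : (E.X n).F →ₗ[MonoidAlgebra k Γ] (E.X n').F)
    have f5 := ((f1.union f2).union f3).union (Set.finite_iUnion f4)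
    refine ⟨Subgroup.closure f5.toFinset, ⟨f5.toFinset, rfl⟩, ?_, ?_, ?_, ?_⟩
    · intro n n' i j g hg
      refine Subgroup.subset_closure ((Set.Finite.mem_toFinset f5).2 ?_)
      exact Or.inl (Or.inl (Or.inl ⟨n, n', i, j, hg⟩))
    · intro n i j g hg
      refine Subgroup.subset_closure ((Set.Finite.mem_toFinset f5).2 ?_)
      refine Or.inl (Or.inl (Or.inr ⟨n, n, i, j, ?_⟩))
      rw [dif_pos rfl]
      exact hg
    · intro n n' i j g hg
      refine Subgroup.subset_closure ((Set.Finite.mem_toFinset f5).2 ?_)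
      exact Or.inl (Or.inr ⟨n, n', i, j, hg⟩)
    · intro a n n' i j g hg
      refine Subgroup.subset_closure ((Set.Finite.mem_toFinset f5).2 ?_)
      exact Or.inr (Set.mem_iUnion.2 ⟨a, n, n', i, j, hg⟩)
  obtain ⟨E', rfl⟩ := exists_cplx E hE1
  obtain ⟨ε', rfl⟩ := exists_map ε hε1
  obtain ⟨t1⟩ := exists_htpy (a := ε' ≫ ε') (b := ε') (Functor.map_comp _ _ _) rfl h1 hh1
  have hE' : FinC E' := ⟨fun n => hE.fin n, hE.bdd⟩
  let p : ∀ a : F.J, Loc.Mono (sbP F.P H) (sbP (F.Q a) H) := fun a =>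
    idm (P := sbP F.P H) (Q := sbP (F.Q a) H) (fun h => F.le a h)
  have t2 : ∀ a : F.J, Nonempty (Homotopy
      (((Loc.push (p a)).mapHomologicalComplex (ComplexShape.up ℤ)).map ε') 0) :=
    fun a => exists_htpy (P := F.Q a) (H := H)
      (a := ((Loc.push (p a)).mapHomologicalComplex (ComplexShape.up ℤ)).map ε')
      (b := 0) rfl (Functor.map_zero _ _ _) (h2 a) (hh2 a)
  have he' : (HomotopyCategory.quotient (Loc k (sbP F.P H)) (ComplexShape.up ℤ)).map ε' ≫
      (HomotopyCategory.quotient (Loc k (sbP F.P H)) (ComplexShape.up ℤ)).map ε' =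
      (HomotopyCategory.quotient (Loc k (sbP F.P H)) (ComplexShape.up ℤ)).map ε' := by
    rw [← Functor.map_comp]
    exact HomotopyCategory.eq_of_homotopy _ _ t1
  obtain ⟨X', ρ', hρ'⟩ := ER73.kar_qo E' _ he'
  refine ⟨H, hfg, X', ⟨⟨E', hE', ⟨ρ'⟩⟩, fun (a : F.J) => ?_⟩, ?_⟩
  · have h3 : (hk (Loc.push (p a))).map (ρ'.r ≫ ρ'.i) = 0 := by
      rw [hρ']
      have h4 : (HomotopyCategory.quotient (Loc k (sbP (F.Q a) H)) (ComplexShape.up ℤ)).map
          (((Loc.push (p a)).mapHomologicalComplex (ComplexShape.up ℤ)).map ε') = 0 := by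
        obtain ⟨t⟩ := t2 a
        rw [HomotopyCategory.eq_of_homotopy _ _ t, Functor.map_zero]
      exact h4
    exact zero_of_ret (hk (Loc.push (p a))) ρ' h3
  · refine H7.iso_of_retracts (ρ'.map (hI F.P H k)) ρ (Iso.refl _) ?_
    refine (Category.comp_id _).trans (Eq.trans ?_ (Category.id_comp _).symm)
    refine Eq.trans ?_ hε
    have h3 : (hI F.P H k).map (ρ'.r ≫ ρ'.i) =
        (HomotopyCategory.quotient (Loc k F.P) (ComplexShape.up ℤ)).map ((cI F.P H k).map ε') := by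
      rw [hρ']
      rfl
    rw [Functor.map_comp] at h3
    exact h3

end

end Pool.Agent.NegK.NT.NL.H66L

namespace Pool.Agent.NegK.NT.NL

universe u

/-- LOC. -/
theorem loc_ : LocStatement.{u} := by
  intro Γ B _ _ F hJ hS k _ hk X hX
  obtain ⟨H, hfg, X', hX', ⟨e⟩⟩ := H66L.exists_sub F hJ _ X hX
  obtain ⟨Y, hY, ⟨ψ⟩⟩ := H66L.ext_hI F H k (hS H hfg k hk X' hX')
  exact ⟨Y, hY, ⟨ψ ≪≫ e⟩⟩

end Pool.Agent.NegK.NT.NL
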