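import Pool.Agent.Lib.MP_28303a_al.NT.NL.Defs

/-! # Local trees: finitely generated subgroups, for the labels of trees -/

set_option autoImplicit false
set_option linter.unusedSectionVars false
set_option linter.unusedVariables false

namespace Pool.Agent.NegK.NT.NL

universe u

open CategoryTheory Limits Opposite Pretriangulated
open Pool.Agent.NegK.TW Pool.Agent.NegK.TT Pool.Agent.NegK.NT.ER Pool.Agent.NegK.NT.ER61

/-- `EXT` for a system and for its family. -/
theorem fam_ext {Γ : Type u} [Group Γ] (T : Sys Γ) (S J : Finset (Fin T.m)) :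
    (fam T S J).EXT ↔ T.EXT S J := by
  have h1 : ∀ (k : Type u) [Ring k] (X : KK k (T.P S)),
      (fam T S J).PJ k X ↔ T.PJ S J k X := by
    intro k _ X
    exact ⟨fun h => ⟨h.per, fun j hj => h.ac ⟨j, hj⟩⟩, fun h => ⟨h.per, fun j => h.ac j.1 j.2⟩⟩
  constructor
  · intro h k _ hk X hX
    obtain ⟨Y, hY, e⟩ := h k hk X ((h1 _ X).2 hX)
    exact ⟨Y, (h1 _ Y).1 hY, e⟩
  · intro h k _ hk X hX
    obtain ⟨Y, hY, e⟩ := h k hk X ((h1 _ X).1 hX)
    exact ⟨Y, (h1 _ Y).2 hY, e⟩

/-- LOCT. -/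
theorem locT (hLoc : LocStatement.{u}) : LocTStatement.{u} := by
  intro Γ _ m L h
  refine (fam_ext (TL.sys L) Finset.univ Finset.univ).1 (hLoc Γ (TL.sys L).Box _ ?_ fun S hS => ?_)
  · show Finite {j : Fin (TL.sys L).m // j ∈ Finset.univ}
    infer_instance
  · have h1 := (fam_ext (TL.sys fun i => cm S.subtype (L i)) Finset.univ Finset.univ).2 (h S hS)
    exact h1

end Pool.Agent.NegK.NT.NL
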