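import Pool.Agent.Lib.MP_28303a_al.NT.NL.Defs

/-! # Local trees: the labels of a tree with an edge -/

set_option autoImplicit false
set_option linter.unusedSectionVars false
set_option linter.unusedVariables false

namespace Pool.Agent.NegK.NT.NL

universe u

open Pool.Agent.NegK.TW Pool.Agent.NegK.TT Pool.Agent.NegK.NT.ER Pool.Agent.NegK.NT.ER61

/-- MRK. The labels of a tree with an edge. -/
theorem mrk : MrkStatement.{u} := by
  intro P V _ iV G hA hne
  obtain ⟨E, iE, O, hO⟩ := TW.H19.tre' P V G hA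
  have hE : Nonempty E := by
    obtain ⟨v, w, h⟩ := hne
    rcases hO.surj v w h with ⟨e, _⟩ | ⟨e, _⟩ <;> exact ⟨e⟩
  let M : MTL P := ⟨TL.mark O hO hA hE, iV, iE, mkL O hO hA hE⟩
  -- the edge of a label different from the vertices
  have key : ∀ (g : P) (x : Nv O hO), B0.smul hA g (B0.n x) = B0.n x →
      g • O.o x.e = O.o x.e ∧ g • O.t x.e = O.t x.e := by
    intro g x h
    have h1 : Nv.smul hA g x = x := by injection h
    have h2 : g • x.e = x.e := congrArg Nv.e h1
    exact ⟨by rw [← O.o_smul, h2], by rw [← O.t_smul, h2]⟩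
  refine ⟨M, fun c => ?_, fun c hc => ?_⟩
  · cases c with
    | v a =>
      refine ⟨a, fun g hg => ?_⟩
      have h : B0.smul hA g (B0.v a : B0 O hO) = B0.v a := hg
      injection h
    | n x => exact ⟨O.o x.e, fun g hg => (key g x hg).1⟩
  · cases c with
    | v a => exact absurd rfl (hc a)
    | n x => exact ⟨O.o x.e, O.t x.e, hO.adj x.e, fun g hg => ⟨(key g x hg).1, (key g x hg).2⟩⟩

end Pool.Agent.NegK.NT.NL
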