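import Pool.Agent.Lib.MP_28303a_al.NT.NL.Defs

/-! # The step: one more tree -/

set_option autoImplicit false
set_option linter.unusedSectionVars false
set_option linter.unusedVariables false

namespace Pool.Agent.NegK.NT.NL

universe u

open CategoryTheory Limits Opposite Pretriangulated
open Pool.Agent.NegK.TW Pool.Agent.NegK.TT Pool.Agent.NegK.NT.ER Pool.Agent.NegK.NT.ER61

/-- Removing a direction of a system. -/
theorem step_core {Γ : Type u} [Group Γ] (T : Sys Γ) (i : Fin T.m)
    (h1 : T.EXT Finset.univ Finset.univ) (h2 : T.EXT Finset.univ (Finset.univ.erase i)) :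
    T.EXT (Finset.univ.erase i) (Finset.univ.erase i) := by
  have key : ∀ U : Finset (Fin T.m), T.EXT U U → T.EXT U (Finset.univ.erase i) →
      insert i (Finset.univ.erase i) = U →
      T.EXT (Finset.univ.erase i) (Finset.univ.erase i) := by
    rintro U h1 h2 rfl
    exact H15.ext_of_lift (stepB T _ _ i (Finset.Subset.refl _)
      (Finset.notMem_erase i Finset.univ) h1) h2
  exact key _ h1 h2 (Finset.insert_erase (Finset.mem_univ i))

/-- STEP. -/
theorem step (hDT : DevTStatement.{u}) (hIT : IrrTStatement.{u}) : StepStatement.{u} := by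
  intro Γ _ m L Z h h'
  exact hIT Γ m L Z (step_core (TL.sys (Fin.cons (α := fun _ => TL Γ) Z L)) (0 : Fin (m + 1)) h
    (hDT Γ m L Z h'))

end Pool.Agent.NegK.NT.NL
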