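import Pool.Agent.Lib.MP_28303a_al.NT.NL.Defs
import Pool.Agent.Lib.MP_28303a_al.NT.ER47.Tr

/-! # TCY: the sums over the edges preserve the acyclicity in the other directions -/

set_option autoImplicit false
set_option linter.unusedSectionVars false
set_option linter.unusedVariables false

namespace Pool.Agent.NegK.NT.NL.Tcy

universe u

open CategoryTheory Limits Opposite
open Pool.Agent.NegK.TW Pool.Agent.NegK.NT.ER Pool.Agent.NegK.NT.ER47

section

variable {Γ : Type u} [Group Γ] {T : Sys Γ} {D : T.Tr} [∀ j, MulAction Γ (D.V j)]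
  [∀ j, MulAction Γ (D.E j)] (K : ∀ j, Mk D j) {k : Type u} [Ring k] {i j : Fin T.m}
  (hij : i ≠ j) (M : Fn k (T.P Finset.univ))

variable (D i) in
/-- The edges of the tree `i` with an end at `U`. -/
def Fg (U : T.Box) : Type u :=
  {p : D.E i × ULift.{u} Bool // U i = D.vt i (if p.2.down then D.s i p.1 else D.t i p.1)}

variable {U : T.Box}

/-- The box of an edge. -/
noncomputable abbrev bo (f : Fg D i U) : T.Box := T.up i U (D.ed i f.1.1)

/-- The element of the fibre. -/
noncomputable def can (f : Fg D i U) (c : T.B j) :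
    letI := flAct (K i); Fb (flq (K i)) (T.up j U c) :=
  letI := flAct (K i)
  ⟨⟨(f.1, T.up j (bo f) c), by
    show Function.update (Function.update U i _) j c i = _
    rw [Function.update_of_ne hij, Function.update_self]⟩, by
    funext a
    show Function.update (Function.update (Function.update U i _) j c) i _ a =
      Function.update U j c a
    by_cases ha : a = i
    · subst ha
      rw [Function.update_self]
      exact f.2.symm.trans (Function.update_of_ne hij c U).symm
    · rw [Function.update_of_ne ha]
      by_cases hb : a = j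
      · subst hb
        rw [Function.update_self, Function.update_self]
      · rw [Function.update_of_ne hb, Function.update_of_ne ha, Function.update_of_ne hb]⟩

theorem can_surj (c : T.B j) (c' : letI := flAct (K i); Fb (flq (K i)) (T.up j U c)) :
    ∃ f : Fg D i U, c' = can K hij f c := by
  let := flAct (K i)
  obtain ⟨⟨⟨p, W⟩, hW⟩, h⟩ := c'
  have h1 : ∀ a, Function.update W i (D.vt i (fe D i ⟨(p, W), hW⟩)) a =
      Function.update U j c a := congrFun h
  refine ⟨⟨p, ?_⟩, Subtype.ext (Subtype.ext (Prod.ext rfl (funext fun a => ?_)))⟩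
  · have h2 := h1 i
    rw [Function.update_self, Function.update_of_ne hij] at h2
    exact h2.symm
  · show W a = Function.update (Function.update U i (D.ed i p.1)) j c a
    by_cases hb : a = j
    · subst hb
      have h2 := h1 a
      rw [Function.update_self, Function.update_of_ne hij.symm] at h2
      rw [Function.update_self]
      exact h2
    · rw [Function.update_of_ne hb]
      by_cases ha : a = i
      · subst ha
        rw [Function.update_self]
        exact hW
      · have h2 := h1 a
        rw [Function.update_of_ne ha, Function.update_of_ne hb] at h2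
        rw [Function.update_of_ne ha]
        exact h2

theorem can_inj {f f' : Fg D i U} {c : T.B j} (h : can K hij f c = can K hij f' c) : f = f' :=
  Subtype.ext (congrArg (fun z => z.1.1.1) h)

/-- The inclusion of a summand. -/
noncomputable def inY (f : Fg D i U) (c : T.B j) :
    M.obj (op (Bx.of (T.up j (bo f) c))) →ₗ[k]
      ((Yf K k i).obj M).obj (op (Bx.of (T.up j U c))) :=
  letI := flAct (K i)
  yl (flq (K i)) ((pb k (flr (K i))).obj M) (can K hij f c)

open Classical in
/-- The projection to a summand. -/
noncomputable def prY (f : Fg D i U) (c : T.B j) :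
    ((Yf K k i).obj M).obj (op (Bx.of (T.up j U c))) →ₗ[k]
      M.obj (op (Bx.of (T.up j (bo f) c))) :=
  letI := flAct (K i)
  DirectSum.component k (Fb (flq (K i)) (T.up j U c))
    (fun c => ((pb k (flr (K i))).obj M).obj (op (Bx.of c.1))) (can K hij f c)

theorem prY_self (f : Fg D i U) (c : T.B j) (x : M.obj (op (Bx.of (T.up j (bo f) c)))) :
    prY K hij M f c (inY K hij M f c x) = x := by
  classical
  let := flAct (K i)
  exact DirectSum.component.lof_self k
    (M := fun c : Fb (flq (K i)) (T.up j U c) => ((pb k (flr (K i))).obj M).obj (op (Bx.of c.1)))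
    (can K hij f c) x

theorem prY_ne {f f' : Fg D i U} (hf : f ≠ f') (c : T.B j)
    (x : M.obj (op (Bx.of (T.up j (bo f') c)))) :
    prY K hij M f c (inY K hij M f' c x) = 0 := by
  classical
  let := flAct (K i)
  exact DirectSum.of_eq_of_ne (β := fun c : Fb (flq (K i)) (T.up j U c) =>
    ((pb k (flr (K i))).obj M).obj (op (Bx.of c.1))) (can K hij f' c) (can K hij f c) x
    fun h => hf (can_inj K hij h)

/-- Two linear maps which agree on all summands. -/
theorem Y_ext {c : T.B j} {Y : Type u} [AddCommGroup Y] [Module k Y]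
    {a b : ((Yf K k i).obj M).obj (op (Bx.of (T.up j U c))) →ₗ[k] Y}
    (h : ∀ f x, a (inY K hij M f c x) = b (inY K hij M f c x)) : a = b := by
  let := flAct (K i)
  refine y_ext (flq (K i)) ((pb k (flr (K i))).obj M) fun c' x => ?_
  obtain ⟨f, rfl⟩ := can_surj K hij c c'
  exact h f x

theorem mapY (f : Fg D i U) {c c' : T.B j} (h : c' ≤ c)
    (x : M.obj (op (Bx.of (T.up j (bo f) c)))) :
    (((Yf K k i).obj M).map (Bx.ofLe (T.up_le Finset.univ j U h)).op).hom
      (inY K hij M f c x) = inY K hij M f c'
        ((M.map (Bx.ofLe (T.up_le Finset.univ j (bo f) h)).op).hom x) := by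
  let := flAct (K i)
  refine (ym_yl (flq (K i)) ((pb k (flr (K i))).obj M)
    (Bx.ofLe (T.up_le Finset.univ j U h)) (can K hij f c) x).trans ?_
  have h1 : (flP (K i)).le (can K hij f c').1 (can K hij f c).1 :=
    ⟨rfl, T.up_le Finset.univ j (bo f) h⟩
  refine (yl_eq (flq (K i)) ((pb k (flr (K i))).obj M) (c' := can K hij f c')
    (d := Bx.of (can K hij f c).1) ?_
    ((flq (K i)).hm (Bx.ofLe (T.up_le Finset.univ j U h)) (can K hij f c)) (Bx.ofLe h1)
    rfl x).trans ?_
  · refine ((flq (K i)).eq_tr _ _ _ ?_).symm
    have h2 : Bx.el (Bx.ofLe (T.up_le Finset.univ j U h)) = 1 := rfl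
    rw [h2, one_smul]
    exact h1
  · rfl

variable {I : Type u} (w : I → T.B j)

variable (D i) in
/-- The sum over the edges of the sums. -/
abbrev XX (U : T.Box) : Type u := DirectSum (Fg D i U) fun f => DirectSum I fun a =>
  M.obj (op (Bx.of (T.up j (bo f) (w a))))

/-- The sum of the sums over the edges. -/
abbrev YY (U : T.Box) : Type u := DirectSum I fun a =>
  ((Yf K k i).obj M).obj (op (Bx.of (T.up j U (w a))))

open Classical in
/-- Interchanging the sums. -/
noncomputable def al (U : T.Box) : XX D i M w U →ₗ[k] YY (i := i) K M w U :=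
  DirectSum.toModule k (Fg D i U) _ fun f => DirectSum.toModule k I _ fun a =>
    DirectSum.lof k I (fun a => ((Yf K k i).obj M).obj (op (Bx.of (T.up j U (w a))))) a ∘ₗ
      inY K hij M f (w a)

open Classical in
/-- The element of `XX`. -/
noncomputable def lx (f : Fg D i U) (a : I) :
    M.obj (op (Bx.of (T.up j (bo f) (w a)))) →ₗ[k] XX D i M w U :=
  DirectSum.lof k (Fg D i U) (fun f => DirectSum I fun a =>
    M.obj (op (Bx.of (T.up j (bo f) (w a))))) f ∘ₗ
    DirectSum.lof k I (fun a => M.obj (op (Bx.of (T.up j (bo f) (w a))))) a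

open Classical in
/-- The element of `YY`. -/
noncomputable def ly (a : I) :
    ((Yf K k i).obj M).obj (op (Bx.of (T.up j U (w a)))) →ₗ[k] YY (i := i) K M w U :=
  DirectSum.lof k I (fun a => ((Yf K k i).obj M).obj (op (Bx.of (T.up j U (w a))))) a

theorem al_lx (f : Fg D i U) (a : I) (x : M.obj (op (Bx.of (T.up j (bo f) (w a))))) :
    al K hij M w U (lx M w f a x) = ly K M w a (inY K hij M f (w a) x) := by
  rw [al]
  erw [DirectSum.toModule_lof, DirectSum.toModule_lof]
  rfl

theorem X_ext {Y : Type u} [AddCommGroup Y] [Module k Y] {a b : XX D i M w U →ₗ[k] Y}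
    (h : ∀ f c x, a (lx M w f c x) = b (lx M w f c x)) : a = b := by
  classical
  exact DirectSum.linearMap_ext k fun f => DirectSum.linearMap_ext k fun c =>
    LinearMap.ext fun x => h f c x

theorem YY_ext {Y : Type u} [AddCommGroup Y] [Module k Y] {a b : YY (i := i) K M w U →ₗ[k] Y}
    (h : ∀ c f x, a (ly K M w c (inY K hij M f (w c) x)) =
      b (ly K M w c (inY K hij M f (w c) x))) : a = b := by
  classical
  exact DirectSum.linearMap_ext k fun c => Y_ext K hij M fun f x => h c f x

theorem al_comp (f : Fg D i U) (a : I) (x : XX D i M w U) :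
    prY K hij M f (w a) ((al K hij M w U x) a) = (x f) a := by
  classical
  have h1 : prY K hij M f (w a) ∘ₗ DirectSum.component k I
      (fun a => ((Yf K k i).obj M).obj (op (Bx.of (T.up j U (w a))))) a ∘ₗ al K hij M w U =
      DirectSum.component k I (fun a => M.obj (op (Bx.of (T.up j (bo f) (w a))))) a ∘ₗ
        DirectSum.component k (Fg D i U) (fun f => DirectSum I fun a =>
          M.obj (op (Bx.of (T.up j (bo f) (w a))))) f := by
    refine X_ext M w fun f' a' z => ?_
    show prY K hij M f (w a) ((al K hij M w U (lx M w f' a' z)) a) = ((lx M w f' a' z) f) a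
    rw [al_lx]
    by_cases ha : a = a'
    · subst ha
      have e1 : (ly K M w a (inY K hij M f' (w a) z)) a = inY K hij M f' (w a) z :=
        DirectSum.lof_apply k a _
      rw [e1]
      by_cases hf : f = f'
      · subst hf
        have e2 : (lx M w f a z) f = DirectSum.lof k I
            (fun a => M.obj (op (Bx.of (T.up j (bo f) (w a))))) a z := DirectSum.lof_apply k f _
        rw [prY_self, e2]
        exact (DirectSum.lof_apply k
          (M := fun a => M.obj (op (Bx.of (T.up j (bo f) (w a))))) a z).symm
      · have e2 : (lx M w f' a z) f = 0 := DirectSum.of_eq_of_ne f' f _ hf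
        rw [prY_ne K hij M hf, e2]
        rfl
    · have e1 : (ly K M w a' (inY K hij M f' (w a') z)) a = 0 := DirectSum.of_eq_of_ne a' a _ ha
      rw [e1, map_zero]
      by_cases hf : f = f'
      · subst hf
        have e2 : (lx M w f a' z) f = DirectSum.lof k I
            (fun a => M.obj (op (Bx.of (T.up j (bo f) (w a))))) a' z := DirectSum.lof_apply k f _
        rw [e2]
        exact (DirectSum.of_eq_of_ne
          (β := fun a => M.obj (op (Bx.of (T.up j (bo f) (w a))))) a' a z ha).symm
      · have e2 : (lx M w f' a' z) f = 0 := DirectSum.of_eq_of_ne f' f _ hf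
        rw [e2]
        rfl
  exact LinearMap.congr_fun h1 x

theorem al_bij : Function.Bijective (al (U := U) K hij M w) := by
  classical
  constructor
  · intro x y h
    refine DFinsupp.ext fun f => DFinsupp.ext fun a => ?_
    have h1 := al_comp K hij M w f a x
    have h2 := al_comp K hij M w f a y
    rw [h] at h1
    exact h1.symm.trans h2
  · rw [← LinearMap.range_eq_top, ← Submodule.ker_mkQ (LinearMap.range (al (U := U) K hij M w))]
    rw [LinearMap.ker_eq_top]
    refine YY_ext K hij M w fun c f x => ?_
    rw [LinearMap.zero_apply, ← al_lx]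
    exact (Submodule.Quotient.mk_eq_zero _).2 ⟨_, rfl⟩

end

section

variable {Γ : Type u} [Group Γ] {T : Sys Γ} {D : T.Tr} [∀ j, MulAction Γ (D.V j)]
  [∀ j, MulAction Γ (D.E j)] (K : ∀ j, Mk D j) {k : Type u} [Ring k] {i j : Fin T.m}
  (hij : i ≠ j) (M : Fn k (T.P Finset.univ)) (U : T.Box)

open Classical in
theorem bd_lof (N : Fn k (T.P Finset.univ)) (e : D.E j)
    (z : N.obj (op (Bx.of (T.up j U (D.ed j e))))) :
    D.bd N j U (DirectSum.lof k (D.E j) (fun e => N.obj (op (Bx.of (T.up j U (D.ed j e))))) e z) =
      DirectSum.lof k (D.V j) (fun v => N.obj (op (Bx.of (T.up j U (D.vt j v))))) (D.s j e)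
        ((N.map (Bx.ofLe (T.up_le Finset.univ j U (D.sle j e))).op).hom z) -
      DirectSum.lof k (D.V j) (fun v => N.obj (op (Bx.of (T.up j U (D.vt j v))))) (D.t j e)
        ((N.map (Bx.ofLe (T.up_le Finset.univ j U (D.tle j e))).op).hom z) := by
  rw [Sys.Tr.bd]
  erw [DirectSum.toModule_lof]
  rfl

theorem bd_al (x : XX D i M (D.ed j) U) :
    D.bd ((Yf K k i).obj M) j U (al K hij M (D.ed j) U x) =
      al K hij M (D.vt j) U (DirectSum.lmap (fun f : Fg D i U => D.bd M j (bo f)) x) := by
  classical
  have h1 : D.bd ((Yf K k i).obj M) j U ∘ₗ al K hij M (D.ed j) U =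
      al K hij M (D.vt j) U ∘ₗ DirectSum.lmap (fun f : Fg D i U => D.bd M j (bo f)) := by
    refine X_ext M (D.ed j) fun f e z => ?_
    show D.bd ((Yf K k i).obj M) j U (al K hij M (D.ed j) U (lx M (D.ed j) f e z)) =
      al K hij M (D.vt j) U (DirectSum.lmap (fun f : Fg D i U => D.bd M j (bo f))
        (lx M (D.ed j) f e z))
    have e1 : DirectSum.lmap (fun f : Fg D i U => D.bd M j (bo f)) (lx M (D.ed j) f e z) =
        lx M (D.vt j) f (D.s j e) ((M.map (Bx.ofLe (T.up_le Finset.univ j (bo f)
            (D.sle j e))).op).hom z) -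
          lx M (D.vt j) f (D.t j e) ((M.map (Bx.ofLe (T.up_le Finset.univ j (bo f)
            (D.tle j e))).op).hom z) := by
      refine (DirectSum.lmap_lof (fun f : Fg D i U => D.bd M j (bo f)) f _).trans ?_
      exact (congrArg _ (bd_lof (bo f) M e z)).trans (map_sub _ _ _)
    rw [al_lx, e1, map_sub, al_lx, al_lx, ← mapY K hij M f (D.sle j e),
      ← mapY K hij M f (D.tle j e)]
    exact bd_lof U ((Yf K k i).obj M) e (inY K hij M f (D.ed j e) z)
  exact LinearMap.congr_fun h1 x

end

end Pool.Agent.NegK.NT.NL.Tcy

namespace Pool.Agent.NegK.NT.NL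

universe u

open Tcy in
/-- TCY. `Yf i` preserves the acyclicity in the other directions. -/
theorem tcy : TcyStatement.{u} := by
  classical
  intro Γ _ T D _ _ K k _ i j M hij hM U
  have h1 : Function.Bijective (DirectSum.lmap (fun f : Fg D i U => D.bd M j (bo f))) := by
    constructor
    · intro x y h
      refine DFinsupp.ext fun f => (hM (bo f)).1 ?_
      exact DFunLike.congr_fun h f
    · intro y
      have h2 : y ∈ LinearMap.range (DirectSum.lmap (fun f : Fg D i U => D.bd M j (bo f))) := by
        rw [DirectSum.range_lmap]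
        intro f _
        exact (hM (bo f)).2 _
      exact h2
  have h2 : Function.Bijective (D.bd ((Yf K k i).obj M) j U ∘ al K hij M (D.ed j) U) := by
    have h3 : D.bd ((Yf K k i).obj M) j U ∘ al K hij M (D.ed j) U =
        al K hij M (D.vt j) U ∘ DirectSum.lmap (fun f : Fg D i U => D.bd M j (bo f)) :=
      funext fun x => bd_al K hij M U x
    rw [h3]
    exact (al_bij K hij M (D.vt j)).comp h1
  exact (Function.Bijective.of_comp_iff _ (al_bij K hij M (D.ed j))).1 h2

end Pool.Agent.NegK.NT.NL
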