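import Pool.Agent.Lib.MP_28303a_al.NT.NL.Defs

/-! # Row TCZ: extensions by zero preserve the acyclicity in the other directions -/

set_option autoImplicit false
set_option linter.unusedSectionVars false

namespace Pool.Agent.NegK.NT.NL

universe u

open CategoryTheory Limits Opposite
open Pool.Agent.NegK.TW Pool.Agent.NegK.NT.ER Pool.Agent.NegK.NT.ER61

namespace Tcz

section

variable {Γ : Type u} [Group Γ] {T : Sys Γ} {D : T.Tr} [∀ j, MulAction Γ (D.V j)]
  [∀ j, MulAction Γ (D.E j)] (K : ∀ j, Mk D j) {k : Type u} [Ring k] {i j : Fin T.m}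
  (M : Fn k (T.P Finset.univ))

theorem mem_up (hij : i ≠ j) {U : T.Box} (h : U ∈ nv (K i)) (c : T.B j) :
    T.up j U c ∈ nv (K i) := by
  intro v
  show Function.update U j c i ≠ _
  rw [Function.update_of_ne hij]
  exact h v

theorem of_mem_up (hij : i ≠ j) {U : T.Box} {c : T.B j} (h : T.up j U c ∈ nv (K i)) :
    U ∈ nv (K i) := by
  intro v hv
  apply h v
  show Function.update U j c i = _
  rw [Function.update_of_ne hij]
  exact hv

/-- The value of the extension by zero at a box of the set. -/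
noncomputable def ez {U : T.Box} (h : U ∈ nv (K i)) :
    ((Zf K k i).obj M).obj (op (Bx.of U)) ≃ₗ[k] M.obj (op (Bx.of U)) where
  toFun x := x ⟨h⟩
  map_add' _ _ := rfl
  map_smul' _ _ := rfl
  invFun y := fun _ => y
  left_inv x := rfl
  right_inv y := rfl

theorem ez_map {U V : T.Box} (hU : U ∈ nv (K i)) (hV : V ∈ nv (K i))
    (f : (Bx.of U : Bx (T.P Finset.univ)) ⟶ Bx.of V)
    (x : ((Zf K k i).obj M).obj (op (Bx.of V))) :
    ez K M hU ((((Zf K k i).obj M).map f.op).hom x) = (M.map f.op).hom (ez K M hV x) := rfl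

theorem ez_sub {U : T.Box} (h : U ∉ nv (K i)) :
    Subsingleton (((Zf K k i).obj M).obj (op (Bx.of U))) :=
  ⟨fun _ _ => funext fun h' => absurd h'.down h⟩

end

end Tcz

open Tcz in
/-- **Row TCZ.** -/
theorem tcz : TczStatement.{u} := by
  classical
  intro Γ _ T D _ _ K k _ i j M hij hM U
  by_cases hU : U ∈ nv (K i)
  · let eE : (DirectSum (D.E j) fun e => ((Zf K k i).obj M).obj (op (Bx.of (T.up j U (D.ed j e)))))
        ≃ₗ[k] DirectSum (D.E j) fun e => M.obj (op (Bx.of (T.up j U (D.ed j e)))) :=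
      DFinsupp.mapRange.linearEquiv fun e => ez K M (mem_up K hij hU (D.ed j e))
    let eV : (DirectSum (D.V j) fun v => ((Zf K k i).obj M).obj (op (Bx.of (T.up j U (D.vt j v)))))
        ≃ₗ[k] DirectSum (D.V j) fun v => M.obj (op (Bx.of (T.up j U (D.vt j v)))) :=
      DFinsupp.mapRange.linearEquiv fun v => ez K M (mem_up K hij hU (D.vt j v))
    have hE : ∀ e x, eE (DirectSum.lof k (D.E j) (fun e => ((Zf K k i).obj M).obj
        (op (Bx.of (T.up j U (D.ed j e))))) e x) =
        DirectSum.lof k (D.E j) (fun e => M.obj (op (Bx.of (T.up j U (D.ed j e))))) e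
          (ez K M (mem_up K hij hU (D.ed j e)) x) := fun e x =>
      DFinsupp.mapRange_single (hf := fun _ => map_zero _)
    have hV : ∀ v x, eV (DirectSum.lof k (D.V j) (fun v => ((Zf K k i).obj M).obj
        (op (Bx.of (T.up j U (D.vt j v))))) v x) =
        DirectSum.lof k (D.V j) (fun v => M.obj (op (Bx.of (T.up j U (D.vt j v))))) v
          (ez K M (mem_up K hij hU (D.vt j v)) x) := fun v x =>
      DFinsupp.mapRange_single (hf := fun _ => map_zero _)
    have key : (eV : _ →ₗ[k] _) ∘ₗ D.bd ((Zf K k i).obj M) j U =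
        D.bd M j U ∘ₗ (eE : _ →ₗ[k] _) := by
      refine DirectSum.linearMap_ext k fun e => LinearMap.ext fun x => ?_
      show eV (D.bd ((Zf K k i).obj M) j U (DirectSum.lof k (D.E j) _ e x)) =
        D.bd M j U (eE (DirectSum.lof k (D.E j) _ e x))
      rw [hE]
      unfold Sys.Tr.bd
      rw [DirectSum.toModule_lof, DirectSum.toModule_lof, LinearMap.sub_apply, map_sub,
        LinearMap.comp_apply, LinearMap.comp_apply, hV, hV]
      rfl
    have h2 : ∀ x, eV (D.bd ((Zf K k i).obj M) j U x) = D.bd M j U (eE x) := fun x =>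
      LinearMap.congr_fun key x
    constructor
    · intro x y hxy
      apply eE.injective
      apply (hM U).1
      rw [← h2, ← h2, hxy]
    · intro y
      obtain ⟨x, hx⟩ := (hM U).2 (eV y)
      refine ⟨eE.symm x, eV.injective ?_⟩
      rw [h2, LinearEquiv.apply_symm_apply, hx]
  · have h1 : ∀ c, Subsingleton (((Zf K k i).obj M).obj (op (Bx.of (T.up j U c)))) := fun c =>
      ez_sub K M fun h => hU (of_mem_up K hij h)
    constructor
    · intro x y _
      exact DFinsupp.ext fun e => (h1 _).elim _ _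
    · intro y
      exact ⟨0, DFinsupp.ext fun v => (h1 _).elim _ _⟩

end Pool.Agent.NegK.NT.NL
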