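import Pool.Agent.Lib.MP_28303a_al.NT.NL.Defs

/-! # Row VNZ: vanishing -/

set_option autoImplicit false
set_option linter.unusedSectionVars false

namespace Pool.Agent.NegK.NT.NL

universe u

open CategoryTheory Limits Opposite
open Pool.Agent.NegK.TW Pool.Agent.NegK.NT.ER Pool.Agent.NegK.NT.ER61

/-- **Row VNZ.** -/
theorem vnz : VnzStatement.{u} := by
  intro Γ _ T D _ _ K k _ j A M hM
  constructor
  · intro U hU
    refine ⟨fun x y => funext fun h => ?_⟩
    have h1 : Subsingleton (M.obj (op (Bx.of U))) := by
      apply hM U
      intro i hi v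
      by_cases hij : i = j
      · subst hij
        exact h.down v
      · exact hU i (Finset.mem_erase.2 ⟨hij, hi⟩) v
    exact h1.elim (x h) (y h)
  · intro U hU
    let := flAct (K j)
    have h1 : ∀ c : Fb (flq (K j)) U,
        Subsingleton (((pb k (flr (K j))).obj M).obj (op (Bx.of c.1))) := by
      intro c
      apply hM
      intro i hi v
      by_cases hij : i = j
      · subst hij
        intro h2
        have h3 : (c.1 : Fl D i).1.2 i = D.ed i (c.1 : Fl D i).1.1.1 := (c.1 : Fl D i).2
        exact (K i).ed_vt _ v (h3.symm.trans h2)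
      · intro h2
        apply hU i (Finset.mem_erase.2 ⟨hij, hi⟩) v
        have h3 : (flq (K j)).φ c.1 = U := c.2
        rw [← h3]
        change Function.update c.1.1.2 j _ i = _
        rw [Function.update_of_ne hij]
        exact h2
    classical
    refine ⟨fun x y => ?_⟩
    exact DFinsupp.ext fun c => (h1 c).elim _ _

end Pool.Agent.NegK.NT.NL
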