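import Pool.Agent.Lib.MP_28303a_al.NT.NL.Defs
import Pool.Agent.Lib.MP_28303a_al.NT.ER98.Ve

/-! # Row YEV: the functor `Yf` maps finite located modules to such modules (helper94) -/

set_option autoImplicit false
set_option linter.unusedSectionVars false
set_option linter.unusedVariables false

namespace Pool.Agent.NegK.NT.NL

universe u

open CategoryTheory Limits Opposite
open Pool.Agent.NegK.TW Pool.Agent.NegK.NT.ER

namespace Yev

section

variable {k : Type u} [Ring k] {Γ : Type u} [Group Γ] {B C : Type u} [MulAction Γ B]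
  [MulAction Γ C] {P : Pre Γ B} {Q : Pre Γ C}

/-! ### Restriction along a map -/

theorem coeff_mapDomain {ι ι' : Type u} (π : ι' → ι) (x : ι' →₀ MonoidAlgebra k Γ) (i : ι)
    (g : Γ) : (Finsupp.mapDomain π x i).coeff g =
      ∑ p ∈ x.support, ((Finsupp.single (π p) (x p) : ι →₀ MonoidAlgebra k Γ) i).coeff g := by
  classical
  rw [Finsupp.mapDomain, Finsupp.sum, Finsupp.finsetSum_apply, MonoidAlgebra.coeff_sum,
    Finset.sum_apply']

theorem map_mem {m : Loc.Mono Q P} {A : Loc k P} {A' : Loc k Q} {π : A'.ι → A.ι}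
    (h1 : ∀ p, P.le (m.φ (A'.loc p)) (A.loc (π p))) {c : C} {x : A'.F} (hx : x ∈ A'.evS c) :
    (Finsupp.mapDomain π x : A.F) ∈ A.evS (m.φ c) := by
  classical
  intro i g hg
  rw [coeff_mapDomain] at hg
  obtain ⟨p, hp, hp'⟩ := Finset.exists_ne_zero_of_sum_ne_zero hg
  rw [Finsupp.single_apply] at hp'
  split_ifs at hp' with h
  · subst h
    have h2 := m.le (hx p g hp')
    rw [m.smul] at h2
    exact P.trans h2 (P.smul g (h1 p))
  · exact absurd rfl hp'

/-- The map to the restriction. -/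
noncomputable def psi {m : Loc.Mono Q P} {A : Loc k P} {A' : Loc k Q} {π : A'.ι → A.ι}
    (h1 : ∀ p, P.le (m.φ (A'.loc p)) (A.loc (π p))) :
    Loc.ev.obj A' ⟶ (pb k m).obj (Loc.ev.obj A) where
  app U := ModuleCat.ofHom
    { toFun := fun x => (⟨Finsupp.mapDomain π x.1, map_mem h1 x.2⟩ : A.evS (m.φ U.unop.pt))
      map_add' := fun x y => Subtype.ext Finsupp.mapDomain_add
      map_smul' := fun c x => Subtype.ext (Finsupp.mapDomain_smul c x.1) }
  naturality U V f := by
    refine ModuleCat.hom_ext (LinearMap.ext fun x => Subtype.ext ?_)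
    exact Finsupp.mapDomain_smul (MonoidAlgebra.single (Bx.el f.unop) (1 : k)) _

theorem psi_bij {m : Loc.Mono Q P} {A : Loc k P} {A' : Loc k Q} {π : A'.ι → A.ι}
    (h1 : ∀ p, P.le (m.φ (A'.loc p)) (A.loc (π p)))
    (h2 : ∀ c i (g : Γ), P.le (m.φ c) (g • A.loc i) → ∃! p, π p = i ∧ Q.le c (g • A'.loc p))
    (U : (Bx Q)ᵒᵖ) : Function.Bijective ((psi (k := k) h1).app U).hom := by
  classical
  constructor
  · rw [injective_iff_map_eq_zero]
    intro x hx
    have h3 : Finsupp.mapDomain π (x : A'.evS U.unop.pt).1 = 0 :=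
      congrArg (fun z => (z : A.evS (m.φ U.unop.pt)).1) hx
    refine Subtype.ext (Finsupp.ext fun p => ?_)
    show (x : A'.evS U.unop.pt).1 p = 0
    ext g
    by_contra hc
    have hc' : ((x : A'.evS U.unop.pt).1 p).coeff g ≠ 0 := hc
    have h4 := (x : A'.evS U.unop.pt).2 p g hc'
    have h5 : P.le (m.φ U.unop.pt) (g • A.loc (π p)) := by
      have h6 := m.le h4
      rw [m.smul] at h6
      exact P.trans h6 (P.smul g (h1 p))
    obtain ⟨q, -, hq⟩ := h2 _ _ _ h5
    have h7 : (Finsupp.mapDomain π (x : A'.evS U.unop.pt).1 (π p)).coeff g =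
        ((x : A'.evS U.unop.pt).1 p).coeff g := by
      rw [coeff_mapDomain, Finset.sum_eq_single p]
      · rw [Finsupp.single_eq_same]
      · intro r _ hr
        rw [Finsupp.single_apply]
        split_ifs with hrp
        · by_contra hr'
          have h8 := (x : A'.evS U.unop.pt).2 r g hr'
          exact hr ((hq r ⟨hrp, h8⟩).trans (hq p ⟨rfl, h4⟩).symm)
        · rfl
      · intro hp
        rw [Finsupp.notMem_support_iff.1 hp, Finsupp.single_zero]
        rfl
    rw [h3] at h7
    exact hc' h7.symm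
  · intro y
    have h3 : ∃ x ∈ A'.evS U.unop.pt, (Finsupp.mapDomain π x : A.F) =
        (y : A.evS (m.φ U.unop.pt)).1 := by
      refine Ve98.evS_induction A (m.φ U.unop.pt) (p := fun y => ∃ x ∈ A'.evS U.unop.pt,
        (Finsupp.mapDomain π x : A.F) = y) ⟨0, Submodule.zero_mem _, Finsupp.mapDomain_zero⟩
        ?_ ?_ _ (y : A.evS (m.φ U.unop.pt)).2
      · rintro x x' ⟨y, hy, rfl⟩ ⟨y', hy', rfl⟩
        exact ⟨y + y', Submodule.add_mem _ hy hy', Finsupp.mapDomain_add⟩
      · intro i g r hi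
        obtain ⟨p, ⟨hp, hp'⟩, -⟩ := h2 _ _ _ hi
        refine ⟨Finsupp.single p (MonoidAlgebra.single g r), ?_, ?_⟩
        · intro q l hl
          rw [Finsupp.single_apply] at hl
          split_ifs at hl with hq
          · subst hq
            rw [MonoidAlgebra.coeff_single, Finsupp.single_apply] at hl
            split_ifs at hl with hg
            · subst hg
              exact hp'
            · exact absurd rfl hl
          · exact absurd rfl hl
        · rw [Finsupp.mapDomain_single, hp]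
    obtain ⟨x, hx, hxy⟩ := h3
    exact ⟨(⟨x, hx⟩ : A'.evS U.unop.pt), Subtype.ext hxy⟩

theorem pb_ev {m : Loc.Mono Q P} {A : Loc k P} {A' : Loc k Q} {π : A'.ι → A.ι}
    (h1 : ∀ p, P.le (m.φ (A'.loc p)) (A.loc (π p)))
    (h2 : ∀ c i (g : Γ), P.le (m.φ c) (g • A.loc i) → ∃! p, π p = i ∧ Q.le c (g • A'.loc p)) :
    Nonempty ((pb k m).obj (Loc.ev.obj A) ≅ Loc.ev.obj A') := by
  have h3 : ∀ U, IsIso ((psi (k := k) h1).app U) := fun U =>
    (ConcreteCategory.isIso_iff_bijective _).2 (psi_bij h1 h2 U)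
  have h4 : IsIso (psi (k := k) h1) := NatIso.isIso_of_isIso_app _
  exact ⟨(asIso (psi (k := k) h1)).symm⟩

/-! ### Direct image -/

/-- The image of a located module. -/
abbrev im (q : Dfib Q P) (A : Loc k Q) : Loc k P := ⟨A.ι, fun i => q.φ (A.loc i)⟩

theorem im_mem (q : Dfib Q P) (A : Loc k Q) {U : B} (c : Fb q U) {x : A.F}
    (hx : x ∈ A.evS c.1) : (x : (im q A).F) ∈ (im q A).evS U := by
  intro i g hg
  have h1 := q.le (hx i g hg)
  rw [q.smul, c.2] at h1
  exact h1

/-- The inclusion of a summand. -/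
noncomputable def inl (q : Dfib Q P) (A : Loc k Q) {U : B} (c : Fb q U) :
    A.evS c.1 →ₗ[k] (im q A).evS U where
  toFun x := ⟨x.1, im_mem q A c x.2⟩
  map_add' _ _ := rfl
  map_smul' _ _ := rfl

open Classical in
/-- The map from the direct sum. -/
noncomputable def tau (q : Dfib Q P) (A : Loc k Q) (U : B) :
    (DirectSum (Fb q U) fun c => (Loc.ev.obj A).obj (op (Bx.of c.1))) →ₗ[k] (im q A).evS U :=
  DirectSum.toModule k (Fb q U) _ fun c => inl q A c

theorem tau_yl (q : Dfib Q P) (A : Loc k Q) {U : B} (c : Fb q U) (x : A.evS c.1) :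
    tau q A U (yl q (Loc.ev.obj A) c x) = inl q A c x := by
  classical
  rw [tau]
  erw [DirectSum.toModule_lof]
  rfl

/-- The natural map. -/
noncomputable def chi (q : Dfib Q P) (A : Loc k Q) :
    (yy q).obj (Loc.ev.obj A) ⟶ Loc.ev.obj (im q A) where
  app U := ModuleCat.ofHom (tau q A U.unop.pt)
  naturality U V f := by
    refine ModuleCat.hom_ext (y_ext q (Loc.ev.obj A) fun c x => ?_)
    show tau q A V.unop.pt (ym q (Loc.ev.obj A) f.unop (yl q (Loc.ev.obj A) c x)) =
      (((Loc.ev.obj (im q A)).map f).hom (tau q A U.unop.pt (yl q (Loc.ev.obj A) c x)))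
    rw [ym_yl, tau_yl, tau_yl]
    rfl

/-- A coefficient. -/
noncomputable def cf (A : Loc k Q) (i : A.ι) (g : Γ) : A.F →ₗ[k] k where
  toFun x := (x i).coeff g
  map_add' x y := by
    rw [Finsupp.add_apply, MonoidAlgebra.coeff_add, Finsupp.add_apply]
  map_smul' c x := by
    rw [Finsupp.smul_apply, MonoidAlgebra.coeff_smul, Finsupp.smul_apply]
    rfl

open Classical in
theorem cf_tau (q : Dfib Q P) (A : Loc k Q) {U : B} (i : A.ι) (g : Γ) (c : Fb q U)
    (hc : Q.le c.1 (g • A.loc i))
    (x : DirectSum (Fb q U) fun c => (Loc.ev.obj A).obj (op (Bx.of c.1))) :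
    ((tau q A U x).1 i).coeff g = ((x c : A.evS c.1).1 i).coeff g := by
  have h1 : (cf A i g ∘ₗ (Submodule.subtype ((im q A).evS U)) ∘ₗ tau q A U :
      (DirectSum (Fb q U) fun c => (Loc.ev.obj A).obj (op (Bx.of c.1))) →ₗ[k] k) =
      cf A i g ∘ₗ (Submodule.subtype (A.evS c.1)) ∘ₗ
        (DirectSum.component k (Fb q U) (fun c => A.evS c.1) c) := by
    refine y_ext q (Loc.ev.obj A) fun c' x => ?_
    show cf A i g (tau q A U (yl q (Loc.ev.obj A) c' x)).1 =
      cf A i g ((DirectSum.component k (Fb q U) (fun c => A.evS c.1) c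
        (DirectSum.lof k (Fb q U) (fun c => A.evS c.1) c' x) : A.evS c.1)).1
    rw [tau_yl]
    by_cases h : c' = c
    · subst h
      rw [DirectSum.component.lof_self]
      rfl
    · rw [DirectSum.component.of]
      rw [dif_neg h]
      show ((x : A.evS c'.1).1 i).coeff g = 0
      by_contra hc'
      have h2 := (x : A.evS c'.1).2 i g hc'
      apply h
      have h3 := q.uniq h2
      have h4 := q.uniq hc
      rw [c'.2] at h3
      rw [c.2] at h4
      exact Subtype.ext (h3.trans h4.symm)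
  exact LinearMap.congr_fun h1 x

theorem chi_bij (q : Dfib Q P) (A : Loc k Q) (U : (Bx P)ᵒᵖ) :
    Function.Bijective ((chi q A).app U).hom := by
  classical
  constructor
  · rw [injective_iff_map_eq_zero]
    intro (x : DirectSum (Fb q U.unop.pt) fun c => (Loc.ev.obj A).obj (op (Bx.of c.1))) hx
    have hx' : tau q A U.unop.pt x = 0 := hx
    refine DFinsupp.ext fun c => ?_
    refine Subtype.ext (Finsupp.ext fun i => ?_)
    show ((x c : A.evS c.1).1 i) = 0
    ext g
    by_contra hc
    have hc' : ((x c : A.evS c.1).1 i).coeff g ≠ 0 := hc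
    have h1 := (x c : A.evS c.1).2 i g hc'
    rw [← cf_tau q A i g c h1 x, hx'] at hc'
    exact hc' rfl
  · intro y
    have h3 : ∀ z ∈ (im q A).evS U.unop.pt,
        ∃ x : DirectSum (Fb q U.unop.pt) fun c => (Loc.ev.obj A).obj (op (Bx.of c.1)),
          (tau q A U.unop.pt x).1 = z := by
      refine Ve98.evS_induction (im q A) U.unop.pt (p := fun z =>
        ∃ x : DirectSum (Fb q U.unop.pt) fun c => (Loc.ev.obj A).obj (op (Bx.of c.1)),
          (tau q A U.unop.pt x).1 = z) ⟨0, by rw [map_zero]; rfl⟩ ?_ ?_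
      · rintro z z' ⟨x, rfl⟩ ⟨x', rfl⟩
        exact ⟨x + x', by rw [map_add]; rfl⟩
      · intro i g r hi
        have h4 : P.le U.unop.pt (q.φ (g • A.loc i)) := by
          rw [q.smul]
          exact hi
        let c : Fb q U.unop.pt := ⟨q.lf U.unop.pt (g • A.loc i), q.φ_lf h4⟩
        have h5 : (Finsupp.single i (MonoidAlgebra.single g r) : A.F) ∈ A.evS c.1 := by
          intro i' g' hg
          rw [Finsupp.single_apply] at hg
          split_ifs at hg with hi'
          · subst hi'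
            rw [MonoidAlgebra.coeff_single, Finsupp.single_apply] at hg
            split_ifs at hg with hg'
            · subst hg'
              exact q.lf_le h4
            · exact absurd rfl hg
          · exact absurd rfl hg
        exact ⟨yl q (Loc.ev.obj A) c (⟨_, h5⟩ : A.evS c.1), by rw [tau_yl]; rfl⟩
    obtain ⟨x, hx⟩ := h3 _ (y : (im q A).evS U.unop.pt).2
    exact ⟨x, Subtype.ext hx⟩

theorem yy_ev (q : Dfib Q P) (A : Loc k Q) :
    Nonempty ((yy q).obj (Loc.ev.obj A) ≅ Loc.ev.obj (im q A)) := by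
  have h3 : ∀ U, IsIso ((chi q A).app U) := fun U =>
    (ConcreteCategory.isIso_iff_bijective _).2 (chi_bij q A U)
  have h4 : IsIso (chi q A) := NatIso.isIso_of_isIso_app _
  exact ⟨asIso (chi q A)⟩

end

/-! ### The flags below the locations -/

section

variable {Γ : Type u} [Group Γ] {T : Sys Γ} {D : T.Tr} {j : Fin T.m} [MulAction Γ (D.V j)]
  [MulAction Γ (D.E j)] (K : Mk D j) {k : Type u} [Ring k]

/-- The located module of the flags below the locations. -/
noncomputable def fl2 (A : Loc k (T.P Finset.univ)) :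
    letI := flAct K; Loc k (flP K) :=
  letI := flAct K
  { ι := {p : A.ι × (D.E j × ULift.{u} Bool) // D.ed j p.2.1 ≤ A.loc p.1 j}
    loc := fun p => ⟨(p.1.2, T.up j (A.loc p.1.1) (D.ed j p.1.2.1)), Function.update_self _ _ _⟩ }

theorem fl2_fin (A : Loc k (T.P Finset.univ)) (hA : Finite A.ι) :
    letI := flAct K; Finite (fl2 K A).ι := by
  have h1 : ∀ i : A.ι, Finite {e : D.E j × ULift.{u} Bool // D.ed j e.1 ≤ A.loc i j} := by
    intro i
    have h2 : Finite {y | y ≤ A.loc i j} := (K.fin j (A.loc i j)).to_subtype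
    refine Finite.of_injective (fun v : {e : D.E j × ULift.{u} Bool // D.ed j e.1 ≤ A.loc i j} =>
      ((⟨D.ed j v.1.1, v.2⟩ : {y | y ≤ A.loc i j}), v.1.2)) ?_
    intro v w h
    have h3 := congrArg Prod.fst h
    have h4 := congrArg Prod.snd h
    exact Subtype.ext (Prod.ext (K.ed_inj (congrArg Subtype.val h3)) h4)
  refine Finite.of_injective (fun p : {p : A.ι × (D.E j × ULift.{u} Bool) //
      D.ed j p.2.1 ≤ A.loc p.1 j} =>
    (⟨p.1.1, p.1.2, p.2⟩ : Σ i : A.ι, {e : D.E j × ULift.{u} Bool // D.ed j e.1 ≤ A.loc i j})) ?_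
  rintro ⟨⟨i, v⟩, h⟩ ⟨⟨i', v'⟩, h'⟩ hpq
  simp only [Sigma.mk.injEq] at hpq
  obtain ⟨rfl, h2⟩ := hpq
  simp only [heq_eq_eq, Subtype.mk.injEq] at h2
  subst h2
  rfl

end

end Yev

open Yev

/-- **Row YEV.** -/
theorem yev : YevStatement.{u} := by
  intro Γ _ T D _ _ K k _ j A hA
  let := flAct (K j)
  obtain ⟨e1⟩ := pb_ev (k := k) (m := flr (K j)) (A := A) (A' := fl2 (K j) A)
    (π := fun p => p.1.1)
    (by
      rintro p i -
      show Function.update (A.loc p.1.1) j (D.ed j p.1.2.1) i ≤ A.loc p.1.1 i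
      by_cases hi : i = j
      · subst hi
        rw [Function.update_self]
        exact p.2
      · rw [Function.update_of_ne hi])
    (by
      intro c i g h
      have h' : (T.P Finset.univ).le c.1.2 (g • A.loc i) := h
      have h1 : D.ed j (g⁻¹ • c.1.1.1) ≤ A.loc i j := by
        have h2 := (T.P Finset.univ).smul g⁻¹ h' j (Finset.mem_univ j)
        rw [inv_smul_smul] at h2
        have h3 : (g⁻¹ • c.1.2) j = D.ed j (g⁻¹ • c.1.1.1) := by
          rw [(K j).ed_smul, ← c.2]
          rfl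
        rwa [h3] at h2
      refine ⟨⟨(i, (g⁻¹ • c.1.1.1, c.1.1.2)), h1⟩, ⟨rfl, ?_, ?_⟩, ?_⟩
      · show c.1.1 = (g • g⁻¹ • c.1.1.1, c.1.1.2)
        rw [smul_inv_smul]
      · intro l _
        show c.1.2 l ≤ g • (Function.update (A.loc i) j (D.ed j (g⁻¹ • c.1.1.1)) l)
        by_cases hl : l = j
        · subst hl
          rw [Function.update_self, ← (K l).ed_smul, smul_inv_smul, ← c.2]
        · rw [Function.update_of_ne hl]
          exact h' l (Finset.mem_univ l)
      · rintro ⟨⟨i', e, b⟩, he⟩ ⟨hi, h2, -⟩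
        have hi' : i' = i := hi
        subst hi'
        have h3 : c.1.1 = (g • e, b) := h2
        have h4 : c.1.1.1 = g • e := congrArg Prod.fst h3
        have h5 : c.1.1.2 = b := congrArg Prod.snd h3
        refine Subtype.ext (Prod.ext rfl (Prod.ext ?_ h5.symm))
        show e = g⁻¹ • c.1.1.1
        rw [h4, inv_smul_smul])
  obtain ⟨e2⟩ := yy_ev (k := k) (flq (K j)) (fl2 (K j) A)
  exact ⟨im (flq (K j)) (fl2 (K j) A), fl2_fin (K j) A hA, ⟨(yy (flq (K j))).mapIso e1 ≪≫ e2⟩⟩

end Pool.Agent.NegK.NT.NL
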