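import Pool.Agent.Lib.MP_28303a_al.NT.NL.Ref
import Pool.Agent.Lib.MP_28303a_al.NT.NL.Exz
import Pool.Agent.Lib.MP_28303a_al.NT.NL.Vnz
import Pool.Agent.Lib.MP_28303a_al.NT.NL.Yev
import Pool.Agent.Lib.MP_28303a_al.NT.NL.Tcz
import Pool.Agent.Lib.MP_28303a_al.NT.NL.Tcy
import Pool.Agent.Lib.MP_28303a_al.NT.NL.Baj
import Pool.Agent.Lib.MP_28303a_al.NT.NL.Cnx
import Pool.Agent.Lib.MP_28303a_al.NT.NL.Igr
import Pool.Agent.Lib.MP_28303a_al.NT.NL.Dev
import Pool.Agent.Lib.MP_28303a_al.NT.NL.Eqv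
import Pool.Agent.Lib.MP_28303a_al.NT.NL.DevT
import Pool.Agent.Lib.MP_28303a_al.NT.NL.IrrT
import Pool.Agent.Lib.MP_28303a_al.NT.NL.Step
import Pool.Agent.Lib.MP_28303a_al.NT.NL.Loc
import Pool.Agent.Lib.MP_28303a_al.NT.NL.LocT
import Pool.Agent.Lib.MP_28303a_al.NT.NL.Knz
import Pool.Agent.Lib.MP_28303a_al.NT.NL.Mrk
import Pool.Agent.Lib.MP_28303a_al.NT.NL.Egx
import Pool.Agent.Lib.MP_28303a_al.NT.NL.Clsx
import Pool.Agent.Lib.MP_28303a_al.NT.NL.Gent

/-! # Local trees: the rows without hypotheses -/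

set_option autoImplicit false

namespace Pool.Agent.NegK.NT.NL

universe u

theorem refA : RefStatement.{u} := ref (resa exz vnz yev tcz tcy) baj

theorem devA : DevStatement.{u} := dev cnx NL53.igr

theorem stepA : StepStatement.{u} := step (devT eqv devA) (irrT eqv)

theorem locTA : LocTStatement.{u} := locT loc_

theorem egbxA : EgbxStatement.{u} := egbx refA

theorem egsxA : EgsxStatement.{u} := egsx stepA

theorem egfxA : EgfxStatement.{u} := egfx locTA

theorem clsxA : ClsxStatement.{u} := X5.clsx egsxA egfxA mrk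

end Pool.Agent.NegK.NT.NL
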