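import Mathlib

/-! # Automorphisms of polynomial rings over rings of positive characteristic -/

set_option autoImplicit false
set_option linter.unusedSectionVars false
set_option linter.unusedVariables false

namespace Pool.Agent.NegK.NT.NL

universe u

open MvPolynomial

/-- The automorphisms of `A[x, y]`. -/
abbrev AutR (A : Type u) [CommRing A] : Type u :=
  MvPolynomial (Fin 2) A ≃ₐ[A] MvPolynomial (Fin 2) A

namespace AR

section bc

variable {A B : Type u} [CommRing A] [CommRing B] (i : A →+* B)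

/-- Base change of an endomorphism. -/
noncomputable def bc (φ : MvPolynomial (Fin 2) A →ₐ[A] MvPolynomial (Fin 2) A) :
    MvPolynomial (Fin 2) B →ₐ[B] MvPolynomial (Fin 2) B :=
  aeval fun j => map i (φ (X j))

theorem bc_X (φ : MvPolynomial (Fin 2) A →ₐ[A] MvPolynomial (Fin 2) A) (j : Fin 2) :
    bc i φ (X j) = map i (φ (X j)) := by
  rw [bc, aeval_X]

theorem bc_map (φ : MvPolynomial (Fin 2) A →ₐ[A] MvPolynomial (Fin 2) A)
    (p : MvPolynomial (Fin 2) A) : bc i φ (map i p) = map i (φ p) := by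
  induction p using MvPolynomial.induction_on with
  | C a =>
    rw [map_C, ← algebraMap_eq, ← algebraMap_eq, AlgHom.commutes, AlgHom.commutes,
      algebraMap_eq, algebraMap_eq, map_C]
  | add p q hp hq => rw [map_add, map_add, hp, hq, map_add, map_add]
  | mul_X p j hp => rw [map_mul, map_X, map_mul, hp, bc_X, map_mul, map_mul]

theorem bc_comp (φ ψ : MvPolynomial (Fin 2) A →ₐ[A] MvPolynomial (Fin 2) A) :
    (bc i φ).comp (bc i ψ) = bc i (φ.comp ψ) := by
  refine algHom_ext fun j => ?_
  rw [AlgHom.comp_apply, bc_X, bc_map, bc_X, AlgHom.comp_apply]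

theorem bc_id : bc i (AlgHom.id A _) = AlgHom.id B _ := by
  refine algHom_ext fun j => ?_
  rw [bc_X, AlgHom.id_apply, AlgHom.id_apply, map_X]

/-- Base change of automorphisms. -/
noncomputable def bcHom : AutR A →* AutR B where
  toFun φ := AlgEquiv.ofAlgHom (bc i φ.toAlgHom) (bc i φ.symm.toAlgHom)
    (by
      rw [bc_comp]
      have h : φ.toAlgHom.comp φ.symm.toAlgHom = AlgHom.id A _ := by
        ext1 j
        exact φ.apply_symm_apply _
      rw [h, bc_id])
    (by
      rw [bc_comp]
      have h : φ.symm.toAlgHom.comp φ.toAlgHom = AlgHom.id A _ := by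
        ext1 j
        exact φ.symm_apply_apply _
      rw [h, bc_id])
  map_one' := by
    refine AlgEquiv.ext fun p => ?_
    exact DFunLike.congr_fun (bc_id i) p
  map_mul' φ ψ := by
    refine AlgEquiv.ext fun p => ?_
    exact (DFunLike.congr_fun (bc_comp i φ.toAlgHom ψ.toAlgHom) p).symm

theorem bcHom_X (φ : AutR A) (j : Fin 2) : bcHom i φ (X j) = map i (φ (X j)) :=
  bc_X i φ.toAlgHom j

theorem aut_ext {φ ψ : AutR A} (h : ∀ j, φ (X j) = ψ (X j)) : φ = ψ := by
  refine AlgEquiv.ext fun p => ?_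
  exact DFunLike.congr_fun (algHom_ext (f := φ.toAlgHom) (g := ψ.toAlgHom) h) p

theorem bcHom_injective (hi : Function.Injective i) : Function.Injective (bcHom i) := by
  intro φ ψ h
  refine aut_ext fun j => map_injective i hi ?_
  rw [← bcHom_X, ← bcHom_X, h]

/-- Automorphisms defined over a subring. -/
theorem exists_bc (hi : Function.Injective i) (φ : AutR B) (p q : Fin 2 → MvPolynomial (Fin 2) A)
    (hp : ∀ j, map i (p j) = φ (X j)) (hq : ∀ j, map i (q j) = φ.symm (X j)) :
    ∃ ψ : AutR A, bcHom i ψ = φ := by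
  have key : ∀ (a : MvPolynomial (Fin 2) A →ₐ[A] MvPolynomial (Fin 2) A)
      (b : MvPolynomial (Fin 2) B →ₐ[B] MvPolynomial (Fin 2) B),
      (∀ j, map i (a (X j)) = b (X j)) → bc i a = b := fun a b h => by
    refine algHom_ext fun j => ?_
    rw [bc_X, h]
  have h1 : bc i (aeval p) = φ.toAlgHom := key _ _ fun j => by
    rw [aeval_X]
    exact hp j
  have h2 : bc i (aeval q) = φ.symm.toAlgHom := key _ _ fun j => by
    rw [aeval_X]
    exact hq j
  have h3 : (aeval p).comp (aeval q) = AlgHom.id A (MvPolynomial (Fin 2) A) := by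
    refine algHom_ext fun j => map_injective i hi ?_
    rw [AlgHom.comp_apply, ← bc_map, ← bc_map, h1, h2, map_X, AlgHom.id_apply, map_X]
    exact φ.apply_symm_apply _
  have h4 : (aeval q).comp (aeval p) = AlgHom.id A (MvPolynomial (Fin 2) A) := by
    refine algHom_ext fun j => map_injective i hi ?_
    rw [AlgHom.comp_apply, ← bc_map, ← bc_map, h1, h2, map_X, AlgHom.id_apply, map_X]
    exact φ.symm_apply_apply _
  refine ⟨AlgEquiv.ofAlgHom (aeval p) (aeval q) h3 h4, aut_ext fun j => ?_⟩
  rw [bcHom_X, ← hp]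
  exact congrArg _ (aeval_X _ _)

end bc

section nil

variable {A : Type u} [CommRing A]

/-- Automorphisms which are the identity modulo an ideal. -/
theorem sub_mem_map {I : Ideal A} {φ : AutR A} (h : ∀ j, φ (X j) - X j ∈ I.map (C (σ := Fin 2)))
    (p : MvPolynomial (Fin 2) A) : φ p - p ∈ I.map (C (σ := Fin 2)) := by
  induction p using MvPolynomial.induction_on with
  | C a =>
    rw [← algebraMap_eq, AlgEquiv.commutes, sub_self]
    exact zero_mem _
  | add p q hp hq =>
    rw [map_add]
    have : φ p + φ q - (p + q) = (φ p - p) + (φ q - q) := by ring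
    rw [this]
    exact add_mem hp hq
  | mul_X p j hp =>
    rw [map_mul]
    have : φ p * φ (X j) - p * X j = φ p * (φ (X j) - X j) + X j * (φ p - p) := by ring
    rw [this]
    exact add_mem (Ideal.mul_mem_left _ _ (h j)) (Ideal.mul_mem_left _ _ hp)

theorem sub_mem_mul {I K : Ideal A} {φ : AutR A}
    (h : ∀ j, φ (X j) - X j ∈ I.map (C (σ := Fin 2)))
    {w : MvPolynomial (Fin 2) A} (hw : w ∈ K.map (C (σ := Fin 2))) :
    φ w - w ∈ (K * I).map (C (σ := Fin 2)) := by
  rw [Ideal.map_mul]
  refine Submodule.span_induction (p := fun w _ => φ w - w ∈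
    K.map (C (σ := Fin 2)) * I.map (C (σ := Fin 2))) ?_ ?_ ?_ ?_ hw
  · rintro _ ⟨a, ha, rfl⟩
    rw [← algebraMap_eq, AlgEquiv.commutes, sub_self]
    exact zero_mem _
  · rw [map_zero, sub_self]
    exact zero_mem _
  · intro x y _ _ hx hy
    rw [map_add]
    have : φ x + φ y - (x + y) = (φ x - x) + (φ y - y) := by ring
    rw [this]
    exact add_mem hx hy
  · intro a x hx hx'
    have hx2 : x ∈ K.map (C (σ := Fin 2)) := hx
    rw [smul_eq_mul, map_mul]
    have : φ a * φ x - a * x = φ a * (φ x - x) + x * (φ a - a) := by ring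
    rw [this]
    exact add_mem (Ideal.mul_mem_left _ _ hx') (Ideal.mul_mem_mul hx2 (sub_mem_map h a))

/-- The power of an automorphism which is the identity modulo an ideal. -/
theorem pow_step {N : ℕ} (hN : (N : A) = 0) {I K : Ideal A} (hKI : K ≤ I) {φ : AutR A}
    (h : ∀ j, φ (X j) - X j ∈ K.map (C (σ := Fin 2))) (j : Fin 2) :
    (φ ^ N) (X j) - X j ∈ (K * I).map (C (σ := Fin 2)) := by
  have hI : ∀ j, φ (X j) - X j ∈ I.map (C (σ := Fin 2)) := fun j => Ideal.map_mono hKI (h j)
  have hN' : (N : MvPolynomial (Fin 2) A) = 0 := by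
    rw [← map_natCast (C (σ := Fin 2)), hN, map_zero]
  have key : ∀ m : ℕ, (φ ^ m) (X j) - X j - ((m : ℕ) : MvPolynomial (Fin 2) A) *
      (φ (X j) - X j) ∈ (K * I).map (C (σ := Fin 2)) := fun m => by
    induction m with
    | zero =>
      rw [pow_zero, Nat.cast_zero, zero_mul, sub_zero]
      have : (1 : AutR A) (X j) - X j = 0 := sub_self _
      rw [this]
      exact zero_mem _
    | succ m ih =>
      have e1 : (φ ^ (m + 1)) (X j) = φ ((φ ^ m) (X j)) := by
        rw [pow_succ']
        rfl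
      have hK : (φ ^ m) (X j) - X j ∈ K.map (C (σ := Fin 2)) := by
        have h2 : ((m : ℕ) : MvPolynomial (Fin 2) A) * (φ (X j) - X j) ∈ K.map (C (σ := Fin 2)) :=
          Ideal.mul_mem_left _ _ (h j)
        have h0 : K * I ≤ K := Ideal.mul_le_left
        have h3 := add_mem (Ideal.map_mono h0 ih) h2
        rwa [sub_add_cancel] at h3
      have h4 := sub_mem_mul hI hK
      rw [map_sub] at h4
      rw [e1]
      have e2 : φ ((φ ^ m) (X j)) - X j - ((m + 1 : ℕ) : MvPolynomial (Fin 2) A) * (φ (X j) - X j) =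
          (φ ((φ ^ m) (X j)) - φ (X j) - ((φ ^ m) (X j) - X j)) +
            ((φ ^ m) (X j) - X j - ((m : ℕ) : MvPolynomial (Fin 2) A) * (φ (X j) - X j)) := by
        push_cast
        ring
      rw [e2]
      exact add_mem h4 ih
  have h1 := key N
  rwa [hN', zero_mul, sub_zero] at h1

theorem exists_pow_eq_one {N : ℕ} (hN0 : 0 < N) (hN : (N : A) = 0) {I : Ideal A} {n : ℕ}
    (hI : I ^ n = ⊥) {φ : AutR A} (h : ∀ j, φ (X j) - X j ∈ I.map (C (σ := Fin 2))) :
    ∃ m, 0 < m ∧ φ ^ m = 1 := by
  have key : ∀ k : ℕ, ∀ j, (φ ^ (N ^ k)) (X j) - X j ∈ (I ^ (k + 1)).map (C (σ := Fin 2)) :=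
    fun k => by
    induction k with
    | zero =>
      intro j
      rw [pow_zero, pow_one, pow_one]
      exact h j
    | succ k ih =>
      intro j
      rw [pow_succ N, pow_mul, pow_succ I]
      exact pow_step hN (Ideal.pow_le_self (Nat.succ_ne_zero k)) ih j
  refine ⟨N ^ n, Nat.pow_pos hN0, aut_ext fun j => ?_⟩
  have h1 := key n j
  rw [pow_succ, hI, Ideal.bot_mul, Ideal.map_bot, Ideal.mem_bot, sub_eq_zero] at h1
  exact h1

end nil

/-- A finitely generated group of automorphisms is defined over a finitely generated subring. -/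
theorem exists_fg {A : Type u} [CommRing A] {S : Type u} [Group S] [hS : Group.FG S]
    (f : S →* AutR A) : ∃ (A0 : Subalgebra ℤ A) (f0 : S →* AutR A0), A0.FG ∧
      ∀ s, bcHom (A0.val : A0 →+* A) (f0 s) = f s := by
  classical
  obtain ⟨T, hT⟩ := hS.out
  let co : S → Finset A := fun s => Finset.univ.biUnion fun j : Fin 2 =>
    ((f s (X j)).coeffs ∪ ((f s).symm (X j)).coeffs)
  let A0 : Subalgebra ℤ A := Algebra.adjoin ℤ ((T.biUnion co : Finset A) : Set A)
  let i : A0 →+* A := (A0.val : A0 →+* A)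
  have hi : Function.Injective i := Subtype.val_injective
  have hlift : ∀ p : MvPolynomial (Fin 2) A, (∀ m, p.coeff m ∈ A0) → ∃ q, map i q = p :=
    fun p hp => by
      refine (mem_range_map_iff_coeffs_subset (f := i)).2 ?_
      intro a ha
      obtain ⟨m, _, rfl⟩ := mem_coeffs_iff.1 ha
      exact ⟨⟨_, hp m⟩, rfl⟩
  have hgen : ∀ s ∈ T, f s ∈ (bcHom i).range := fun s hs => by
    have h1 : ∀ (j : Fin 2) (m : Fin 2 →₀ ℕ), (f s (X j)).coeff m ∈ A0 ∧
        ((f s).symm (X j)).coeff m ∈ A0 := fun j m => by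
      constructor
      · by_cases h0 : (f s (X j)).coeff m = 0
        · rw [h0]
          exact zero_mem _
        · refine Algebra.subset_adjoin (Finset.mem_coe.2 (Finset.mem_biUnion.2 ⟨s, hs, ?_⟩))
          refine Finset.mem_biUnion.2 ⟨j, Finset.mem_univ _, Finset.mem_union_left _ ?_⟩
          exact coeff_mem_coeffs m h0
      · by_cases h0 : ((f s).symm (X j)).coeff m = 0
        · rw [h0]
          exact zero_mem _
        · refine Algebra.subset_adjoin (Finset.mem_coe.2 (Finset.mem_biUnion.2 ⟨s, hs, ?_⟩))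
          refine Finset.mem_biUnion.2 ⟨j, Finset.mem_univ _, Finset.mem_union_right _ ?_⟩
          exact coeff_mem_coeffs m h0
    choose p hp using fun j => hlift (f s (X j)) fun m => (h1 j m).1
    choose q hq using fun j => hlift ((f s).symm (X j)) fun m => (h1 j m).2
    exact exists_bc i hi (f s) p q hp hq
  have hle : ∀ s, f s ∈ (bcHom i).range := fun s => by
    have h1 : Subgroup.closure (T : Set S) ≤ (bcHom i).range.comap f :=
      (Subgroup.closure_le _).2 fun t ht => hgen t ht
    exact h1 (by rw [hT]; exact Subgroup.mem_top s)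
  let e := MonoidHom.ofInjective (bcHom_injective i hi)
  refine ⟨A0, e.symm.toMonoidHom.comp (f.codRestrict _ hle), ⟨_, rfl⟩, fun s => ?_⟩
  have h2 := MonoidHom.apply_ofInjective_symm (bcHom_injective i hi) ⟨f s, hle s⟩
  exact h2

/-- Finitely generated groups of automorphisms over rings of positive characteristic. -/
theorem exists_fields {A : Type u} [CommRing A] {N : ℕ} (hN0 : 0 < N) (hN : (N : A) = 0)
    {S : Type u} [Group S] [Group.FG S] (f : S →* AutR A) :
    ∃ (r : ℕ) (F : Fin r → Type u) (_ : ∀ i, Field (F i)) (ψ : ∀ i, S →* AutR (F i)),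
      (∀ i, (N : F i) = 0) ∧ ∀ g, (∀ i, ψ i g = 1) → ∃ m, 0 < m ∧ f g ^ m = 1 := by
  obtain ⟨A0, f0, hfg, hf0⟩ := exists_fg f
  have hft : Algebra.FiniteType ℤ A0 := A0.fg_iff_finiteType.1 hfg
  have hno : IsNoetherianRing A0 := Algebra.FiniteType.isNoetherianRing ℤ A0
  have hfin : (minimalPrimes A0).Finite := minimalPrimes.finite_of_isNoetherianRing A0
  have hi : Function.Injective (A0.val : A0 →+* A) := Subtype.val_injective
  have hNA : (N : A0) = 0 := hi (by rw [map_natCast, hN, map_zero])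
  have := hfin.to_subtype
  let e := Finite.equivFin (minimalPrimes A0)
  have hp : ∀ k : Fin (Nat.card (minimalPrimes A0)), (e.symm k).1.IsPrime :=
    fun k => (e.symm k).2.1.1
  let F : Fin (Nat.card (minimalPrimes A0)) → Type u := fun k =>
    FractionRing (A0 ⧸ (e.symm k).1)
  let i : ∀ k, A0 →+* F k := fun k =>
    (algebraMap (A0 ⧸ (e.symm k).1) (F k)).comp (Ideal.Quotient.mk _)
  refine ⟨Nat.card (minimalPrimes A0), F, fun k => inferInstance, fun k => (bcHom (i k)).comp f0,
    fun k => ?_, fun g hg => ?_⟩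
  · rw [← map_natCast (i k), hNA, map_zero]
  · have h1 : ∀ j, f0 g (X j) - X j ∈ (nilradical A0).map (C (σ := Fin 2)) := fun j => by
      rw [mem_map_C_iff]
      intro m
      rw [nilradical, ← Ideal.sInf_minimalPrimes, Submodule.mem_sInf]
      intro P hP
      have h2 : bcHom (i (e ⟨P, hP⟩)) (f0 g) = 1 := hg (e ⟨P, hP⟩)
      have h3 : map (i (e ⟨P, hP⟩)) (f0 g (X j) - X j) = 0 := by
        rw [map_sub, ← bcHom_X, h2, map_X]
        exact sub_self _
      have h4 : i (e ⟨P, hP⟩) ((f0 g (X j) - X j).coeff m) = 0 := by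
        rw [← coeff_map, h3, coeff_zero]
      have h5 : (Ideal.Quotient.mk (e.symm (e ⟨P, hP⟩)).1) ((f0 g (X j) - X j).coeff m) = 0 :=
        IsFractionRing.injective (A0 ⧸ (e.symm (e ⟨P, hP⟩)).1) (F (e ⟨P, hP⟩)) (by
          rw [map_zero]
          exact h4)
      rw [Ideal.Quotient.eq_zero_iff_mem, Equiv.symm_apply_apply] at h5
      exact h5
    obtain ⟨n, hn⟩ := IsNoetherianRing.isNilpotent_nilradical A0
    obtain ⟨m, hm, h2⟩ := exists_pow_eq_one hN0 hNA (I := nilradical A0) (n := n) hn h1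
    refine ⟨m, hm, ?_⟩
    rw [← hf0, ← map_pow, h2, map_one]

end AR

end Pool.Agent.NegK.NT.NL
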