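import Pool.Agent.Lib.MP_28303a_al.NT.NL.AutR
import Pool.Agent.Lib.MP_28303a_al.RK.VpDefs2

/-! # Automorphisms which are the identity modulo a nilpotent ideal -/

set_option autoImplicit false
set_option linter.unusedSectionVars false
set_option linter.unusedVariables false

namespace Pool.Agent.NegK.NT.NL

universe u

open MvPolynomial
open Pool.Agent.NegK.RK

namespace AR

section

variable {A : Type u} [CommRing A]

/-- The difference to the identity modulo the next power of the ideal. -/
theorem mul_sub {I K : Ideal A} {φ ψ : AutR A}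
    (hφ : ∀ j, φ (X j) - X j ∈ I.map (C (σ := Fin 2)))
    (hψ : ∀ j, ψ (X j) - X j ∈ K.map (C (σ := Fin 2))) (j : Fin 2) :
    Ideal.Quotient.mk ((K * I).map (C (σ := Fin 2))) ((φ * ψ) (X j) - X j) =
      Ideal.Quotient.mk _ (φ (X j) - X j) + Ideal.Quotient.mk _ (ψ (X j) - X j) := by
  have h1 := sub_mem_mul hφ (hψ j)
  have h2 : (φ * ψ) (X j) - X j = (φ (ψ (X j) - X j) - (ψ (X j) - X j)) +
      ((φ (X j) - X j) + (ψ (X j) - X j)) := by
    rw [map_sub]
    show φ (ψ (X j)) - X j = _
    ring
  rw [h2, map_add, map_add, Ideal.Quotient.eq_zero_iff_mem.2 h1, zero_add]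

/-- The group of the automorphisms which are the identity modulo a nilpotent ideal. -/
theorem bx_aut {N : ℕ} (hN0 : 0 < N) (hN : (N : A) = 0) {I : Ideal A} {n : ℕ} (hI : I ^ n = ⊥) :
    ∀ (d j : ℕ), 0 < j → n ≤ j + d → ∀ (K : Type u) [Group K] (g : K →* AutR A),
      Function.Injective g →
      (∀ x i, g x (X i) - X i ∈ (I ^ j).map (C (σ := Fin 2))) → BX d K := by
  intro d
  induction d with
  | zero =>
    intro j hj hn K _ g hg h
    have h0 : I ^ j = ⊥ := by
      rw [eq_bot_iff, ← hI]
      exact Ideal.pow_le_pow_right hn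
    have h1 : ∀ x : K, x = 1 := fun x => hg (by
      rw [map_one]
      refine aut_ext fun i => ?_
      have h2 := h x i
      rw [h0, Ideal.map_bot, Ideal.mem_bot, sub_eq_zero] at h2
      exact h2)
    exact ⟨fun x y => (h1 x).trans (h1 y).symm⟩
  | succ d ih =>
    intro j hj hn K _ g hg h
    have hjI : I ^ j ≤ I := Ideal.pow_le_self hj.ne'
    let J : Ideal (MvPolynomial (Fin 2) A) := (I ^ j * I).map (C (σ := Fin 2))
    let f : K →* Multiplicative (Fin 2 → MvPolynomial (Fin 2) A ⧸ J) :=
      { toFun := fun x => Multiplicative.ofAdd fun i => Ideal.Quotient.mk J (g x (X i) - X i)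
        map_one' := by
          rw [map_one]
          refine congrArg Multiplicative.ofAdd (funext fun i => ?_)
          show Ideal.Quotient.mk J ((1 : AutR A) (X i) - X i) = 0
          rw [show (1 : AutR A) (X i) - X i = 0 from sub_self _, map_zero]
        map_mul' := fun x y => by
          rw [map_mul, ← ofAdd_add]
          refine congrArg Multiplicative.ofAdd (funext fun i => ?_)
          exact mul_sub (fun i => Ideal.map_mono hjI (h x i)) (h y) i }
    refine ⟨Multiplicative (Fin 2 → MvPolynomial (Fin 2) A ⧸ J), inferInstance, N, f, hN0,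
      fun a => ?_, ?_⟩
    · have hN' : (N : MvPolynomial (Fin 2) A ⧸ J) = 0 := by
        rw [← map_natCast (Ideal.Quotient.mk J), ← map_natCast (C (σ := Fin 2)), hN, map_zero,
          map_zero]
      refine congrArg Multiplicative.ofAdd (funext fun i => ?_)
      show N • (Multiplicative.toAdd a) i = 0
      rw [nsmul_eq_mul, hN', zero_mul]
    · refine ih (j + 1) (Nat.succ_pos j) (by omega) f.ker (g.comp f.ker.subtype)
        (hg.comp f.ker.subtype_injective) fun x i => ?_
      rw [pow_succ]
      have h1 : f x.1 = 1 := x.2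
      have h2 : Ideal.Quotient.mk J (g x.1 (X i) - X i) = 0 :=
        congrFun (congrArg Multiplicative.toAdd h1) i
      exact Ideal.Quotient.eq_zero_iff_mem.1 h2

end

/-- Finitely generated groups of automorphisms over rings of positive characteristic: the kernel
has a chain with commutative factors of finite exponent. -/
theorem exists_fieldsV {A : Type u} [CommRing A] {N : ℕ} (hN0 : 0 < N) (hN : (N : A) = 0)
    {S : Type u} [Group S] [Group.FG S] (f : S →* AutR A) (hf : Function.Injective f) :
    ∃ (r : ℕ) (F : Fin r → Type u) (_ : ∀ i, Field (F i)) (ψ : ∀ i, S →* AutR (F i)) (k : ℕ),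
      (∀ i, (N : F i) = 0) ∧ BX k (MonoidHom.pi ψ).ker := by
  obtain ⟨A0, f0, hfg, hf0⟩ := exists_fg f
  have hft : Algebra.FiniteType ℤ A0 := A0.fg_iff_finiteType.1 hfg
  have hno : IsNoetherianRing A0 := Algebra.FiniteType.isNoetherianRing ℤ A0
  have hfin : (minimalPrimes A0).Finite := minimalPrimes.finite_of_isNoetherianRing A0
  have hi : Function.Injective (A0.val : A0 →+* A) := Subtype.val_injective
  have hNA : (N : A0) = 0 := hi (by rw [map_natCast, hN, map_zero])
  have := hfin.to_subtype
  let e := Finite.equivFin (minimalPrimes A0)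
  have hp : ∀ k : Fin (Nat.card (minimalPrimes A0)), (e.symm k).1.IsPrime :=
    fun k => (e.symm k).2.1.1
  let F : Fin (Nat.card (minimalPrimes A0)) → Type u := fun k =>
    FractionRing (A0 ⧸ (e.symm k).1)
  let i : ∀ k, A0 →+* F k := fun k =>
    (algebraMap (A0 ⧸ (e.symm k).1) (F k)).comp (Ideal.Quotient.mk _)
  obtain ⟨n, hn⟩ := IsNoetherianRing.isNilpotent_nilradical A0
  refine ⟨Nat.card (minimalPrimes A0), F, fun k => inferInstance, fun k => (bcHom (i k)).comp f0,
    n, fun k => ?_, ?_⟩
  · rw [← map_natCast (i k), hNA, map_zero]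
  · have hf0i : Function.Injective f0 := fun x y hxy => hf (by rw [← hf0, ← hf0, hxy])
    have key : ∀ g : S, (∀ k, bcHom (i k) (f0 g) = 1) → ∀ j,
        f0 g (X j) - X j ∈ (nilradical A0 ^ 1).map (C (σ := Fin 2)) := by
      intro g hg j
      rw [pow_one, mem_map_C_iff]
      intro m
      rw [nilradical, ← Ideal.sInf_minimalPrimes, Submodule.mem_sInf]
      intro P hP
      have h2 : bcHom (i (e ⟨P, hP⟩)) (f0 g) = 1 := hg (e ⟨P, hP⟩)
      have h3 : map (i (e ⟨P, hP⟩)) (f0 g (X j) - X j) = 0 := by
        rw [map_sub, ← bcHom_X, h2, map_X]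
        exact sub_self _
      have h4 : i (e ⟨P, hP⟩) ((f0 g (X j) - X j).coeff m) = 0 := by
        rw [← coeff_map, h3, coeff_zero]
      have h5 : (Ideal.Quotient.mk (e.symm (e ⟨P, hP⟩)).1) ((f0 g (X j) - X j).coeff m) = 0 :=
        IsFractionRing.injective (A0 ⧸ (e.symm (e ⟨P, hP⟩)).1) (F (e ⟨P, hP⟩)) (by
          rw [map_zero]
          exact h4)
      rw [Ideal.Quotient.eq_zero_iff_mem, Equiv.symm_apply_apply] at h5
      exact h5
    let κ : Subgroup S := (MonoidHom.pi fun k => (bcHom (i k)).comp f0).ker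
    exact bx_aut hN0 hNA hn n 1 one_pos (by omega) κ (f0.comp κ.subtype)
      (hf0i.comp κ.subtype_injective) fun g j => key g.1 (fun k => congrFun g.2 k) j

end AR

end Pool.Agent.NegK.NT.NL
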