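import Pool.Agent.Lib.MP_28303a_al.NT.NL.Defs

/-!
# Local trees: the classes of groups, with the closure properties as hypotheses

`C` is the class of the groups for the edges, `D` the good homomorphisms, `N` the class of the small
kernels.
-/

set_option autoImplicit false
set_option linter.unusedSectionVars false
set_option linter.unusedVariables false

namespace Pool.Agent.NegK.NT.NL

universe u

open Pool.Agent.NegK.TW Pool.Agent.NegK.TT Pool.Agent.NegK.NT.ER Pool.Agent.NegK.NT.ER61

/-- Classes of groups. -/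
abbrev GCls : Type (u + 1) := ∀ (G : Type u) [Group G], Prop

/-- Classes of homomorphisms. -/
abbrev HCls : Type (u + 1) := ∀ (Γ P : Type u) [Group Γ] [Group P], (Γ →* P) → Prop

/-- The closure properties. -/
structure Ax (C : GCls.{u}) (D : HCls.{u}) (N : GCls.{u}) : Prop where
  N_inj : ∀ (G G' : Type u) [Group G] [Group G'] (f : G →* G'), Function.Injective f → N G' → N G
  N_one : ∀ (G : Type u) [Group G], Subsingleton G → N G
  C_ext : ∀ (G G' : Type u) [Group G] [Group G'] (f : G →* G'), N f.ker → C G' → C G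
  C_prod : ∀ (G G' : Type u) [Group G] [Group G'], C G → C G' → C (G × G')
  rc : ∀ (Γ P : Type u) [Group Γ] [Group P] (f : Γ →* P), D Γ P f → C P → InRC Γ
  sub : ∀ (Γ P Γ' P' : Type u) [Group Γ] [Group P] [Group Γ'] [Group P'] (f : Γ →* P)
    (f' : Γ' →* P') (i : Γ' →* Γ) (j : P' →* P), Function.Injective i → Function.Injective j →
    (∀ x, j (f' x) = f (i x)) → D Γ P f → D Γ' P' f'
  comp : ∀ (Γ Q P : Type u) [Group Γ] [Group Q] [Group P] (f : Γ →* Q) (g : Q →* P), D Γ Q f →
    N g.ker → D Γ P (g.comp f)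

theorem Ax.C_inj {C N : GCls.{u}} {D : HCls.{u}} (h : Ax C D N) (G G' : Type u) [Group G]
    [Group G'] (f : G →* G') (hf : Function.Injective f) (hC : C G') : C G :=
  h.C_ext G G' f (h.N_one _ ⟨fun x y => Subtype.ext (hf (x.2.trans y.2.symm))⟩) hC

section

variable {P : Type u} [Group P] {m : ℕ}

/-- `EXT` for all good homomorphisms to `P`. -/
def EGx (D : HCls.{u}) (M : Fin m → MTL P) : Prop :=
  ∀ (Γ : Type u) [Group Γ] (f : Γ →* P), D Γ P f → Ex fun i => (cms f M i).L

/-- The stabilizers of the boxes of labels different from vertices are in `C`. -/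
def BGx (C : GCls.{u}) (M : Fin m → MTL P) : Prop :=
  ∀ U : ∀ i, (M i).L.B, (∀ i v, U i ≠ (M i).L.vt v) → C (MulAction.stabilizer P U)

end

/-- The groups `Q` such that everything extends for `P × Q` if the stabilizers of the boxes of
labels different from vertices of `P` are in `C`. -/
def T1x (C : GCls.{u}) (D : HCls.{u}) (Q : Type u) [Group Q] : Prop :=
  ∀ (P : Type u) [Group P] (m : ℕ) (M : Fin m → MTL P), BGx C M →
    EGx D (cms (MonoidHom.fst P Q) M)

/-- The class of groups: it is the smallest class with `C`, closed under maps with kernel in `N`,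
finite products, unions and trees. -/
inductive Clx (C N : GCls.{u}) : (G : Type u) → Group G → Prop
  | c0 (G : Type u) [i : Group G] (h : C G) : Clx C N G i
  | tk (G G' : Type u) [i : Group G] [i' : Group G'] (f : G →* G') (h : Clx C N G' i')
      (hf : N f.ker) : Clx C N G i
  | pr (G G' : Type u) [i : Group G] [i' : Group G'] (h : Clx C N G i) (h' : Clx C N G' i') :
      Clx C N (G × G') inferInstance
  | fg (G : Type u) [i : Group G] (h : ∀ S : Subgroup G, S.FG → Clx C N S inferInstance) :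
      Clx C N G i
  | tree (G : Type u) [i : Group G] (Y : Trees G)
      (he : ∀ (j : Fin Y.m) (v : ∀ i, Y.V i) (w : Y.V j), (Y.G j).Adj (v j) w →
        C (Y.st v ⊓ MulAction.stabilizer G w : Subgroup G))
      (hv : ∀ v, Clx C N (Y.st v) inferInstance) : Clx C N G i

/-- EGB (uses REF). -/
def EgbxStatement : Prop :=
  ∀ (C : GCls.{u}) (D : HCls.{u}) (N : GCls.{u}), Ax C D N → ∀ (P : Type u) [Group P] (m : ℕ)
    (M : Fin m → MTL P), BGx C M → EGx D M

/-- EGS (uses STEP). -/
def EgsxStatement : Prop :=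
  ∀ (C : GCls.{u}) (D : HCls.{u}) (N : GCls.{u}), Ax C D N → ∀ (P : Type u) [Group P] (m : ℕ)
    (M : Fin m → MTL P) (Z : MTL P), EGx D (Fin.cons (α := fun _ => MTL P) Z M) →
    (∀ c : Z.L.B, EGx D (cms (MulAction.stabilizer P c).subtype M)) → EGx D M

/-- EGF (uses LOCT). -/
def EgfxStatement : Prop :=
  ∀ (C : GCls.{u}) (D : HCls.{u}) (N : GCls.{u}), Ax C D N → ∀ (P : Type u) [Group P] (m : ℕ)
    (M : Fin m → MTL P), (∀ S : Subgroup P, S.FG → EGx D (cms S.subtype M)) → EGx D M

/-- EGK. -/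
def EgkxStatement : Prop :=
  ∀ (C : GCls.{u}) (D : HCls.{u}) (N : GCls.{u}), Ax C D N → ∀ (P Q : Type u) [Group P] [Group Q]
    (f : Q →* P) (m : ℕ) (M : Fin m → MTL P), EGx D M → N f.ker → EGx D (cms f M)

/-- CLS (uses EGB, EGS, EGF, EGK, MRK). Products with groups in the class. -/
def ClsxStatement : Prop :=
  ∀ (C : GCls.{u}) (D : HCls.{u}) (N : GCls.{u}), Ax C D N → ∀ (G : Type u) (i : Group G),
    Clx C N G i → ∀ (Q : Type u) [Group Q], T1x C D Q → T1x C D (G × Q)

/-- The last factor: every subgroup of `Q` which fixes a vertex in each tree is in `J0`. -/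
def J0x (C : GCls.{u}) (D : HCls.{u}) (Q : Type u) [Group Q] : Prop :=
  ∀ (P Γ : Type u) [Group P] [Group Γ] (f : Γ →* P × Q), C P → D Γ (P × Q) f → InRC Γ

/-- TJ (uses REF, EGS, EGF, MRK). -/
def TjxStatement : Prop :=
  ∀ (C : GCls.{u}) (D : HCls.{u}) (N : GCls.{u}), Ax C D N → ∀ (Q : Type u) [Group Q],
    (∀ S : Subgroup Q, S.FG → ∃ Y : Trees S, ∀ v, J0x C D (Y.st v)) → T1x C D Q

/-- MAIN (uses CLS, KNZ). -/
def MainxStatement : Prop :=
  ∀ (C : GCls.{u}) (D : HCls.{u}) (N : GCls.{u}), Ax C D N →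
    ∀ (s : ℕ) (G : Fin s → Type u) (i : ∀ j, Group (G j)), (∀ j, Clx C N (G j) (i j)) →
    ∀ (Q : Type u) [Group Q], T1x C D Q →
    ∀ (Γ : Type u) [Group Γ] (f : Γ →* (∀ j, G j) × Q), D Γ ((∀ j, G j) × Q) f →
    ∀ (R : Type u) [Ring R], RegularRing R → ∀ n : ℕ,
      Subsingleton (KNeg (n + 1) (MonoidAlgebra R Γ))

end Pool.Agent.NegK.NT.NL
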