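import Pool.Agent.Lib.MP_28303a_al.NT.NL.Defs
import Pool.Agent.Lib.MP_28303a_al.PL.PZ

/-! # C0P: the closure properties of `C0` -/

set_option autoImplicit false
set_option linter.unusedSectionVars false
set_option linter.unusedVariables false

namespace Pool.Agent.NegK.NT.NL

universe u

namespace C0p

open Pool.Agent.NegK.PL (PZ)

/-- Products of poly-`Z` groups. -/
theorem pz_prod (n : ℕ) : ∀ (m : ℕ) {G H : Type u} [Group G] [Group H], PZ n G → PZ m H →
    PZ (n + m) (G × H) := by
  intro m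
  induction m with
  | zero =>
    intro G H _ _ hG hH
    have h1 : Subsingleton H := hH
    exact PL.PZ.of_injective n (MonoidHom.fst G H)
      (fun x y hxy => Prod.ext hxy (Subsingleton.elim _ _)) hG
  | succ m ih =>
    intro G H _ _ hG hH
    obtain ⟨φ, hφ⟩ := hH
    refine ⟨φ.comp (MonoidHom.snd G H), ?_⟩
    have h1 : PZ (n + m) (G × φ.ker) := ih hG hφ
    refine PL.PZ.of_injective (n + m)
      (((MonoidHom.fst G H).comp (φ.comp (MonoidHom.snd G H)).ker.subtype).prod
        (((MonoidHom.snd G H).comp (φ.comp (MonoidHom.snd G H)).ker.subtype).codRestrict φ.ker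
          fun x => x.2)) (fun x y hxy => ?_) h1
    have e1 := congrArg Prod.fst hxy
    have e2 := congrArg Subtype.val (congrArg Prod.snd hxy)
    exact Subtype.ext (Prod.ext e1 e2)

theorem fi_comap {G G' : Type u} [Group G] [Group G'] (f : G →* G') (L : Subgroup G')
    (h : L.FiniteIndex) : (L.comap f).FiniteIndex := by
  refine ⟨?_⟩
  rw [Subgroup.index_comap]
  have h1 : (L.subgroupOf f.range).FiniteIndex := inferInstance
  exact h1.index_ne_zero

/-- The finite index subgroup for a homomorphism. -/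
theorem lvp_map {E S : Type u} [Group E] [Group S] (hE : LVP E) (hS : Group.FG S) (a : S →* E) :
    ∃ (H : Subgroup a.range) (n : ℕ), H.FiniteIndex ∧ PZ n H := by
  refine hE a.range ?_
  have h1 : Group.FG a.range := Group.fg_of_surjective a.rangeRestrict_surjective
  exact (Group.fg_iff_subgroup_fg _).1 h1

/-- Products. -/
theorem lvp_prod (E E' : Type u) [Group E] [Group E'] (h : LVP E) (h' : LVP E') :
    LVP (E × E') := by
  intro S hS
  have hS' : Group.FG S := (Group.fg_iff_subgroup_fg S).2 hS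
  obtain ⟨H, n, hH, hn⟩ := lvp_map h hS' ((MonoidHom.fst E E').comp S.subtype)
  obtain ⟨H', n', hH', hn'⟩ := lvp_map h' hS' ((MonoidHom.snd E E').comp S.subtype)
  set a := ((MonoidHom.fst E E').comp S.subtype).rangeRestrict with ha
  set a' := ((MonoidHom.snd E E').comp S.subtype).rangeRestrict with ha'
  have i1 : (H.comap a).FiniteIndex := fi_comap a H hH
  have i2 : (H'.comap a').FiniteIndex := fi_comap a' H' hH'
  refine ⟨H.comap a ⊓ H'.comap a', n + n', inferInstance, ?_⟩
  refine PL.PZ.of_injective (n + n')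
    (((a.comp (H.comap a ⊓ H'.comap a').subtype).codRestrict H fun x => x.2.1).prod
      ((a'.comp (H.comap a ⊓ H'.comap a').subtype).codRestrict H' fun x => x.2.2))
    (fun x y hxy => ?_) (pz_prod n n' hn hn')
  have e1 : a x.1 = a y.1 := congrArg Subtype.val (congrArg Prod.fst hxy)
  have e2 : a' x.1 = a' y.1 := congrArg Subtype.val (congrArg Prod.snd hxy)
  have e3 : x.1.1.1 = y.1.1.1 := congrArg Subtype.val e1
  have e4 : x.1.1.2 = y.1.1.2 := congrArg Subtype.val e2
  exact Subtype.ext (Subtype.ext (Prod.ext e3 e4))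

/-- Elements of finite order modulo a torsion kernel. -/
theorem fo {G G' : Type u} [Group G] [Group G'] (f : G →* G')
    (hf : ∀ g, f g = 1 → IsOfFinOrder g) (g : G) (h : IsOfFinOrder (f g)) : IsOfFinOrder g := by
  obtain ⟨n, hn, h1⟩ := isOfFinOrder_iff_pow_eq_one.1 h
  obtain ⟨m, hm, h2⟩ := isOfFinOrder_iff_pow_eq_one.1 (hf (g ^ n) (by rw [map_pow, h1]))
  exact isOfFinOrder_iff_pow_eq_one.2 ⟨n * m, Nat.mul_pos hn hm, by rw [pow_mul, h2]⟩

end C0p

/-- C0P. -/
theorem c0p : C0pStatement.{u} := by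
  refine ⟨fun G G' _ _ f h hf => ?_, fun G G' _ _ h h' => ?_⟩
  · obtain ⟨E, iE, q, hE, hq⟩ := h
    exact ⟨E, iE, q.comp f, hE, fun g hg => C0p.fo f hf g (hq (f g) hg)⟩
  · obtain ⟨E, iE, q, hE, hq⟩ := h
    obtain ⟨E', iE', q', hE', hq'⟩ := h'
    refine ⟨E × E', inferInstance, q.prodMap q', C0p.lvp_prod E E' hE hE', fun g hg => ?_⟩
    have h1 : IsOfFinOrder g.1 := hq g.1 (congrArg Prod.fst hg)
    have h2 : IsOfFinOrder g.2 := hq' g.2 (congrArg Prod.snd hg)
    obtain ⟨n, hn, h3⟩ := isOfFinOrder_iff_pow_eq_one.1 h1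
    obtain ⟨m, hm, h4⟩ := isOfFinOrder_iff_pow_eq_one.1 h2
    refine isOfFinOrder_iff_pow_eq_one.2 ⟨n * m, Nat.mul_pos hn hm, Prod.ext ?_ ?_⟩
    · show g.1 ^ (n * m) = 1
      rw [pow_mul, h3, one_pow]
    · show g.2 ^ (n * m) = 1
      rw [mul_comm, pow_mul, h4, one_pow]

end Pool.Agent.NegK.NT.NL
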