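import Pool.Agent.Lib.MP_28303a_al.NT.NL.Ax
import Pool.Agent.Lib.MP_28303a_al.NT.NL.C0p
import Pool.Agent.Lib.MP_28303a_al.TT.H66.Nsub

/-! # The closure properties for `C0`, good homomorphisms and torsion groups -/

set_option autoImplicit false
set_option linter.unusedSectionVars false
set_option linter.unusedVariables false

namespace Pool.Agent.NegK.NT.NL

universe u

open Pool.Agent.NegK.TW Pool.Agent.NegK.TT

namespace Ax0

/-- The group of the edges. -/
def C : GCls.{u} := fun G _ => C0 G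

/-- Good homomorphisms. -/
def D : HCls.{u} := fun Γ P _ _ f => Gd f

/-- The torsion groups. -/
def N : GCls.{u} := fun G _ => ∀ g : G, IsOfFinOrder g

/-- Torsion kernels. -/
theorem ker_tor {G G' : Type u} [Group G] [Group G'] (f : G →* G') (h : N f.ker) (g : G)
    (hg : f g = 1) : IsOfFinOrder g :=
  MonoidHom.isOfFinOrder f.ker.subtype (h ⟨g, hg⟩)

theorem tor_ker {G G' : Type u} [Group G] [Group G'] (f : G →* G')
    (h : ∀ g, f g = 1 → IsOfFinOrder g) : N f.ker := fun g =>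
  C0p.fo f.ker.subtype (fun x hx => by
    have h1 : x = 1 := Subtype.ext hx
    rw [h1]
    exact IsOfFinOrder.one) g (h g.1 g.2)

/-- Good homomorphisms and subgroups. -/
theorem gd_sub (Γ P Γ' P' : Type u) [Group Γ] [Group P] [Group Γ'] [Group P'] (f : Γ →* P)
    (f' : Γ' →* P') (i : Γ' →* Γ) (j : P' →* P) (hi : Function.Injective i)
    (hj : Function.Injective j) (hc : ∀ x, j (f' x) = f (i x)) (h : Gd f) : Gd f' := by
  refine ⟨?_, ?_⟩
  · rintro ⟨y, x, rfl⟩ n hn hy
    have h1 : (f' x) ^ n = 1 := congrArg Subtype.val hy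
    have h2 : (f (i x)) ^ n = 1 := by rw [← hc, ← map_pow, h1, map_one]
    have h3 := h.1 ⟨f (i x), i x, rfl⟩ n hn (Subtype.ext h2)
    have h4 : f (i x) = 1 := congrArg Subtype.val h3
    refine Subtype.ext (hj ?_)
    show j (f' x) = j 1
    rw [hc, h4, map_one]
  · have h1 : ∀ x : f'.ker, i x.1 ∈ f.ker := fun x => by
      have h2 : f' x.1 = 1 := x.2
      show f (i x.1) = 1
      rw [← hc, h2, map_one]
    exact H66.inN_of_injective ((i.comp f'.ker.subtype).codRestrict f.ker h1)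
      (fun x y hxy => Subtype.ext (hi (congrArg Subtype.val hxy))) h.2

/-- Good homomorphisms and torsion kernels. -/
theorem gd_comp (Γ Q P : Type u) [Group Γ] [Group Q] [Group P] (f : Γ →* Q) (g : Q →* P)
    (h : Gd f) (hg : ∀ x, g x = 1 → IsOfFinOrder x) : Gd (g.comp f) := by
  have key : ∀ x, g (f x) = 1 → f x = 1 := fun x hx => by
    obtain ⟨n, hn, h1⟩ := isOfFinOrder_iff_pow_eq_one.1 (hg (f x) hx)
    exact congrArg Subtype.val (h.1 ⟨f x, x, rfl⟩ n hn (Subtype.ext h1))
  refine ⟨?_, ?_⟩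
  · rintro ⟨y, x, rfl⟩ n hn hy
    have h1 : (g (f x)) ^ n = 1 := congrArg Subtype.val hy
    have h2 : f (x ^ n) = 1 := key (x ^ n) (by rw [map_pow, map_pow, h1])
    have h3 : f x = 1 :=
      congrArg Subtype.val (h.1 ⟨f x, x, rfl⟩ n hn (Subtype.ext (by
        show (f x) ^ n = 1
        rw [← map_pow, h2])))
    refine Subtype.ext ?_
    show g (f x) = 1
    rw [h3, map_one]
  · exact H66.inN_mono (H := (g.comp f).ker) (K := f.ker) (fun x hx => key x hx) h.2

end Ax0

/-- The closure properties (uses C0R). -/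
theorem ax0 (h : C0rStatement.{u}) : Ax.{u} Ax0.C Ax0.D Ax0.N where
  N_inj G G' _ _ f hf hG' g := C0p.fo f (fun x hx => by
    have h1 : x = 1 := hf (by rw [hx, map_one])
    rw [h1]
    exact IsOfFinOrder.one) g (hG' (f g))
  N_one G _ hG g := by
    rw [Subsingleton.elim g 1]
    exact IsOfFinOrder.one
  C_ext G G' _ _ f hf hG' := c0p.1 G G' f hG' (Ax0.ker_tor f hf)
  C_prod G G' _ _ hG hG' := c0p.2 G G' hG hG'
  rc Γ P _ _ f hf hP := h Γ P f hf hP
  sub Γ P Γ' P' _ _ _ _ f f' i j hi hj hc hf := Ax0.gd_sub Γ P Γ' P' f f' i j hi hj hc hf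
  comp Γ Q P _ _ _ f g hf hg := Ax0.gd_comp Γ Q P f g hf (Ax0.ker_tor g hg)

end Pool.Agent.NegK.NT.NL
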