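import Pool.Agent.Lib.MP_28303a_al.NT.NL.Ax
import Pool.Agent.Lib.MP_28303a_al.RK.Vkx

/-! # Local trees: the classes for virtually poly-`ℤ` kernels -/

set_option autoImplicit false
set_option linter.unusedSectionVars false
set_option linter.unusedVariables false

namespace Pool.Agent.NegK.NT.NL

universe u

open Pool.Agent.NegK.TW Pool.Agent.NegK.TT Pool.Agent.NegK.NT.ER Pool.Agent.NegK.NT.ER61
open Pool.Agent.NegK.RK

/-- The small kernels. -/
def NV (G : Type u) [Group G] : Prop := ∃ k, BX k G

/-- The groups all whose finitely generated subgroups are extensions of a virtually poly-`ℤ` group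
by a small kernel. -/
def CV (G : Type u) [Group G] : Prop :=
  ∀ S : Subgroup G, S.FG → ∃ (E : Type u) (_ : Group E) (m : ℕ) (q : S →* E), VZ m E ∧ NV q.ker

/-- The good homomorphisms. -/
def DV (Γ P : Type u) [Group Γ] [Group P] (f : Γ →* P) : Prop :=
  ∃ (X : Type u) (_ : Group X) (δ : Γ →* X) (n : ℕ), VK n δ f

/-- The instance. -/
def AxvStatement : Prop := Ax.{u} CV DV NV

end Pool.Agent.NegK.NT.NL
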