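import Pool.Agent.Lib.MP_28303a_al.NT.NL.Defs
import Pool.Agent.Lib.MP_28303a_al.RK.Tfk
import Pool.Agent.Lib.MP_28303a_al.TT.Main3

/-! # Local trees: C0R, good homomorphisms to groups in `C0` -/

set_option autoImplicit false
set_option linter.unusedSectionVars false
set_option linter.unusedVariables false

namespace Pool.Agent.NegK.NT.NL

universe u

open Pool.Agent.NegK.TW Pool.Agent.NegK.TT Pool.Agent.NegK.RK Pool.Agent.NegK.PL

/-- C0R. -/
theorem c0r : C0rStatement.{u} := by
  intro Γ P _ _ f hf hP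
  obtain ⟨E, _, q, hE, hq⟩ := hP
  refine ((TT.main.{u}).2.2.2.1 Γ).2.2.2.2.2.1 fun T => ⟨Subgroup.closure (T : Set Γ),
    fun s hs => Subgroup.subset_closure hs, inRC_of_inN ?_⟩
  have hfg : Group.FG (Subgroup.closure (T : Set Γ)) := (Group.fg_iff_subgroup_fg _).2 ⟨T, rfl⟩
  let S := Subgroup.closure (T : Set Γ)
  let g : S →* E := (q.comp f).comp S.subtype
  -- elements with an image of finite order are in the kernel of `f`
  have key : ∀ (s : S) (n : ℕ), 0 < n → g s ^ n = 1 → f s.1 = 1 := by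
    intro s n hn h
    have h1 : q (f s.1 ^ n) = 1 := by
      rw [map_pow]
      exact h
    obtain ⟨m, hm, h2⟩ := isOfFinOrder_iff_pow_eq_one.1 (hq _ h1)
    have h3 := hf.1 (⟨f s.1, s.1, rfl⟩ : f.range) (n * m) (Nat.mul_pos hn hm)
      (Subtype.ext (by
        show f s.1 ^ (n * m) = 1
        rw [pow_mul]
        exact h2))
    exact congrArg Subtype.val h3
  have htf : TorsionFree g.range := by
    rintro ⟨_, s, rfl⟩ n hn hs
    have h1 := key s n hn (congrArg Subtype.val hs)
    refine Subtype.ext ?_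
    show q (f s.1) = 1
    rw [h1, map_one]
  obtain ⟨H, n, hH, hn⟩ := hE g.range ((Group.fg_iff_subgroup_fg _).1 (Group.fg_range g))
  refine tfq S g.range g.rangeRestrict g.rangeRestrict_surjective htf ?_ H n hH hn
  refine TT.H66.inN_of_injective (⟨⟨fun x => ⟨x.1.1, key x.1 1 one_pos ?_⟩, rfl⟩,
    fun x y => rfl⟩ : g.rangeRestrict.ker →* f.ker) (fun x y hxy => ?_) hf.2
  · rw [pow_one]
    exact congrArg Subtype.val x.2
  · exact Subtype.ext (Subtype.ext (congrArg (fun z : f.ker => (z : Γ)) hxy))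

end Pool.Agent.NegK.NT.NL
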