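import Pool.Agent.Lib.MP_28303a_al.NT.NL.GnDefs
import Pool.Agent.Lib.MP_28303a_al.NT.NL.Ax0
import Pool.Agent.Lib.MP_28303a_al.NT.NL.C0r

/-! # AXZ: the instance of the closure properties for poly-`ℤ` groups -/

set_option autoImplicit false
set_option linter.unusedSectionVars false
set_option linter.unusedVariables false

namespace Pool.Agent.NegK.NT.NL

universe u

open Pool.Agent.NegK.TW Pool.Agent.NegK.TT Pool.Agent.NegK.PL

namespace Axz

/-- Images of finitely generated groups. -/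
theorem map {E S : Type u} [Group E] [Group S] (hE : LPZ E) (hS : Group.FG S) (a : S →* E) :
    ∃ n : ℕ, PZ n a.range := by
  refine hE a.range ?_
  have h1 : Group.FG a.range := Group.fg_of_surjective a.rangeRestrict_surjective
  exact (Group.fg_iff_subgroup_fg _).1 h1

/-- Products. -/
theorem prod (E E' : Type u) [Group E] [Group E'] (h : LPZ E) (h' : LPZ E') :
    LPZ (E × E') := by
  intro S hS
  have hS' : Group.FG S := (Group.fg_iff_subgroup_fg S).2 hS
  obtain ⟨n, hn⟩ := map h hS' ((MonoidHom.fst E E').comp S.subtype)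
  obtain ⟨n', hn'⟩ := map h' hS' ((MonoidHom.snd E E').comp S.subtype)
  refine ⟨n + n', PL.PZ.of_injective (n + n')
    ((((MonoidHom.fst E E').comp S.subtype).rangeRestrict).prod
      (((MonoidHom.snd E E').comp S.subtype).rangeRestrict))
    (fun x y hxy => ?_) (C0p.pz_prod n n' hn hn')⟩
  have e3 : x.1.1 = y.1.1 := congrArg Subtype.val (congrArg Prod.fst hxy)
  have e4 : x.1.2 = y.1.2 := congrArg Subtype.val (congrArg Prod.snd hxy)
  exact Subtype.ext (Prod.ext e3 e4)

/-- Poly-`ℤ` groups are virtually poly-`ℤ`. -/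
theorem lvp {E : Type u} [Group E] (h : LPZ E) : LVP E := by
  intro S hS
  obtain ⟨n, hn⟩ := h S hS
  exact ⟨⊤, n, inferInstance, PL.PZ.of_injective n (⊤ : Subgroup S).subtype
    Subtype.val_injective hn⟩

theorem c0 {G : Type u} [Group G] (h : CZ G) : C0 G := by
  obtain ⟨E, i, q, hE, hq⟩ := h
  exact ⟨E, i, q, lvp hE, hq⟩

end Axz

/-- AXZ. -/
theorem axz : AxzStatement.{u} where
  N_inj := (ax0 c0r).N_inj
  N_one := (ax0 c0r).N_one
  C_ext G G' _ _ f hf hG' := by
    obtain ⟨E, i, q, hE, hq⟩ := hG'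
    exact ⟨E, i, q.comp f, hE, fun g hg => C0p.fo f (Ax0.ker_tor f hf) g (hq (f g) hg)⟩
  C_prod G G' _ _ hG hG' := by
    obtain ⟨E, i, q, hE, hq⟩ := hG
    obtain ⟨E', i', q', hE', hq'⟩ := hG'
    refine ⟨E × E', inferInstance, q.prodMap q', Axz.prod E E' hE hE', ?_⟩
    rintro ⟨g, g'⟩ hg
    obtain ⟨n, hn, h1⟩ := isOfFinOrder_iff_pow_eq_one.1 (hq g (congrArg Prod.fst hg))
    obtain ⟨m, hm, h2⟩ := isOfFinOrder_iff_pow_eq_one.1 (hq' g' (congrArg Prod.snd hg))
    refine isOfFinOrder_iff_pow_eq_one.2 ⟨n * m, Nat.mul_pos hn hm, Prod.ext ?_ ?_⟩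
    · show g ^ (n * m) = 1
      rw [pow_mul, h1, one_pow]
    · show g' ^ (n * m) = 1
      rw [mul_comm, pow_mul, h2, one_pow]
  rc Γ P _ _ f hf hP := c0r Γ P f hf (Axz.c0 hP)
  sub := (ax0 c0r).sub
  comp := (ax0 c0r).comp

end Pool.Agent.NegK.NT.NL
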