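import Pool.Agent.Lib.MP_28303a_al.NT.NL.Defs
import Pool.Agent.Lib.MP_28303a_al.NT.ER47.Cl

/-! # Row CLW: the closure properties of the class of functors -/

set_option autoImplicit false
set_option linter.unusedSectionVars false
set_option linter.unusedVariables false

namespace Pool.Agent.NegK.NT.NL

universe u

open CategoryTheory Limits Opposite Pretriangulated
open Pool.Agent.NegK.TW Pool.Agent.NegK.TT Pool.Agent.NegK.NT.ER Pool.Agent.NegK.NT.ER61

/-- The closure properties for an upwards closed invariant set. -/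
theorem clw_aux {Γ : Type u} [Group Γ] {B : Type u} [MulAction Γ B] {P : Pre Γ B}
    (W : SubMulAction Γ B) (hW : Up P W) (h0 : H78.Fin0 P)
    (hS : ∀ U ∈ W, InRC (MulAction.stabilizer Γ U)) (k : Type u) [Ring k] (hk : RegularRing k) :
    RegCls0 (fun M : Fn k P => AA W M) := by
  have h1 := ER47.fin0_sub' W h0
  have hR : ∀ U : Bx (sub P W), H78.RC (H78.Rg k U) := fun U =>
    H78.rc_end h1 U (by
      have h2 := hS U.pt.1 U.pt.2 k hk
      rw [ER47.stab_sub]
      exact h2)
  exact
    { iso := fun M N e h => e.elim fun e =>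
        H78.FPV.iso ((pb k (inc P W)).mapIso e) h
      ker := fun M N f hM hN => by
        have h3 := H78.FPV.ker hR ((pb k (inc P W)).map f) hM hN
        exact H78.FPV.iso (PreservesKernel.iso (pb k (inc P W)) f).symm h3
      coker := fun M N f hM hN => by
        have h3 := H78.FPV.coker hR ((pb k (inc P W)).map f) hM hN
        exact H78.FPV.iso (PreservesCokernel.iso (pb k (inc P W)) f).symm h3
      fin := fun A hA => by
        obtain ⟨n, loc, ⟨e⟩⟩ := H78.exists_iso_ps A
        exact H78.FPV.iso ((pb k (inc P W)).mapIso e) (ER47.fpv_pb_ps W h0 hW loc) }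

/-- Row CLW. -/
theorem clw : ClwStatement.{u} := by
  intro Γ _ T D _ _ K hfin hS k _ hk
  exact clw_aux (nva K) (up_nva K) (H78.fin0 T hfin) hS k hk

end Pool.Agent.NegK.NT.NL
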