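import Pool.Agent.Lib.MP_28303a_al.NT.NL.AxV
import Pool.Agent.Lib.MP_28303a_al.RK.Tfk

/-!
# Local trees: the instance for virtually poly-`ℤ` kernels
-/

set_option autoImplicit false
set_option linter.unusedSectionVars false
set_option linter.unusedVariables false

namespace Pool.Agent.NegK.NT.NL

universe u

open Pool.Agent.NegK.TW Pool.Agent.NegK.TT Pool.Agent.NegK.NT Pool.Agent.NegK.RK

namespace CsV

theorem bx_inj : ∀ (k : ℕ) {G G' : Type u} [Group G] [Group G'] (f : G →* G'),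
    Function.Injective f → BX k G' → BX k G
  | 0, G, G', _, _, f, hf, h => by
    have : Subsingleton G' := h
    exact hf.subsingleton
  | k + 1, G, G', _, _, f, hf, ⟨A, iA, e, φ, he, hA, h⟩ => by
    refine ⟨A, iA, e, φ.comp f, he, hA, bx_inj k (⟨⟨fun x => ⟨f x.1, x.2⟩,
      Subtype.ext (map_one f)⟩, fun x y => Subtype.ext (map_mul f x.1 y.1)⟩ :
        (φ.comp f).ker →* φ.ker) (fun x y hxy => ?_) h⟩
    exact Subtype.ext (hf (congrArg Subtype.val hxy))

theorem bx_ext : ∀ (l k : ℕ) {G Q : Type u} [Group G] [Group Q] (g : G →* Q), BX k g.ker →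
    BX l Q → BX (k + l) G
  | 0, k, G, Q, _, _, g, hk, h => by
    have : Subsingleton Q := h
    exact bx_inj k (⟨⟨fun x => ⟨x, Subsingleton.elim _ _⟩, rfl⟩, fun _ _ => rfl⟩ : G →* g.ker)
      (fun x y hxy => congrArg Subtype.val hxy) hk
  | l + 1, k, G, Q, _, _, g, hk, ⟨A, iA, e, φ, he, hA, h⟩ => by
    let g' : (φ.comp g).ker →* φ.ker :=
      { toFun := fun x => ⟨g x.1, x.2⟩
        map_one' := Subtype.ext (map_one g)
        map_mul' := fun x y => Subtype.ext (map_mul g x.1 y.1) }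
    refine ⟨A, iA, e, φ.comp g, he, hA, bx_ext l k g' ?_ h⟩
    refine bx_inj k (⟨⟨fun x => ⟨x.1.1, congrArg Subtype.val x.2⟩, rfl⟩, fun _ _ => rfl⟩ :
      g'.ker →* g.ker) (fun x y hxy => ?_) hk
    exact Subtype.ext (Subtype.ext (congrArg (fun z : g.ker => (z : G)) hxy))

theorem bx_prod {k l : ℕ} {G G' : Type u} [Group G] [Group G'] (h : BX k G) (h' : BX l G') :
    BX (k + l) (G × G') := by
  refine bx_ext l k (MonoidHom.snd G G') ?_ h'
  refine bx_inj k (⟨⟨fun x => x.1.1, rfl⟩, fun _ _ => rfl⟩ : (MonoidHom.snd G G').ker →* G)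
    (fun x y hxy => ?_) h
  exact Subtype.ext (Prod.ext hxy ((x.2 : x.1.2 = 1).trans (y.2 : y.1.2 = 1).symm))

theorem vz_prod {k l : ℕ} {G G' : Type u} [Group G] [Group G'] (h : VZ k G) (h' : VZ l G') :
    VZ (k + l) (G × G') := by
  refine VZ.ext (MonoidHom.snd G G') h' ?_
  refine VZ.of_injective (⟨⟨fun x => x.1.1, rfl⟩, fun _ _ => rfl⟩ :
    (MonoidHom.snd G G').ker →* G) (fun x y hxy => ?_) h
  exact Subtype.ext (Prod.ext hxy ((x.2 : x.1.2 = 1).trans (y.2 : y.1.2 = 1).symm))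

theorem exists_fac {S X Y : Type u} [Group S] [Group X] [Group Y] (δ : S →* X) (σ : S →* Y)
    (h : ∀ s, δ s = 1 → σ s = 1) : ∃ φ : δ.range →* Y, ∀ s, φ (δ.rangeRestrict s) = σ s := by
  have hp : Function.Surjective δ.rangeRestrict := δ.rangeRestrict_surjective
  have hle : δ.rangeRestrict.ker ≤ σ.ker := fun x hx => h x (congrArg Subtype.val hx)
  exact ⟨δ.rangeRestrict.liftOfSurjective hp ⟨σ, hle⟩, fun s =>
    δ.rangeRestrict.liftOfRightInverse_comp_apply _ (Function.rightInverse_surjInv hp)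
      ⟨σ, hle⟩ s⟩

theorem dv_comp (hX : BvxStatement.{u}) {Γ Q P : Type u} [Group Γ] [Group Q] [Group P]
    (f : Γ →* Q) (g : Q →* P) (hf : DV Γ Q f) (hg : NV g.ker) : DV Γ P (g.comp f) := by
  obtain ⟨X, iX, δ, n, h⟩ := hf
  obtain ⟨k, hk⟩ := hg
  let N := (g.comp f).ker
  let δN : N →* X := δ.comp N.subtype
  let σ : N →* g.ker :=
    { toFun := fun x => ⟨f x.1, x.2⟩
      map_one' := Subtype.ext (map_one f)
      map_mul' := fun x y => Subtype.ext (map_mul f x.1 y.1) }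
  obtain ⟨φ, hφ⟩ := exists_fac δN σ fun s hs => Subtype.ext (h.le s.1 hs)
  have htf : TorsionFree δN.range := by
    rintro ⟨_, s, rfl⟩ m hm hs
    exact Subtype.ext (h.tf s.1 m hm (congrArg Subtype.val hs))
  obtain ⟨m, hm⟩ := hX δN.range g.ker φ k n htf hk (by
    refine VZ.of_injective (⟨⟨fun x => ⟨x.1.1, ?_⟩, rfl⟩, fun _ _ => rfl⟩ :
      φ.ker →* (f.ker.map δ : Subgroup X)) (fun x y hxy => ?_) h.vz
    · obtain ⟨s, hs⟩ := δN.rangeRestrict_surjective x.1
      have h1 : σ s = 1 := by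
        rw [← hφ, hs]
        exact x.2
      exact ⟨s.1, congrArg Subtype.val h1, congrArg Subtype.val hs⟩
    · exact Subtype.ext (Subtype.ext
        (congrArg (fun z : (f.ker.map δ : Subgroup X) => (z : X)) hxy)))
  refine ⟨X, iX, δ, m, h.tf, h.ker, fun x hx => ?_, ?_⟩
  · show g (f x) = 1
    rw [h.le x hx, map_one]
  · refine VZ.of_injective (Subgroup.inclusion ?_) (Subgroup.inclusion_injective _) hm
    rintro _ ⟨x, hx, rfl⟩
    exact ⟨⟨x, hx⟩, rfl⟩

theorem rc (hX : BvxStatement.{u}) {Γ P : Type u} [Group Γ] [Group P] (f : Γ →* P)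
    (hf : DV Γ P f) (hP : CV P) : InRC Γ := by
  obtain ⟨X, iX, δ, n, h⟩ := hf
  refine ((TT.main.{u}).2.2.2.1 Γ).2.2.2.2.2.1 fun T => ⟨Subgroup.closure (T : Set Γ),
    fun s hs => Subgroup.subset_closure hs, inRC_of_inN ?_⟩
  have hfg : Group.FG (Subgroup.closure (T : Set Γ)) := (Group.fg_iff_subgroup_fg _).2 ⟨T, rfl⟩
  let S := Subgroup.closure (T : Set Γ)
  let fS : S →* P := f.comp S.subtype
  let δS : S →* X := δ.comp S.subtype
  obtain ⟨E, iE, m, q, hE, k, hk⟩ := hP fS.range ((Group.fg_iff_subgroup_fg _).1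
    (Group.fg_range fS))
  obtain ⟨φ, hφ⟩ := exists_fac δS fS.rangeRestrict fun s hs => Subtype.ext (h.le s.1 hs)
  have htf : TorsionFree δS.range := by
    rintro ⟨_, s, rfl⟩ m hm hs
    exact Subtype.ext (h.tf s.1 m hm (congrArg Subtype.val hs))
  -- the kernel of the homomorphism to `E`
  let N := (q.comp φ).ker
  let σ : N →* q.ker :=
    { toFun := fun x => ⟨φ x.1, x.2⟩
      map_one' := Subtype.ext (map_one φ)
      map_mul' := fun x y => Subtype.ext (map_mul φ x.1 y.1) }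
  obtain ⟨m', hm'⟩ := hX N q.ker σ k n (fun x l hl hx => Subtype.ext
    (htf x.1 l hl (congrArg Subtype.val hx))) hk (by
    refine VZ.of_injective (⟨⟨fun x => ⟨x.1.1.1, ?_⟩, rfl⟩, fun _ _ => rfl⟩ :
      σ.ker →* (f.ker.map δ : Subgroup X)) (fun x y hxy => ?_) h.vz
    · obtain ⟨s, hs⟩ := δS.rangeRestrict_surjective x.1.1
      have h1 : φ x.1.1 = 1 := congrArg Subtype.val x.2
      rw [← hs, hφ] at h1
      exact ⟨s.1, congrArg Subtype.val h1, congrArg Subtype.val hs⟩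
    · exact Subtype.ext (Subtype.ext (Subtype.ext
        (congrArg (fun z : (f.ker.map δ : Subgroup X) => (z : X)) hxy))))
  obtain ⟨F, hF, hFz⟩ := VZ.ext (q.comp φ) hE hm'
  refine tfq S δS.range δS.rangeRestrict δS.rangeRestrict_surjective htf ?_ F (m' + m) hF hFz
  refine TT.H66.inN_of_injective (⟨⟨fun x => ⟨x.1.1, congrArg Subtype.val x.2⟩, rfl⟩,
    fun x y => rfl⟩ : δS.rangeRestrict.ker →* δ.ker) (fun x y hxy => ?_) h.ker
  exact Subtype.ext (Subtype.ext (congrArg (fun z : δ.ker => (z : Γ)) hxy))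

theorem cv_ext {G G' : Type u} [Group G] [Group G'] (f : G →* G') (hN : NV f.ker) (hC : CV G') :
    CV G := by
  obtain ⟨l, hl⟩ := hN
  intro S hS
  have hS' : Group.FG S := (Group.fg_iff_subgroup_fg S).2 hS
  let fS : S →* G' := f.comp S.subtype
  obtain ⟨E, iE, m, q, hE, k, hk⟩ := hC fS.range ((Group.fg_iff_subgroup_fg _).1
    (Group.fg_range fS))
  refine ⟨E, iE, m, q.comp fS.rangeRestrict, hE, l + k, ?_⟩
  let g : (q.comp fS.rangeRestrict).ker →* q.ker :=
    { toFun := fun x => ⟨fS.rangeRestrict x.1, x.2⟩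
      map_one' := Subtype.ext (map_one fS.rangeRestrict)
      map_mul' := fun x y => Subtype.ext (map_mul fS.rangeRestrict x.1 y.1) }
  refine bx_ext k l g ?_ hk
  refine bx_inj l (⟨⟨fun x => ⟨x.1.1.1, ?_⟩, rfl⟩, fun _ _ => rfl⟩ : g.ker →* f.ker)
    (fun x y hxy => ?_) hl
  · have h1 : fS.rangeRestrict x.1.1 = 1 := congrArg Subtype.val x.2
    exact congrArg Subtype.val h1
  · exact Subtype.ext (Subtype.ext (Subtype.ext (congrArg (fun z : f.ker => (z : G)) hxy)))

theorem cv_prod {G G' : Type u} [Group G] [Group G'] (hG : CV G) (hG' : CV G') :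
    CV (G × G') := by
  intro S hS
  have hS' : Group.FG S := (Group.fg_iff_subgroup_fg S).2 hS
  let a : S →* G := (MonoidHom.fst G G').comp S.subtype
  let b : S →* G' := (MonoidHom.snd G G').comp S.subtype
  obtain ⟨E, iE, m, q, hE, k, hk⟩ := hG a.range ((Group.fg_iff_subgroup_fg _).1
    (Group.fg_range a))
  obtain ⟨E', iE', m', q', hE', k', hk'⟩ := hG' b.range ((Group.fg_iff_subgroup_fg _).1
    (Group.fg_range b))
  refine ⟨E × E', inferInstance, m + m',
    (q.comp a.rangeRestrict).prod (q'.comp b.rangeRestrict), vz_prod hE hE', k + k', ?_⟩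
  let c := (q.comp a.rangeRestrict).prod (q'.comp b.rangeRestrict)
  refine bx_inj _ (⟨⟨fun x => (⟨a.rangeRestrict x.1, congrArg Prod.fst x.2⟩,
    ⟨b.rangeRestrict x.1, congrArg Prod.snd x.2⟩), rfl⟩, fun x y => rfl⟩ :
      c.ker →* q.ker × q'.ker) (fun x y hxy => ?_) (bx_prod hk hk')
  refine Subtype.ext (Subtype.ext (Prod.ext ?_ ?_))
  · exact congrArg (fun z : q.ker × q'.ker => (z.1.1.1 : G)) hxy
  · exact congrArg (fun z : q.ker × q'.ker => (z.2.1.1 : G')) hxy

end CsV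

open CsV in
/-- The instance for virtually poly-`ℤ` kernels. -/
theorem axV (hX : BvxStatement.{u}) : AxvStatement.{u} where
  N_inj _ _ _ _ f hf h := by
    obtain ⟨k, hk⟩ := h
    exact ⟨k, bx_inj k f hf hk⟩
  N_one _ _ h := ⟨0, h⟩
  C_ext _ _ _ _ f hN hC := cv_ext f hN hC
  C_prod _ _ _ _ h h' := cv_prod h h'
  rc _ _ _ _ f hf hP := rc hX f hf hP
  sub Γ P Γ' P' _ _ _ _ f f' i j hi hj hij h := by
    obtain ⟨X, iX, δ, n, hV⟩ := h
    refine ⟨X, iX, δ.comp i, n, (hV.comp i hi).mono (fun x hx => ?_) fun x hx => ?_⟩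
    · exact hj ((hij x).trans (hx.trans (map_one j).symm))
    · show f (i x) = 1
      rw [← hij, hx, map_one]
  comp _ _ _ _ _ _ f g hf hg := dv_comp hX f g hf hg

end Pool.Agent.NegK.NT.NL
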