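import Pool.Agent.Lib.MP_28303a_al.NT.ER71.All
import Pool.Agent.Lib.MP_28303a_al.NT.EX73.Fib
import Pool.Agent.Lib.MP_28303a_al.NT.Main
import Pool.Agent.Lib.MP_28303a_al.PL.Defs

/-! # Local trees: definitions and statements of the modules -/

set_option autoImplicit false
set_option linter.unusedSectionVars false
set_option linter.unusedVariables false

namespace Pool.Agent.NegK.NT.NL

universe u

open CategoryTheory Limits Opposite Pretriangulated
open Pool.Agent.NegK.TW Pool.Agent.NegK.TT Pool.Agent.NegK.NT.ER Pool.Agent.NegK.NT.ER61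

/-! ### Families of preorders -/

/-- A preorder and coarser preorders. -/
structure Fam (Γ : Type u) [Group Γ] (B : Type u) [MulAction Γ B] where
  P : Pre Γ B
  J : Type
  Q : J → Pre Γ B
  le : ∀ (j : J) {x y : B}, P.le x y → (Q j).le x y

section

variable {Γ : Type u} [Group Γ] {B : Type u} [MulAction Γ B]

/-- From the preorder to the coarser one. -/
def Fam.fg (F : Fam Γ B) (j : F.J) : Loc.Mono F.P (F.Q j) where
  φ x := x
  smul _ _ := rfl
  le h := F.le j h

/-- The perfect objects which vanish for all coarser preorders. -/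
structure Fam.PJ (F : Fam Γ B) (k : Type u) [Ring k] (X : KK k F.P) : Prop where
  per : Per X
  ac : ∀ j : F.J, IsZero ((hk (Loc.push (F.fg j))).obj X)

/-- `X` extends to `k[t]`. -/
def Fam.Ext (F : Fam Γ B) (k : Type u) [Ring k] (X : KK (LaurentPolynomial k) F.P) : Prop :=
  ∃ Y : KK (Polynomial k) F.P, F.PJ (Polynomial k) Y ∧ Nonempty ((loc k F.P).obj Y ≅ X)

/-- Everything over `k[t, t⁻¹]` extends to `k[t]`. -/
def Fam.EXT (F : Fam Γ B) : Prop :=
  ∀ (k : Type u) [Ring k], RegularRing k → ∀ X : KK (LaurentPolynomial k) F.P,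
    F.PJ (LaurentPolynomial k) X → F.Ext k X

/-- The family of a system. -/
def fam (T : Sys Γ) (S J : Finset (Fin T.m)) : Fam Γ T.Box where
  P := T.P S
  J := {j : Fin T.m // j ∈ J}
  Q j := T.P (S.erase j.1)
  le j _ _ h i hi := h i (Finset.mem_of_mem_erase hi)

/-- The preorder for a subgroup. -/
def sbP (P : Pre Γ B) (H : Subgroup Γ) : Pre H B where
  le := P.le
  refl := P.refl
  trans := P.trans
  smul g _ _ h := P.smul g.1 h

/-- The family for a subgroup. -/
def Fam.sb (F : Fam Γ B) (H : Subgroup Γ) : Fam H B where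
  P := sbP F.P H
  J := F.J
  Q j := sbP (F.Q j) H
  le j _ _ h := F.le j h

variable {C : Type u} [MulAction Γ C]

/-- The product preorder. -/
def prP (Q : Pre Γ C) (P : Pre Γ B) : Pre Γ (C × B) where
  le p q := Q.le p.1 q.1 ∧ P.le p.2 q.2
  refl p := ⟨Q.refl _, P.refl _⟩
  trans h h' := ⟨Q.trans h.1 h'.1, P.trans h.2 h'.2⟩
  smul g _ _ h := ⟨Q.smul g h.1, P.smul g h.2⟩

/-- The product with a preorder. -/
def Fam.pr (Q : Pre Γ C) (F : Fam Γ B) : Fam Γ (C × B) where
  P := prP Q F.P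
  J := F.J
  Q j := prP Q (F.Q j)
  le j _ _ h := ⟨h.1, F.le j h.2⟩

end

/-! ### Induction -/

/-- Maps of the locations along a homomorphism of groups. -/
structure IM {H Γ : Type u} [Group H] [Group Γ] (f : H →* Γ) {B C : Type u} [MulAction H B]
    [MulAction Γ C] (P : Pre H B) (Q : Pre Γ C) where
  φ : B → C
  le : ∀ (x y : B) (h : H), P.le x (h • y) → Q.le (φ x) (f h • φ y)

section

variable (k : Type u) [Ring k] {H Γ : Type u} [Group H] [Group Γ] (f : H →* Γ)

/-- The map of free modules. -/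
noncomputable def fm (ι : Type u) : (ι →₀ MonoidAlgebra k H) →+ (ι →₀ MonoidAlgebra k Γ) :=
  Finsupp.mapRange.addMonoidHom (mdr k f).toAddMonoidHom

theorem fm_apply (ι : Type u) (x : ι →₀ MonoidAlgebra k H) (i : ι) :
    fm k f ι x i = mdr k f (x i) := rfl

theorem fm_smul (ι : Type u) (b : MonoidAlgebra k H) (x : ι →₀ MonoidAlgebra k H) :
    fm k f ι (b • x) = mdr k f b • fm k f ι x := by
  ext1 i
  rw [fm_apply, Finsupp.smul_apply, Finsupp.smul_apply, fm_apply, smul_eq_mul, smul_eq_mul,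
    map_mul]

theorem fm_single (ι : Type u) (i : ι) (b : MonoidAlgebra k H) :
    fm k f ι (Finsupp.single i b) = Finsupp.single i (mdr k f b) :=
  Finsupp.mapRange_single (hf := map_zero (mdr k f))

/-- The supports. -/
theorem mdr_supp {a : MonoidAlgebra k H} {g : Γ} (hg : (mdr k f a).coeff g ≠ 0) :
    ∃ h : H, f h = g ∧ a.coeff h ≠ 0 := by
  classical
  have h1 : g ∈ (Finsupp.mapDomain f a.coeff).support := Finsupp.mem_support_iff.2 hg
  obtain ⟨h, h2, h3⟩ := Finset.mem_image.1 (Finsupp.mapDomain_support h1)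
  exact ⟨h, h3, Finsupp.mem_support_iff.1 h2⟩

end

section

variable {H Γ : Type u} [Group H] [Group Γ] {f : H →* Γ} {B C : Type u} [MulAction H B]
  [MulAction Γ C] {P : Pre H B} {Q : Pre Γ C} (m : IM f P Q) (k : Type u) [Ring k]

/-- The object with the new locations. -/
abbrev IM.ob (A : Loc k P) : Loc k Q := ⟨A.ι, fun i => m.φ (A.loc i)⟩

/-- The induced map. -/
noncomputable def IM.hm {A A' : Loc k P} (a : A ⟶ A') : (m.ob k A) ⟶ (m.ob k A') :=
  Loc.ofB (A := m.ob k A) (A' := m.ob k A')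
    (fun i => fm k f A'.ι (Loc.lin a (Finsupp.single i 1))) (by
    intro i j g hg
    obtain ⟨h, rfl, hh⟩ := mdr_supp k f hg
    exact m.le _ _ h (Loc.spt_lin a i j h hh))

theorem IM.hm_fm {A A' : Loc k P} (a : A ⟶ A') (x : A.F) :
    Loc.lin (m.hm k a) (fm k f A.ι x) = fm k f A'.ι (Loc.lin a x) := by
  induction x using Finsupp.induction_linear with
  | zero => rw [map_zero, map_zero, map_zero, map_zero]
  | add x y hx hy => rw [map_add, map_add, map_add, map_add, hx, hy]
  | single i b =>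
    have h1 : Finsupp.single i b = b • (Finsupp.single i (1 : MonoidAlgebra k H)) := by
      rw [Finsupp.smul_single, smul_eq_mul, mul_one]
    have h2 : fm k f A.ι (Finsupp.single i (1 : MonoidAlgebra k H)) = Finsupp.single i 1 := by
      rw [fm_single, map_one]
    rw [h1, fm_smul, map_smul, map_smul, fm_smul, h2, IM.hm,
      Loc.lin_ofB (A := m.ob k A) (A' := m.ob k A')]

/-- The induction functor: the matrices are the same. -/
noncomputable def IM.F : Loc k P ⥤ Loc k Q where
  obj A := m.ob k A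
  map a := m.hm k a
  map_id A := Loc.ext_basis (A := m.ob k A) (A' := m.ob k A) fun i => by
    rw [IM.hm, Loc.lin_ofB (A := m.ob k A) (A' := m.ob k A), Loc.lin_id, LinearMap.id_apply,
      fm_single, map_one]
    rfl
  map_comp {A A' A''} a b := Loc.ext_basis (A := m.ob k A) (A' := m.ob k A'') fun i => by
    have h1 : Loc.lin (m.hm k a) (Finsupp.single i 1) =
        fm k f A'.ι (Loc.lin a (Finsupp.single i 1)) :=
      Loc.lin_ofB (A := m.ob k A) (A' := m.ob k A') _ _ i
    have h2 : Loc.lin (m.hm k (a ≫ b)) (Finsupp.single i 1) =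
        fm k f A''.ι (Loc.lin (a ≫ b) (Finsupp.single i 1)) :=
      Loc.lin_ofB (A := m.ob k A) (A' := m.ob k A'') _ _ i
    rw [h2, Loc.lin_comp, LinearMap.comp_apply, ← m.hm_fm k b, ← h1]
    rfl

theorem IM.lin_F {A A' : Loc k P} (a : A ⟶ A') (x : A.F) :
    (Loc.lin ((m.F k).map a) : (m.ob k A).F →ₗ[MonoidAlgebra k Γ] (m.ob k A').F)
      (fm k f A.ι x) = fm k f A'.ι (Loc.lin a x) := m.hm_fm k a x

instance : (m.F k).Additive where
  map_add {A A'} {a b} := Loc.ext_basis (A := m.ob k A) (A' := m.ob k A') fun i => by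
    change Loc.lin (m.hm k (a + b)) _ = Loc.lin (m.hm k a + m.hm k b) _
    rw [Loc.lin_add, LinearMap.add_apply, IM.hm, IM.hm, IM.hm,
      Loc.lin_ofB (A := m.ob k A) (A' := m.ob k A'),
      Loc.lin_ofB (A := m.ob k A) (A' := m.ob k A'),
      Loc.lin_ofB (A := m.ob k A) (A' := m.ob k A'), Loc.lin_add,
      LinearMap.add_apply, map_add]

end

/-! ### The families of labels of trees -/

section

variable {Γ : Type u} [Group Γ]

/-- The labels of a tree, for another group. -/
@[reducible] def cm {H : Type u} [Group H] (f : H →* Γ) (L : TL Γ) : TL H where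
  B := L.B
  act := MulAction.compHom L.B f
  ord := L.ord
  mono g x y h := L.mono (f g) x y h
  dir := L.dir
  ne := L.ne
  V := L.V
  E := L.E
  vt := L.vt
  ed := L.ed
  s := L.s
  t := L.t
  sle := L.sle
  tle := L.tle
  root := L.root
  root_le := L.root_le
  pth := L.pth
  pth_le := L.pth_le
  bd_pth := L.bd_pth
  pth_bd := L.pth_bd
  fin := L.fin
  sz := L.sz
  sz_smul g x := L.sz_smul (f g) x
  sz_lt := L.sz_lt

/-- The labels of a marked tree. -/
structure MTL (Γ : Type u) [Group Γ] where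
  L : TL Γ
  aV : MulAction Γ L.V
  aE : MulAction Γ L.E
  K : MkL L

/-- The labels of a marked tree, for another group. -/
@[reducible] def MTL.cm {H : Type u} [Group H] (f : H →* Γ) (M : MTL Γ) : MTL H where
  L := NL.cm f M.L
  aV := letI := M.aV; MulAction.compHom M.L.V f
  aE := letI := M.aE; MulAction.compHom M.L.E f
  K := letI := M.aV; letI := M.aE
    letI : MulAction H (NL.cm f M.L).V := MulAction.compHom M.L.V f
    letI : MulAction H (NL.cm f M.L).E := MulAction.compHom M.L.E f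
    { vt_smul := fun g v => M.K.vt_smul (f g) v
      ed_smul := fun g v => M.K.ed_smul (f g) v
      s_smul := fun g v => M.K.s_smul (f g) v
      t_smul := fun g v => M.K.t_smul (f g) v
      vt_inj := M.K.vt_inj
      ed_inj := M.K.ed_inj
      st := M.K.st
      vt_min := M.K.vt_min
      vt_ed := M.K.vt_ed
      ed_le := M.K.ed_le
      ed_vt := M.K.ed_vt }

variable {m : ℕ}

/-- EXT for the objects which are acyclic in all directions. -/
def Ex (L : Fin m → TL Γ) : Prop := (TL.sys L).EXT Finset.univ Finset.univ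

end

/-! ### Groups -/

/-- The class of the groups all whose finitely generated subgroups are virtually poly-Z. -/
def LVP (E : Type u) [Group E] : Prop :=
  ∀ S : Subgroup E, S.FG → ∃ (H : Subgroup S) (n : ℕ), H.FiniteIndex ∧ PL.PZ n H

/-- The groups with a homomorphism with torsion kernel to a group in `LVP`. -/
def C0 (G : Type u) [Group G] : Prop :=
  ∃ (E : Type u) (_ : Group E) (q : G →* E), LVP E ∧ ∀ g, q g = 1 → IsOfFinOrder g

/-- Good homomorphisms. -/
def Gd {Γ P : Type u} [Group Γ] [Group P] (f : Γ →* P) : Prop := TorsionFree f.range ∧ InN f.ker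

section

variable {P : Type u} [Group P] {m : ℕ}

/-- The labels for another group. -/
abbrev cms {H : Type u} [Group H] (f : H →* P) (M : Fin m → MTL P) : Fin m → MTL H :=
  fun i => (M i).cm f

/-- `EXT` for all good homomorphisms to `P`. -/
def EG (M : Fin m → MTL P) : Prop :=
  ∀ (Γ : Type u) [Group Γ] (f : Γ →* P), Gd f → Ex fun i => (cms f M i).L

/-- The stabilizers of the boxes of labels different from vertices are in `C0`. -/
def BG (M : Fin m → MTL P) : Prop :=
  ∀ U : ∀ i, (M i).L.B, (∀ i v, U i ≠ (M i).L.vt v) → C0 (MulAction.stabilizer P U)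

end

/-- The groups `Q` such that everything extends for `P × Q` if the stabilizers of the boxes of
labels different from vertices of `P` are in `C0`. -/
def T1 (Q : Type u) [Group Q] : Prop :=
  ∀ (P : Type u) [Group P] (m : ℕ) (M : Fin m → MTL P), BG M → EG (cms (MonoidHom.fst P Q) M)

/-- The class of groups: it is the smallest class with `C0`, closed under maps with torsion kernel,
unions, products and trees. -/
inductive Cl : (G : Type u) → Group G → Prop
  | c0 (G : Type u) [i : Group G] (h : C0 G) : Cl G i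
  | tk (G G' : Type u) [i : Group G] [i' : Group G'] (f : G →* G') (h : Cl G' i')
      (hf : ∀ g, f g = 1 → IsOfFinOrder g) : Cl G i
  | fg (G : Type u) [i : Group G] (h : ∀ S : Subgroup G, S.FG → Cl S inferInstance) : Cl G i
  | pr (G G' : Type u) [i : Group G] [i' : Group G'] (h : Cl G i) (h' : Cl G' i') :
      Cl (G × G') inferInstance
  | tree (G : Type u) [i : Group G] (Y : Trees G)
      (he : ∀ (j : Fin Y.m) (v : ∀ i, Y.V i) (w : Y.V j), (Y.G j).Adj (v j) w →
        C0 (Y.st v ⊓ MulAction.stabilizer G w : Subgroup G))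
      (hv : ∀ v, Cl (Y.st v) inferInstance) : Cl G i

/-! ### Statements of the modules -/

/-- EQV. Equivalent families of preorders. -/
structure Eqv {Γ B B' : Type u} [Group Γ] [MulAction Γ B] [MulAction Γ B'] (F : Fam Γ B)
    (F' : Fam Γ B') where
  a : B → B'
  b : B' → B
  aP : ∀ (x y : B) (g : Γ), F.P.le x (g • y) → F'.P.le (a x) (g • a y)
  bP : ∀ (x y : B') (g : Γ), F'.P.le x (g • y) → F.P.le (b x) (g • b y)
  aQ : ∀ j' : F'.J, ∃ j : F.J, ∀ (x y : B) (g : Γ), (F.Q j).le x (g • y) →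
    (F'.Q j').le (a x) (g • a y)
  bQ : ∀ j : F.J, ∃ j' : F'.J, ∀ (x y : B') (g : Γ), (F'.Q j').le x (g • y) →
    (F.Q j).le (b x) (g • b y)
  ab : ∀ x, F'.P.le (a (b x)) x ∧ F'.P.le x (a (b x))
  ba : ∀ x, F.P.le (b (a x)) x ∧ F.P.le x (b (a x))

/-- EQV. -/
def EqvStatement : Prop :=
  ∀ (Γ B B' : Type u) [Group Γ] [MulAction Γ B] [MulAction Γ B'] (F : Fam Γ B) (F' : Fam Γ B')
    (_ : Eqv F F'), F.EXT → F'.EXT

/-- CNX. Extensions. -/
def CnxStatement : Prop :=
  ∀ (Γ B : Type u) [Group Γ] [MulAction Γ B] (F : Fam Γ B) (k : Type u) [Ring k],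
    ∀ Δ ∈ distTriang (KK (LaurentPolynomial k) F.P), F.Ext k Δ.obj₁ → F.Ext k Δ.obj₃ →
      F.Ext k Δ.obj₂

/-- IGR. The objects whose locations are over one orbit of `C`. -/
def IgrStatement : Prop :=
  ∀ (Γ C B : Type u) [Group Γ] [MulAction Γ C] [MulAction Γ B] (Q : Pre Γ C) (F : Fam Γ B)
    (sz : C → ℕ), (∀ (g : Γ) (c : C), sz (g • c) = sz c) →
    (∀ c c', Q.le c c' → c ≠ c' → sz c < sz c') →
    ∀ c : C, (F.sb (MulAction.stabilizer Γ c)).EXT → ∀ (k : Type u) [Ring k], RegularRing k →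
    ∀ X : KK (LaurentPolynomial k) (Fam.pr Q F).P, (Fam.pr Q F).PJ (LaurentPolynomial k) X →
    (∃ E : CochainComplex (Loc (LaurentPolynomial k) (Fam.pr Q F).P) ℤ, FinC E ∧
      (∀ n (i : (E.X n).ι), ∃ g : Γ, ((E.X n).loc i).1 = g • c) ∧ Nonempty (Retract X (qo E))) →
    (Fam.pr Q F).Ext k X

/-- DEV (uses CNX, IGR). Devissage along the orbits of `C`. -/
def DevStatement : Prop :=
  ∀ (Γ C B : Type u) [Group Γ] [MulAction Γ C] [MulAction Γ B] (Q : Pre Γ C) (F : Fam Γ B)
    (sz : C → ℕ), (∀ (g : Γ) (c : C), sz (g • c) = sz c) →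
    (∀ c c', Q.le c c' → c ≠ c' → sz c < sz c') →
    (∀ c : C, (F.sb (MulAction.stabilizer Γ c)).EXT) → (Fam.pr Q F).EXT

/-- LOC. It is enough to consider finitely generated subgroups. -/
def LocStatement : Prop :=
  ∀ (Γ B : Type u) [Group Γ] [MulAction Γ B] (F : Fam Γ B), Finite F.J →
    (∀ S : Subgroup Γ, S.FG → (F.sb S).EXT) → F.EXT

/-- SYL, first part (uses DEV, EQV): devissage for the labels of trees. -/
def DevTStatement : Prop :=
  ∀ (Γ : Type u) [Group Γ] (m : ℕ) (L : Fin m → TL Γ) (Z : TL Γ),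
    (∀ c : Z.B, Ex fun i => cm (MulAction.stabilizer Γ c).subtype (L i)) →
    (TL.sys (Fin.cons (α := fun _ => TL Γ) Z L)).EXT Finset.univ
      (Finset.univ.erase (0 : Fin (m + 1)))

/-- SYL, second part (uses EQV): the first direction is irrelevant. -/
def IrrTStatement : Prop :=
  ∀ (Γ : Type u) [Group Γ] (m : ℕ) (L : Fin m → TL Γ) (Z : TL Γ),
    (TL.sys (Fin.cons (α := fun _ => TL Γ) Z L)).EXT (Finset.univ.erase (0 : Fin (m + 1)))
      (Finset.univ.erase (0 : Fin (m + 1))) → Ex L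

/-- SYL, third part (uses LOC). -/
def LocTStatement : Prop :=
  ∀ (Γ : Type u) [Group Γ] (m : ℕ) (L : Fin m → TL Γ),
    (∀ S : Subgroup Γ, S.FG → Ex fun i => cm S.subtype (L i)) → Ex L

/-- STEP (uses STEPB and the first two parts of SYL). -/
def StepStatement : Prop :=
  ∀ (Γ : Type u) [Group Γ] (m : ℕ) (L : Fin m → TL Γ) (Z : TL Γ),
    Ex (Fin.cons (α := fun _ => TL Γ) Z L) →
    (∀ c : Z.B, Ex fun i => cm (MulAction.stabilizer Γ c).subtype (L i)) → Ex L

/-- KNZ. `EXT` for the empty family gives the vanishing of the negative K-groups. -/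
def KnzStatement : Prop :=
  ∀ (Γ : Type u) [Group Γ], Ex (fun i : Fin 0 => (i.elim0 : TL Γ)) →
    ∀ (R : Type u) [Ring R], RegularRing R → ∀ n : ℕ,
      Subsingleton (KNeg (n + 1) (MonoidAlgebra R Γ))

/-! #### All directions -/

section

variable {Γ : Type u} [Group Γ] {T : Sys Γ} {D : T.Tr} [∀ j, MulAction Γ (D.V j)]
  [∀ j, MulAction Γ (D.E j)] (K : ∀ j, Mk D j)

/-- The boxes with all labels different from vertices. -/
def nva : SubMulAction Γ T.Box where
  carrier := {U | ∀ j, U ∈ nv (K j)}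
  smul_mem' g _ h j := (nv (K j)).smul_mem g (h j)

theorem up_nva : Up (T.P Finset.univ) (nva K) := fun x y hxy hx j => up_nv (K j) x y hxy (hx j)

variable (k : Type u) [Ring k]

/-- The functor `M ↦ zz (M | nv j)`. -/
noncomputable abbrev Zf (j : Fin T.m) : Fn k (T.P Finset.univ) ⥤ Fn k (T.P Finset.univ) :=
  pb k (inc (T.P Finset.univ) (nv (K j))) ⋙ ER.zz (up_nv (K j))

/-- The functor `M ↦ ye j M`. -/
noncomputable abbrev Yf (j : Fin T.m) : Fn k (T.P Finset.univ) ⥤ Fn k (T.P Finset.univ) :=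
  letI := flAct (K j)
  pb k (flr (K j)) ⋙ yy (flq (K j))

/-- The functors `Zf` (`false`) and `Yf` (`true`). -/
noncomputable def Xf (p : Bool × Fin T.m) : Fn k (T.P Finset.univ) ⥤ Fn k (T.P Finset.univ) :=
  if p.1 then Yf K k p.2 else Zf K k p.2

/-- Exact functors. -/
def Exct (F : Fn k (T.P Finset.univ) ⥤ Fn k (T.P Finset.univ)) : Prop :=
  ∀ S : ShortComplex (Fn k (T.P Finset.univ)), S.ShortExact →
    ∃ w, (ShortComplex.mk (F.map S.f) (F.map S.g) w).ShortExact

/-- The functor `M` vanishes at the boxes whose labels in the directions of `A` are different from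
vertices. -/
def Vn {k : Type u} [Ring k] (D : T.Tr) (A : Finset (Fin T.m)) (M : Fn k (T.P Finset.univ)) :
    Prop :=
  ∀ U : T.Box, (∀ j ∈ A, ∀ v, U j ≠ D.vt j v) → Subsingleton (M.obj (op (Bx.of U)))

end

/-- EXZ. `Zf` and `Yf` are exact. -/
def ExzStatement : Prop :=
  ∀ (Γ : Type u) [Group Γ] (T : Sys Γ) (D : T.Tr) [∀ j, MulAction Γ (D.V j)]
    [∀ j, MulAction Γ (D.E j)] (K : ∀ j, Mk D j) (k : Type u) [Ring k] (j : Fin T.m),
    Exct k (Zf K k j) ∧ Exct k (Yf K k j)

/-- VNZ. Vanishing. -/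
def VnzStatement : Prop :=
  ∀ (Γ : Type u) [Group Γ] (T : Sys Γ) (D : T.Tr) [∀ j, MulAction Γ (D.V j)]
    [∀ j, MulAction Γ (D.E j)] (K : ∀ j, Mk D j) (k : Type u) [Ring k] (j : Fin T.m)
    (A : Finset (Fin T.m)) (M : Fn k (T.P Finset.univ)), Vn D A M →
    Vn D (A.erase j) ((Zf K k j).obj M) ∧ Vn D (A.erase j) ((Yf K k j).obj M)

/-- YEV. The functor `Yf` maps finite located modules to such modules. -/
def YevStatement : Prop :=
  ∀ (Γ : Type u) [Group Γ] (T : Sys Γ) (D : T.Tr) [∀ j, MulAction Γ (D.V j)]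
    [∀ j, MulAction Γ (D.E j)] (K : ∀ j, Mk D j) (k : Type u) [Ring k] (j : Fin T.m)
    (A : Loc k (T.P Finset.univ)), Finite A.ι → ∃ A' : Loc k (T.P Finset.univ), Finite A'.ι ∧
      Nonempty ((Yf K k j).obj (Loc.ev.obj A) ≅ Loc.ev.obj A')

/-- TCZ. `Zf i` preserves the acyclicity in the other directions. -/
def TczStatement : Prop :=
  ∀ (Γ : Type u) [Group Γ] (T : Sys Γ) (D : T.Tr) [∀ j, MulAction Γ (D.V j)]
    [∀ j, MulAction Γ (D.E j)] (K : ∀ j, Mk D j) (k : Type u) [Ring k] (i j : Fin T.m)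
    (M : Fn k (T.P Finset.univ)), i ≠ j → D.Tac M j → D.Tac ((Zf K k i).obj M) j

/-- TCY. `Yf i` preserves the acyclicity in the other directions. -/
def TcyStatement : Prop :=
  ∀ (Γ : Type u) [Group Γ] (T : Sys Γ) (D : T.Tr) [∀ j, MulAction Γ (D.V j)]
    [∀ j, MulAction Γ (D.E j)] (K : ∀ j, Mk D j) (k : Type u) [Ring k] (i j : Fin T.m)
    (M : Fn k (T.P Finset.univ)), i ≠ j → D.Tac M j → D.Tac ((Yf K k i).obj M) j

/-- CLW. The class of functors with finitely presented values at the boxes in `nva`. -/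
def ClwStatement : Prop :=
  ∀ (Γ : Type u) [Group Γ] (T : Sys Γ) (D : T.Tr) [∀ j, MulAction Γ (D.V j)]
    [∀ j, MulAction Γ (D.E j)] (K : ∀ j, Mk D j),
    (∀ (i : Fin T.m) (x : T.B i), {y | y ≤ x}.Finite) →
    (∀ U ∈ nva K, InRC (MulAction.stabilizer Γ U)) →
    ∀ (k : Type u) [Ring k], RegularRing k →
      RegCls0 (fun M : Fn k (T.P Finset.univ) => AA (nva K) M)

/-- RESA (uses EXZ, VNZ, YEV, TCZ, TCY, ZS, VE, TR, RR, GOOD, `Good.all`). Functors with finitely
presented values at the boxes in `nva` which are acyclic in all directions have finite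
resolutions. -/
def ResaStatement : Prop :=
  ∀ (Γ : Type u) [Group Γ] (T : Sys Γ) (D : T.Tr) [∀ j, MulAction Γ (D.V j)]
    [∀ j, MulAction Γ (D.E j)] (K : ∀ j, Mk D j),
    (∀ (i : Fin T.m) (x : T.B i), {y | y ≤ x}.Finite) →
    (∀ U ∈ nva K, InRC (MulAction.stabilizer Γ U)) →
    ∀ (k : Type u) [Ring k], RegularRing k → ∀ M : Fn k (T.P Finset.univ),
      AA (nva K) M → (∀ j, D.Tac M j) → Rsl M

/-- BAJ. BASE for all directions. -/
def BajStatement : Prop :=
  ∀ (Γ : Type u) [Group Γ] (T : Sys Γ) (D : T.Tr), T.RET →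
    (∀ (k : Type u) [Ring k], RegularRing k → ∃ AA : Fn k (T.P Finset.univ) → Prop,
      RegCls0 AA ∧ ∀ M, AA M → (∀ j, D.Tac M j) → Rsl M) →
    T.EXT Finset.univ Finset.univ

/-- REF (uses CLW, RESA, BAJ). The base of the induction. -/
def RefStatement : Prop :=
  ∀ (Γ : Type u) [Group Γ] (m : ℕ) (M : Fin m → MTL Γ),
    (∀ U : ∀ i, (M i).L.B, (∀ i v, U i ≠ (M i).L.vt v) → InRC (MulAction.stabilizer Γ U)) →
    Ex fun i => (M i).L

/-! #### Groups -/

/-- C0R. Good homomorphisms to groups in `C0`. -/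
def C0rStatement : Prop :=
  ∀ (Γ P : Type u) [Group Γ] [Group P] (f : Γ →* P), Gd f → C0 P → InRC Γ

/-- C0P. The closure properties of `C0`. -/
def C0pStatement : Prop :=
  (∀ (G G' : Type u) [Group G] [Group G'] (f : G →* G'), C0 G' →
    (∀ g, f g = 1 → IsOfFinOrder g) → C0 G) ∧
  ∀ (G G' : Type u) [Group G] [Group G'], C0 G → C0 G' → C0 (G × G')

/-- EGB (uses REF, C0R). -/
def EgbStatement : Prop :=
  ∀ (P : Type u) [Group P] (m : ℕ) (M : Fin m → MTL P), BG M → EG M

/-- EGS (uses STEP). -/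
def EgsStatement : Prop :=
  ∀ (P : Type u) [Group P] (m : ℕ) (M : Fin m → MTL P) (Z : MTL P),
    EG (Fin.cons (α := fun _ => MTL P) Z M) →
    (∀ c : Z.L.B, EG (cms (MulAction.stabilizer P c).subtype M)) → EG M

/-- EGF (uses LOC). -/
def EgfStatement : Prop :=
  ∀ (P : Type u) [Group P] (m : ℕ) (M : Fin m → MTL P),
    (∀ S : Subgroup P, S.FG → EG (cms S.subtype M)) → EG M

/-- EGK. -/
def EgkStatement : Prop :=
  ∀ (P Q : Type u) [Group P] [Group Q] (f : Q →* P) (m : ℕ) (M : Fin m → MTL P), EG M →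
    (∀ g, f g = 1 → IsOfFinOrder g) → EG (cms f M)

/-- MRK. The labels of a tree with an edge. -/
def MrkStatement : Prop :=
  ∀ (P V : Type u) [Group P] [MulAction P V] (G : SimpleGraph V), TreeAct P G →
    (∃ v w, G.Adj v w) → ∃ M : MTL P,
      (∀ c : M.L.B, ∃ v : V, MulAction.stabilizer P c ≤ MulAction.stabilizer P v) ∧
      ∀ c : M.L.B, (∀ v, c ≠ M.L.vt v) → ∃ v w : V, G.Adj v w ∧
        MulAction.stabilizer P c ≤ MulAction.stabilizer P v ⊓ MulAction.stabilizer P w

/-- CLS (uses EGB, EGS, EGF, EGK, MRK, C0P). Products with groups in the class. -/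
def ClsStatement : Prop :=
  ∀ (G : Type u) (i : Group G), Cl G i → ∀ (Q : Type u) [Group Q], T1 Q → T1 (G × Q)

/-- MAIN (uses CLS, KNZ). -/
def MainStatement : Prop :=
  (∀ (s : ℕ) (G : Fin s → Type u) (i : ∀ j, Group (G j)), (∀ j, Cl (G j) (i j)) →
    ∀ (Γ : Type u) [Group Γ] (f : Γ →* ∀ j, G j), Gd f → ∀ (R : Type u) [Ring R],
      RegularRing R → ∀ n : ℕ, Subsingleton (KNeg (n + 1) (MonoidAlgebra R Γ)))

end Pool.Agent.NegK.NT.NL
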