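import Pool.Agent.Lib.MP_28303a_al.NT.NL.Im

/-! # Row EQV: equivalent families of preorders -/

set_option autoImplicit false
set_option linter.unusedSectionVars false
set_option linter.unusedVariables false

namespace Pool.Agent.NegK.NT.NL

universe u

open CategoryTheory Limits Opposite Pretriangulated
open Pool.Agent.NegK.TW Pool.Agent.NegK.TT

section

variable {Γ B B' : Type u} [Group Γ] [MulAction Γ B] [MulAction Γ B'] {F : Fam Γ B}
  {F' : Fam Γ B'}

/-- The inverse equivalence. -/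
def Eqv.symm (e : Eqv F F') : Eqv F' F where
  a := e.b
  b := e.a
  aP := e.bP
  bP := e.aP
  aQ := e.bQ
  bQ := e.aQ
  ab := e.ba
  ba := e.ab

/-- The map of the locations. -/
def Eqv.im (e : Eqv F F') : IM (MonoidHom.id Γ) F.P F'.P where
  φ := e.a
  le x y h hxy := e.aP x y h hxy

/-- The two maps are inverse to each other. -/
noncomputable def Eqv.inv (e : Eqv F F') (k : Type u) [Ring k] :
    e.symm.im.hF k ⋙ e.im.hF k ≅ 𝟭 (KK k F'.P) :=
  IM.hInv k e.symm.im e.im (fun x => (e.ab x).1) fun x => (e.ab x).2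

/-- The class of objects is preserved. -/
theorem Eqv.pj (e : Eqv F F') {k : Type u} [Ring k] {X : KK k F.P} (hX : F.PJ k X) :
    F'.PJ k ((e.im.hF k).obj X) := by
  refine ⟨e.im.per hX.per, fun j' => ?_⟩
  obtain ⟨j, hj⟩ := e.aQ j'
  let m : IM (MonoidHom.id Γ) (F.Q j) (F'.Q j') := ⟨e.a, fun x y h hxy => hj x y h hxy⟩
  have i := (IM.hPushSq k e.im m (F.fg j) (F'.fg j') (fun _ => (F'.Q j').refl _)
    fun _ => (F'.Q j').refl _).app X
  exact ((m.hF k).map_isZero (hX.ac j)).of_iso i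

end

/-- EQV. -/
theorem eqv : EqvStatement.{u} := by
  intro Γ B B' _ _ _ F F' e hF k _ hk X hX
  obtain ⟨Y, hY, ⟨i⟩⟩ := hF k hk ((e.symm.im.hF (LaurentPolynomial k)).obj X) (e.symm.pj hX)
  refine ⟨(e.im.hF (Polynomial k)).obj Y, e.pj hY, ⟨?_⟩⟩
  exact (e.im.hLoc k).app Y ≪≫ (e.im.hF (LaurentPolynomial k)).mapIso i ≪≫
    (e.inv (LaurentPolynomial k)).app X

end Pool.Agent.NegK.NT.NL
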