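import Pool.Agent.Lib.MP_28303a_al.NT.NL.Gent

/-! # Generation by small subgroups: statements -/

set_option autoImplicit false
set_option linter.unusedSectionVars false
set_option linter.unusedVariables false

namespace Pool.Agent.NegK.NT.NL

universe u

open Pool.Agent.NegK.TW Pool.Agent.NegK.TT Pool.Agent.NegK.NT.ER Pool.Agent.NegK.NT.ER61

/-- `K₀` is generated by the preimages of the subgroups in `C`. -/
def Gnx (C : GCls.{u}) (D : HCls.{u}) (Q : Type u) [Group Q] : Prop :=
  ∀ (P : Type u) [Group P], C P → ∀ (Γ : Type u) [Group Γ] (f : Γ →* P × Q), D Γ (P × Q) f →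
    ∀ (k : Type u) [Ring k], RegularRing k →
      ⨆ H : {H : Subgroup (P × Q) // C H}, img k (H.1.comap f) = ⊤

/-- GNX (uses GENT, CLS and its lemmas, MRK). -/
def GnxStatement : Prop :=
  ∀ (C : GCls.{u}) (D : HCls.{u}) (N : GCls.{u}), Ax C D N → ∀ (G : Type u) (i : Group G),
    Clx C N G i → ∀ (Q : Type u) [Group Q], T1x C D Q → Gnx C D Q → Gnx C D (G × Q)

/-- GNM (uses GNX, CLS, `H19.vgen`). The K-groups are generated by the preimages of the subgroups
in `C`. -/
def GnmStatement : Prop :=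
  ∀ (C : GCls.{u}) (D : HCls.{u}) (N : GCls.{u}), Ax C D N → ∀ (G : Type u) (i : Group G),
    Clx C N G i → ∀ (Γ : Type u) [Group Γ] (f : Γ →* G), D Γ G f →
    ∀ (R : Type u) [Ring R], RegularRing R → ∀ n : ℕ,
      ⨆ H : {H : Subgroup G // C H},
        ((KNegFun n).hom (mdr R (H.1.comap f).subtype)).range = ⊤

/-- The groups all whose finitely generated subgroups are poly-Z. -/
def LPZ (E : Type u) [Group E] : Prop := ∀ S : Subgroup E, S.FG → ∃ n : ℕ, PL.PZ n S

/-- The groups with a homomorphism with torsion kernel to a group in `LPZ`. -/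
def CZ (G : Type u) [Group G] : Prop :=
  ∃ (E : Type u) (_ : Group E) (q : G →* E), LPZ E ∧ ∀ g, q g = 1 → IsOfFinOrder g

/-- AXZ: the instance of `Ax`. -/
def AxzStatement : Prop :=
  Ax.{u} (fun G _ => CZ G) (fun _ _ _ _ f => Gd f) (fun G _ => ∀ g : G, IsOfFinOrder g)

/-- K0Z (uses GNM, AXZ). The bijectivity for `K₀`. -/
def K0zStatement : Prop :=
  ∀ (G : Type u) (i : Group G),
    Clx (fun G _ => CZ G) (fun G _ => ∀ g : G, IsOfFinOrder g) G i →
    ∀ (Γ : Type u) [Group Γ] (f : Γ →* G), TorsionFree Γ → Function.Injective f →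
      InK Γ

end Pool.Agent.NegK.NT.NL
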