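import Pool.Agent.Lib.MP_28303a_al.NT.NL.CsV
import Pool.Agent.Lib.MP_28303a_al.NT.NL.Ax0
import Pool.Agent.Lib.MP_28303a_al.NT.NL.GnDefs
import Pool.Agent.Lib.MP_28303a_al.RK.Arb

/-! # Local trees: subgroups and arboreal groups -/

set_option autoImplicit false
set_option linter.unusedSectionVars false
set_option linter.unusedVariables false

namespace Pool.Agent.NegK.NT.NL

universe u

open Pool.Agent.NegK.TW Pool.Agent.NegK.TT Pool.Agent.NegK.NT.ER Pool.Agent.NegK.NT.ER61
open Pool.Agent.NegK.RK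

/-- A finitely generated subgroup of an arboreal group acts on finitely many trees such that the
stabilizers of the vertices of the product are torsion groups. -/
theorem arb_trees {P : Type u} [Group P] (hP : Arb P) (S : Subgroup P) (hS : S.FG) :
    ∃ Y : Trees S, ∀ v, ∀ g ∈ Y.st v, ∃ n, 0 < n ∧ g ^ n = 1 := by
  have hfg : Group.FG S := (Group.fg_iff_subgroup_fg _).2 hS
  obtain ⟨ι, hι, T, hT⟩ := hP S S.subtype
  let e := Finite.equivFin ι
  refine ⟨⟨Nat.card ι, fun i => (T (e.symm i)).V, fun i => (T (e.symm i)).act,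
    fun i => (T (e.symm i)).G, fun i => (T (e.symm i)).tree⟩, fun v g hg => ?_⟩
  obtain ⟨n, hn, h1⟩ := hT g fun a => by
    obtain ⟨i, rfl⟩ := e.symm.surjective a
    exact ⟨v i, Subgroup.mem_iInf.1 hg i⟩
  exact ⟨n, hn, Subtype.ext h1⟩

/-- Subgroups. -/
theorem clx_inj {C N : GCls.{u}} (hN : ∀ (G : Type u) [Group G], Subsingleton G → N G)
    {G G' : Type u} [i : Group G] [i' : Group G'] (f : G →* G') (hf : Function.Injective f)
    (h : Clx C N G' i') : Clx C N G i :=
  Clx.tk G G' f h (hN _ ⟨fun x y => Subtype.ext (hf (x.2.trans y.2.symm))⟩)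

theorem clx_sub {C N : GCls.{u}} (hN : ∀ (G : Type u) [Group G], Subsingleton G → N G)
    {G : Type u} [i : Group G] (H : Subgroup G) (h : Clx C N G i) : Clx C N H inferInstance :=
  clx_inj hN H.subtype H.subtype_injective h

/-- Arboreal groups. -/
theorem clx_arb {C N : GCls.{u}} (P : Type u) [i : Group P] (hP : Arb P)
    (hC : ∀ (G : Type u) [Group G] (f : G →* P), Function.Injective f →
      (∀ g : G, ∃ n, 0 < n ∧ g ^ n = 1) → C G) : Clx C N P i := by
  refine Clx.fg P fun S hS => ?_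
  obtain ⟨Y, hY⟩ := arb_trees hP S hS
  refine Clx.tree S Y (fun j v w hvw => ?_) fun v => ?_
  · refine hC _ (S.subtype.comp (Subgroup.subtype _))
      (S.subtype_injective.comp (Subgroup.subtype_injective _)) fun g => ?_
    obtain ⟨n, hn, h1⟩ := hY v g.1 g.2.1
    exact ⟨n, hn, Subtype.ext h1⟩
  · refine Clx.c0 _ (hC _ (S.subtype.comp (Subgroup.subtype _))
      (S.subtype_injective.comp (Subgroup.subtype_injective _)) fun g => ?_)
    obtain ⟨n, hn, h1⟩ := hY v g.1 g.2
    exact ⟨n, hn, Subtype.ext h1⟩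

/-- Torsion groups. -/
theorem c0_tor (G : Type u) [Group G] (h : ∀ g : G, ∃ n, 0 < n ∧ g ^ n = 1) : C0 G := by
  refine ⟨PUnit.{u + 1}, inferInstance, 1, fun S _ => ?_, fun g _ => ?_⟩
  · have : Subsingleton S := inferInstance
    exact ⟨⊤, 0, inferInstance, (inferInstance : Subsingleton (⊤ : Subgroup S))⟩
  · obtain ⟨n, hn, h1⟩ := h g
    exact isOfFinOrder_iff_pow_eq_one.2 ⟨n, hn, h1⟩

/-- Subgroups of the groups of the class. -/
theorem cl_inj0 {G G' : Type u} [i : Group G] [i' : Group G'] (f : G →* G')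
    (hf : Function.Injective f) (h : Cl G' i') : Cl G i :=
  Cl.tk G G' f h fun g hg => by
    rw [show g = 1 from hf (hg.trans (map_one f).symm)]
    exact IsOfFinOrder.one

theorem cl_sub {G : Type u} [i : Group G] (H : Subgroup G) (h : Cl G i) : Cl H inferInstance :=
  cl_inj0 H.subtype H.subtype_injective h

/-- Arboreal groups. -/
theorem cl_arb (P : Type u) [i : Group P] (hP : Arb P) : Cl P i := by
  refine Cl.fg P fun S hS => ?_
  obtain ⟨Y, hY⟩ := arb_trees hP S hS
  refine Cl.tree S Y (fun j v w hvw => ?_) fun v => ?_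
  · refine c0_tor _ fun g => ?_
    obtain ⟨n, hn, h1⟩ := hY v g.1 g.2.1
    exact ⟨n, hn, Subtype.ext h1⟩
  · refine Cl.c0 _ (c0_tor _ fun g => ?_)
    obtain ⟨n, hn, h1⟩ := hY v g.1 g.2
    exact ⟨n, hn, Subtype.ext h1⟩

/-- Arboreal groups, for torsion kernels. -/
theorem clx_arb0 (P : Type u) [i : Group P] (hP : Arb P) : Clx.{u} Ax0.C Ax0.N P i :=
  clx_arb P hP fun G _ _ _ h => c0_tor G h

/-- Torsion groups, for the poly-`ℤ` version. -/
theorem cz_tor (G : Type u) [Group G] (h : ∀ g : G, ∃ n, 0 < n ∧ g ^ n = 1) : CZ G := by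
  refine ⟨PUnit.{u + 1}, inferInstance, 1, fun S _ => ⟨0, ?_⟩, fun g _ => ?_⟩
  · exact (inferInstance : Subsingleton S)
  · obtain ⟨n, hn, h1⟩ := h g
    exact isOfFinOrder_iff_pow_eq_one.2 ⟨n, hn, h1⟩

/-- Arboreal groups, for the poly-`ℤ` version. -/
theorem clx_arbZ (P : Type u) [i : Group P] (hP : Arb P) :
    Clx.{u} (fun G _ => CZ G) (fun G _ => ∀ g : G, IsOfFinOrder g) P i :=
  clx_arb P hP fun G _ _ _ h => cz_tor G h

/-- Torsion subgroups of groups whose finitely generated torsion subgroups are finite. -/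
theorem cv_tor {P : Type u} [Group P] (hP : Bur P) (G : Type u) [Group G] (f : G →* P)
    (hf : Function.Injective f) (h : ∀ g : G, ∃ n, 0 < n ∧ g ^ n = 1) : CV G := by
  intro S hS
  have h1 : (S.map f).FG := by
    obtain ⟨X, hX⟩ := hS
    classical
    exact ⟨X.image f, by rw [Finset.coe_image, ← MonoidHom.map_closure, hX]⟩
  have h2 : Finite (S.map f) := hP _ h1 (by
    rintro _ ⟨g, _, rfl⟩
    obtain ⟨n, hn, h3⟩ := h g
    exact ⟨n, hn, by rw [← map_pow, h3, map_one]⟩)
  have h3 : Finite S := Finite.of_injective (S.equivMapOfInjective f hf)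
    (S.equivMapOfInjective f hf).injective
  refine ⟨S, inferInstance, 0, MonoidHom.id S, ?_, 0, ⟨fun x y => Subtype.ext ?_⟩⟩
  · exact ⟨⊥, inferInstance, (inferInstance : Subsingleton (⊥ : Subgroup S))⟩
  · exact (show x.1 = 1 from x.2).trans (show y.1 = 1 from y.2).symm

/-- Arboreal groups whose finitely generated torsion subgroups are finite. -/
theorem clx_arbV (P : Type u) [i : Group P] (hP : Arb P) (hB : Bur P) : Clx.{u} CV NV P i :=
  clx_arb P hP fun G _ f hf h => cv_tor hB G f hf h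

end Pool.Agent.NegK.NT.NL
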