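import Pool.Agent.Lib.MP_28303a_al.NT.NL.Defs
import Pool.Agent.Lib.MP_28303a_al.AP.Main
import Pool.Agent.Lib.MP_28303a_al.RK.Arb
import Pool.Agent.Lib.MP_28303a_al.PL.PZ

/-! # The tame automorphisms of the plane over a field of positive characteristic (helper94) -/

set_option autoImplicit false
set_option linter.unusedSectionVars false
set_option linter.unusedVariables false

namespace Pool.Agent.NegK.NT.NL

universe u

open Pool.Agent.NegK.TW Pool.Agent.NegK.TT Pool.Agent.NegK.AP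

/-- Commutative groups. -/
theorem lvp_comm (E : Type u) [CommGroup E] : LVP E := by
  intro S hS
  have h1 : Group.FG S := (Group.fg_iff_subgroup_fg S).2 hS
  obtain ⟨H, -, hH, m, hm⟩ := PL.PZ.finite 0 (S := S) (Q := S) (MonoidHom.id S)
    ((subsingleton_iff_forall_eq 1).2 fun x => Subtype.ext x.2)
  exact ⟨H, m, hH, hm⟩

/-- Homomorphisms with torsion kernel to commutative groups. -/
theorem c0_comm {G : Type u} [Group G] {E : Type u} [CommGroup E] (q : G →* E)
    (hq : ∀ g, q g = 1 → IsOfFinOrder g) : C0 G :=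
  ⟨E, inferInstance, q, lvp_comm E, hq⟩

section

variable {K : Type u} [Field K] {p : ℕ} (hp : 0 < p) (hpK : (p : K) = 0)

/-- Conjugation into a subgroup. -/
noncomputable def cjH (S : Subgroup (Au K)) (H : Subgroup (tame K)) (x : tame K)
    (hx : ∀ g ∈ H, x⁻¹ * g * x ∈ S.subgroupOf (tame K)) : H →* S :=
  ((tame K).subtype.comp ((MulAut.conj x⁻¹).toMonoidHom.comp H.subtype)).codRestrict S fun h => by
    have h1 := Subgroup.mem_subgroupOf.1 (hx h.1 h.2)
    simpa using h1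

theorem cjH_apply (S : Subgroup (Au K)) (H : Subgroup (tame K)) (x : tame K)
    (hx : ∀ g ∈ H, x⁻¹ * g * x ∈ S.subgroupOf (tame K)) (h : H) :
    (cjH S H x hx h).1 = ((x⁻¹ * h.1 * x : tame K) : Au K) := by
  simp [cjH]

theorem cjH_fin (S : Subgroup (Au K)) (H : Subgroup (tame K)) (x : tame K)
    (hx : ∀ g ∈ H, x⁻¹ * g * x ∈ S.subgroupOf (tame K)) (h : H) (n : ℕ) (hn : 0 < n)
    (h1 : (cjH S H x hx h).1 ^ n = 1) : IsOfFinOrder h := by
  rw [cjH_apply] at h1
  have h2 : (x⁻¹ * h.1 * x) ^ n = 1 := by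
    apply Subtype.ext
    rw [SubmonoidClass.coe_pow, h1]
    rfl
  have h3 : x⁻¹ * h.1 * x = MulAut.conj x⁻¹ h.1 := by simp
  rw [h3, ← map_pow, MulEquiv.map_eq_one_iff] at h2
  exact isOfFinOrder_iff_pow_eq_one.2 ⟨n, hn, Subtype.ext h2⟩

include hp hpK in
theorem vA (hArb : ∀ (P : Type u) [i : Group P], RK.Arb P → Cl P i) (H : Subgroup (tame K))
    (x : tame K) (hx : ∀ g ∈ H, x⁻¹ * g * x ∈ tA K) : Cl H inferInstance := by
  refine Cl.tk H (Matrix.GeneralLinearGroup (Fin 2) K) ((lin K).comp (cjH (affS K) H x hx))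
    (hArb _ (RK.arb_gl K p hp hpK)) fun h h1 => ?_
  exact cjH_fin (affS K) H x hx h p hp (aff_ker hpK _ h1)

include hp hpK in
theorem vB (H : Subgroup (tame K)) (x : tame K) (hx : ∀ g ∈ H, x⁻¹ * g * x ∈ tB K) : C0 H := by
  refine c0_comm ((dg K).comp (cjH (triS K) H x hx)) fun h h1 => ?_
  exact cjH_fin (triS K) H x hx h (p * p) (Nat.mul_pos hp hp) (tri_ker hpK _ h1)

include hp hpK in
/-- The group of the tame automorphisms of the plane over a field of positive characteristic. -/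
theorem cl_tame (hArb : ∀ (P : Type u) [i : Group P], RK.Arb P → Cl P i) :
    Cl (tame K) inferInstance := by
  have hsl : ∀ (g : tame K) (x : tame K),
      g • (Sum.inl (x : tame K ⧸ tA K) : (tame K ⧸ tA K) ⊕ (tame K ⧸ tB K)) =
        Sum.inl ((g * x : tame K) : tame K ⧸ tA K) := fun g x => rfl
  have hsr : ∀ (g : tame K) (x : tame K),
      g • (Sum.inr (x : tame K ⧸ tB K) : (tame K ⧸ tA K) ⊕ (tame K ⧸ tB K)) =
        Sum.inr ((g * x : tame K) : tame K ⧸ tB K) := fun g x => rfl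
  have hconj : ∀ (g x : tame K), x⁻¹ * g * x = ((g * x)⁻¹ * x)⁻¹ := fun g x => by group
  have hA : ∀ (x : tame K) (g : tame K), g ∈ MulAction.stabilizer (tame K)
      (Sum.inl (x : tame K ⧸ tA K) : (tame K ⧸ tA K) ⊕ (tame K ⧸ tB K)) →
      x⁻¹ * g * x ∈ tA K := fun x g hg => by
    have h1 := QuotientGroup.eq.1 (Sum.inl_injective ((hsl g x).symm.trans hg))
    rw [hconj]
    exact inv_mem h1
  have hB : ∀ (x : tame K) (g : tame K), g ∈ MulAction.stabilizer (tame K)
      (Sum.inr (x : tame K ⧸ tB K) : (tame K ⧸ tA K) ⊕ (tame K ⧸ tB K)) →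
      x⁻¹ * g * x ∈ tB K := fun x g hg => by
    have h1 := QuotientGroup.eq.1 (Sum.inr_injective ((hsr g x).symm.trans hg))
    rw [hconj]
    exact inv_mem h1
  have htree : TreeAct (tame K) (cosetGraph (tA K) (tB K)) := by
    refine ⟨tree, ?_, ?_⟩
    · rintro g v w ⟨x, h⟩
      refine ⟨g * x, ?_⟩
      rcases h with ⟨rfl, rfl⟩ | ⟨rfl, rfl⟩
      · exact Or.inl ⟨hsl g x, hsr g x⟩
      · exact Or.inr ⟨hsr g x, hsl g x⟩
    · rintro g v w ⟨x, h⟩ ⟨h1, _⟩
      rcases h with ⟨rfl, rfl⟩ | ⟨rfl, rfl⟩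
      · exact Sum.inl_ne_inr ((hsl g x).symm.trans h1)
      · exact Sum.inr_ne_inl ((hsr g x).symm.trans h1)
  let Y : Trees (tame K) := ⟨1, fun _ => (tame K ⧸ tA K) ⊕ (tame K ⧸ tB K), fun _ => inferInstance,
    fun _ => cosetGraph (tA K) (tB K), fun _ => htree⟩
  have hst : ∀ (v : ∀ i, Y.V i) (i : Fin Y.m), Y.st v ≤ MulAction.stabilizer (tame K) (v i) :=
    fun v i => iInf_le (fun i => MulAction.stabilizer (tame K) (v i)) i
  refine Cl.tree (tame K) Y ?_ ?_
  · rintro j v w ⟨x, h⟩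
    rcases h with ⟨h1, h2⟩ | ⟨h1, h2⟩
    · refine vB hp hpK _ x fun g hg => hB x g ?_
      have h3 : g ∈ MulAction.stabilizer (tame K) w := (Subgroup.mem_inf.1 hg).2
      rw [h2] at h3
      exact h3
    · refine vB hp hpK _ x fun g hg => hB x g ?_
      have h3 := hst v j (Subgroup.mem_inf.1 hg).1
      rw [h1] at h3
      exact h3
  · intro v
    have h0 := hst v 0
    rcases h : (v 0 : (tame K ⧸ tA K) ⊕ (tame K ⧸ tB K)) with q | q
    · obtain ⟨x, rfl⟩ := QuotientGroup.mk_surjective q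
      refine vA hp hpK hArb _ x fun g hg => hA x g ?_
      have h3 := h0 hg
      rw [h] at h3
      exact h3
    · obtain ⟨x, rfl⟩ := QuotientGroup.mk_surjective q
      refine Cl.c0 _ (vB hp hpK _ x fun g hg => hB x g ?_)
      have h3 := h0 hg
      rw [h] at h3
      exact h3

end

end Pool.Agent.NegK.NT.NL
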