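import Pool.Agent.Lib.MP_28303a_al.NT.NL.Ax
import Pool.Agent.Lib.MP_28303a_al.NT.NL.GnDefs
import Pool.Agent.Lib.MP_28303a_al.NT.NL.ExAut

/-!
# The tame automorphisms of the plane over a field of positive characteristic, general classes
(helper94)
-/

set_option autoImplicit false
set_option linter.unusedSectionVars false
set_option linter.unusedVariables false

namespace Pool.Agent.NegK.NT.NL

universe u

open Pool.Agent.NegK.TW Pool.Agent.NegK.TT Pool.Agent.NegK.AP

section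

variable {K : Type u} [Field K]

/-- The tree of the tame automorphisms. -/
theorem clx_tame_of {C N : GCls.{u}}
    (hC : ∀ (H : Subgroup (tame K)) (x : tame K), (∀ g ∈ H, x⁻¹ * g * x ∈ tB K) → C H)
    (hA : ∀ (H : Subgroup (tame K)) (x : tame K), (∀ g ∈ H, x⁻¹ * g * x ∈ tA K) →
      Clx C N H inferInstance) : Clx C N (tame K) inferInstance := by
  have hsl : ∀ (g : tame K) (x : tame K),
      g • (Sum.inl (x : tame K ⧸ tA K) : (tame K ⧸ tA K) ⊕ (tame K ⧸ tB K)) =
        Sum.inl ((g * x : tame K) : tame K ⧸ tA K) := fun g x => rfl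
  have hsr : ∀ (g : tame K) (x : tame K),
      g • (Sum.inr (x : tame K ⧸ tB K) : (tame K ⧸ tA K) ⊕ (tame K ⧸ tB K)) =
        Sum.inr ((g * x : tame K) : tame K ⧸ tB K) := fun g x => rfl
  have hconj : ∀ (g x : tame K), x⁻¹ * g * x = ((g * x)⁻¹ * x)⁻¹ := fun g x => by group
  have hA' : ∀ (x : tame K) (g : tame K), g ∈ MulAction.stabilizer (tame K)
      (Sum.inl (x : tame K ⧸ tA K) : (tame K ⧸ tA K) ⊕ (tame K ⧸ tB K)) →
      x⁻¹ * g * x ∈ tA K := fun x g hg => by
    have h1 := QuotientGroup.eq.1 (Sum.inl_injective ((hsl g x).symm.trans hg))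
    rw [hconj]
    exact inv_mem h1
  have hB' : ∀ (x : tame K) (g : tame K), g ∈ MulAction.stabilizer (tame K)
      (Sum.inr (x : tame K ⧸ tB K) : (tame K ⧸ tA K) ⊕ (tame K ⧸ tB K)) →
      x⁻¹ * g * x ∈ tB K := fun x g hg => by
    have h1 := QuotientGroup.eq.1 (Sum.inr_injective ((hsr g x).symm.trans hg))
    rw [hconj]
    exact inv_mem h1
  have htree : TreeAct (tame K) (cosetGraph (tA K) (tB K)) := by
    refine ⟨tree, ?_, ?_⟩
    · rintro g v w ⟨x, h⟩
      refine ⟨g * x, ?_⟩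
      rcases h with ⟨rfl, rfl⟩ | ⟨rfl, rfl⟩
      · exact Or.inl ⟨hsl g x, hsr g x⟩
      · exact Or.inr ⟨hsr g x, hsl g x⟩
    · rintro g v w ⟨x, h⟩ ⟨h1, _⟩
      rcases h with ⟨rfl, rfl⟩ | ⟨rfl, rfl⟩
      · exact Sum.inl_ne_inr ((hsl g x).symm.trans h1)
      · exact Sum.inr_ne_inl ((hsr g x).symm.trans h1)
  let Y : Trees (tame K) := ⟨1, fun _ => (tame K ⧸ tA K) ⊕ (tame K ⧸ tB K), fun _ => inferInstance,
    fun _ => cosetGraph (tA K) (tB K), fun _ => htree⟩
  have hst : ∀ (v : ∀ i, Y.V i) (i : Fin Y.m), Y.st v ≤ MulAction.stabilizer (tame K) (v i) :=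
    fun v i => iInf_le (fun i => MulAction.stabilizer (tame K) (v i)) i
  refine Clx.tree (tame K) Y ?_ ?_
  · rintro j v w ⟨x, h⟩
    rcases h with ⟨h1, h2⟩ | ⟨h1, h2⟩
    · refine hC _ x fun g hg => hB' x g ?_
      have h3 : g ∈ MulAction.stabilizer (tame K) w := (Subgroup.mem_inf.1 hg).2
      rw [h2] at h3
      exact h3
    · refine hC _ x fun g hg => hB' x g ?_
      have h3 := hst v j (Subgroup.mem_inf.1 hg).1
      rw [h1] at h3
      exact h3
  · intro v
    have h0 := hst v 0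
    rcases h : (v 0 : (tame K ⧸ tA K) ⊕ (tame K ⧸ tB K)) with q | q
    · obtain ⟨x, rfl⟩ := QuotientGroup.mk_surjective q
      refine hA _ x fun g hg => hA' x g ?_
      have h3 := h0 hg
      rw [h] at h3
      exact h3
    · obtain ⟨x, rfl⟩ := QuotientGroup.mk_surjective q
      refine Clx.c0 _ (hC _ x fun g hg => hB' x g ?_)
      have h3 := h0 hg
      rw [h] at h3
      exact h3

theorem cjH_inj (S : Subgroup (Au K)) (H : Subgroup (tame K)) (x : tame K)
    (hx : ∀ g ∈ H, x⁻¹ * g * x ∈ S.subgroupOf (tame K)) : Function.Injective (cjH S H x hx) := by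
  rw [injective_iff_map_eq_one]
  intro h h1
  have h2 : (cjH S H x hx h).1 = 1 := congrArg Subtype.val h1
  rw [cjH_apply] at h2
  have h3 : x⁻¹ * h.1 * x = 1 := Subtype.ext h2
  refine Subtype.ext ?_
  have h4 : x⁻¹ * h.1 * x = MulAut.conj x⁻¹ h.1 := by simp
  rw [h4, MulEquiv.map_eq_one_iff] at h3
  exact h3

variable {p : ℕ} (hp : 0 < p) (hpK : (p : K) = 0)

include hp hpK in
/-- The version for torsion kernels. -/
theorem clx_tame_tor {C : GCls.{u}}
    (hC : ∀ (G : Type u) [Group G] (E : Type u) [CommGroup E] (q : G →* E),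
      (∀ g, q g = 1 → IsOfFinOrder g) → C G)
    (hArb : ∀ (P : Type u) [i : Group P], RK.Arb P →
      Clx C (fun G _ => ∀ g : G, IsOfFinOrder g) P i) :
    Clx C (fun G _ => ∀ g : G, IsOfFinOrder g) (tame K) inferInstance := by
  refine clx_tame_of (fun H x hx => ?_) fun H x hx => ?_
  · refine hC H _ ((dg K).comp (cjH (triS K) H x hx)) fun h h1 => ?_
    exact cjH_fin (triS K) H x hx h (p * p) (Nat.mul_pos hp hp) (tri_ker hpK _ h1)
  · refine Clx.tk H (Matrix.GeneralLinearGroup (Fin 2) K) ((lin K).comp (cjH (affS K) H x hx))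
      (hArb _ (RK.arb_gl K p hp hpK)) ?_
    rintro ⟨h, h1⟩
    obtain ⟨n, hn, h2⟩ := isOfFinOrder_iff_pow_eq_one.1
      (cjH_fin (affS K) H x hx h p hp (aff_ker hpK _ h1))
    exact isOfFinOrder_iff_pow_eq_one.2 ⟨n, hn, Subtype.ext h2⟩

end

/-! ### Commutative groups in `CZ` -/

theorem lpz_comm (E : Type u) [CommGroup E] (hE : ∀ (x : E) (n : ℕ), 0 < n → x ^ n = 1 → x = 1) :
    LPZ E := by
  intro S hS
  have h1 : Group.FG S := (Group.fg_iff_subgroup_fg S).2 hS
  have h2 : Module.Finite ℤ (Additive S) := Module.Finite.iff_addGroup_fg.2 inferInstance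
  have h3 : IsAddTorsionFree (Additive S) := by
    rw [isAddTorsionFree_iff_not_isOfFinAddOrder]
    intro a ha hfin
    obtain ⟨n, hn, h4⟩ := isOfFinAddOrder_iff_nsmul_eq_zero.1 hfin
    apply ha
    have h5 : (a.toMul : S) ^ n = 1 := h4
    have h6 : (a.toMul : S) = 1 := Subtype.ext (hE _ n hn (congrArg Subtype.val h5))
    exact h6
  obtain ⟨m, hm⟩ := PL.PZ.ext_add 0 (G := S) (Additive S)
    (⟨⟨fun x => Multiplicative.ofAdd (Additive.ofMul x), rfl⟩, fun _ _ => rfl⟩ :
      S →* Multiplicative (Additive S))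
    ((subsingleton_iff_forall_eq 1).2 fun x => Subtype.ext x.2)
  exact ⟨m, hm⟩

/-- Homomorphisms with torsion kernel to commutative groups. -/
theorem cz_comm (G : Type u) [Group G] (E : Type u) [CommGroup E] (q : G →* E)
    (hq : ∀ g, q g = 1 → IsOfFinOrder g) : CZ G := by
  refine ⟨E ⧸ CommGroup.torsion E, inferInstance,
    (QuotientGroup.mk' (CommGroup.torsion E)).comp q, lpz_comm _ ?_, fun g hg => ?_⟩
  · intro x n hn hx
    obtain ⟨y, rfl⟩ := QuotientGroup.mk_surjective x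
    rw [← QuotientGroup.mk_pow] at hx
    have h1 : y ^ n ∈ CommGroup.torsion E := (QuotientGroup.eq_one_iff _).1 hx
    refine (QuotientGroup.eq_one_iff _).2 ?_
    have h2 : IsOfFinOrder (y ^ n) := h1
    exact (isOfFinOrder_pow.1 h2).resolve_right hn.ne'
  · have h1 : q g ∈ CommGroup.torsion E := (QuotientGroup.eq_one_iff _).1 hg
    obtain ⟨n, hn, h2⟩ := isOfFinOrder_iff_pow_eq_one.1 (show IsOfFinOrder (q g) from h1)
    have h3 := hq (g ^ n) (by rw [map_pow, h2])
    exact (isOfFinOrder_pow.1 h3).resolve_right hn.ne'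

/-- The tame automorphisms, class `CZ`. -/
theorem clx_tame_cz {K : Type u} [Field K] {p : ℕ} (hp : 0 < p) (hpK : (p : K) = 0)
    (hArb : ∀ (P : Type u) [i : Group P], RK.Arb P →
      Clx (fun G _ => CZ G) (fun G _ => ∀ g : G, IsOfFinOrder g) P i) :
    Clx (fun G _ => CZ G) (fun G _ => ∀ g : G, IsOfFinOrder g) (tame K) inferInstance :=
  clx_tame_tor hp hpK (fun G _ E _ q hq => cz_comm G E q hq) hArb

/-- The tame automorphisms, class `C0`. -/
theorem clx_tame_c0 {K : Type u} [Field K] {p : ℕ} (hp : 0 < p) (hpK : (p : K) = 0)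
    (hArb : ∀ (P : Type u) [i : Group P], RK.Arb P →
      Clx (fun G _ => C0 G) (fun G _ => ∀ g : G, IsOfFinOrder g) P i) :
    Clx (fun G _ => C0 G) (fun G _ => ∀ g : G, IsOfFinOrder g) (tame K) inferInstance :=
  clx_tame_tor hp hpK (fun G _ E _ q hq => c0_comm q hq) hArb

end Pool.Agent.NegK.NT.NL
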