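import Pool.Agent.Lib.MP_28303a_al.NT.NL.AxV
import Pool.Agent.Lib.MP_28303a_al.NT.NL.ExAutX
import Pool.Agent.Lib.MP_28303a_al.RK.Bxk

/-!
# The tame automorphisms of the plane over a field of positive characteristic, the classes `CV` and
`NV` (helper94)
-/

set_option autoImplicit false
set_option linter.unusedSectionVars false
set_option linter.unusedVariables false

namespace Pool.Agent.NegK.NT.NL

universe u

open Pool.Agent.NegK.TW Pool.Agent.NegK.TT Pool.Agent.NegK.AP Pool.Agent.NegK.RK

/-- Finitely generated commutative groups. -/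
theorem vz_comm (E : Type u) [CommGroup E] [Group.FG E] : ∃ m, VZ m E := by
  obtain ⟨H, -, hH, m, hm⟩ := PL.PZ.finite 0 (S := E) (Q := E) (MonoidHom.id E)
    ((subsingleton_iff_forall_eq 1).2 fun x => Subtype.ext x.2)
  exact ⟨m, H, hH, hm⟩

/-- Homomorphisms with small kernel to commutative groups. -/
theorem cv_comm {G : Type u} [Group G] {E : Type u} [CommGroup E] (q : G →* E) (hq : NV q.ker) :
    CV G := by
  intro S hS
  have h1 : Group.FG S := (Group.fg_iff_subgroup_fg S).2 hS
  let f : S →* E := q.comp S.subtype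
  have h2 : Group.FG f.range := Group.fg_range f
  obtain ⟨m, hm⟩ := vz_comm f.range
  obtain ⟨k, hk⟩ := hq
  refine ⟨f.range, inferInstance, m, f.rangeRestrict, hm, k, ?_⟩
  refine BX.of_injective (⟨⟨fun x => ⟨x.1.1, congrArg Subtype.val x.2⟩, rfl⟩, fun _ _ => rfl⟩ :
    f.rangeRestrict.ker →* q.ker) (fun x y hxy => ?_) hk
  exact Subtype.ext (Subtype.ext (congrArg (fun z : q.ker => (z : G)) hxy))

theorem ker_inj {G G' Q : Type u} [Group G] [Group G'] [Group Q] (i : G →* G')
    (hi : Function.Injective i) (q : G' →* Q) {k : ℕ} (hk : BX k q.ker) :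
    NV (q.comp i).ker :=
  ⟨k, BX.of_injective (⟨⟨fun x => ⟨i x.1, x.2⟩, Subtype.ext (map_one i)⟩,
    fun x y => Subtype.ext (map_mul i x.1 y.1)⟩ : (q.comp i).ker →* q.ker)
    (fun x y hxy => Subtype.ext (hi (congrArg Subtype.val hxy))) hk⟩

/-- The tame automorphisms, classes `CV` and `NV`. -/
theorem clx_tame_cv {K : Type u} [Field K] {p : ℕ} (hp : 0 < p) (hpK : (p : K) = 0)
    (hGL : Clx CV NV (Matrix.GeneralLinearGroup (Fin 2) K) inferInstance) :
    Clx CV NV (tame K) inferInstance := by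
  refine clx_tame_of (fun H x hx => ?_) fun H x hx => ?_
  · exact cv_comm ((dg K).comp (cjH (triS K) H x hx))
      (ker_inj _ (cjH_inj (triS K) H x hx) (dg K) (bx_dg hp hpK))
  · exact Clx.tk H (Matrix.GeneralLinearGroup (Fin 2) K) ((lin K).comp (cjH (affS K) H x hx))
      hGL (ker_inj _ (cjH_inj (affS K) H x hx) (lin K) (bx_lin hp hpK))

end Pool.Agent.NegK.NT.NL
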