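import Pool.Agent.Lib.MP_28303a_al.NT.NL.AutRV
import Pool.Agent.Lib.MP_28303a_al.NT.NL.CsV
import Pool.Agent.Lib.MP_28303a_al.NT.NL.Clsx

/-! # Automorphisms of polynomial rings over rings of positive characteristic and the class -/

set_option autoImplicit false
set_option linter.unusedSectionVars false
set_option linter.unusedVariables false

namespace Pool.Agent.NegK.NT.NL

universe u

open Pool.Agent.NegK.RK

theorem nv_one (G : Type u) [Group G] (h : Subsingleton G) : NV G := ⟨0, h⟩

theorem cv_one (G : Type u) [Group G] (h : Subsingleton G) : CV G := fun S _ =>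
  ⟨S, inferInstance, 0, MonoidHom.id S, ⟨⊥, ⟨by
    rw [Subgroup.index_bot]
    exact (Nat.card_pos (α := S)).ne'⟩, (inferInstance : Subsingleton (⊥ : Subgroup S))⟩,
    nv_one _ inferInstance⟩

/-- The automorphisms of `A[x, y]` for the rings `A` with `N = 0`, from the fields. -/
theorem clx_autRV (hA : AxvStatement.{u}) {N : ℕ} (hN0 : 0 < N)
    (hF : ∀ (F : Type u) [Field F], (N : F) = 0 → Clx CV NV (AutR F) inferInstance)
    {A : Type u} [CommRing A] (hN : (N : A) = 0) : Clx CV NV (AutR A) inferInstance := by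
  refine Clx.fg _ fun S hS => ?_
  have hfg : Group.FG S := (Group.fg_iff_subgroup_fg _).2 hS
  obtain ⟨r, F, _, ψ, k, hFN, hk⟩ := AR.exists_fieldsV hN0 hN S.subtype S.subtype_injective
  exact Clx.tk S (∀ i, AutR (F i)) (MonoidHom.pi ψ)
    (X5.cl_pi hA cv_one r (fun i => AutR (F i)) (fun i => inferInstance) fun i => hF (F i) (hFN i))
    ⟨k, hk⟩

end Pool.Agent.NegK.NT.NL
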