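import Pool.Agent.Lib.MP_28303a_al.JK.Fin
import Pool.Agent.Lib.MP_28303a_al.NT.NL.AutR
import Pool.Agent.Lib.MP_28303a_al.NT.NL.Axz
import Pool.Agent.Lib.MP_28303a_al.NT.NL.Clsx
import Pool.Agent.Lib.MP_28303a_al.NT.NL.ExArb
import Pool.Agent.Lib.MP_28303a_al.NT.NL.ExAutX

/-! # Automorphisms of polynomial rings over rings of positive characteristic, poly-`ℤ` version -/

set_option autoImplicit false
set_option linter.unusedSectionVars false
set_option linter.unusedVariables false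

namespace Pool.Agent.NegK.NT.NL

universe u

open Pool.Agent.NegK.RK

/-- Trivial groups. -/
theorem cz_one (G : Type u) [Group G] (h : Subsingleton G) : CZ G :=
  cz_tor G fun g => ⟨1, one_pos, Subsingleton.elim _ _⟩

/-- The automorphisms of `F[x, y]`, `F` a field. -/
theorem clx_autF_cz (F : Type u) [Field F] {N : ℕ} (hN0 : 0 < N) (hN : (N : F) = 0) :
    Clx (fun G _ => CZ G) (fun G _ => ∀ g : G, IsOfFinOrder g) (AP.Au F) inferInstance :=
  clx_inj axz.N_one (JK.tameEquiv F).toMonoidHom (JK.tameEquiv F).injective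
    (clx_tame_cz hN0 hN clx_arbZ)

/-- The automorphisms of `A[x, y]` for the rings `A` with `N = 0`. -/
theorem clx_autR_cz {A : Type u} [CommRing A] {N : ℕ} (hN0 : 0 < N) (hN : (N : A) = 0) :
    Clx (fun G _ => CZ G) (fun G _ => ∀ g : G, IsOfFinOrder g) (AutR A) inferInstance := by
  refine Clx.fg _ fun S hS => ?_
  have hfg : Group.FG S := (Group.fg_iff_subgroup_fg _).2 hS
  obtain ⟨r, F, _, ψ, hFN, hk⟩ := AR.exists_fields hN0 hN S.subtype
  refine Clx.tk S (∀ i, AutR (F i)) (MonoidHom.pi ψ)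
    (X5.cl_pi axz cz_one r (fun i => AutR (F i)) (fun i => inferInstance) fun i =>
      clx_autF_cz (F i) hN0 (hFN i)) fun g => ?_
  have h1 : ∀ i, ψ i g.1 = 1 := fun i => congrFun (show MonoidHom.pi ψ g.1 = 1 from g.2) i
  obtain ⟨m, hm, h2⟩ := hk g.1 h1
  exact isOfFinOrder_iff_pow_eq_one.2 ⟨m, hm, Subtype.ext (Subtype.ext h2)⟩

end Pool.Agent.NegK.NT.NL
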