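import Pool.Agent.Lib.MP_28303a_al.NT.NL.Ax
import Pool.Agent.Lib.MP_28303a_al.RK.Vp
import Pool.Agent.Lib.MP_28303a_al.NT.H1.Gl2
import Pool.Agent.Lib.MP_28303a_al.AP.Mix

/-! # Local trees: extensions of commutative groups by locally virtually polycyclic groups -/

set_option autoImplicit false
set_option linter.unusedSectionVars false
set_option linter.unusedVariables false

namespace Pool.Agent.NegK.NT.NL

universe u

open Pool.Agent.NegK.TW Pool.Agent.NegK.TT Pool.Agent.NegK.NT.ER Pool.Agent.NegK.NT.ER61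
open scoped commutatorElement

namespace Nil

/-- Finitely generated commutative groups. -/
theorem vz_comm {G : Type u} [Group G] [hG : Group.FG G] (h : ∀ a b : G, a * b = b * a) :
    ∃ n, RK.VZ n G := by
  let iG : CommGroup G := { (inferInstance : Group G) with mul_comm := h }
  obtain ⟨H, _, h1, m, h2⟩ := PL.PZ.finite 0 (S := G) G (MonoidHom.id G)
    (⟨fun x y => Subtype.ext (x.2.trans y.2.symm)⟩ : Subsingleton (MonoidHom.id G).ker)
  exact ⟨m, H, h1, h2⟩

/-- The last term of the lower central series is finitely generated. -/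
theorem fg_last {G : Type u} [Group G] [hG : Group.FG G] (B : Subgroup G)
    (hc : ∀ a ∈ ⁅B, (⊤ : Subgroup G)⁆, ∀ g : G, a * g = g * a)
    (hAB : ⁅B, (⊤ : Subgroup G)⁆ ≤ B) {Q : Type u} [Group Q] (q : G →* Q)
    (hq : ∀ g, q g = 1 → g ∈ ⁅B, (⊤ : Subgroup G)⁆) (hB : (B.map q).FG) :
    (⁅B, (⊤ : Subgroup G)⁆).FG := by
  classical
  obtain ⟨S, hS⟩ := hG.out
  obtain ⟨T, hT⟩ := hB
  have hT1 : ∀ t ∈ T, ∃ b ∈ B, q b = t := fun t ht => by
    have h1 : t ∈ B.map q := by
      rw [← hT]
      exact Subgroup.subset_closure ht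
    exact h1
  choose! b hb hqb using hT1
  let F : Finset G := Finset.image₂ (fun t s => ⁅b t, s⁆) T S
  have hmem : ∀ x ∈ B, ∀ g : G, ⁅x, g⁆ ∈ ⁅B, (⊤ : Subgroup G)⁆ := fun x hx g =>
    Subgroup.commutator_mem_commutator hx (Subgroup.mem_top g)
  -- the commutator is a homomorphism in both variables
  have hl : ∀ x ∈ B, ∀ y ∈ B, ∀ g : G, ⁅x * y, g⁆ = ⁅x, g⁆ * ⁅y, g⁆ := fun x hx y hy g => by
    have h1 := hc _ (hmem y hy g)
    have h2 : ⁅x * y, g⁆ = x * ⁅y, g⁆ * (g * x⁻¹ * g⁻¹) := by
      simp only [commutatorElement_def, mul_inv_rev]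
      group
    rw [h2, ← h1 x, mul_assoc, h1]
    simp only [commutatorElement_def]
    group
  have hr : ∀ x ∈ B, ∀ g h : G, ⁅x, g * h⁆ = ⁅x, g⁆ * ⁅x, h⁆ := fun x hx g h => by
    have h1 := hc _ (hmem x hx h)
    have h2 : ⁅x, g * h⁆ = ⁅x, g⁆ * (g * ⁅x, h⁆ * g⁻¹) := by
      simp only [commutatorElement_def, mul_inv_rev]
      group
    rw [h2, ← h1 g, mul_inv_cancel_right]
  refine ⟨F, le_antisymm ((Subgroup.closure_le _).2 ?_) (Subgroup.commutator_le.2 ?_)⟩
  · intro z hz
    obtain ⟨t, ht, s, hs, rfl⟩ := Finset.mem_image₂.1 hz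
    exact hmem _ (hb t ht) s
  · intro x hx g _
    have hx0 : ∀ z : G, z ∈ ⁅B, (⊤ : Subgroup G)⁆ → ∀ g : G, ⁅z, g⁆ = 1 := fun z hz g => by
      rw [commutatorElement_eq_one_iff_mul_comm]
      exact hc z hz g
    -- for the generators
    have hgen : ∀ s ∈ S, ∀ x ∈ B, ⁅x, s⁆ ∈ Subgroup.closure (F : Set G) := fun s hs => by
      let φ : B →* G :=
        { toFun := fun x => ⁅x.1, s⁆
          map_one' := commutatorElement_one_left s
          map_mul' := fun x y => hl x.1 x.2 y.1 y.2 s }
      have h1 : ∀ y ∈ Subgroup.closure (T : Set Q), ∀ x : B, q x.1 = y →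
          φ x ∈ Subgroup.closure (F : Set G) := by
        intro y hy
        induction hy using Subgroup.closure_induction with
        | mem y hy =>
          intro x hx
          have h2 : q (x.1 * (b y)⁻¹) = 1 := by
            rw [map_mul, map_inv, hx, hqb y hy, mul_inv_cancel]
          have h3 : φ (x * (⟨b y, hb y hy⟩ : B)⁻¹) = 1 := hx0 _ (hq _ h2) s
          rw [map_mul, map_inv, mul_inv_eq_one] at h3
          rw [h3]
          exact Subgroup.subset_closure (Finset.mem_coe.2 (Finset.mem_image₂.2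
            ⟨y, hy, s, hs, rfl⟩))
        | one =>
          intro x hx
          have h3 : φ x = 1 := hx0 _ (hq _ hx) s
          rw [h3]
          exact Subgroup.one_mem _
        | mul y z hy hz ihy ihz =>
          intro x hx
          have hy' : y ∈ B.map q := by rw [← hT]; exact hy
          obtain ⟨y0, hy0, rfl⟩ := hy'
          have h2 : q ((⟨y0, hy0⟩ : B)⁻¹ * x : B).1 = z := by
            show q (y0⁻¹ * x.1) = z
            rw [map_mul, map_inv, hx, inv_mul_cancel_left]
          have h3 := ihy ⟨y0, hy0⟩ rfl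
          have h4 := ihz _ h2
          have h5 := Subgroup.mul_mem _ h3 h4
          rwa [← map_mul, mul_inv_cancel_left] at h5
        | inv y hy ihy =>
          intro x hx
          have h2 := ihy x⁻¹ (by
            show q (x.1⁻¹) = y
            rw [map_inv, hx, inv_inv])
          rw [map_inv] at h2
          exact (Subgroup.inv_mem_iff _).1 h2
      intro x hx
      exact h1 (q x) (by rw [hT]; exact ⟨x, hx, rfl⟩) ⟨x, hx⟩ rfl
    let ψ : G →* G :=
      { toFun := fun g => ⁅x, g⁆
        map_one' := commutatorElement_one_right x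
        map_mul' := fun g h => hr x hx g h }
    have h1 : Subgroup.closure (S : Set G) ≤ (Subgroup.closure (F : Set G)).comap ψ :=
      (Subgroup.closure_le _).2 fun s hs => hgen s hs x hx
    exact h1 (by rw [hS]; exact Subgroup.mem_top g)

/-- Finitely generated nilpotent groups. -/
theorem vz_nil : ∀ (c : ℕ) (G : Type u) [Group G] [Group.FG G],
    (⊤ : Subgroup G).lowerCentralSeries c = ⊥ → ∃ n, RK.VZ n G
  | 0, G, _, _, h => by
    have h1 : (⊤ : Subgroup G) = ⊥ := h
    exact vz_comm fun a b => by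
      have ha : a = 1 := by
        have : a ∈ (⊥ : Subgroup G) := h1 ▸ Subgroup.mem_top a
        exact this
      have hb : b = 1 := by
        have : b ∈ (⊥ : Subgroup G) := h1 ▸ Subgroup.mem_top b
        exact this
      rw [ha, hb]
  | c + 1, G, _, hG, h => by
    let A := (⊤ : Subgroup G).lowerCentralSeries c
    have hA : ∀ a ∈ A, ∀ g : G, a * g = g * a := fun a ha g => by
      have h1 : ⁅a, g⁆ ∈ (⊤ : Subgroup G).lowerCentralSeries (c + 1) := by
        rw [Subgroup.lowerCentralSeries_succ]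
        exact Subgroup.commutator_mem_commutator ha (Subgroup.mem_top g)
      rw [h, Subgroup.mem_bot] at h1
      exact commutatorElement_eq_one_iff_mul_comm.1 h1
    have hn : A.Normal := inferInstance
    let q : G →* G ⧸ A := QuotientGroup.mk' A
    have hq : Function.Surjective q := QuotientGroup.mk'_surjective A
    have hfgQ : Group.FG (G ⧸ A) := inferInstance
    have h2 : (⊤ : Subgroup (G ⧸ A)).lowerCentralSeries c = ⊥ := by
      have h3 := Subgroup.map_lowerCentralSeries (⊤ : Subgroup G) q c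
      rw [Subgroup.map_top_of_surjective q hq] at h3
      rw [← h3]
      show A.map q = ⊥
      exact (Subgroup.map_eq_bot_iff _).2 (by rw [QuotientGroup.ker_mk'])
    obtain ⟨n, hn1⟩ := vz_nil c (G ⧸ A) h2
    have hAfg : A.FG := by
      cases c with
      | zero => exact hG.out
      | succ c =>
        refine fg_last ((⊤ : Subgroup G).lowerCentralSeries c) hA
          (Subgroup.lowerCentralSeries_antitone _ (Nat.le_succ c)) q (fun g hg => ?_) ?_
        · exact (QuotientGroup.eq_one_iff g).1 hg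
        · have h4 : Group.FG (((⊤ : Subgroup G).lowerCentralSeries c).map q) :=
            (RK.VZ.of_injective (Subgroup.subtype _) (Subgroup.subtype_injective _) hn1).fg
          exact (Group.fg_iff_subgroup_fg _).1 h4
    have hAfg' : Group.FG A := (Group.fg_iff_subgroup_fg _).2 hAfg
    obtain ⟨m, hm⟩ := vz_comm (G := A) fun a b => Subtype.ext (hA a.1 a.2 b.1)
    have hk : RK.VZ m q.ker := RK.VZ.of_injective (Subgroup.inclusion (by
      rw [QuotientGroup.ker_mk'])) (Subgroup.inclusion_injective _) hm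
    exact ⟨_, RK.VZ.ext q hn1 hk⟩

end Nil

theorem lvp_inj' {G G' : Type u} [Group G] [Group G'] (f : G →* G') (hf : Function.Injective f)
    (h : LVP G') : LVP G := by
  intro S hS
  classical
  have h1 : (S.map f).FG := by
    obtain ⟨X, hX⟩ := hS
    exact ⟨X.image f, by rw [Finset.coe_image, ← MonoidHom.map_closure, hX]⟩
  obtain ⟨H, n, hH, hn⟩ := h _ h1
  obtain ⟨H', hH', hn'⟩ : RK.VZ n S := RK.VZ.of_injective
    (S.equivMapOfInjective f hf).toMonoidHom (S.equivMapOfInjective f hf).injective ⟨H, hH, hn⟩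
  exact ⟨H', n, hH', hn'⟩

/-- Locally nilpotent groups. -/
theorem lvp_nil {G : Type u} [Group G] (h : ∀ S : Subgroup G, S.FG → Group.IsNilpotent S) :
    LVP G := by
  intro S hS
  have h1 : Group.FG S := (Group.fg_iff_subgroup_fg _).2 hS
  have h2 := h S hS
  obtain ⟨c, hc⟩ := Subgroup.nilpotent_iff_lowerCentralSeries.1 h2
  obtain ⟨n, H, hH, hn⟩ := Nil.vz_nil c S hc
  exact ⟨H, n, hH, hn⟩

/-- Subgroups of finite index. -/
theorem lvp_index {G : Type u} [Group G] (K : Subgroup G) (hK : K.FiniteIndex) (h : LVP K) :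
    LVP G := by
  intro S hS
  have h1 : Group.FG S := (Group.fg_iff_subgroup_fg _).2 hS
  have h2 : (K.subgroupOf S).FiniteIndex := inferInstance
  have h3 : Group.FG (K.subgroupOf S) := inferInstance
  let e : K.subgroupOf S →* K :=
    { toFun := fun x => ⟨x.1.1, x.2⟩
      map_one' := rfl
      map_mul' := fun _ _ => rfl }
  have he : Function.Injective e := fun x y hxy =>
    Subtype.ext (Subtype.ext (congrArg (fun z : K => (z : G)) hxy))
  obtain ⟨H, n, hH, hn⟩ := h e.range ((Group.fg_iff_subgroup_fg _).1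
    (Group.fg_of_surjective (f := e.rangeRestrict) e.rangeRestrict_surjective))
  obtain ⟨H', hH', hn'⟩ : RK.VZ n S := RK.VZ.of_index (K.subgroupOf S) h2
    (RK.VZ.of_injective e.rangeRestrict (fun x y hxy => he (congrArg Subtype.val hxy))
      ⟨H, hH, hn⟩)
  exact ⟨H', n, hH', hn'⟩

/-- Extensions of commutative groups by locally virtually polycyclic groups. -/
theorem clx_ab {C N : GCls.{u}} (hCi : ∀ (G G' : Type u) [Group G] [Group G'] (f : G →* G'),
    Function.Injective f → C G' → C G) (hC : ∀ (G : Type u) [Group G], LVP G → C G)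
    {G A : Type u} [iG : Group G] [CommGroup A] (f : G →* A) (h : LVP f.ker) :
    Clx C N G iG := by
  refine Clx.fg G fun S hS => ?_
  have hfg : Group.FG S := (Group.fg_iff_subgroup_fg _).2 hS
  let f' : S →* A := f.comp S.subtype
  have hfgQ : Group.FG f'.range :=
    Group.fg_of_surjective (f := f'.rangeRestrict) f'.rangeRestrict_surjective
  obtain ⟨n, θ, hθ⟩ := AP.exists_zn' f'.range
  let ρ : S →* Multiplicative (Fin n → ℤ) := θ.comp f'.rangeRestrict
  let φ : Fin n → (S →* Multiplicative ℤ) := fun j =>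
    (AddMonoidHom.toMultiplicative (Pi.evalAddMonoidHom (fun _ : Fin n => ℤ) j)).comp ρ
  have hφ : ∀ g, (∀ j, φ j g = 1) → ρ g = 1 := fun g hg => funext fun j => hg j
  -- the kernel
  have hfin : Finite θ.ker := by
    obtain ⟨m, hm⟩ := Nil.vz_comm (G := f'.range) mul_comm
    have h1 : Group.FG θ.ker :=
      (RK.VZ.of_injective θ.ker.subtype θ.ker.subtype_injective hm).fg
    refine CommGroup.finite_of_fg_isMulTorsion (G := θ.ker) fun x => ?_
    obtain ⟨m, hm, h2⟩ := hθ x.1 x.2
    exact isOfFinOrder_iff_pow_eq_one.2 ⟨m, hm, Subtype.ext h2⟩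
  have hK : LVP ρ.ker := by
    let κ : ρ.ker →* θ.ker :=
      { toFun := fun x => ⟨f'.rangeRestrict x.1, x.2⟩
        map_one' := Subtype.ext (map_one f'.rangeRestrict)
        map_mul' := fun x y => Subtype.ext (map_mul f'.rangeRestrict x.1 y.1) }
    have h1 : κ.ker.FiniteIndex := by
      have : Finite κ.range := inferInstance
      exact Subgroup.finiteIndex_ker _
    refine lvp_index κ.ker h1 (lvp_inj' (⟨⟨fun x => ⟨x.1.1.1, ?_⟩, rfl⟩, fun _ _ => rfl⟩ :
      κ.ker →* f.ker) (fun x y hxy => ?_) h)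
    · have h2 : κ x.1 = 1 := x.2
      exact congrArg (fun z : θ.ker => ((z : f'.range) : A)) h2
    · exact Subtype.ext (Subtype.ext (Subtype.ext (congrArg (fun z : f.ker => (z : G)) hxy)))
  -- the trees
  choose T hT using fun j => H1.exists_TD_line S (φ j)
  let Y : Trees S := ⟨n, fun j => (T j).V, fun j => (T j).act, fun j => (T j).G,
    fun j => (T j).tree⟩
  have hst : ∀ (v : ∀ i, Y.V i) (g : S), g ∈ Y.st v → g ∈ ρ.ker := fun v g hg =>
    hφ g fun j => hT j g ⟨v j, Subgroup.mem_iInf.1 hg j⟩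
  refine Clx.tree S Y (fun j v w _ => ?_) fun v => Clx.c0 _ ?_
  · exact hCi _ _ (Subgroup.inclusion (fun g hg => hst v g hg.1 :
      (Y.st v ⊓ MulAction.stabilizer S w : Subgroup S) ≤ ρ.ker))
      (Subgroup.inclusion_injective _) (hC _ hK)
  · exact hCi _ _ (Subgroup.inclusion (hst v)) (Subgroup.inclusion_injective _) (hC _ hK)

end Pool.Agent.NegK.NT.NL
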