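import Pool.Agent.Lib.MP_28303a_al.NT.NL.Defs
import Pool.Agent.Lib.MP_28303a_al.PL.PGS
import Pool.Agent.Lib.MP_28303a_al.RK.Lft
import Pool.Agent.Lib.MP_28303a_al.RK.TreeE
import Pool.Agent.Lib.MP_28303a_al.NT5.C0
import Pool.Agent.Lib.MP_28303a_al.P2.Fg

/-! # Groups of matrices of degree two with entries in a ring without new rational numbers -/

set_option autoImplicit false
set_option linter.unusedSectionVars false
set_option linter.unusedVariables false

namespace Pool.Agent.NegK.NT.NL.EP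

universe u

open Matrix WithZero
open Pool.Agent.NegK.TW Pool.Agent.NegK.TT Pool.Agent.NegK.NT

/-- A subgroup of a subgroup of finite index. -/
theorem pz_map {S : Type u} [Group S] (S₁ : Subgroup S) [S₁.FiniteIndex] (H : Subgroup S₁)
    (hF : H.FiniteIndex) (m : ℕ) (hm : PL.PZ m H) :
    ∃ (H : Subgroup S) (n : ℕ), H.FiniteIndex ∧ PL.PZ n H := by
  refine ⟨H.map S₁.subtype, m, ⟨?_⟩, ?_⟩
  · rw [Subgroup.index_map_subtype]
    exact mul_ne_zero hF.index_ne_zero Subgroup.FiniteIndex.index_ne_zero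
  · let e : H →* (H.map S₁.subtype : Subgroup S) := (S₁.subtype.comp H.subtype).codRestrict _
      fun g => ⟨g.1, g.2, rfl⟩
    have he : Function.Bijective e := by
      constructor
      · intro a b hab
        have h2 : (a.1 : S) = b.1 := congrArg (fun x : (H.map S₁.subtype : Subgroup S) => x.1) hab
        exact Subtype.ext (Subtype.ext h2)
      · rintro ⟨_, g, hg, rfl⟩
        exact ⟨⟨g, hg⟩, rfl⟩
    let e' := MulEquiv.ofBijective e he
    exact PL.PZ.of_injective m e'.symm.toMonoidHom e'.symm.injective hm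

/-- Finitely generated groups of matrices with integral traces such that all commutators have
trace two. -/
theorem pz_red {K : Type u} [Field K] [CharZero K] {S : Type u} [Group S] [hfg : Group.FG S]
    (q : S →* GL (Fin 2) K) (hq : Function.Injective q)
    (ht : ∀ s, IsIntegral ℤ (q s).1.trace) (hd : ∀ s, (q s).1.det = 1)
    (hc : ∀ x y, (q (x * y * x⁻¹ * y⁻¹)).1.trace = 2) :
    ∃ (H : Subgroup S) (n : ℕ), H.FiniteIndex ∧ PL.PZ n H := by
  let ι : K →+* AlgebraicClosure K := algebraMap K (AlgebraicClosure K)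
  have hcz : CharZero (AlgebraicClosure K) := charZero_of_injective_algebraMap ι.injective
  let q₀ : S →* GL (Fin 2) (AlgebraicClosure K) := (GeneralLinearGroup.map ι).comp q
  have htr : ∀ s, (q₀ s).1.trace = ι (q s).1.trace := fun s => by
    rw [Matrix.trace_fin_two, Matrix.trace_fin_two, map_add]
    rfl
  have hdt : ∀ s, (q₀ s).1.det = 1 := fun s => by
    have h1 : (q₀ s).1.det = ι (q s).1.det := by
      rw [Matrix.det_fin_two, Matrix.det_fin_two, map_sub, map_mul, map_mul]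
      rfl
    rw [h1, hd, map_one]
  obtain ⟨P, hP⟩ := PL.PGS.simple_tri q₀ hdt fun x y => by rw [htr, hc, map_ofNat]
  let q' : S →* GL (Fin 2) (AlgebraicClosure K) :=
    MonoidHom.mk' (fun s => P⁻¹ * q₀ s * P) fun a b => by
      rw [map_mul]
      group
  have htq : ∀ s, (q' s).1.trace = (q₀ s).1.trace := by
    intro s
    show Matrix.trace ((P⁻¹ * q₀ s * P : GL (Fin 2) (AlgebraicClosure K)).1) = _
    rw [Units.val_mul, Units.val_mul, Matrix.trace_mul_comm, ← Matrix.mul_assoc, ← Units.val_mul,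
      mul_inv_cancel, Units.val_one, Matrix.one_mul]
  have hdq : ∀ s, (q' s).1.det = 1 := by
    intro s
    show Matrix.det ((P⁻¹ * q₀ s * P : GL (Fin 2) (AlgebraicClosure K)).1) = _
    have h1 : (P⁻¹).1.det * P.1.det = 1 := by
      rw [← Matrix.det_mul, ← Units.val_mul, inv_mul_cancel, Units.val_one, Matrix.det_one]
    rw [Units.val_mul, Units.val_mul, Matrix.det_mul, Matrix.det_mul, hdt, mul_one, h1]
  have hIt : ∀ s, IsIntegral ℤ (q' s).1.trace := fun s => by
    rw [htq, htr]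
    exact map_isIntegral_int ι (ht s)
  have hId : ∀ s, IsIntegral ℤ (q' s).1.det := fun s => by
    rw [hdq]
    exact isIntegral_one
  have hQ : ∀ s, (q' s).1 1 0 = 0 := hP
  have ha : ∀ s, IsIntegral ℤ ((q' s).1 0 0) := fun s => by
    refine H80.isIntegral_root (hIt s) (hId s) ?_
    rw [Matrix.trace_fin_two, Matrix.det_fin_two, hQ]
    ring
  have hd' : ∀ s, IsIntegral ℤ ((q' s).1 1 1) := fun s => by
    refine H80.isIntegral_root (hIt s) (hId s) ?_
    rw [Matrix.trace_fin_two, Matrix.det_fin_two, hQ]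
    ring
  obtain ⟨H, hN, hF, m, hm⟩ := PL.pz_tri q' (fun _ => 0) (fun _ => 0) hQ ha hd'
    (fun s t => by ring) (fun s t => by ring) (fun s h1 _ _ => by
      have e1 : P⁻¹ * q₀ s * P = 1 := h1
      have e2 : q₀ s = 1 := by
        have e3 : P * (P⁻¹ * q₀ s * P) * P⁻¹ = q₀ s := by group
        rw [← e3, e1]
        group
      refine hq (Units.ext (Matrix.ext fun i j => ι.injective ?_))
      have e4 := congrArg (fun x : GL (Fin 2) (AlgebraicClosure K) => x.1 i j) e2
      rw [map_one, Units.val_one]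
      refine Eq.trans e4 ?_
      show (1 : Matrix (Fin 2) (Fin 2) (AlgebraicClosure K)) i j = _
      rw [Matrix.one_apply, Matrix.one_apply]
      split_ifs
      · exact (map_one ι).symm
      · exact (map_zero ι).symm)
  exact ⟨H, m, hF, hm⟩

/-- The same for determinants `± 1`. -/
theorem pz_red' {K : Type u} [Field K] [CharZero K] {S : Type u} [Group S] [hfg : Group.FG S]
    (q : S →* GL (Fin 2) K) (hq : Function.Injective q)
    (ht : ∀ s, IsIntegral ℤ (q s).1.trace) (hd : ∀ s, (q s).1.det = 1 ∨ (q s).1.det = -1)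
    (hc : ∀ x y, (q (x * y * x⁻¹ * y⁻¹)).1.trace = 2) :
    ∃ (H : Subgroup S) (n : ℕ), H.FiniteIndex ∧ PL.PZ n H := by
  let f : S →* Kˣ := GeneralLinearGroup.det.comp q
  have hf : ∀ s, ((f s : Kˣ) : K) = (q s).1.det := fun s => rfl
  have hfin : Finite f.range := by
    have h1 : ((Set.range f : Set Kˣ)).Finite := by
      refine (Set.toFinite ({1, -1} : Set Kˣ)).subset ?_
      rintro _ ⟨s, rfl⟩
      rcases hd s with h | h
      · exact Or.inl (Units.ext (by rw [hf, h]; rfl))
      · exact Or.inr (Units.ext (by rw [hf, h]; rfl))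
    exact h1.to_subtype
  have hfi : f.ker.FiniteIndex := Subgroup.finiteIndex_ker f
  obtain ⟨H, m, hF, hm⟩ := pz_red (q.comp f.ker.subtype) (hq.comp Subtype.val_injective)
    (fun s => ht s.1) (fun s => by
      have h1 : f s.1 = 1 := s.2
      have h2 := congrArg Units.val h1
      exact h2) fun x y => hc x.1 y.1
  exact pz_map f.ker H hF m hm

/-- Groups of matrices with integral traces such that all commutators have trace two. -/
theorem c0_red {K : Type u} [Field K] [CharZero K] {H : Type u} [Group H]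
    (q : H →* GL (Fin 2) K) (hk : ∀ g, q g = 1 → IsOfFinOrder g)
    (ht : ∀ s, IsIntegral ℤ (q s).1.trace) (hd : ∀ s, (q s).1.det = 1 ∨ (q s).1.det = -1)
    (hc : ∀ x y, (q (x * y * x⁻¹ * y⁻¹)).1.trace = 2) : C0 H := by
  refine ⟨q.range, inferInstance, q.rangeRestrict, fun S hS => ?_, fun g hg =>
    hk g (congrArg Subtype.val hg)⟩
  have hfg : Group.FG S := (Group.fg_iff_subgroup_fg S).2 hS
  refine pz_red' (q.range.subtype.comp S.subtype)
    (Subtype.val_injective.comp Subtype.val_injective) ?_ ?_ ?_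
  · rintro ⟨⟨_, g, rfl⟩, _⟩
    exact ht g
  · rintro ⟨⟨_, g, rfl⟩, _⟩
    exact hd g
  · rintro ⟨⟨_, g, rfl⟩, _⟩ ⟨⟨_, g', rfl⟩, _⟩
    have h1 := hc g g'
    rw [map_mul, map_mul, map_mul, map_inv, map_inv] at h1
    exact h1

/-- Torsion groups. -/
theorem c0_tor {H : Type u} [Group H] (h : ∀ g : H, IsOfFinOrder g) : C0 H := by
  refine ⟨PUnit.{u + 1}, inferInstance, 1, fun S _ => ⟨⊤, 0, inferInstance, ?_⟩, fun g _ => h g⟩
  exact ⟨fun a b => Subtype.ext (Subtype.ext (Subsingleton.elim _ _))⟩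

/-- Groups with a homomorphism to `GL₂(ℤ)` with torsion kernel. -/
theorem cl_gl2z {H : Type u} [i₀ : Group H] (θ : H →* GL (Fin 2) ℤ)
    (hk : ∀ g, θ g = 1 → IsOfFinOrder g) : Cl H i₀ := by
  let i : MulAction H (ULift.{u} NT5.Fm) :=
    { smul := fun h x => ⟨θ h • x.down⟩
      one_smul := fun x => ULift.ext _ _ (by
        show θ 1 • x.down = x.down
        rw [map_one, one_smul])
      mul_smul := fun h h' x => ULift.ext _ _ (by
        show θ (h * h') • x.down = θ h • θ h' • x.down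
        rw [map_mul, mul_smul]) }
  have hadj : ∀ (g : H) (v w : ULift.{u} NT5.Fm), NT5.grf.Adj v w →
      NT5.grf.Adj (g • v) (g • w) := by
    intro h x y hx
    show NT5.Fm.P (θ h • x.down) (θ h • y.down) = 5
    rw [NT5.Fm.P_smulG]
    exact hx
  have hfin : ∀ x : ULift.{u} NT5.Fm ⊕ NT5.grf.{u}.edgeSet, ∃ s : Set (GL (Fin 2) ℤ), s.Finite ∧
      ∀ g : H, (letI := AP.sdAct NT5.grf.{u} hadj; g • x = x) → θ g ∈ s := by
    intro x
    rcases x with v | ⟨e, he⟩
    · refine ⟨_, RK.fin_fix v.down v.down, fun g hg => ?_⟩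
      have h1 : g • v = v := Sum.inl_injective hg
      exact congrArg ULift.down h1
    · induction e using Sym2.ind with
      | _ a b =>
        refine ⟨_, (RK.fin_fix a.down a.down).union (RK.fin_fix a.down b.down), fun g hg => ?_⟩
        have h1 : Sym2.map (g • ·) s(a, b) = s(a, b) :=
          congrArg Subtype.val (Sum.inr_injective hg)
        rw [Sym2.map_mk, Sym2.eq_iff] at h1
        rcases h1 with ⟨h1, _⟩ | ⟨h1, _⟩
        · exact Or.inl (congrArg ULift.down h1)
        · exact Or.inr (congrArg ULift.down h1)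
  have key : ∀ (x : ULift.{u} NT5.Fm ⊕ NT5.grf.{u}.edgeSet) (S : Subgroup H),
      (∀ g ∈ S, letI := AP.sdAct NT5.grf.{u} hadj; g • x = x) → C0 S := by
    intro x S hx
    obtain ⟨s, hs, h1⟩ := hfin x
    have hr : Finite (θ.comp S.subtype).range := by
      refine (hs.subset ?_).to_subtype
      rintro _ ⟨g, rfl⟩
      exact h1 g.1 (hx g.1 g.2)
    refine c0_tor fun g => ?_
    have h2 : IsOfFinOrder ((θ.comp S.subtype).rangeRestrict g) := isOfFinOrder_of_finite _
    obtain ⟨n, hn, h3⟩ := isOfFinOrder_iff_pow_eq_one.1 h2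
    have h4 : θ (g.1 ^ n) = 1 := by
      rw [← map_pow] at h3
      exact congrArg Subtype.val h3
    obtain ⟨m, hm, h5⟩ := isOfFinOrder_iff_pow_eq_one.1 (hk _ h4)
    refine isOfFinOrder_iff_pow_eq_one.2 ⟨n * m, Nat.mul_pos hn hm, Subtype.ext ?_⟩
    rw [SubmonoidClass.coe_pow, pow_mul]
    exact h5
  have htree : (AP.sd NT5.grf.{u}).IsTree :=
    AP.sd_isTree NT5.grf ⟨NT5.Fm.one⟩ (fun q => NT5.Fm.ht q.down) (fun _ _ h => NT5.Fm.ha_aux h)
      (fun _ _ _ h h' k k' => ULift.ext _ _ (NT5.Fm.hb_aux h h' k k')) fun q => by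
        rcases NT5.Fm.hc_aux q.down with h | ⟨y, h, h'⟩
        · exact Or.inl (ULift.ext _ _ h)
        · exact Or.inr ⟨⟨y⟩, h, h'⟩
  let Y : Trees H :=
    { m := 1
      V := fun _ => ULift.{u} NT5.Fm ⊕ NT5.grf.{u}.edgeSet
      act := fun _ => AP.sdAct NT5.grf.{u} hadj
      G := fun _ => AP.sd NT5.grf.{u}
      tree := fun _ => AP.sd_act NT5.grf.{u} hadj htree }
  refine Cl.tree H Y (fun j v w _ => ?_) fun v => Cl.c0 _ ?_
  · refine key (v j) _ fun g hg => ?_
    exact (Subgroup.mem_iInf.1 hg.1) j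
  · refine key (v 0) _ fun g hg => ?_
    exact (Subgroup.mem_iInf.1 hg) 0

/-- Groups of matrices with traces in `ℤ` over rigid fields. -/
theorem cl_int {K : Type u} [Field K] (hK : H70.Rig K) {H : Type u} [i₀ : Group H]
    (q : H →* GL (Fin 2) K) (hk : ∀ g, q g = 1 → IsOfFinOrder g)
    (ht : ∀ s, ∃ t : ℤ, (q s).1.trace = t) (hd : ∀ s, (q s).1.det = 1 ∨ (q s).1.det = -1) :
    Cl H i₀ := by
  have hc := hK.char
  by_cases hall : ∀ x y : H, (q (x * y * x⁻¹ * y⁻¹)).1.trace = 2
  · refine Cl.c0 H (c0_red q hk (fun s => ?_) hd hall)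
    obtain ⟨t, h1⟩ := ht s
    rw [h1]
    exact isIntegral_algebraMap (R := ℤ) (A := K) (x := t)
  · push Not at hall
    obtain ⟨x, y, hxy⟩ := hall
    obtain ⟨P, θ, hθ⟩ := RK.Lft.conj_gl hK q ht hd x y hxy
    refine cl_gl2z θ fun g hg => hk g ?_
    have h1 := hθ g
    rw [hg, map_one] at h1
    have h2 : P * (P⁻¹ * q g * P) * P⁻¹ = q g := by group
    rw [← h2, h1]
    group

/-- Finitely generated groups. -/
theorem cl_fg {K : Type u} [Field K] (hK : H70.Rig K) (A : Subring K)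
    (hA : ∀ a ∈ A, IsAlgebraic ℤ a → IsIntegral ℤ a) {G : Type u} [i₀ : Group G]
    [hfg : Group.FG G] (χ : G →* GL (Fin 2) K) (hχ : ∀ g i j, (χ g).1 i j ∈ A)
    (hd : ∀ g, (χ g).1.det = 1 ∨ (χ g).1.det = -1)
    (hk : ∀ g, χ g = 1 → IsOfFinOrder g) : Cl G i₀ := by
  have hc := hK.char
  obtain ⟨S1, hS1⟩ := hfg.out
  obtain ⟨E, hE⟩ := NT5.entries χ S1
  obtain ⟨L, _, _, ι, F, _, -, ψ, hF1, hF2, -, hF4, hψ⟩ :=
    P2.exists_field χ E fun g i j => hE g (by rw [hS1]; exact Subgroup.mem_top g) i j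
  obtain ⟨M, w, hw, hgeo⟩ := NT5.exists_geo L F hF1 hF2
  choose T hT hT' using fun a => NT5.exists_TD_glE L (w a)
  have hmap : ∀ g i j, ι ((ψ g).1 i j) = (χ g).1 i j := fun g i j => by
    rw [← hψ]
    rfl
  have htr : ∀ g, ι (Matrix.trace (ψ g).1) = Matrix.trace (χ g).1 := fun g => by
    rw [Matrix.trace_fin_two, Matrix.trace_fin_two, map_add, hmap, hmap]
  have hdt : ∀ g, (ψ g).1.det = 1 ∨ (ψ g).1.det = -1 := fun g => by
    have h1 : ι (ψ g).1.det = (χ g).1.det := by
      rw [Matrix.det_fin_two, map_sub, map_mul, map_mul, hmap, hmap, hmap, hmap,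
        ← Matrix.det_fin_two]
    rcases hd g with h | h
    · exact Or.inl (ι.injective (by rw [h1, h, map_one]))
    · exact Or.inr (ι.injective (by rw [h1, h, map_neg, map_one]))
  have hwd : ∀ g a, w a (ψ g).1.det = 1 := fun g a => by
    rcases hdt g with h | h
    · rw [h, map_one]
    · rw [h, Valuation.map_neg, map_one]
  have hint : ∀ g, (∀ a, ((T a).comp ψ).Ell g) → ∃ t : ℤ, (χ g).1.trace = t := by
    intro g hg
    have h1 : IsAlgebraic ℤ (ψ g).1.trace := by
      refine hgeo _ ?_ fun a => ?_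
      · rw [Matrix.trace_fin_two]
        exact Subring.add_mem _ (hF4 g 0 0) (hF4 g 1 1)
      · have h2 := hT a (ψ g) (hg a)
        rw [hwd] at h2
        exact (pow_le_one_iff two_ne_zero).1 h2
    have h3 : IsAlgebraic ℤ (χ g).1.trace := by
      rw [← htr]
      exact NT5.isAlg_map ι h1
    refine hK.int _ (hA _ ?_ h3)
    rw [Matrix.trace_fin_two]
    exact A.add_mem (hχ g 0 0) (hχ g 1 1)
  let Y : Trees G :=
    { m := M
      V := fun a => ((T a).comp ψ).V
      act := fun a => ((T a).comp ψ).act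
      G := fun a => ((T a).comp ψ).G
      tree := fun a => ((T a).comp ψ).tree }
  have hell : ∀ (v : ∀ a, Y.V a) (g : G), g ∈ Y.st v → ∀ a, ((T a).comp ψ).Ell g :=
    fun v g hg a => ⟨v a, (Subgroup.mem_iInf.1 hg) a⟩
  refine Cl.tree G Y (fun j v x hx => ?_) fun v => ?_
  · let H : Subgroup G := Y.st v ⊓ MulAction.stabilizer G x
    have hH : ∀ g : H, ∀ a, ((T a).comp ψ).Ell g.1 := fun g => hell v g.1 g.2.1
    refine c0_red (χ.comp H.subtype) (fun g hg => ?_) (fun s => ?_) (fun s => hd s.1) fun a b => ?_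
    · obtain ⟨n, hn, h1⟩ := isOfFinOrder_iff_pow_eq_one.1 (hk g.1 hg)
      exact isOfFinOrder_iff_pow_eq_one.2 ⟨n, hn, Subtype.ext h1⟩
    · obtain ⟨t, h1⟩ := hint s.1 (hH s)
      show IsIntegral ℤ (χ s.1).1.trace
      rw [h1]
      exact isIntegral_algebraMap (R := ℤ) (A := K) (x := t)
    · have h1 := hT' j (v j) x hx H (ψ.comp H.subtype) (fun s =>
        ⟨(Subgroup.mem_iInf.1 s.2.1) j, s.2.2, hwd s.1 j⟩) (a * b * a⁻¹ * b⁻¹)
        (Subgroup.commutator_mem_commutator (Subgroup.mem_top a) (Subgroup.mem_top b))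
      obtain ⟨t, h2⟩ := hint (a * b * a⁻¹ * b⁻¹ : H).1 (hH _)
      have h3 : (ψ (a * b * a⁻¹ * b⁻¹ : H).1).1.trace = t := ι.injective (by
        rw [htr, h2, map_intCast])
      show (χ (a * b * a⁻¹ * b⁻¹ : H).1).1.trace = 2
      rw [h2]
      by_contra h4
      have h5 : (t : L) - 2 ≠ 0 := by
        intro h6
        apply h4
        have h7 : (t : L) = ((2 : ℤ) : L) := by
          rw [sub_eq_zero] at h6
          rw [h6]
          norm_cast
        have h8 : t = 2 := by exact_mod_cast h7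
        rw [h8]
        norm_cast
      have h6 : w j ((t : L) - 2) = 1 := hw j _ (by
        have h7 : (t : L) - 2 = ((t - 2 : ℤ) : L) := by push_cast; ring
        rw [h7]
        exact isIntegral_algebraMap (R := ℤ) (A := L) (x := t - 2)) h5
      have h7 : w j ((ψ (a * b * a⁻¹ * b⁻¹ : H).1).1.trace - 2) < 1 := h1
      rw [h3, h6] at h7
      exact lt_irrefl _ h7
  · refine cl_int hK (χ.comp (Y.st v).subtype) (fun g hg => ?_) (fun s => ?_) fun s => hd s.1
    · obtain ⟨n, hn, h1⟩ := isOfFinOrder_iff_pow_eq_one.1 (hk g.1 hg)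
      exact isOfFinOrder_iff_pow_eq_one.2 ⟨n, hn, Subtype.ext h1⟩
    · exact hint s.1 (hell v s.1 s.2)

/-- Groups with a homomorphism with torsion kernel to a group of matrices of degree two with
determinants `± 1` and entries in a ring `A` such that the algebraic elements of `A` are
integral. -/
theorem cl_prim {K : Type u} [Field K] (hK : H70.Rig K) (A : Subring K)
    (hA : ∀ a ∈ A, IsAlgebraic ℤ a → IsIntegral ℤ a) {G : Type u} [i₀ : Group G]
    (χ : G →* GL (Fin 2) K) (hχ : ∀ g i j, (χ g).1 i j ∈ A)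
    (hd : ∀ g, (χ g).1.det = 1 ∨ (χ g).1.det = -1)
    (hk : ∀ g, χ g = 1 → IsOfFinOrder g) : Cl G i₀ := by
  refine Cl.fg G fun S hS => ?_
  have hfg : Group.FG S := (Group.fg_iff_subgroup_fg S).2 hS
  refine cl_fg hK A hA (χ.comp S.subtype) (fun g => hχ g.1) (fun g => hd g.1) fun g hg => ?_
  obtain ⟨n, hn, h1⟩ := isOfFinOrder_iff_pow_eq_one.1 (hk g.1 hg)
  exact isOfFinOrder_iff_pow_eq_one.2 ⟨n, hn, Subtype.ext h1⟩

end Pool.Agent.NegK.NT.NL.EP
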