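import Pool.Agent.Lib.MP_28303a_al.NT.NL.ExPrim
import Pool.Agent.Lib.MP_28303a_al.NT.NL.Ax
import Pool.Agent.Lib.MP_28303a_al.RK.Mtt1L
import Pool.Agent.Lib.MP_28303a_al.RK.Mtt2
import Pool.Agent.Lib.MP_28303a_al.P2.Desc

/-! # Groups of matrices of degree two with entries in a ring without new rational numbers: the
determinants are units -/

set_option autoImplicit false
set_option linter.unusedSectionVars false
set_option linter.unusedVariables false

namespace Pool.Agent.NegK.NT.NL.EPG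

universe u v

open Matrix WithZero
open scoped MatrixGroups
open Pool.Agent.NegK.TW Pool.Agent.NegK.TT Pool.Agent.NegK.NT
open RK.Mtt2 (exists_smul)

section group

variable {G : Type*} [Group G]

/-- Commutators of products with central elements. -/
theorem comm_central {a b x y : G} (ha : ∀ g, g * a = a * g) (hb : ∀ g, g * b = b * g) :
    (a * x) * (b * y) * (a * x)⁻¹ * (b * y)⁻¹ = x * y * x⁻¹ * y⁻¹ := by
  have h1 : (a * x) * (b * y) = a * b * (x * y) := by
    rw [mul_assoc a x, ← mul_assoc x b, hb x, mul_assoc b x, ← mul_assoc a b]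
  have h2 : (b * y) * (a * x) = a * b * (y * x) := by
    rw [mul_assoc b y, ← mul_assoc y a, ha y, mul_assoc a y, ← mul_assoc b a, ha b]
  have h3 : (a * x) * (b * y) * (a * x)⁻¹ * (b * y)⁻¹ =
      (a * x) * (b * y) * ((b * y) * (a * x))⁻¹ := by group
  have h4 : x * y * x⁻¹ * y⁻¹ = x * y * (y * x)⁻¹ := by group
  have hab : ∀ g, g * (a * b) = a * b * g := fun g => by
    rw [← mul_assoc, ha, mul_assoc, hb, mul_assoc]
  rw [h3, h4, h1, h2, ← hab (x * y), ← hab (y * x)]
  group

end group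

section field

variable {F : Type v} [Field F]

theorem det_smul2 (a : F) (B : Matrix (Fin 2) (Fin 2) F) : (a • B).det = a ^ 2 * B.det := by
  rw [Matrix.det_smul, Fintype.card_fin]

theorem det_ne {F : Type*} [Field F] (B : GL (Fin 2) F) : B.1.det ≠ 0 :=
  ((Matrix.isUnit_iff_isUnit_det _).1 B.isUnit).ne_zero

/-- The homomorphism to the centre. -/
theorem exists_cen {S T : Type*} [Group S] [Group T] (π : S →* T) (q : S →* GL (Fin 2) F)
    (f : T →* GL (Fin 2) F)
    (h : ∀ s, ProjGenLinGroup.mk (q s) = ProjGenLinGroup.mk (f (π s))) :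
    ∃ a : S →* Subgroup.center (GL (Fin 2) F), ∀ s, q s = (a s).1 * f (π s) := by
  have h1 : ∀ s, q s * (f (π s))⁻¹ ∈ Subgroup.center (GL (Fin 2) F) := fun s => by
    rw [← ProjGenLinGroup.mk_eq_one, map_mul, map_inv, h, mul_inv_cancel]
  refine ⟨MonoidHom.mk' (fun s => ⟨_, h1 s⟩) fun s t => Subtype.ext ?_, fun s => ?_⟩
  · show q (s * t) * (f (π (s * t)))⁻¹ = (q s * (f (π s))⁻¹) * (q t * (f (π t))⁻¹)
    have h2 : f (π s) * (q t * (f (π t))⁻¹) = (q t * (f (π t))⁻¹) * f (π s) :=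
      (Subgroup.mem_center_iff.1 (h1 t)) _
    have h3 : (f (π s))⁻¹ * (q t * (f (π t))⁻¹) = (q t * (f (π t))⁻¹) * (f (π s))⁻¹ :=
      (Subgroup.mem_center_iff.1 (h1 t)) _
    rw [mul_assoc (q s), h3, map_mul, map_mul, map_mul]
    group
  · show q s = (q s * (f (π s))⁻¹) * f (π s)
    group

/-- The traces of commutators. -/
theorem exists_comm {S T : Type*} [Group S] [Group T] (π : S →* T) (hπ : Function.Surjective π)
    (q : S →* GL (Fin 2) F) (f : T →* GL (Fin 2) F)
    (h : ∀ s, ProjGenLinGroup.mk (q s) = ProjGenLinGroup.mk (f (π s))) :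
    ∀ c ∈ commutator T, ∃ c' ∈ commutator S, π c' = c ∧ q c' = f c := by
  intro c hc
  obtain ⟨a, ha⟩ := exists_cen π q f h
  have h1 : (commutator S).map π = commutator T := by
    rw [commutator_def, commutator_def, Subgroup.map_commutator,
      Subgroup.map_top_of_surjective π hπ]
  rw [← h1] at hc
  obtain ⟨c', hc', rfl⟩ := hc
  refine ⟨c', hc', rfl, ?_⟩
  have h2 : a c' = 1 := by
    let i : CommGroup (Subgroup.center (GL (Fin 2) F)) :=
      { (inferInstance : Group (Subgroup.center (GL (Fin 2) F))) with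
        mul_comm := fun x y => Subtype.ext (Subgroup.mem_center_iff.1 y.2 x.1) }
    have h3 := Abelianization.commutator_subset_ker (A := Subgroup.center (GL (Fin 2) F)) a hc'
    exact h3
  rw [ha, h2, OneMemClass.coe_one, one_mul]

/-- Simple commutators. -/
theorem comm_eq {S T : Type*} [Group S] [Group T] (π : S →* T)
    (q : S →* GL (Fin 2) F) (f : T →* GL (Fin 2) F)
    (h : ∀ s, ProjGenLinGroup.mk (q s) = ProjGenLinGroup.mk (f (π s))) (x y : S) :
    q (x * y * x⁻¹ * y⁻¹) = f (π x * π y * (π x)⁻¹ * (π y)⁻¹) := by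
  obtain ⟨a, ha⟩ := exists_cen π q f h
  rw [map_mul, map_mul, map_mul, map_inv, map_inv, map_mul, map_mul, map_mul, map_inv, map_inv,
    ha x, ha y]
  exact comm_central (Subgroup.mem_center_iff.1 (a x).2) (Subgroup.mem_center_iff.1 (a y).2)

/-- Triangular groups. -/
theorem comm_tri {S : Type*} [Group S] (f : S →* GL (Fin 2) F) (P : GL (Fin 2) F)
    (h : ∀ s, (P⁻¹ * f s * P).1 1 0 = 0) : ∀ c ∈ commutator S, (f c).1.trace = 2 := by
  let f' : S →* GL (Fin 2) F := MonoidHom.mk' (fun s => P⁻¹ * f s * P) fun a b => by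
    rw [map_mul]
    group
  have h' : ∀ s, (f' s).1 1 0 = 0 := h
  have hmul : ∀ s t i j, (f' (s * t)).1 i j = (f' s).1 i 0 * (f' t).1 0 j +
      (f' s).1 i 1 * (f' t).1 1 j := by
    intro s t i j
    rw [map_mul, Units.val_mul, Matrix.mul_apply, Fin.sum_univ_two]
  let a : S →* F :=
    { toFun := fun s => (f' s).1 0 0
      map_one' := by rw [map_one, Units.val_one, Matrix.one_apply_eq]
      map_mul' := fun s t => by rw [hmul, h' t, mul_zero, add_zero] }
  let d : S →* F :=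
    { toFun := fun s => (f' s).1 1 1
      map_one' := by rw [map_one, Units.val_one, Matrix.one_apply_eq]
      map_mul' := fun s t => by rw [hmul, h' s, zero_mul, zero_add] }
  intro c hc
  have h1 : a c = 1 := by
    have h3 := Abelianization.commutator_subset_ker a.toHomUnits hc
    exact congrArg Units.val h3
  have h2 : d c = 1 := by
    have h3 := Abelianization.commutator_subset_ker d.toHomUnits hc
    exact congrArg Units.val h3
  have h4 : (f' c).1.trace = (f c).1.trace := by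
    show Matrix.trace ((P⁻¹ * f c * P : GL (Fin 2) F).1) = _
    rw [Units.val_mul, Units.val_mul, Matrix.trace_mul_comm, ← Matrix.mul_assoc, ← Units.val_mul,
      mul_inv_cancel, Units.val_one, Matrix.one_mul]
  rw [← h4, Matrix.trace_fin_two]
  show a c + d c = 2
  rw [h1, h2, one_add_one_eq_two]

end field

section

variable {K : Type u} [Field K] [CharZero K] {S : Type u} [Group S] (χ : S →* GL (Fin 2) K)
  (hχ : Function.Injective χ)
  (ht : ∀ s, ∃ z : ℤ, (χ s).1.trace ^ 2 = (z : K) * (χ s).1.det)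

include hχ ht

/-- Finitely generated groups such that all elements of the commutator subgroup have trace two. -/
theorem lv_one (hfg : Group.FG S) (hc : ∀ c ∈ commutator S, (χ c).1.trace = 2) :
    ∃ (H : Subgroup S) (n : ℕ), H.FiniteIndex ∧ PL.PZ n H := by
  have key : ∃ H : Subgroup S, H.Normal ∧ H.FiniteIndex ∧ ∃ n, PL.PZ n H := by
    refine RK.mttL_one (RingHom.id K) (d := fun k : Fin 0 => 0) S
      (Abelianization S) hfg Abelianization.of 1 ((ProjGenLinGroup.mk).comp χ)
      ⟨fun g i => i.1.elim0, fun g k => k.elim0⟩ (fun h B hB => ?_) (fun k => k.elim0)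
      (fun h h1 _ h2 => ?_) χ (fun s => rfl) hc
    · obtain ⟨a, ha⟩ := exists_smul (A := B) (B := χ h) hB
      obtain ⟨z, hz⟩ := ht h
      refine ⟨z, ?_⟩
      rw [ha, Matrix.trace_smul, det_smul2, smul_eq_mul, mul_pow, hz]
      ring
    · have h3 : h ∈ commutator S := by
        rw [← Abelianization.ker_of]
        exact h1
      obtain ⟨c, hc0, h4⟩ := P2.scalar_of_mk h2
      have h5 := hc h h3
      rw [Matrix.trace_fin_two, h4, h4, if_pos rfl, if_pos rfl] at h5
      have h6 : c = 1 := by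
        have h7 : (2 : K) * (c - 1) = 0 := by linear_combination h5
        rcases mul_eq_zero.1 h7 with h8 | h8
        · exact absurd h8 two_ne_zero
        · exact sub_eq_zero.1 h8
      apply hχ
      rw [map_one]
      refine Units.ext (Matrix.ext fun i j => ?_)
      rw [h4, h6, Units.val_one, Matrix.one_apply]
  obtain ⟨H, _, hF, n, hn⟩ := key
  exact ⟨H, n, hF, hn⟩

/-- Finitely generated groups such that the commutators of the elements with square determinants
have trace two. -/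
theorem lv_two (hfg : Group.FG S)
    (hc : ∀ x y : S, (∃ r : K, r ^ 2 = (χ x).1.det) → (∃ r : K, r ^ 2 = (χ y).1.det) →
      (χ (x * y * x⁻¹ * y⁻¹)).1.trace = 2) :
    ∃ (H : Subgroup S) (n : ℕ), H.FiniteIndex ∧ PL.PZ n H := by
  obtain ⟨S₁, hN, hF, hsq⟩ := PL.PGS.exists_sq ((ProjGenLinGroup.mk).comp χ)
  have hfg₁ : Group.FG S₁ := Subgroup.fg_of_index_ne_zero S₁
  have hdet : ∀ s ∈ S₁, ∃ r : K, r ^ 2 = (χ s).1.det := by
    intro s hs
    obtain ⟨A, hA, r, hr⟩ := hsq s hs
    obtain ⟨a, ha⟩ := exists_smul (A := A) (B := χ s) hA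
    have h1 := det_ne A
    have h2 : r ≠ 0 := by
      rintro rfl
      rw [zero_pow two_ne_zero] at hr
      exact inv_ne_zero h1 hr.symm
    have h3 : a ≠ 0 := by
      rintro rfl
      rw [ha, det_smul2, zero_pow two_ne_zero, zero_mul] at h1
      exact h1 rfl
    refine ⟨(r * a)⁻¹, ?_⟩
    rw [inv_pow, mul_pow, hr, ha, det_smul2]
    have h4 := det_ne (χ s)
    field_simp
  have hall : ∀ c ∈ commutator S₁, (χ c.1).1.trace = 2 := by
    obtain ⟨Δ, _, π, q, z, hπ, hq1, hq2, -, -, -, -, -⟩ := PL.PGS.exists_lift'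
      (((ProjGenLinGroup.mk).comp χ).comp S₁.subtype) fun γ => hsq γ.1 γ.2
    let ι : K →+* AlgebraicClosure K := algebraMap K (AlgebraicClosure K)
    have hcz : CharZero (AlgebraicClosure K) := charZero_of_injective_algebraMap ι.injective
    let q₀ : Δ →* GL (Fin 2) (AlgebraicClosure K) := (GeneralLinearGroup.map ι).comp q
    have htr : ∀ g : GL (Fin 2) K, (GeneralLinearGroup.map ι g).1.trace = ι g.1.trace :=
      fun g => by
        rw [Matrix.trace_fin_two, Matrix.trace_fin_two, map_add]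
        rfl
    have hdt : ∀ s, (q₀ s).1.det = 1 := fun s => by
      have h1 : (q₀ s).1.det = ι (q s).1.det := by
        rw [Matrix.det_fin_two, Matrix.det_fin_two, map_sub, map_mul, map_mul]
        rfl
      rw [h1, hq1, map_one]
    obtain ⟨P, hP⟩ := PL.PGS.simple_tri q₀ hdt fun x y => by
      have h1 : (q₀ (x * y * x⁻¹ * y⁻¹)).1.trace = ι (q (x * y * x⁻¹ * y⁻¹)).1.trace := htr _
      have h2 := comm_eq π q (χ.comp S₁.subtype) hq2 x y
      have h3 : (χ.comp S₁.subtype) (π x * π y * (π x)⁻¹ * (π y)⁻¹) =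
        χ ((π x).1 * (π y).1 * (π x).1⁻¹ * (π y).1⁻¹) := rfl
      rw [h1, h2, h3, hc _ _ (hdet _ (π x).2) (hdet _ (π y).2), map_ofNat]
    have h1 := comm_tri q₀ P hP
    intro c hc'
    obtain ⟨c', h2, -, h3⟩ := exists_comm π hπ q (χ.comp S₁.subtype) hq2 c hc'
    have h4 := h1 c' h2
    have h5 : (q₀ c').1.trace = ι (χ c.1).1.trace := by
      refine (htr _).trans ?_
      rw [h3]
      rfl
    rw [h5] at h4
    refine ι.injective ?_
    rw [h4, map_ofNat]
  obtain ⟨H, n, h1, h2⟩ := lv_one (χ.comp S₁.subtype) (hχ.comp Subtype.val_injective)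
    (fun s => ht s.1) hfg₁ hall
  exact EP.pz_map S₁ H h1 n h2

end

section

variable {K : Type u} [Field K] [CharZero K] {S : Type u} [Group S] (χ : S →* GL (Fin 2) K)
  (hχ : Function.Injective χ)

include hχ in
/-- Groups with a finite image in `PGL₂`. -/
theorem lvp_fin (s : Set (PGL(Fin 2, K))) (hs : s.Finite)
    (h : ∀ g, ProjGenLinGroup.mk (χ g) ∈ s) : LVP S := by
  intro T hT
  have hfg : Group.FG T := (Group.fg_iff_subgroup_fg T).2 hT
  let f : T →* PGL(Fin 2, K) := ((ProjGenLinGroup.mk).comp χ).comp T.subtype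
  have hr : Finite f.range := by
    refine (hs.subset ?_).to_subtype
    rintro _ ⟨g, rfl⟩
    exact h g.1
  have hfi : f.ker.FiniteIndex := Subgroup.finiteIndex_ker f
  have hfg' : Group.FG f.ker := Subgroup.fg_of_index_ne_zero f.ker
  have hsc : ∀ g : f.ker, ∃ c : K, c ≠ 0 ∧ ∀ i j, (χ g.1.1).1 i j = if i = j then c else 0 :=
    fun g => P2.scalar_of_mk g.2
  let a : f.ker →* K :=
    { toFun := fun g => (χ g.1.1).1 0 0
      map_one' := by
        show (χ 1).1 0 0 = 1
        rw [map_one, Units.val_one, Matrix.one_apply_eq]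
      map_mul' := fun g g' => by
        show (χ (g.1.1 * g'.1.1)).1 0 0 = _
        obtain ⟨c, -, hc⟩ := hsc g
        rw [map_mul, Units.val_mul, Matrix.mul_apply, Fin.sum_univ_two, hc 0 1,
          if_neg (by decide), zero_mul, add_zero] }
  have ha : ∀ g : f.ker, a.toHomUnits g = 1 → g = 1 := by
    intro g hg
    have h1 : (χ g.1.1).1 0 0 = 1 := congrArg Units.val hg
    obtain ⟨c, -, hc⟩ := hsc g
    rw [hc, if_pos rfl] at h1
    have h2 : χ g.1.1 = χ 1 := by
      rw [map_one]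
      refine Units.ext (Matrix.ext fun i j => ?_)
      rw [hc, h1, Units.val_one, Matrix.one_apply]
    exact Subtype.ext (Subtype.ext (hχ h2))
  obtain ⟨H, _, hF, n, hn⟩ := PL.PZ.finite 0 a.toHomUnits.range a.toHomUnits.rangeRestrict
    (show Subsingleton _ from ⟨fun g g' => Subtype.ext (by
      rw [ha g.1 (congrArg Subtype.val g.2), ha g'.1 (congrArg Subtype.val g'.2)])⟩)
  exact EP.pz_map f.ker H hF n hn

/-- The determinants are squares up to sign. -/
theorem sq_all (hU : ∀ g, (χ g).1.trace ≠ 0 →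
      ∃ r : K, r ^ 2 = (χ g).1.det ∨ r ^ 2 = -(χ g).1.det) (x y : S)
    (hx : ∃ r : K, r ^ 2 = (χ x).1.det) (hy : ∃ r : K, r ^ 2 = (χ y).1.det)
    (hxy : (χ (x * y * x⁻¹ * y⁻¹)).1.trace ≠ 2) (g : S) :
    ∃ r : K, r ^ 2 = (χ g).1.det ∨ r ^ 2 = -(χ g).1.det := by
  by_contra hg
  have hdm : ∀ g g', (χ (g * g')).1.det = (χ g).1.det * (χ g').1.det := fun g g' => by
    rw [map_mul, Units.val_mul, Matrix.det_mul]
  have htr : ∀ d, (∃ r : K, r ^ 2 = (χ d).1.det) → (χ (g * d)).1.trace = 0 := by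
    rintro d ⟨r, hr⟩
    by_contra h1
    obtain ⟨r', h2⟩ := hU _ h1
    rw [hdm, ← hr] at h2
    have h3 : r ≠ 0 := by
      rintro rfl
      rw [zero_pow two_ne_zero] at hr
      exact det_ne (χ d) hr.symm
    refine hg ⟨r' / r, ?_⟩
    rcases h2 with h2 | h2
    · left
      rw [div_pow, h2]
      field_simp
    · right
      rw [div_pow, h2]
      field_simp
  have e0 := htr 1 ⟨1, by rw [map_one, Units.val_one, Matrix.det_one, one_pow]⟩
  have e1 := htr x hx
  have e2 := htr y hy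
  have e3 := htr (x * y) (by
    obtain ⟨r, hr⟩ := hx
    obtain ⟨r', hr'⟩ := hy
    exact ⟨r * r', by rw [hdm, mul_pow, hr, hr']⟩)
  have hD : H22.G.dd (χ x).1 (χ y).1 ≠ 0 := by
    have h1 := H22.G.dd_comm ((Units.coeHom _).comp χ) x y
    have h2 : H22.G.dd (χ x).1 (χ y).1 = H22.G.dt (χ x).1 * H22.G.dt (χ y).1 *
      (2 - H22.G.tr (χ (x * y * x⁻¹ * y⁻¹)).1) := h1
    rw [h2]
    have h3 : ∀ B : GL (Fin 2) K, H22.G.dt B.1 ≠ 0 := fun B => by
      have h4 := det_ne B
      rwa [Matrix.det_fin_two] at h4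
    refine mul_ne_zero (mul_ne_zero (h3 _) (h3 _)) (sub_ne_zero.2 fun h4 => hxy ?_)
    rw [Matrix.trace_fin_two]
    exact h4.symm
  rw [map_mul, Units.val_mul, Matrix.trace_fin_two, Matrix.mul_apply, Matrix.mul_apply,
    Fin.sum_univ_two, Fin.sum_univ_two] at e1 e2 e3
  rw [map_mul, Units.val_mul] at e3
  rw [mul_one, Matrix.trace_fin_two] at e0
  obtain ⟨r1, r2, r3, r4⟩ := H22.G.nondeg (χ x).1 (χ y).1 hD ((χ g).1 0 0) ((χ g).1 0 1)
    ((χ g).1 1 0) ((χ g).1 1 1) e0 (by linear_combination e1) (by linear_combination e2)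
    (by linear_combination e3)
  refine det_ne (χ g) ?_
  rw [Matrix.det_fin_two, r1, r2]
  ring

end

/-- The tree of `GL₂(ℤ)`. -/
theorem clx_tree {C N : GCls.{u}} (hC : ∀ (G : Type u) [Group G], LVP G → C G) {K : Type u}
    [Field K] (hK : H70.Rig K) {H : Type u} [i₀ : Group H] (χ : H →* GL (Fin 2) K)
    (hχ : Function.Injective χ)
    (ht : ∀ s, ∃ z : ℤ, (χ s).1.trace ^ 2 = (z : K) * (χ s).1.det)
    (hD : ∀ g, ∃ r : K, r ^ 2 = (χ g).1.det ∨ r ^ 2 = -(χ g).1.det)
    (x y : H) (hxy : (χ (x * y * x⁻¹ * y⁻¹)).1.trace ≠ 2) : Clx C N H i₀ := by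
  have hc := hK.char
  let Δ : Subgroup (H × GL (Fin 2) K) :=
    { carrier := {x | ProjGenLinGroup.mk x.2 = ProjGenLinGroup.mk (χ x.1) ∧
        (x.2.1.det = 1 ∨ x.2.1.det = -1)}
      one_mem' := ⟨by rw [Prod.snd_one, Prod.fst_one, map_one χ], by
        rw [Prod.snd_one, Units.val_one, Matrix.det_one]
        exact Or.inl rfl⟩
      mul_mem' := fun {a b} ha hb => ⟨by
        rw [Prod.snd_mul, Prod.fst_mul, map_mul, map_mul, map_mul, ha.1, hb.1], by
        rw [Prod.snd_mul, Units.val_mul, Matrix.det_mul]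
        rcases ha.2 with h1 | h1 <;> rcases hb.2 with h2 | h2 <;> rw [h1, h2] <;> simp⟩
      inv_mem' := fun {a} ha => ⟨by
        rw [Prod.snd_inv, Prod.fst_inv, map_inv, map_inv, map_inv, ha.1], by
        have h1 : (a.2).1.det * (a.2⁻¹).1.det = 1 := by
          rw [← Matrix.det_mul, ← Units.val_mul, mul_inv_cancel, Units.val_one, Matrix.det_one]
        show (a.2⁻¹).1.det = 1 ∨ (a.2⁻¹).1.det = -1
        rcases ha.2 with h2 | h2
        · rw [h2, one_mul] at h1
          exact Or.inl h1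
        · rw [h2, neg_one_mul] at h1
          exact Or.inr (by linear_combination -h1)⟩ }
  let π : Δ →* H := (MonoidHom.fst _ _).comp Δ.subtype
  let ψ : Δ →* GL (Fin 2) K := (MonoidHom.snd _ _).comp Δ.subtype
  have hmk : ∀ s, ProjGenLinGroup.mk (ψ s) = ProjGenLinGroup.mk (χ (π s)) := fun s => s.2.1
  have hdt : ∀ s, (ψ s).1.det = 1 ∨ (ψ s).1.det = -1 := fun s => s.2.2
  have hπ : Function.Surjective π := by
    intro g
    obtain ⟨r, hr⟩ := hD g
    have h2 : r ≠ 0 := by
      rintro rfl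
      rw [zero_pow two_ne_zero] at hr
      rcases hr with h | h
      · exact det_ne (χ g) h.symm
      · exact det_ne (χ g) (by linear_combination h)
    let c : GL (Fin 2) K := GeneralLinearGroup.scalar (Fin 2) (Units.mk0 r⁻¹ (inv_ne_zero h2))
    have hc : c.1.det = (r ^ 2)⁻¹ := by
      rw [← inv_pow, Matrix.det_fin_two]
      simp [c, Matrix.GeneralLinearGroup.coe_scalar, sq]
    refine ⟨⟨(g, χ g * c), ?_, ?_⟩, rfl⟩
    · show ProjGenLinGroup.mk (χ g * c) = ProjGenLinGroup.mk (χ g)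
      rw [map_mul, ProjGenLinGroup.mk_scalar, mul_one]
    · show (χ g * c).1.det = 1 ∨ (χ g * c).1.det = -1
      have h3 := det_ne (χ g)
      rw [Units.val_mul, Matrix.det_mul, hc]
      rcases hr with h | h
      · left
        rw [h, mul_inv_cancel₀ h3]
      · right
        rw [h, inv_neg, mul_neg, mul_inv_cancel₀ h3]
  have hfin : Finite π.ker := by
    let m1 : GL (Fin 2) K := -1
    have h1 : ∀ g ∈ π.ker, (g.1 : H × GL (Fin 2) K) ∈ ({(1, 1), (1, m1)} : Set _) := by
      rintro ⟨⟨γ, A⟩, h1, h2⟩ h3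
      have h3' : γ = 1 := h3
      subst h3'
      have h1' : ProjGenLinGroup.mk A = 1 := by
        have h4 : ProjGenLinGroup.mk A = ProjGenLinGroup.mk (χ 1) := h1
        rw [h4, map_one, map_one]
      obtain ⟨c, hc, hA⟩ := P2.scalar_of_mk h1'
      have h2' : A.1.det = 1 ∨ A.1.det = -1 := h2
      rw [Matrix.det_fin_two, hA, hA, hA, hA, if_pos rfl, if_pos rfl, if_neg (by decide),
        if_neg (by decide)] at h2'
      have h4 : c ^ 4 = 1 := by
        rcases h2' with h5 | h5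
        · linear_combination (c ^ 2 + 1) * h5
        · linear_combination (c ^ 2 - 1) * h5
      obtain ⟨z, hz⟩ := hK.int c (by
        refine IsIntegral.of_pow (n := 4) (by norm_num) ?_
        rw [h4]
        exact isIntegral_one)
      have h5 : z ^ 4 = 1 := by
        rw [hz] at h4
        exact_mod_cast h4
      have h6 : IsUnit z := IsUnit.of_pow_eq_one h5 (by norm_num)
      rcases Int.isUnit_iff.1 h6 with h7 | h7
      · refine Or.inl (Prod.ext rfl (Units.ext (Matrix.ext fun i j => ?_)))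
        show A.1 i j = (1 : Matrix (Fin 2) (Fin 2) K) i j
        rw [hA, hz, h7, Matrix.one_apply, Int.cast_one]
      · refine Or.inr (Prod.ext rfl (Units.ext (Matrix.ext fun i j => ?_)))
        show A.1 i j = (-1 : Matrix (Fin 2) (Fin 2) K) i j
        rw [hA, hz, h7, Matrix.neg_apply, Matrix.one_apply, Int.cast_neg, Int.cast_one]
        split_ifs <;> simp
    have h2 : (Subtype.val ⁻¹' ({(1, 1), (1, m1)} : Set (H × GL (Fin 2) K)) : Set Δ).Finite :=
      Set.Finite.preimage (Subtype.val_injective.injOn) (Set.toFinite _)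
    exact (h2.subset h1).to_subtype
  have htψ : ∀ s, ∃ t : ℤ, (ψ s).1.trace = t := by
    intro s
    obtain ⟨a, ha⟩ := exists_smul (hmk s)
    obtain ⟨z, hz⟩ := ht (π s)
    have h1 : (ψ s).1.trace ^ 2 = (z : K) * (ψ s).1.det := by
      rw [ha, Matrix.trace_smul, det_smul2, smul_eq_mul, mul_pow, hz]
      ring
    obtain ⟨t, h2⟩ := hK.int (ψ s).1.trace (by
      refine IsIntegral.of_pow (n := 2) (by norm_num) ?_
      rw [h1]
      have h3 : ∀ z : ℤ, IsIntegral ℤ (z : K) := fun z => by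
        have h4 := isIntegral_algebraMap (R := ℤ) (A := K) (x := z)
        rwa [eq_intCast] at h4
      rcases hdt s with h4 | h4
      · rw [h4, mul_one]
        exact h3 z
      · rw [h4, mul_neg_one]
        exact (h3 z).neg)
    exact ⟨t, h2⟩
  obtain ⟨x', rfl⟩ := hπ x
  obtain ⟨y', rfl⟩ := hπ y
  obtain ⟨P, θ, hθ⟩ := RK.Lft.conj_gl hK ψ htψ hdt x' y' (by
    rw [comm_eq π ψ χ hmk]
    exact hxy)
  obtain ⟨V, iV, T, hT, hst⟩ := RK.Mtt2.tree_gl Δ θ
  obtain ⟨T', ι, hι, hι1, -⟩ := P2.exists_desc π hπ hfin ⟨V, iV, T, hT⟩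
  have key : ∀ (v : T'.V) (S : Subgroup H), (∀ g ∈ S, letI := T'.act; g • v = v) → LVP S := by
    intro v S hS
    obtain ⟨s, hs, h1⟩ := hst (ι v)
    refine lvp_fin (χ.comp S.subtype) (hχ.comp Subtype.val_injective)
      ((fun g => ProjGenLinGroup.mk (P * GeneralLinearGroup.map (Int.castRingHom K) g * P⁻¹)) '' s)
      (hs.image _) fun g => ?_
    obtain ⟨δ, hδ⟩ := hπ g.1
    refine ⟨θ δ, h1 δ ?_, ?_⟩
    · have h2 := hι1 δ v
      rw [hδ, hS g.1 g.2] at h2
      exact h2.symm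
    · show ProjGenLinGroup.mk (P * GeneralLinearGroup.map (Int.castRingHom K) (θ δ) * P⁻¹) =
        ProjGenLinGroup.mk (χ g.1)
      rw [← hθ, ← hδ, ← hmk]
      congr 1
      group
  let Y : Trees H :=
    { m := 1
      V := fun _ => T'.V
      act := fun _ => T'.act
      G := fun _ => T'.G
      tree := fun _ => T'.tree }
  refine Clx.tree H Y (fun j v w _ => hC _ ?_) fun v => Clx.c0 _ (hC _ ?_)
  · refine key (v j) _ fun g hg => ?_
    exact (Subgroup.mem_iInf.1 hg.1) j
  · refine key (v 0) _ fun g hg => ?_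
    exact (Subgroup.mem_iInf.1 hg) 0

/-- The stabilizers of the vertices. -/
theorem clx_vert {C N : GCls.{u}} (hC : ∀ (G : Type u) [Group G], LVP G → C G) {K : Type u}
    [Field K] (hK : H70.Rig K) {H : Type u} [i₀ : Group H] (χ : H →* GL (Fin 2) K)
    (hχ : Function.Injective χ)
    (ht : ∀ s, ∃ z : ℤ, (χ s).1.trace ^ 2 = (z : K) * (χ s).1.det)
    (hU : ∀ g, (χ g).1.trace ≠ 0 → ∃ r : K, r ^ 2 = (χ g).1.det ∨ r ^ 2 = -(χ g).1.det) :
    Clx C N H i₀ := by
  have hc := hK.char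
  by_cases hall : ∀ x y : H, (∃ r : K, r ^ 2 = (χ x).1.det) → (∃ r : K, r ^ 2 = (χ y).1.det) →
      (χ (x * y * x⁻¹ * y⁻¹)).1.trace = 2
  · refine Clx.c0 H (hC _ fun S hS => ?_)
    have hfg : Group.FG S := (Group.fg_iff_subgroup_fg S).2 hS
    exact lv_two (χ.comp S.subtype) (hχ.comp Subtype.val_injective) (fun s => ht s.1) hfg
      fun x y hx hy => hall x.1 y.1 hx hy
  · push Not at hall
    obtain ⟨x, y, hx, hy, hxy⟩ := hall
    exact clx_tree hC hK χ hχ ht (sq_all χ hU x y hx hy hxy) x y hxy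

/-- Homomorphisms map commutators to commutators. -/
theorem map_comm {S T : Type*} [Group S] [Group T] (f : S →* T) {c : S} (hc : c ∈ commutator S) :
    f c ∈ commutator T := by
  have h1 := Abelianization.commutator_subset_ker (Abelianization.of.comp f) hc
  rw [← Abelianization.ker_of]
  exact h1

/-- Finitely generated groups. -/
theorem clx_fg {C N : GCls.{u}} (hC : ∀ (G : Type u) [Group G], LVP G → C G) {K : Type u}
    [Field K] (hK : H70.Rig K) (A : Subring K) (hA : ∀ a ∈ A, IsAlgebraic ℤ a → IsIntegral ℤ a)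
    (hU : ∀ a b : K, a ∈ A → b ∈ A → a * b = 1 → ∀ (z : ℤ) (w : K), a = z * w ^ 2 →
      ∃ m : ℤ, z = m ^ 2 ∨ z = -m ^ 2)
    {G : Type u} [i₀ : Group G] [hfg : Group.FG G] (χ : G →* GL (Fin 2) K)
    (hχ : ∀ g i j, (χ g).1 i j ∈ A) (hinj : Function.Injective χ) : Clx C N G i₀ := by
  have hc := hK.char
  let ι₀ : K →+* AlgebraicClosure K := algebraMap K (AlgebraicClosure K)
  have hcz : CharZero (AlgebraicClosure K) := charZero_of_injective_algebraMap ι₀.injective
  let χ₀ : G →* GL (Fin 2) (AlgebraicClosure K) := (GeneralLinearGroup.map ι₀).comp χ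
  have htr₀ : ∀ g, (χ₀ g).1.trace = ι₀ (χ g).1.trace := fun g => by
    rw [Matrix.trace_fin_two, Matrix.trace_fin_two, map_add]
    rfl
  have hdt₀ : ∀ g, (χ₀ g).1.det = ι₀ (χ g).1.det := fun g => by
    rw [Matrix.det_fin_two, Matrix.det_fin_two, map_sub, map_mul, map_mul]
    rfl
  obtain ⟨Δ, _, π, q, z, hπ, hq1, hq2, -, -, -, hfin, hFG⟩ := PL.PGS.exists_lift'
    ((ProjGenLinGroup.mk).comp χ₀) fun g => by
      obtain ⟨r, hr⟩ := IsAlgClosed.exists_pow_nat_eq (χ₀ g).1.det⁻¹ (n := 2) two_pos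
      exact ⟨χ₀ g, rfl, r, hr⟩
  have hq2' : ∀ s, ProjGenLinGroup.mk (q s) = ProjGenLinGroup.mk (χ₀ (π s)) := hq2
  obtain ⟨S1, hS1⟩ := (hFG hfg).out
  obtain ⟨E, hE⟩ := NT5.entries q S1
  obtain ⟨L, _, _, ι, F, _, -, ψ, hF1, hF2, -, hF4, hψ⟩ :=
    P2.exists_field q E fun g i j => hE g (by rw [hS1]; exact Subgroup.mem_top g) i j
  obtain ⟨M, w, hw, hgeo⟩ := NT5.exists_geo L F hF1 hF2
  choose T hT hT' using fun a => NT5.exists_TD_glE L (w a)
  choose T' j hj hj1 hj2 using fun a => P2.exists_desc π hπ hfin ((T a).comp ψ)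
  have hmap : ∀ g i j, ι ((ψ g).1 i j) = (q g).1 i j := fun g i j => by
    rw [← hψ]
    rfl
  have htr : ∀ g, ι (Matrix.trace (ψ g).1) = Matrix.trace (q g).1 := fun g => by
    rw [Matrix.trace_fin_two, Matrix.trace_fin_two, map_add, hmap, hmap]
  have hdt : ∀ g, (ψ g).1.det = 1 := fun g => ι.injective (by
    rw [Matrix.det_fin_two, map_sub, map_mul, map_mul, hmap, hmap, hmap, hmap,
      ← Matrix.det_fin_two, hq1, map_one])
  have hdA : ∀ g, (χ g).1.det ∈ A := fun g => by
    rw [Matrix.det_fin_two]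
    exact A.sub_mem (A.mul_mem (hχ g 0 0) (hχ g 1 1)) (A.mul_mem (hχ g 0 1) (hχ g 1 0))
  have hdi : ∀ g, (χ g).1.det * (χ g⁻¹).1.det = 1 := fun g => by
    rw [← Matrix.det_mul, ← Units.val_mul, ← map_mul, mul_inv_cancel, map_one, Units.val_one,
      Matrix.det_one]
  have htA : ∀ g, (χ g).1.trace ∈ A := fun g => by
    rw [Matrix.trace_fin_two]
    exact A.add_mem (hχ g 0 0) (hχ g 1 1)
  have hint : ∀ δ, (∀ a, ((T a).comp ψ).Ell δ) → ∃ z : ℤ,
      (χ (π δ)).1.trace ^ 2 = z * (χ (π δ)).1.det ∧ (ψ δ).1.trace ^ 2 = z := by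
    intro δ hδ
    have h1 : IsAlgebraic ℤ (ψ δ).1.trace := by
      refine hgeo _ ?_ fun a => ?_
      · rw [Matrix.trace_fin_two]
        exact Subring.add_mem _ (hF4 δ 0 0) (hF4 δ 1 1)
      · have h2 := hT a (ψ δ) (hδ a)
        rw [hdt, map_one] at h2
        exact (pow_le_one_iff two_ne_zero).1 h2
    have h2 : (q δ).1.trace ^ 2 = ι₀ ((χ (π δ)).1.trace ^ 2 * (χ (π δ)⁻¹).1.det) := by
      obtain ⟨a, ha⟩ := exists_smul (hq2' δ)
      have h3 := hq1 δ
      rw [ha, det_smul2, hdt₀] at h3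
      have h4 : ι₀ (χ (π δ)).1.det * ι₀ (χ (π δ)⁻¹).1.det = 1 := by
        rw [← map_mul, hdi, map_one]
      rw [ha, Matrix.trace_smul, smul_eq_mul, htr₀, map_mul, map_pow]
      have h5 : a ^ 2 = ι₀ (χ (π δ)⁻¹).1.det := by
        linear_combination (ι₀ (χ (π δ)⁻¹).1.det) * h3 - a ^ 2 * h4
      rw [mul_pow, h5]
      ring
    have h3 : IsAlgebraic ℤ ((χ (π δ)).1.trace ^ 2 * (χ (π δ)⁻¹).1.det) := by
      have h4 : IsAlgebraic ℤ (ι₀ ((χ (π δ)).1.trace ^ 2 * (χ (π δ)⁻¹).1.det)) := by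
        rw [← h2, ← htr, ← map_pow]
        exact NT5.isAlg_map ι (h1.pow 2)
      exact (isAlgebraic_algebraMap_iff ι₀.injective).1 h4
    obtain ⟨z, hz⟩ := hK.int _ (hA _ (A.mul_mem (A.pow_mem (htA _) 2) (hdA _)) h3)
    refine ⟨z, ?_, ι.injective ?_⟩
    · rw [← hz]
      linear_combination -(χ (π δ)).1.trace ^ 2 * hdi (π δ)
    · rw [map_pow, htr, h2, hz, map_intCast, map_intCast]
  let Y : Trees G :=
    { m := M
      V := fun a => (T' a).V
      act := fun a => (T' a).act
      G := fun a => (T' a).G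
      tree := fun a => (T' a).tree }
  have hell : ∀ (v : ∀ a, Y.V a) (δ : Δ), π δ ∈ Y.st v → ∀ a, ((T a).comp ψ).Ell δ := by
    intro v δ hδ a
    refine ⟨j a (v a), ?_⟩
    have h1 : π δ • (v a : (T' a).V) = v a := (Subgroup.mem_iInf.1 hδ) a
    have h2 := hj1 a δ (v a)
    rw [h1] at h2
    exact h2.symm
  refine Clx.tree G Y (fun a v x hx => hC _ ?_) fun v => ?_
  · let H : Subgroup G := Y.st v ⊓ MulAction.stabilizer G x
    let ΔH : Subgroup Δ := H.comap π
    let πH : ΔH →* H := (π.comp ΔH.subtype).codRestrict H fun s => s.2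
    have hπH : Function.Surjective πH := by
      rintro ⟨g, hg⟩
      obtain ⟨δ, rfl⟩ := hπ g
      exact ⟨⟨δ, hg⟩, rfl⟩
    have hH : ∀ g : H, ∃ z : ℤ, (χ g.1).1.trace ^ 2 = z * (χ g.1).1.det := by
      rintro ⟨g, hg⟩
      obtain ⟨δ, rfl⟩ := hπ g
      obtain ⟨z, h1, -⟩ := hint δ (hell v δ hg.1)
      exact ⟨z, h1⟩
    have hcm : ∀ c ∈ commutator H, (χ c.1).1.trace = 2 := by
      intro c hc
      obtain ⟨c', h1, h2, h3⟩ := exists_comm πH hπH (q.comp ΔH.subtype) (χ₀.comp H.subtype)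
        (fun s => hq2' s.1) c hc
      have h4 := hT' a (j a (v a)) (j a x) (hj2 a _ _ hx) ΔH (ψ.comp ΔH.subtype) (fun s => by
        have e1 : π s.1 • (v a : (T' a).V) = v a := (Subgroup.mem_iInf.1 s.2.1) a
        have e2 : π s.1 • (x : (T' a).V) = x := s.2.2
        have e3 := hj1 a s.1 (v a)
        have e4 := hj1 a s.1 x
        rw [e1] at e3
        rw [e2] at e4
        refine ⟨e3.symm, e4.symm, ?_⟩
        show w a (ψ s.1).1.det = 1
        rw [hdt, map_one]) c' h1
      obtain ⟨z, -, h5⟩ := hint c'.1 (hell v c'.1 c'.2.1)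
      have hz : ∀ z : ℤ, IsIntegral ℤ (z : L) := fun z => by
        have h6 := isIntegral_algebraMap (R := ℤ) (A := L) (x := z)
        rwa [eq_intCast] at h6
      have h6 : IsIntegral ℤ ((ψ c'.1).1.trace - 2) := by
        refine IsIntegral.sub (IsIntegral.of_pow (n := 2) (by norm_num) ?_) ?_
        · rw [h5]
          exact hz z
        · have h7 := hz 2
          rwa [Int.cast_ofNat] at h7
      have h7 : (ψ c'.1).1.trace = 2 := by
        by_contra h8
        have h9 := hw a _ h6 (sub_ne_zero.2 h8)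
        have h10 : w a ((ψ c'.1).1.trace - 2) < 1 := h4
        rw [h9] at h10
        exact lt_irrefl _ h10
      have h8 : (q c'.1).1.trace = (χ₀ c.1).1.trace := by
        have h9 : q c'.1 = χ₀ c.1 := h3
        rw [h9]
      rw [← htr, h7, htr₀, map_ofNat] at h8
      refine ι₀.injective ?_
      rw [← h8, map_ofNat]
    intro S hS
    have hfgS : Group.FG S := (Group.fg_iff_subgroup_fg S).2 hS
    exact lv_one (χ.comp (H.subtype.comp S.subtype))
      (hinj.comp (Subtype.val_injective.comp Subtype.val_injective)) (fun s => hH s.1) hfgS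
      fun c hc => hcm c.1 (map_comm S.subtype hc)
  · have hH : ∀ g : Y.st v, ∃ z : ℤ, (χ g.1).1.trace ^ 2 = z * (χ g.1).1.det := by
      rintro ⟨g, hg⟩
      obtain ⟨δ, rfl⟩ := hπ g
      obtain ⟨z, h1, -⟩ := hint δ (hell v δ hg)
      exact ⟨z, h1⟩
    refine clx_vert hC hK (χ.comp (Y.st v).subtype) (hinj.comp Subtype.val_injective) hH
      fun g hg => ?_
    have hg' : (χ g.1).1.trace ≠ 0 := hg
    obtain ⟨z, hz⟩ := hH g
    have hz0 : (z : K) ≠ 0 := by
      intro h1
      rw [h1, zero_mul] at hz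
      exact hg' ((pow_eq_zero_iff two_ne_zero).1 hz)
    obtain ⟨m, hm⟩ := hU (χ g.1).1.det (χ g.1⁻¹).1.det (hdA _) (hdA _) (hdi _) z
      ((χ g.1).1.trace / z) (by
        rw [div_pow, hz]
        field_simp)
    refine ⟨m * (χ g.1).1.trace / z, ?_⟩
    show (m * (χ g.1).1.trace / z) ^ 2 = (χ g.1).1.det ∨ (m * (χ g.1).1.trace / z) ^ 2 =
      -(χ g.1).1.det
    have h1 : (m * (χ g.1).1.trace / z) ^ 2 = (m : K) ^ 2 * (χ g.1).1.det / z := by
      rw [div_pow, mul_pow, hz]
      field_simp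
    rw [h1]
    rcases hm with h | h
    · left
      have h2 : (z : K) = (m : K) ^ 2 := by exact_mod_cast h
      rw [← h2]
      field_simp
    · right
      have h2 : (z : K) = -(m : K) ^ 2 := by exact_mod_cast h
      have h3 : (m : K) ^ 2 = -z := by rw [h2, neg_neg]
      rw [h3]
      field_simp

/-- Groups of matrices of degree two with entries in a ring `A` such that the algebraic elements of
`A` are integral and integers which are products of a unit of `A` and a square are squares up to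
sign. -/
theorem clx_prim {C N : GCls.{u}} (hC : ∀ (G : Type u) [Group G], LVP G → C G) {K : Type u}
    [Field K] (hK : H70.Rig K) (A : Subring K) (hA : ∀ a ∈ A, IsAlgebraic ℤ a → IsIntegral ℤ a)
    (hU : ∀ a b : K, a ∈ A → b ∈ A → a * b = 1 → ∀ (z : ℤ) (w : K), a = z * w ^ 2 →
      ∃ m : ℤ, z = m ^ 2 ∨ z = -m ^ 2)
    {G : Type u} [i₀ : Group G] (χ : G →* GL (Fin 2) K)
    (hχ : ∀ g i j, (χ g).1 i j ∈ A) (hinj : Function.Injective χ) : Clx C N G i₀ := by
  refine Clx.fg G fun S hS => ?_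
  have hfg : Group.FG S := (Group.fg_iff_subgroup_fg S).2 hS
  exact clx_fg hC hK A hA hU (χ.comp S.subtype) (fun g => hχ g.1)
    (hinj.comp Subtype.val_injective)

end Pool.Agent.NegK.NT.NL.EPG
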