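import Pool.Agent.Lib.MP_28303a_al.NT.NL.ExNil
import Pool.Agent.Lib.MP_28303a_al.RK.Ram

/-! # Local trees: units of ramified quaternion algebras -/

set_option autoImplicit false
set_option linter.unusedSectionVars false
set_option linter.unusedVariables false

namespace Pool.Agent.NegK.NT.NL

universe u w

open Pool.Agent.NegK.TW Pool.Agent.NegK.TT Pool.Agent.NegK.NT.ER Pool.Agent.NegK.NT.ER61
open scoped Quaternion

/-- Groups without torsion conditions: commutative groups. -/
theorem lvp_of_comm {G : Type u} [Group G] (h : ∀ x y : G, x * y = y * x) : LVP G := by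
  intro S hS
  have h1 : Group.FG S := (Group.fg_iff_subgroup_fg _).2 hS
  obtain ⟨n, H, hH, hn⟩ := Nil.vz_comm (G := S) fun x y => Subtype.ext (h x.1 y.1)
  exact ⟨H, n, hH, hn⟩

/-- The units of a quaternion algebra which is ramified at a place of residue characteristic
zero, for the classes which contain the commutative groups. -/
theorem clx_ramc {C N : GCls.{u}} (hCi : ∀ (G G' : Type u) [Group G] [Group G'] (f : G →* G'),
    Function.Injective f → C G' → C G)
    (hC : ∀ (G : Type u) [Group G], (∀ x y : G, x * y = y * x) → C G)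
    {K : Type u} [Field K] {Γ₀ : Type w} [LinearOrderedCommGroupWithZero Γ₀]
    {v : Valuation K Γ₀} {a b : K} (h : RK.Ram v a b) :
    Clx C N (ℍ[K,a,b])ˣ inferInstance := by
  refine Clx.fg _ fun S hS => ?_
  have hfg : Group.FG S := (Group.fg_iff_subgroup_fg S).2 hS
  obtain ⟨ι, _, T, hT⟩ := h.trees S S.subtype
  let e := Finite.equivFin ι
  let Y : Trees S := ⟨Nat.card ι, fun i => (T (e.symm i)).V, fun i => (T (e.symm i)).act,
    fun i => (T (e.symm i)).G, fun i => (T (e.symm i)).tree⟩
  have hst : ∀ v : ∀ i, Y.V i, C (Y.st v) := fun v => by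
    refine hC _ (fun x y => Subtype.ext (S.subtype_injective ?_))
    refine hT (Y.st v) (fun g hg i => ?_) x.1 x.2 y.1 y.2
    obtain ⟨j, rfl⟩ := e.symm.surjective i
    exact ⟨v j, Subgroup.mem_iInf.1 hg j⟩
  refine Clx.tree S Y (fun j v w _ => ?_) fun v => Clx.c0 _ (hst v)
  exact hCi _ _ (Subgroup.inclusion (inf_le_left : (Y.st v ⊓ MulAction.stabilizer S w) ≤ Y.st v))
    (Subgroup.inclusion_injective _) (hst v)

/-- The units of a quaternion algebra which is ramified at a place of residue characteristic
zero. -/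
theorem clx_ram {C N : GCls.{u}} (hCi : ∀ (G G' : Type u) [Group G] [Group G'] (f : G →* G'),
    Function.Injective f → C G' → C G) (hC : ∀ (G : Type u) [Group G], LVP G → C G)
    {K : Type u} [Field K] {Γ₀ : Type w} [LinearOrderedCommGroupWithZero Γ₀]
    {v : Valuation K Γ₀} {a b : K} (h : RK.Ram v a b) :
    Clx C N (ℍ[K,a,b])ˣ inferInstance :=
  clx_ramc hCi (fun G _ hG => hC G (lvp_of_comm hG)) h

end Pool.Agent.NegK.NT.NL
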