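import Pool.Agent.Lib.MP_28303a_al.NT.NL.ExRam
import Pool.Agent.Lib.MP_28303a_al.NT.NL.GnDefs
import Pool.Agent.Lib.MP_28303a_al.NT.NL.Axz

/-! # Local trees: units of ramified quaternion algebras, for the poly-`ℤ` version -/

set_option autoImplicit false
set_option linter.unusedSectionVars false
set_option linter.unusedVariables false

namespace Pool.Agent.NegK.NT.NL

universe u w

open Pool.Agent.NegK.TW Pool.Agent.NegK.TT Pool.Agent.NegK.NT.ER Pool.Agent.NegK.NT.ER61
open scoped Quaternion

/-- Finitely generated torsionfree commutative groups are poly-`ℤ`. -/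
theorem pz_comm {G : Type u} [CommGroup G] [hG : Group.FG G] (h : ∀ (g : G) (n : ℕ), 0 < n →
    g ^ n = 1 → g = 1) : ∃ n, PL.PZ n G := by
  obtain ⟨k, θ, hθ⟩ := AP.exists_zn' G
  refine ⟨0 + k, PL.PZ.ext k 0 θ ?_⟩
  show Subsingleton θ.ker
  refine ⟨fun x y => ?_⟩
  have key : ∀ z : θ.ker, z = 1 := fun z => by
    obtain ⟨m, hm, h1⟩ := hθ z.1 z.2
    exact Subtype.ext (h z.1 m hm h1)
  rw [key x, key y]

/-- Commutative groups. -/
theorem cz_of_comm (G : Type u) [Group G] (h : ∀ x y : G, x * y = y * x) : CZ G := by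
  let iG : CommGroup G := { (inferInstance : Group G) with mul_comm := h }
  refine ⟨G ⧸ CommGroup.torsion G, inferInstance, QuotientGroup.mk' _, fun S hS => ?_,
    fun g hg => ?_⟩
  · have hfg : Group.FG S := (Group.fg_iff_subgroup_fg S).2 hS
    refine pz_comm (G := S) fun g n hn hg => Subtype.ext ?_
    have h1 : (g.1) ^ n = 1 := congrArg Subtype.val hg
    exact (pow_eq_one_iff_left hn.ne').1 h1
  · exact (QuotientGroup.eq_one_iff g).1 hg

/-- The units of a quaternion algebra which is ramified at a place of residue characteristic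
zero. -/
theorem clx_ramZ {K : Type u} [Field K] {Γ₀ : Type w} [LinearOrderedCommGroupWithZero Γ₀]
    {v : Valuation K Γ₀} {a b : K} (h : RK.Ram v a b) :
    Clx.{u} (fun G _ => CZ G) (fun G _ => ∀ g : G, IsOfFinOrder g) (ℍ[K,a,b])ˣ inferInstance :=
  clx_ramc axz.C_inj (fun G _ hG => cz_of_comm G hG) h

end Pool.Agent.NegK.NT.NL
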