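import Pool.Agent.Lib.MP_28303a_al.NT.NL.ExPrimG
import Mathlib.RingTheory.Polynomial.UniqueFactorization

/-! # Groups of matrices of degree two over the rings of rational functions with primitive
denominators -/

set_option autoImplicit false
set_option linter.unusedSectionVars false
set_option linter.unusedVariables false

namespace Pool.Agent.NegK.NT.NL.EPG

universe u v

open Matrix
open scoped MatrixGroups
open Pool.Agent.NegK.TW Pool.Agent.NegK.TT Pool.Agent.NegK.NT

/-- The polynomial is not divisible by a prime number. -/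
def Primitive {σ : Type v} (g : MvPolynomial σ ℤ) : Prop :=
  ∀ p : ℕ, p.Prime → ¬ MvPolynomial.C (p : ℤ) ∣ g

theorem prime_C {σ : Type v} {p : ℕ} (hp : p.Prime) :
    Prime (MvPolynomial.C (p : ℤ) : MvPolynomial σ ℤ) :=
  (MvPolynomial.prime_C_iff σ).2 (Nat.prime_iff_prime_int.1 hp)

theorem Primitive.mul {σ : Type v} {g h : MvPolynomial σ ℤ} (hg : Primitive g)
    (hh : Primitive h) : Primitive (g * h) := fun p hp hd => by
  rcases (prime_C hp).dvd_mul.1 hd with h1 | h1
  · exact hg p hp h1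
  · exact hh p hp h1

theorem Primitive.one {σ : Type v} : Primitive (1 : MvPolynomial σ ℤ) := fun p hp hd =>
  (prime_C hp).not_isUnit (isUnit_of_dvd_one hd)

theorem Primitive.ne_zero {σ : Type v} {g : MvPolynomial σ ℤ} (hg : Primitive g) : g ≠ 0 := by
  rintro rfl
  exact hg 2 Nat.prime_two (dvd_zero _)

/-- Algebraic elements of the field are rational numbers. -/
theorem rat_of_alg {K : Type u} [Field K] (hK : H70.Rig K) {x : K} (hx : IsAlgebraic ℤ x) :
    ∃ m n : ℤ, n ≠ 0 ∧ IsCoprime m n ∧ (n : K) * x = m := by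
  have := hK.char
  obtain ⟨y, hy, h1⟩ := hx.exists_integral_multiple
  obtain ⟨m, hm⟩ := hK.int _ h1
  have hm' : (y : K) * x = m := by
    rw [← hm, zsmul_eq_mul]
  obtain ⟨d, m', n', hd, hcop, rfl, rfl⟩ : ∃ d m' n' : ℤ, d ≠ 0 ∧ IsCoprime m' n' ∧ m = d * m' ∧
      y = d * n' := by
    refine ⟨gcd m y, m / gcd m y, y / gcd m y, ?_, ?_, ?_, ?_⟩
    · intro h0
      exact hy ((gcd_eq_zero_iff _ _).1 h0).2
    · exact isCoprime_div_gcd_div_gcd hy
    · exact (Int.mul_ediv_cancel' (gcd_dvd_left _ _)).symm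
    · exact (Int.mul_ediv_cancel' (gcd_dvd_right _ _)).symm
  refine ⟨m', n', right_ne_zero_of_mul hy, hcop, ?_⟩
  have hd' : (d : K) ≠ 0 := Int.cast_ne_zero.2 hd
  push_cast at hm'
  apply mul_left_cancel₀ hd'
  linear_combination hm'

section

variable (σ : Type v) (K : Type u) [Field K] [Algebra (MvPolynomial σ ℤ) K]

/-- The ring of the quotients `f / g` of polynomials such that `g` is primitive. -/
def primRing : Subring K where
  carrier := {x | ∃ f g : MvPolynomial σ ℤ, Primitive g ∧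
    x * algebraMap (MvPolynomial σ ℤ) K g = algebraMap (MvPolynomial σ ℤ) K f}
  zero_mem' := ⟨0, 1, Primitive.one, by rw [zero_mul, map_zero]⟩
  one_mem' := ⟨1, 1, Primitive.one, by rw [one_mul]⟩
  neg_mem' := fun {x} ⟨f, g, hg, h⟩ => ⟨-f, g, hg, by rw [neg_mul, h, map_neg]⟩
  add_mem' := fun {x y} ⟨f, g, hg, h⟩ ⟨f', g', hg', h'⟩ => ⟨f * g' + f' * g, g * g', hg.mul hg', by
    rw [map_mul, map_add, map_mul, map_mul, ← h, ← h']
    ring⟩
  mul_mem' := fun {x y} ⟨f, g, hg, h⟩ ⟨f', g', hg', h'⟩ => ⟨f * f', g * g', hg.mul hg', by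
    rw [map_mul, map_mul, ← h, ← h']
    ring⟩

variable [IsFractionRing (MvPolynomial σ ℤ) K]

theorem am_inj : Function.Injective (algebraMap (MvPolynomial σ ℤ) K) :=
  IsFractionRing.injective _ _

theorem am_int (z : ℤ) : algebraMap (MvPolynomial σ ℤ) K (MvPolynomial.C z) = z := by
  have h1 : (MvPolynomial.C z : MvPolynomial σ ℤ) = (z : MvPolynomial σ ℤ) := eq_intCast _ z
  rw [h1, map_intCast]

theorem prim_alg (x : K) (hx : x ∈ primRing σ K) (h : IsAlgebraic ℤ x) : IsIntegral ℤ x := by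
  classical
  have hK := H70.rig_ratFunc σ K
  have := hK.char
  obtain ⟨m, n, hn, hcop, h1⟩ := rat_of_alg hK h
  obtain ⟨f, g, hg, h2⟩ := hx
  have h3 : MvPolynomial.C m * g = MvPolynomial.C n * f := by
    apply am_inj σ K
    rw [map_mul, map_mul, am_int, am_int, ← h2, ← h1]
    ring
  have h4 : IsUnit n := by
    by_contra h5
    have h6 : n.natAbs ≠ 1 := fun h => h5 (Int.isUnit_iff_natAbs_eq.2 h)
    obtain ⟨p, hp, hpn⟩ := Nat.exists_prime_and_dvd h6
    have hpn' : (p : ℤ) ∣ n := Int.natCast_dvd.2 hpn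
    have h7 : MvPolynomial.C (p : ℤ) ∣ MvPolynomial.C m * g := by
      rw [h3]
      exact (map_dvd MvPolynomial.C hpn').mul_right f
    rcases (prime_C hp).dvd_mul.1 h7 with h8 | h8
    · rw [MvPolynomial.C_dvd_iff_dvd_coeff] at h8
      have h9 := h8 0
      rw [MvPolynomial.coeff_C, if_pos rfl] at h9
      have h10 := hcop.isUnit_of_dvd' h9 hpn'
      exact (Nat.prime_iff_prime_int.1 hp).not_isUnit h10
    · exact hg p hp h8
  rcases Int.isUnit_iff.1 h4 with h5 | h5
  · rw [h5, Int.cast_one, one_mul] at h1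
    rw [h1]
    exact isIntegral_algebraMap (R := ℤ) (A := K) (x := m)
  · rw [h5, Int.cast_neg, Int.cast_one, neg_one_mul] at h1
    have h6 : x = ((-m : ℤ) : K) := by
      push_cast
      rw [← h1, neg_neg]
    rw [h6]
    exact isIntegral_algebraMap (R := ℤ) (A := K) (x := -m)

/-- Parity of the multiplicities. -/
theorem parity {R : Type*} [CommRing R] [IsDomain R] [WfDvdMonoid R] {p : R} (hp : Prime p)
    {a b u v : R} (hu : ¬ p ∣ u) (hv : ¬ p ∣ v) (ha : a ≠ 0) (hb : b ≠ 0)
    (h : u * a ^ 2 = p * v * b ^ 2) : False := by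
  obtain ⟨k, a', ha', rfl⟩ := WfDvdMonoid.max_power_factor ha hp.irreducible
  obtain ⟨l, b', hb', rfl⟩ := WfDvdMonoid.max_power_factor hb hp.irreducible
  have hp0 := hp.ne_zero
  have h1 : p ^ (2 * k) * (u * a' ^ 2) = p ^ (2 * l + 1) * (v * b' ^ 2) := by
    linear_combination h
  have h2 : ¬ p ∣ u * a' ^ 2 := fun h => by
    rcases hp.dvd_mul.1 h with h | h
    · exact hu h
    · exact ha' (hp.dvd_of_dvd_pow h)
  have h3 : ¬ p ∣ v * b' ^ 2 := fun h => by
    rcases hp.dvd_mul.1 h with h | h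
    · exact hv h
    · exact hb' (hp.dvd_of_dvd_pow h)
  rcases lt_trichotomy (2 * k) (2 * l + 1) with h4 | h4 | h4
  · obtain ⟨m, hm⟩ := Nat.exists_eq_add_of_lt h4
    have h6 : p ^ (2 * k) * (u * a' ^ 2) = p ^ (2 * k) * (p * (p ^ m * (v * b' ^ 2))) := by
      rw [h1, hm]
      ring
    exact h2 ⟨_, mul_left_cancel₀ (pow_ne_zero _ hp0) h6⟩
  · omega
  · obtain ⟨m, hm⟩ := Nat.exists_eq_add_of_lt h4
    have h6 : p ^ (2 * l + 1) * (v * b' ^ 2) =
        p ^ (2 * l + 1) * (p * (p ^ m * (u * a' ^ 2))) := by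
      rw [← h1, hm]
      ring
    exact h3 ⟨_, mul_left_cancel₀ (pow_ne_zero _ hp0) h6⟩

theorem prim_unit (a b : K) (ha : a ∈ primRing σ K) (hb : b ∈ primRing σ K) (hab : a * b = 1)
    (z : ℤ) (w : K) (h : a = z * w ^ 2) : ∃ m : ℤ, z = m ^ 2 ∨ z = -m ^ 2 := by
  classical
  have hK := H70.rig_ratFunc σ K
  have hc := hK.char
  have ha0 : a ≠ 0 := left_ne_zero_of_mul_eq_one hab
  obtain ⟨f, g, hg, h1⟩ := ha
  obtain ⟨f', g', hg', h2⟩ := hb
  -- `f` is primitive
  have hf : Primitive f := by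
    intro p hp hd
    have h3 : f * f' = g * g' := by
      apply am_inj σ K
      rw [map_mul, map_mul, ← h1, ← h2]
      linear_combination (algebraMap (MvPolynomial σ ℤ) K g * algebraMap (MvPolynomial σ ℤ) K g') * hab
    exact (hg.mul hg') p hp (h3 ▸ hd.mul_right f')
  obtain ⟨x, y, hy, hw⟩ := IsFractionRing.div_surjective (A := MvPolynomial σ ℤ) w
  have hy0 : y ≠ 0 := nonZeroDivisors.ne_zero hy
  have hyK : algebraMap (MvPolynomial σ ℤ) K y ≠ 0 := fun h0 =>
    hy0 (am_inj σ K (by rw [h0, map_zero]))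
  have hw0 : w ≠ 0 := by
    rintro rfl
    rw [zero_pow two_ne_zero, mul_zero] at h
    exact ha0 h
  have hx0 : x ≠ 0 := by
    rintro rfl
    rw [map_zero, zero_div] at hw
    exact hw0 hw.symm
  have hz0 : z ≠ 0 := by
    rintro rfl
    rw [Int.cast_zero, zero_mul] at h
    exact ha0 h
  -- the equation of polynomials
  have h3 : f * y ^ 2 = MvPolynomial.C z * x ^ 2 * g := by
    apply am_inj σ K
    rw [map_mul, map_mul, map_mul, map_pow, map_pow, am_int, ← h1, h, ← hw]
    field_simp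
  obtain ⟨s, t, hst, ht⟩ := Nat.sq_mul_squarefree z.natAbs
  have ht1 : s = 1 := by
    by_contra h4
    obtain ⟨p, hp, k, rfl⟩ := Nat.exists_prime_and_dvd h4
    have hpk : ¬ p ∣ k := by
      rintro ⟨l, rfl⟩
      have h5 : p * p ∣ p * (p * l) := ⟨l, by ring⟩
      exact hp.not_isUnit (ht p h5)
    have ht0' : t ≠ 0 := by
      rintro rfl
      rw [zero_pow two_ne_zero, zero_mul] at hst
      exact hz0 (Int.natAbs_eq_zero.1 hst.symm)
    obtain ⟨ε, hε, hz⟩ : ∃ ε : ℤ, (ε = 1 ∨ ε = -1) ∧ z = ε * (p * k * t ^ 2) := by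
      have h6 : ((t ^ 2 * (p * k) : ℕ) : ℤ) = z.natAbs := by rw [hst]
      rcases Int.natAbs_eq z with h5 | h5
      · refine ⟨1, Or.inl rfl, ?_⟩
        rw [h5, ← h6]
        push_cast
        ring
      · refine ⟨-1, Or.inr rfl, ?_⟩
        rw [h5, ← h6]
        push_cast
        ring
    have hv : ¬ MvPolynomial.C (p : ℤ) ∣ (MvPolynomial.C (ε * k) * g : MvPolynomial σ ℤ) := by
      intro h5
      rcases (prime_C hp).dvd_mul.1 h5 with h6 | h6
      · rw [MvPolynomial.C_dvd_iff_dvd_coeff] at h6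
        have h7 := h6 0
        rw [MvPolynomial.coeff_C, if_pos rfl] at h7
        have h8 : (p : ℤ) ∣ k := by
          rcases hε with rfl | rfl
          · rwa [one_mul] at h7
          · rwa [neg_one_mul, dvd_neg] at h7
        exact hpk (Int.natCast_dvd_natCast.1 h8)
      · exact hg p hp h6
    refine parity (prime_C (σ := σ) hp) (hf p hp) hv hy0
      (b := MvPolynomial.C (t : ℤ) * x) (mul_ne_zero ?_ hx0) ?_
    · intro h5
      have h6 : (t : ℤ) = 0 := MvPolynomial.C_injective σ ℤ (by rw [h5, map_zero])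
      exact ht0' (by exact_mod_cast h6)
    · rw [h3, hz]
      simp only [map_mul, map_pow]
      ring
  rw [ht1, mul_one] at hst
  refine ⟨t, ?_⟩
  have h6 : ((t ^ 2 : ℕ) : ℤ) = z.natAbs := by rw [hst]
  rcases Int.natAbs_eq z with h5 | h5
  · left
    rw [h5, ← h6]
    push_cast
    ring
  · right
    rw [h5, ← h6]
    push_cast
    ring

/-- Groups of matrices of degree two over the ring of the quotients `f / g` with primitive `g`. -/
theorem clx_rat {C N : GCls.{u}} (hC : ∀ (G : Type u) [Group G], LVP G → C G) {G : Type u}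
    [i₀ : Group G] (χ : G →* GL (Fin 2) (primRing σ K)) (hinj : Function.Injective χ) :
    Clx C N G i₀ := by
  refine clx_prim hC (H70.rig_ratFunc σ K) (primRing σ K) (prim_alg σ K) (prim_unit σ K)
    ((GeneralLinearGroup.map (primRing σ K).subtype).comp χ) (fun g i j => ?_) fun a b hab => ?_
  · exact ((χ g).1 i j).2
  · refine hinj (Units.ext (Matrix.ext fun i j => Subtype.ext ?_))
    have h1 := congrArg (fun x : GL (Fin 2) K => x.1 i j) hab
    exact h1

end

end Pool.Agent.NegK.NT.NL.EPG
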