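import Pool.Agent.Lib.MP_28303a_al.NT.NL.Gnx
import Pool.Agent.Lib.MP_28303a_al.NT5.C0

/-! # Local trees: generation for groups which act on trees some of which have small edges -/

set_option autoImplicit false
set_option linter.unusedSectionVars false
set_option linter.unusedVariables false

namespace Pool.Agent.NegK.NT.NL

universe u

open Pool.Agent.NegK.TW Pool.Agent.NegK.TT Pool.Agent.NegK.NT.ER Pool.Agent.NegK.NT.ER61

namespace X5

section

variable {G : Type u} [Group G] {Y : Trees G} {C N H : GCls.{u}} {D : HCls.{u}} (hA : Ax C D N)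
  (hEgs : EgsxStatement.{u}) (hMrk : MrkStatement.{u}) {I : Finset (Fin Y.m)}
  (he : ∀ j ∈ I, ∀ (v : ∀ i, Y.V i) (w : Y.V j), (Y.G j).Adj (v j) w →
    C (Y.st v ⊓ MulAction.stabilizer G w : Subgroup G))
  {Q : Type u} [Group Q] (hQ : T1x C D Q) (P : Type u) [Group P]

include hA hEgs hMrk he hQ in
/-- The induction for families of trees one of which is in `I`. -/
theorem claimI : ∀ (n : ℕ) (R B : Finset (Fin Y.m)), B ⊆ R → (R \ B).card = n →
    (∃ j ∈ B, j ∈ I) → ∀ (G2 : Type u) [Group G2] (κ : G2 →* G), Function.Injective κ →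
    (∀ j, j ∉ R → ∃ v : Y.V j, ∀ g : G2, κ g • v = v) →
    ∀ (l : ℕ) (W : Fin l → MTL (P × G2)), Inv Y C κ B W →
    EGx D (cms (MonoidHom.fst (P × G2) Q) W) := by
  classical
  intro n
  induction n with
  | zero =>
    intro R B hBR hn hBI G2 _ κ hκ hfix l W hW
    have hR : R = B := by
      refine Finset.Subset.antisymm ?_ hBR
      rw [← Finset.sdiff_eq_empty_iff_subset]
      exact Finset.card_eq_zero.1 hn
    subst hR
    obtain ⟨j, hj, hjI⟩ := hBI
    refine hQ (P × G2) l W fun U hU => ?_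
    obtain ⟨A, v, w, h1, h2, h3⟩ := hW U hU
    choose u hu using hfix
    let v' : ∀ i, Y.V i := fun i => if hi : i ∈ R then v i else u i hi
    have hv' : ∀ i, i ∈ R → v' i = v i := fun i hi => dif_pos hi
    have h4 := he j hjI v' (w j) (by
      rw [hv' j hj]
      exact h2 j hj)
    have h5 : ∀ x : MulAction.stabilizer (P × G2) (α := ∀ i, (W i).L.B) U,
        x.1.1 ∈ A ∧ κ x.1.2 ∈ (Y.st v' ⊓ MulAction.stabilizer G (w j) : Subgroup G) := by
      intro x
      obtain ⟨h6, h7⟩ := h3 x.1 fun i => congrFun x.2 i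
      refine ⟨h6, ?_, (h7 j hj).2⟩
      refine Subgroup.mem_iInf.2 fun i => ?_
      by_cases hi : i ∈ R
      · rw [hv' i hi]
        exact (h7 i hi).1
      · have e1 : v' i = u i hi := dif_neg hi
        rw [e1]
        exact hu i hi x.1.2
    refine hA.C_inj _ (A × (Y.st v' ⊓ MulAction.stabilizer G (w j) : Subgroup G))
      { toFun := fun x => (⟨x.1.1, (h5 x).1⟩, ⟨κ x.1.2, (h5 x).2⟩)
        map_one' := Prod.ext rfl (Subtype.ext (map_one κ))
        map_mul' := fun x y => Prod.ext rfl (Subtype.ext (map_mul κ _ _)) } ?_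
      (hA.C_prod _ _ h1 h4)
    intro x y hxy
    have e1 := congrArg (fun z => z.1.1) hxy
    have e2 := congrArg (fun z => z.2.1) hxy
    exact Subtype.ext (Prod.ext e1 (hκ e2))
  | succ n ih =>
    intro R B hBR hn hBI G2 _ κ hκ hfix l W hW
    obtain ⟨i, hi⟩ : (R \ B).Nonempty := by
      rw [← Finset.card_pos, hn]
      exact Nat.succ_pos n
    obtain ⟨hiR, hiB⟩ := Finset.mem_sdiff.1 hi
    have hB' : B ⊆ R.erase i := fun j hj => Finset.mem_erase.2 ⟨fun e => hiB (e ▸ hj), hBR hj⟩
    have hcard : (R.erase i \ B).card = n := by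
      rw [Finset.erase_sdiff_comm, Finset.card_erase_of_mem hi, hn]
      rfl
    by_cases hedge : ∃ v w, (Y.G i).Adj v w
    · obtain ⟨M0, hM1, hM2⟩ := hMrk G (Y.V i) (Y.G i) (Y.tree i) hedge
      let Z' : MTL (P × G2) := M0.cm (κ.comp (MonoidHom.snd P G2))
      refine hEgs C D N hA ((P × G2) × Q) l (cms (MonoidHom.fst (P × G2) Q) W)
        (Z'.cm (MonoidHom.fst (P × G2) Q)) ?_ fun c => ?_
      · have e : (Fin.cons (α := fun _ => MTL ((P × G2) × Q)) (Z'.cm (MonoidHom.fst (P × G2) Q))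
            (cms (MonoidHom.fst (P × G2) Q) W)) =
            cms (MonoidHom.fst (P × G2) Q) (Fin.cons (α := fun _ => MTL (P × G2)) Z' W) := by
          funext a
          refine Fin.cases rfl (fun _ => rfl) a
        rw [e]
        refine ih R (insert i B) (Finset.insert_subset hiR hBR) ?_ ?_ G2 κ hκ hfix (l + 1) _
          (hW.cons hiB M0 hM2)
        · rw [Finset.sdiff_insert, Finset.card_erase_of_mem hi, hn]
          rfl
        · obtain ⟨j, hj, hjI⟩ := hBI
          exact ⟨j, Finset.mem_insert_of_mem hj, hjI⟩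
      · let c' : M0.L.B := c
        let G3 : Subgroup G2 := (MulAction.stabilizer G (α := M0.L.B) c').comap κ
        let S : Subgroup ((P × G2) × Q) :=
          MulAction.stabilizer ((P × G2) × Q) (α := (Z'.cm (MonoidHom.fst (P × G2) Q)).L.B) c
        have hS : ∀ x : S, x.1.1.2 ∈ G3 := fun x => x.2
        let e : S →* (P × G3) × Q :=
          { toFun := fun x => ((x.1.1.1, ⟨x.1.1.2, hS x⟩), x.1.2)
            map_one' := rfl
            map_mul' := fun x y => rfl }
        have hinj : Function.Injective e := by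
          intro x y hxy
          have e1 := congrArg (fun z => z.1.1) hxy
          have e2 := congrArg (fun z => z.1.2.1) hxy
          have e3 := congrArg (fun z => z.2) hxy
          exact Subtype.ext (Prod.ext (Prod.ext e1 e2) e3)
        obtain ⟨v0, hv0⟩ := hM1 c'
        have key := ih (R.erase i) B hB' hcard hBI G3 (κ.comp G3.subtype)
          (hκ.comp G3.subtype_injective) (fun j hj => ?_) l
          (cms ((MonoidHom.id P).prodMap G3.subtype) W) (hW.res G3.subtype)
        · exact eg_inj hA e hinj _ key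
        · by_cases hji : j = i
          · subst hji
            exact ⟨v0, fun g => hv0 g.2⟩
          · obtain ⟨v, hv⟩ := hfix j fun h => hj (Finset.mem_erase.2 ⟨hji, h⟩)
            exact ⟨v, fun g => hv g.1⟩
    · refine ih (R.erase i) B hB' hcard hBI G2 κ hκ (fun j hj => ?_) l W hW
      by_cases hji : j = i
      · subst hji
        exact fixed_of_no_edge Y κ j hedge
      · exact hfix j fun h => hj (Finset.mem_erase.2 ⟨hji, h⟩)

end

/-- Generation for good homomorphisms to `T × Q` by the preimages of subgroups of `T`. -/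
def GE (D : HCls.{u}) (Q : Type u) [Group Q] (T : Type u) [Group T] (A : Subgroup T → Prop) :
    Prop :=
  ∀ (Γ : Type u) [Group Γ] (f : Γ →* T × Q), D Γ (T × Q) f → ∀ (k : Type u) [Ring k],
    RegularRing k → ⨆ H : {H : Subgroup T // A H}, img k (H.1.comap ((MonoidHom.fst T Q).comp f)) = ⊤

theorem GE.mono {D : HCls.{u}} {Q T : Type u} [Group Q] [Group T] {A A' : Subgroup T → Prop}
    (h : GE D Q T A) (hA : ∀ H, A H → A' H) : GE D Q T A' := by
  intro Γ _ f hf k _ hk
  rw [eq_top_iff, ← h Γ f hf k hk]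
  exact iSup_le fun H => le_iSup (fun H : {H : Subgroup T // A' H} =>
    img k (H.1.comap ((MonoidHom.fst T Q).comp f))) ⟨H.1, hA _ H.2⟩

section

variable {T : Type u} [Group T] {Y : Trees T} {C N : GCls.{u}} {D : HCls.{u}} (hA : Ax C D N)
  (hC1 : C PUnit.{u + 1})
  (hEgs : EgsxStatement.{u}) (hMrk : MrkStatement.{u}) {I : Finset (Fin Y.m)}
  (he : ∀ j ∈ I, ∀ (v : ∀ i, Y.V i) (w : Y.V j), (Y.G j).Adj (v j) w →
    C (Y.st v ⊓ MulAction.stabilizer T w : Subgroup T))
  {Q : Type u} [Group Q] (hQ : T1x C D Q)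

include hA hC1 hEgs hMrk he hQ in
/-- `K₀` is generated by the stabilizers of the labels of one tree. -/
theorem geo_one (i : Fin Y.m) (hi : i ∈ I) (hedge : ∃ v w, (Y.G i).Adj v w) (Γ : Type u)
    [Group Γ] (f : Γ →* T × Q) (hf : D Γ (T × Q) f) (k : Type u) [Ring k] (hk : RegularRing k) :
    ⨆ v : Y.V i, img k ((MulAction.stabilizer T v).comap ((MonoidHom.fst T Q).comp f)) = ⊤ := by
  classical
  obtain ⟨M0, hM1, hM2⟩ := hMrk T (Y.V i) (Y.G i) (Y.tree i) hedge
  let W0 : Fin 0 → MTL (PUnit.{u + 1} × T) := fun a => a.elim0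
  have hW0 : Inv Y C (MonoidHom.id T) ∅ W0 := by
    intro U _
    obtain ⟨v⟩ := exists_vert Y
    exact ⟨⊤, v, v, hA.C_inj _ PUnit (⊤ : Subgroup PUnit).subtype
      (Subgroup.subtype_injective _) hC1,
      fun j hj => absurd hj (Finset.notMem_empty j), fun x _ => ⟨Subgroup.mem_top _,
      fun j hj => absurd hj (Finset.notMem_empty j)⟩⟩
  let e : T × Q →* (PUnit.{u + 1} × T) × Q :=
    { toFun := fun x => ((1, x.1), x.2)
      map_one' := rfl
      map_mul' := fun x y => rfl }
  have hinj : Function.Injective e := fun x y hxy => by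
    have e1 := congrArg (fun z => z.1.2) hxy
    have e2 := congrArg (fun z => z.2) hxy
    exact Prod.ext e1 e2
  have h1 := claimI hA hEgs hMrk he hQ PUnit _ Finset.univ (insert i ∅)
    (Finset.subset_univ _) rfl ⟨i, Finset.mem_insert_self _ _, hi⟩ T (MonoidHom.id T)
    Function.injective_id (fun j hj => absurd (Finset.mem_univ j) hj) 1 _
    (hW0.cons (Finset.notMem_empty i) M0 hM2) Γ (e.comp f) (d_inj hA f e hinj hf)
  let L : TL Γ := (M0.cm ((MonoidHom.fst T Q).comp f)).L
  have h2 : Ex (fun _ : Fin 1 => L) := by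
    convert h1 using 1
    funext a
    have ha : a = 0 := Subsingleton.elim _ _
    subst ha
    rfl
  rw [eq_top_iff, ← gent Γ L h2 k hk]
  refine iSup_le fun x => ?_
  let x' : M0.L.B := x
  obtain ⟨v0, hv0⟩ := hM1 x'
  refine le_trans (img_mono fun g hg => ?_) (le_iSup (fun v : Y.V i =>
    img k ((MulAction.stabilizer T v).comap ((MonoidHom.fst T Q).comp f))) v0)
  exact hv0 hg

include hA hC1 hEgs hMrk he hQ in
theorem geo_aux : ∀ (n : ℕ) (S : Finset (Fin Y.m)), S ⊆ I → S.card = n →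
    ∀ (Γ : Type u) [Group Γ] (f : Γ →* T × Q), D Γ (T × Q) f → ∀ (k : Type u) [Ring k],
    RegularRing k → ∀ Γ0 : Subgroup Γ, (∀ j ∈ I, j ∉ S → ∃ v : Y.V j, ∀ g ∈ Γ0,
      (f g).1 • v = v) →
    img k Γ0 ≤ ⨆ H : {H : Subgroup T // ∃ v : ∀ i, Y.V i, H = ⨅ i ∈ I, MulAction.stabilizer T (v i)},
      img k (H.1.comap ((MonoidHom.fst T Q).comp f)) := by
  classical
  intro n
  induction n with
  | zero =>
    intro S hS hn Γ _ f hf k _ hk Γ0 hfix
    have h0 : S = ∅ := Finset.card_eq_zero.1 hn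
    subst h0
    obtain ⟨u⟩ := exists_vert Y
    have h1 : ∀ j, ∃ v : Y.V j, j ∈ I → ∀ g ∈ Γ0, (f g).1 • v = v := by
      intro j
      by_cases hj : j ∈ I
      · obtain ⟨v, hv⟩ := hfix j hj (Finset.notMem_empty j)
        exact ⟨v, fun _ => hv⟩
      · exact ⟨u j, fun h => absurd h hj⟩
    choose v hv using h1
    refine le_trans (img_mono fun g hg => ?_) (le_iSup (fun H : {H : Subgroup T //
      ∃ v : ∀ i, Y.V i, H = ⨅ i ∈ I, MulAction.stabilizer T (v i)} =>
      img k (H.1.comap ((MonoidHom.fst T Q).comp f))) ⟨_, v, rfl⟩)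
    exact Subgroup.mem_iInf.2 fun i => Subgroup.mem_iInf.2 fun hi => hv i hi g hg
  | succ n ih =>
    intro S hS hn Γ _ f hf k _ hk Γ0 hfix
    obtain ⟨i, hi⟩ : S.Nonempty := by
      rw [← Finset.card_pos, hn]
      exact Nat.succ_pos n
    have hcard : (S.erase i).card = n := by
      rw [Finset.card_erase_of_mem hi, hn]
      rfl
    have hS' : S.erase i ⊆ I := fun j hj => hS (Finset.mem_of_mem_erase hj)
    by_cases hedge : ∃ v w, (Y.G i).Adj v w
    · have h1 := geo_one hA hC1 hEgs hMrk he hQ i (hS hi) hedge Γ0 (f.comp Γ0.subtype)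
        (hA.sub Γ (T × Q) Γ0 (T × Q) f (f.comp Γ0.subtype) Γ0.subtype (MonoidHom.id _)
          Γ0.subtype_injective Function.injective_id (fun g => rfl) hf) k hk
      refine ER71.img_gen (fun v : Y.V i => (MulAction.stabilizer T v).comap
        ((MonoidHom.fst T Q).comp (f.comp Γ0.subtype))) k h1 _ fun v => ?_
      refine ih (S.erase i) hS' hcard Γ f hf k hk _ fun j hjI hj => ?_
      by_cases hji : j = i
      · subst hji
        refine ⟨v, ?_⟩
        rintro _ ⟨g, hg, rfl⟩
        exact hg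
      · obtain ⟨w, hw⟩ := hfix j hjI fun h => hj (Finset.mem_erase.2 ⟨hji, h⟩)
        refine ⟨w, ?_⟩
        rintro _ ⟨g, hg, rfl⟩
        exact hw g.1 g.2
    · refine ih (S.erase i) hS' hcard Γ f hf k hk Γ0 fun j hjI hj => ?_
      by_cases hji : j = i
      · subst hji
        obtain ⟨v, hv⟩ := fixed_of_no_edge Y (MonoidHom.id T) j hedge
        exact ⟨v, fun g _ => hv (f g).1⟩
      · exact hfix j hjI fun h => hj (Finset.mem_erase.2 ⟨hji, h⟩)

include hA hC1 hEgs hMrk he hQ in
/-- GEO. -/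
theorem geo : GE D Q T fun H => ∃ v : ∀ i, Y.V i, H = ⨅ i ∈ I, MulAction.stabilizer T (v i) := by
  intro Γ _ f hf k _ hk
  rw [eq_top_iff, ← ER71.img_top k Γ (H := (⊤ : Subgroup Γ)) rfl]
  exact geo_aux hA hC1 hEgs hMrk he hQ _ I subset_rfl rfl Γ f hf k hk ⊤
    fun j hj hj' => absurd hj hj'

end

section

open NT5
open H1 (TD)

variable {C N : GCls.{u}} {D : HCls.{u}} (hA : Ax C D N) (hC1 : C PUnit.{u + 1})
  (hEgs : EgsxStatement.{u}) (hMrk : MrkStatement.{u})

include hA hC1 hEgs hMrk in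
/-- Any finite index set. -/
theorem ge_fin {Q : Type u} [Group Q] (hQ : T1x C D Q) (T : Type u) [Group T] (ι : Type)
    [Finite ι] (F : ι → TD T) (J : ι → Prop)
    (hE : ∀ i, J i → ∀ (H : Subgroup T) (x y : (F i).V), (F i).G.Adj x y →
      (∀ g ∈ H, g • x = x ∧ g • y = y) → (∀ g ∈ H, ∀ a, (F a).Ell g) → C H) :
    GE D Q T fun H => ∀ i, J i → ∃ x : (F i).V, ∀ g ∈ H, g • x = x := by
  classical
  have := Fintype.ofFinite ι
  let e := Fintype.equivFin ι
  let Y : Trees T := ⟨Fintype.card ι, fun j => (F (e.symm j)).V, fun j => (F (e.symm j)).act,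
    fun j => (F (e.symm j)).G, fun j => (F (e.symm j)).tree⟩
  let I : Finset (Fin Y.m) := Finset.univ.filter fun j => J (e.symm j)
  have h1 : GE D Q T fun H => ∃ v : ∀ i, Y.V i, H = ⨅ i ∈ I, MulAction.stabilizer T (v i) :=
    geo hA hC1 hEgs hMrk (fun j hj v w hw => by
      refine hE (e.symm j) (Finset.mem_filter.1 hj).2 _ (v j) w hw (fun g hg => ?_)
        fun g hg a => ?_
      · exact ⟨(Subgroup.mem_iInf.1 hg.1) j, hg.2⟩
      · have h2 : (F (e.symm (e a))).Ell g := ⟨v (e a), (Subgroup.mem_iInf.1 hg.1) (e a)⟩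
        rwa [e.symm_apply_apply] at h2) hQ
  refine h1.mono ?_
  rintro _ ⟨v, rfl⟩ i hi
  have h2 : ∃ x : (F (e.symm (e i))).V, ∀ g ∈ (⨅ i ∈ I, MulAction.stabilizer T (v i) :
      Subgroup T), g • x = x := by
    refine ⟨v (e i), fun g hg => ?_⟩
    have h3 : e i ∈ I := Finset.mem_filter.2 ⟨Finset.mem_univ _, by
      rwa [e.symm_apply_apply]⟩
    exact (Subgroup.mem_iInf.1 (Subgroup.mem_iInf.1 hg (e i))) h3
  rwa [e.symm_apply_apply] at h2

include hA in
/-- Directed unions. -/
theorem ge_loc {Q : Type u} [Group Q] (T : Type u) [Group T] (A : Subgroup T → Prop)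
    (h : ∀ S : Finset T, GE D Q (Subgroup.closure (S : Set T)) fun H =>
      A (H.map (Subgroup.closure (S : Set T)).subtype)) : GE D Q T A := by
  classical
  intro Γ _ f hf k _ hk
  refine ER71.gen_loc k _ fun S => ?_
  let p : Γ →* T := (MonoidHom.fst T Q).comp f
  let H0 : Subgroup Γ := Subgroup.closure (S : Set Γ)
  let T0 : Subgroup T := Subgroup.closure ((S.image p : Finset T) : Set T)
  have hm : ∀ g : H0, p g.1 ∈ T0 := fun g => by
    have h1 : H0.map p = T0 := by
      rw [MonoidHom.map_closure, ← Finset.coe_image]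
    rw [← h1]
    exact ⟨g.1, g.2, rfl⟩
  let f' : H0 →* T0 × Q :=
    { toFun := fun g => (⟨p g.1, hm g⟩, (f g.1).2)
      map_one' := by
        refine Prod.ext (Subtype.ext (map_one p)) ?_
        exact congrArg (fun z => z.2) (map_one f)
      map_mul' := fun x y => by
        refine Prod.ext (Subtype.ext (map_mul p _ _)) ?_
        exact congrArg (fun z => z.2) (map_mul f x.1 y.1) }
  let j : T0 × Q →* T × Q := T0.subtype.prodMap (MonoidHom.id Q)
  have hj : Function.Injective j := fun x y hxy => by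
    have e1 := congrArg (fun z => z.1) hxy
    have e2 := congrArg (fun z => z.2) hxy
    exact Prod.ext (Subtype.ext e1) e2
  refine ⟨H0, fun s hs => Subgroup.subset_closure hs, ?_⟩
  have h2 := h (S.image p) H0 f' (hA.sub Γ _ H0 _ f f' H0.subtype j H0.subtype_injective hj
    (fun g => rfl) hf) k hk
  refine ER71.img_gen (fun H : {H : Subgroup T0 // A (H.map T0.subtype)} =>
    H.1.comap ((MonoidHom.fst T0 Q).comp f')) k h2 _ fun H => ?_
  refine le_trans (img_mono ?_) (le_iSup (fun H : {H : Subgroup T // A H} =>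
    img k (H.1.comap ((MonoidHom.fst T Q).comp f))) ⟨_, H.2⟩)
  rintro _ ⟨g, hg, rfl⟩
  exact ⟨_, hg, rfl⟩

end

end X5

end Pool.Agent.NegK.NT.NL
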