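import Pool.Agent.Lib.MP_28303a_al.NT.NL.GeoF
import Pool.Agent.Lib.MP_28303a_al.NT.NL.AxV
import Pool.Agent.Lib.MP_28303a_al.RK.RkatW

/-! # Local trees: generation for products with groups of semisimple rank one -/

set_option autoImplicit false
set_option linter.unusedSectionVars false
set_option linter.unusedVariables false

namespace Pool.Agent.NegK.NT.NL

universe u

namespace X5

open Matrix WithZero
open scoped MatrixGroups commutatorElement
open Pool.Agent.NegK.TW
open Pool.Agent.NegK.TT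
open Pool.Agent.NegK.NT
open Pool.Agent.NegK.NT5
open Pool.Agent.NegK.P2
open Pool.Agent.NegK.RK


section

variable {C N : GCls.{u}} {D : HCls.{u}} (hA : Ax C D N) (hC1 : C PUnit.{u + 1})
  (hEgs : EgsxStatement.{u}) (hMrk : MrkStatement.{u}) {Q : Type u} [Group Q] (hQ : T1x C D Q)

include hA hC1 hEgs hMrk hQ

/-- Finitely generated groups over finitely generated fields. -/
theorem fgxQ (L : Type u) [Field L] [CharZero L] (E : Set L)
    (hfin : E.Finite)
    (hL : ∀ x : L, ∃ a b : L, a ∈ Subring.closure E ∧ b ∈ Subring.closure E ∧ x = a / b)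
    (m : ℕ) (v : Fin m → Valuation L (WithZero (Multiplicative ℤ)))
    (hv : ∀ a ∈ Subring.closure E, (∀ i, v i a ≤ 1) → IsIntegral ℤ a)
    (Γ Δ : Type u) [Group Γ] [Group Δ] [Group.FG Δ] (p : Δ →* Γ) (hp : Function.Surjective p)
    (hpf : Finite p.ker) (ψ : Δ →* GL (Fin 2) L)
    (hd : ∀ g, (ψ g).1.det = 1)
    (hB : ∀ g i j, (ψ g).1 i j ∈ Subring.closure E) {κ : Type} [Finite κ]
    (χ : κ → Δ →* GL (Fin 2) L) (hχ : ∀ a g i j, (χ a g).1 i j ∈ Subring.closure E)
    (hE : ∀ E0 : Subgroup Γ, (∀ g, p g ∈ E0 → IsIntegral ℤ (ψ g).1.trace) →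
      (∀ (Gt : Type u) [Group Gt] (r : Gt →* Δ), (∀ x, p (r x) ∈ E0) →
        ∀ c ∈ commutator Gt, (ψ (r c)).1.trace = 2) →
      (∀ a g, p g ∈ E0 → IsIntegral ℤ (χ a g).1.det) → C E0) :
    GE D Q Γ fun H => ∀ g, p g ∈ H → IsAlgebraic ℤ (ψ g).1.trace := by
  obtain ⟨M, w, hw, hgeo⟩ := exists_geo L E hfin hL
  choose T1 hT1 using fun a => H1.exists_TD_gl L (v a)
  choose T4 hT4 hT4' using fun a => exists_TD_glE L (w a)
  choose T5 hT5 using fun a : κ × Fin m => H1.exists_TD_line _ ((vdet (v a.2)).comp (χ a.1))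
  choose D1 i1 hi1 he1 ha1 using fun a => exists_desc p hp hpf ((T1 a).comp ψ)
  choose D4 i4 hi4 he4 ha4 using fun a => exists_desc p hp hpf ((T4 a).comp ψ)
  choose D5 i5 hi5 he5 ha5 using fun a => exists_desc p hp hpf (T5 a)
  have htr : ∀ g, Matrix.trace (ψ g).1 ∈ Subring.closure E := by
    intro g
    rw [Matrix.trace_fin_two]
    exact Subring.add_mem _ (hB g 0 0) (hB g 1 1)
  have hdet : ∀ a g, Matrix.det (χ a g).1 ∈ Subring.closure E := by
    intro a g
    rw [Matrix.det_fin_two]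
    exact Subring.sub_mem _ (Subring.mul_mem _ (hχ a g 0 0) (hχ a g 1 1))
      (Subring.mul_mem _ (hχ a g 0 1) (hχ a g 1 0))
  have main := ge_fin hA hC1 hEgs hMrk hQ Γ ((Fin m ⊕ Fin M) ⊕ κ × Fin m)
    (Sum.elim (Sum.elim D1 D4) D5)
    (fun i => ∃ a, i = Sum.inl (Sum.inr a)) ?_
  · refine main.mono fun H hH g hg => ?_
    · refine hgeo _ (htr g) fun a => ?_
      obtain ⟨x, hx⟩ := hH (Sum.inl (Sum.inr a)) ⟨a, rfl⟩
      have h1 : (T4 a).Ell (ψ g) :=
        ⟨i4 a x, (he4 a g x).symm.trans (congrArg (i4 a) (hx (p g) hg))⟩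
      have h2 := hT4 a (ψ g) h1
      rw [hd g, map_one] at h2
      exact (pow_le_one_iff two_ne_zero).1 h2
  · rintro _ ⟨a, rfl⟩ H x y hxy hfix hell
    have htv : ∀ g, p g ∈ H → ∀ b, v b (Matrix.trace (ψ g).1) ≤ 1 := by
      intro g hg b
      obtain ⟨x, hx⟩ := hell (p g) hg (Sum.inl (Sum.inl b))
      have h1 : (T1 b).Ell (ψ g) := ⟨i1 b x, (he1 b g x).symm.trans (congrArg (i1 b) hx)⟩
      refine hT1 b (ψ g) h1 ?_
      rw [hd g, map_one]
    have hdv : ∀ g, p g ∈ H → ∀ (c : κ) b, v b (Matrix.det (χ c g).1) = 1 := by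
      intro g hg c b
      obtain ⟨x, hx⟩ := hell (p g) hg (Sum.inr (c, b))
      have h1 : (T5 (c, b)).Ell g :=
        ⟨i5 (c, b) x, (he5 (c, b) g x).symm.trans (congrArg (i5 (c, b)) hx)⟩
      exact vdet_eq_one (v b) (hT5 (c, b) g h1)
    have hti : ∀ g, p g ∈ H → IsIntegral ℤ (Matrix.trace (ψ g).1) := fun g hg =>
      hv _ (htr g) fun b => htv g hg b
    refine hE H hti (fun Gt _ r hr c hc => ?_)
      fun c g hg => hv _ (hdet c g) fun b => (hdv g hg c b).le
    have h1 := hT4' a (i4 a x) (i4 a y) (ha4 a x y hxy) Gt (ψ.comp r) (fun s => ⟨?_, ?_, ?_⟩) c hc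
    · by_contra h2
      have h3 := hw a _ ((hti (r c) (hr c)).sub (by
        exact (isIntegral_algebraMap (R := ℤ) (A := L) (x := (2 : ℤ))))) (sub_ne_zero.2 (by
          simpa using h2))
      have h4 : w a (Matrix.trace (ψ (r c)).1 - 2) < 1 := h1
      have h5 : (algebraMap ℤ L) 2 = 2 := by simp
      rw [h5] at h3
      rw [h3] at h4
      exact lt_irrefl _ h4
    · exact (he4 a (r s) x).symm.trans (congrArg (i4 a) (hfix (p (r s)) (hr s)).1)
    · exact (he4 a (r s) y).symm.trans (congrArg (i4 a) (hfix (p (r s)) (hr s)).2)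
    · show w a (ψ (r s)).1.det = 1
      rw [hd, map_one]

/-- Reduction to subgroups with algebraic traces. -/
theorem algxQ (K : Type u) [Field K] [CharZero K]
    (Γ Δ : Type u) [Group Γ] [Group Δ] (p : Δ →* Γ) (hp : Function.Surjective p)
    (hpf : Finite p.ker) (ψ : Δ →* GL (Fin 2) K)
    (hd : ∀ g, (ψ g).1.det = 1) {κ : Type} [Finite κ] (χ : κ → Δ →* GL (Fin 2) K)
    (hE : ∀ (G : Type u) [Group G] (f : G →* Γ), Function.Injective f →
      (∀ x g, p g = f x → IsIntegral ℤ (ψ g).1.trace) →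
      (∀ (Gt : Type u) [Group Gt] (r : Gt →* Δ), (∀ x, ∃ y, p (r x) = f y) →
        ∀ c ∈ commutator Gt, (ψ (r c)).1.trace = 2) →
      (∀ a x g, p g = f x → IsIntegral ℤ (χ a g).1.det) → C G) :
    GE D Q Γ fun H => ∀ g, p g ∈ H → IsAlgebraic ℤ (ψ g).1.trace := by
  classical
  have := Fintype.ofFinite κ
  refine ge_loc hA Γ (fun H => ∀ g, p g ∈ H → IsAlgebraic ℤ (ψ g).1.trace) fun S => ?_
  let H := Subgroup.closure (S : Set Γ)
  have hfgH : (H.comap p).FG := comap_fg p hp hpf H ⟨S, rfl⟩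
  have hfg : Group.FG (H.comap p) := (Group.fg_iff_subgroup_fg _).2 hfgH
  obtain ⟨S1, hS1⟩ := hfgH
  -- all representations together
  let ψ' : Option κ → Δ →* GL (Fin 2) K := fun a => a.elim ψ χ
  choose E0 hE0 using fun a => entries (ψ' a) S1
  let E : Finset K := Finset.univ.biUnion E0
  have hent : ∀ a (g : H.comap p) i j, (ψ' a g.1).1 i j ∈ Subring.closure (E : Set K) := by
    intro a g i j
    have hg : g.1 ∈ Subgroup.closure (S1 : Set Δ) := by
      rw [hS1]
      exact g.2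
    refine Subring.closure_mono ?_ (hE0 a g.1 hg i j)
    intro x hx
    exact Finset.mem_coe.2 (Finset.mem_biUnion.2 ⟨a, Finset.mem_univ a, hx⟩)
  obtain ⟨L, _, _, ι, F, m, v, ψ0, hFf, hFL, hFv, hFB, hψ0⟩ :=
    exists_fields (fun a => (ψ' a).comp (H.comap p).subtype) E hent
  have hmap : ∀ a (g : H.comap p) i j, ι ((ψ0 a g).1 i j) = (ψ' a g.1).1 i j := fun a g i j => by
    have h1 : GeneralLinearGroup.map ι (ψ0 a g) = ψ' a g.1 := hψ0 a g
    rw [← h1]
    rfl
  have htr : ∀ a (g : H.comap p), ι (ψ0 a g).1.trace = (ψ' a g.1).1.trace := fun a g => by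
    rw [Matrix.trace_fin_two, Matrix.trace_fin_two, map_add, hmap, hmap]
  have hdt : ∀ a (g : H.comap p), ι (ψ0 a g).1.det = (ψ' a g.1).1.det := fun a g => by
    rw [Matrix.det_fin_two, Matrix.det_fin_two, map_sub, map_mul, map_mul, hmap, hmap, hmap, hmap]
  have hk1 : Finite (p.subgroupComap H).ker := by
    refine Finite.of_injective (β := p.ker) (fun g => ⟨g.1.1, congrArg Subtype.val g.2⟩) ?_
    intro a b hab
    have h1 : a.1.1 = b.1.1 := congrArg (fun x : p.ker => (x : Δ)) hab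
    exact Subtype.ext (Subtype.ext h1)
  have main := fgxQ hA hC1 hEgs hMrk hQ L F hFf hFL m v hFv H (H.comap p) (p.subgroupComap H)
    (MonoidHom.subgroupComap_surjective_of_surjective p H hp) hk1
    (ψ0 none) (fun g => ?_) (hFB none) (fun a => ψ0 (some a))
    (fun a => hFB (some a)) (fun G h2 h3 h4 => ?_)
  · refine main.mono fun V hV => ?_
    · rintro g ⟨x, hx, hxg⟩
      have hm : p g ∈ H := by
        rw [← hxg]
        exact x.2
      have h1 := hV ⟨g, hm⟩ (by
        have h2 : (p.subgroupComap H) ⟨g, hm⟩ = x := Subtype.ext hxg.symm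
        rw [h2]
        exact hx)
      have h2 := isAlg_map ι h1
      rw [htr] at h2
      exact h2
  · apply ι.injective
    rw [hdt, map_one]
    exact hd g.1
  · -- the edges
    have hmem : ∀ (x : G) (g : Δ), p g = (x.1 : Γ) → ∃ hg : p g ∈ H,
        (p.subgroupComap H) ⟨g, hg⟩ ∈ G := by
      intro x g hg
      have h5 : p g ∈ H := by
        rw [hg]
        exact x.1.2
      refine ⟨h5, ?_⟩
      have h6 : (p.subgroupComap H) ⟨g, h5⟩ = x.1 := Subtype.ext hg
      rw [h6]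
      exact x.2
    refine hE G (H.subtype.comp G.subtype) (Subtype.val_injective.comp Subtype.val_injective)
      (fun x g hg => ?_) (fun Gt _ r hr c hc => ?_) fun a x g hg => ?_
    · obtain ⟨h5, h6⟩ := hmem x g hg
      have h7 := map_isIntegral_int ι (h2 ⟨g, h5⟩ h6)
      rw [htr] at h7
      exact h7
    · have hr1 : ∀ x, r x ∈ H.comap p := by
        intro x
        obtain ⟨y, hy⟩ := hr x
        exact (hmem y (r x) hy).1
      have h7 := h3 Gt (r.codRestrict (H.comap p) hr1) (fun x => by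
        obtain ⟨y, hy⟩ := hr x
        exact (hmem y (r x) hy).2) c hc
      have h8 := congrArg ι h7
      rw [htr, map_ofNat] at h8
      exact h8
    · obtain ⟨h5, h6⟩ := hmem x g hg
      have h7 := map_isIntegral_int ι (h4 a ⟨g, h5⟩ h6)
      rw [hdt] at h7
      exact h7

/-- The generation for one homomorphism to `PGL₂` and finitely many characters. -/
theorem gpxQ (K : Type u)
    [Field K] [CharZero K] (Γ : Type u) [Group Γ]
    (γ : Γ →* PGL(Fin 2, K)) {κ : Type} [Finite κ] (χ : κ → Γ →* Kˣ)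
    (hE : ∀ (G : Type u) [Group G] (f : G →* Γ), Function.Injective f →
      (∀ (g : G) (B : GL (Fin 2) K), ProjGenLinGroup.mk B = γ (f g) →
        IsIntegral ℤ (B.1.trace ^ 2 / B.1.det)) →
      (∀ (Gt : Type u) [Group Gt] (q : Gt →* G) (B : Gt →* GL (Fin 2) K),
        (∀ x, ProjGenLinGroup.mk (B x) = γ (f (q x))) →
        ∀ c ∈ commutator Gt, (B c).1.trace = 2) →
      (∀ j g, IsIntegral ℤ ((χ j (f g) : Kˣ) : K)) → C G) :
    GE D Q Γ fun H => AlgP γ H := by
  classical
  let L := AlgebraicClosure K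
  let i : K →+* L := algebraMap K L
  have hcz : CharZero L := charZero_of_injective_algebraMap i.injective
  let γ' : Γ →* PGL(Fin 2, L) := (ProjGenLinGroup.map i).comp γ
  obtain ⟨Δ, _, p, q, z, hp, hdet, hq, hz, hz', hker', hfin, hfgΔ⟩ := P2.exists_lift γ'
  -- the characters
  let dg : Kˣ →* GL (Fin 2) L := MonoidHom.toHomUnits
    { toFun := fun x => Matrix.diagonal ![i x, 1]
      map_one' := by
        ext a b
        fin_cases a <;> fin_cases b <;> simp
      map_mul' := fun x y => by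
        ext a b
        fin_cases a <;> fin_cases b <;> simp }
  have hdg : ∀ x, (dg x).1.det = i x := fun x => by
    show (Matrix.diagonal ![i x, 1]).det = _
    rw [Matrix.det_fin_two]
    simp
  -- lifts of elements
  have htr2 : ∀ (g : Γ) (δ : Δ) (B : GL (Fin 2) K), p δ = g → ProjGenLinGroup.mk B = γ g →
      i (B.1.trace ^ 2 / B.1.det) = (q δ).1.trace ^ 2 := fun g δ B hδ hB =>
    tr_sq i B (q δ) (hdet δ) (by
      rw [hq, ← ProjGenLinGroup.map_mk, hB, hδ]
      rfl)
  have main := algxQ hA hC1 hEgs hMrk hQ L Γ Δ p hp hfin q hdet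
    (fun j => dg.comp ((χ j).comp p)) (fun G _ f hf h2 h3 h4 => ?_)
  · refine main.mono fun H hH g hg B hB => ?_
    obtain ⟨δ, hδ⟩ := hp g
    have h5 := (hH δ (by
      rw [hδ]
      exact hg)).pow 2
    rw [← htr2 g δ B hδ hB] at h5
    exact (alg_iff i _).1 h5
  · -- the edges
    refine hE G f hf (fun g B hB => ?_) (fun Gt _ r B hB c hc => ?_) fun j g => ?_
    · obtain ⟨δ, hδ⟩ := hp (f g)
      have h5 := (h2 g δ hδ).pow 2
      rw [← htr2 (f g) δ B hδ hB] at h5
      exact (isIntegral_algHom_iff (i.toIntAlgHom) i.injective).1 h5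
    · obtain ⟨d, hd, hBd⟩ := comm_eq γ' ((GeneralLinearGroup.map i).comp B) (f.comp r)
        (fun x => by
          show ProjGenLinGroup.mk (GeneralLinearGroup.map i (B x)) = γ' (f (r x))
          rw [← ProjGenLinGroup.map_mk, hB]
          rfl) p hp q hq c hc
      have h5 := h3 ((f.comp r).range.comap p) (Subgroup.subtype _) (fun x => by
        obtain ⟨y, hy⟩ := x.2
        exact ⟨r y, hy.symm⟩)
      obtain ⟨d', hd', rfl⟩ : ∃ d' ∈ commutator ((f.comp r).range.comap p),
          (Subgroup.subtype _) d' = d := by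
        have h6 : (commutator ((f.comp r).range.comap p)).map (Subgroup.subtype _) =
            ⁅(f.comp r).range.comap p, (f.comp r).range.comap p⁆ := by
          rw [commutator_def, Subgroup.map_commutator, ← MonoidHom.range_eq_map,
            Subgroup.range_subtype]
        rw [← h6] at hd
        exact hd
      have h7 := h5 d' hd'
      apply i.injective
      rw [map_ofNat, ← h7, ← hBd, Matrix.trace_fin_two, Matrix.trace_fin_two, map_add]
      rfl
    · obtain ⟨δ, hδ⟩ := hp (f g)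
      have h5 := h4 j g δ hδ
      have h6 : ((dg.comp ((χ j).comp p)) δ).1.det = i ((χ j (f g) : Kˣ) : K) := by
        rw [← hδ]
        exact hdg _
      rw [h6] at h5
      exact (isIntegral_algHom_iff (i.toIntAlgHom) i.injective).1 h5


end

/-- The groups of the edges of the geometric trees. -/
theorem edge_cv {K : Type u} [Field K] [CharZero K] [IsAlgClosed K] {r : ℕ} {d : Fin r → ℕ}
    {T : Type u} [Group T] (τ : T →* GL (TI d) K) (γ : T →* PGL(Fin 2, K)) (hR : RankT d τ γ)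
    (hinj : ∀ t, τ t = 1 → γ t = 1 → t = 1) :
    ∃ χ : Fin r → T →* Kˣ, ∀ (G : Type u) [Group G] (f : G →* T), Function.Injective f →
      (∀ g (B : GL (Fin 2) K), ProjGenLinGroup.mk B = γ (f g) →
        IsIntegral ℤ (B.1.trace ^ 2 / B.1.det)) →
      (∀ (Gt : Type u) [Group Gt] (q : Gt →* G) (B : Gt →* GL (Fin 2) K),
        (∀ x, ProjGenLinGroup.mk (B x) = γ (f (q x))) → ∀ c ∈ commutator Gt,
          (B c).1.trace = 2) →
      (∀ j g, IsIntegral ℤ ((χ j (f g) : Kˣ) : K)) → CV G := by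
  obtain ⟨χ, hχ⟩ := exists_charsT τ hR.tri
  refine ⟨χ, fun G _ f hf h2 h3 h4 S hS => ?_⟩
  obtain ⟨H, -, hfi, m, hm⟩ := rkq_pz (d := d) S PUnit.{u + 1} ((Group.fg_iff_subgroup_fg S).2 hS)
    1 (τ.comp (f.comp S.subtype)) (γ.comp (f.comp S.subtype))
    ⟨fun g => hR.tri _, fun g k => hR.lift _ k⟩
    (fun g _ h5 h6 => by
      have h7 : f g.1 = 1 := hinj _ h5 h6
      exact Subtype.ext (hf (h7.trans (map_one f).symm)))
    (fun g B h5 => h2 g.1 B h5)
    (fun Gt _ q B h5 c hcc => h3 Gt (S.subtype.comp q) B h5 c hcc)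
    (fun g k => by
      have h5 := h4 k g.1
      rw [hχ] at h5
      exact h5)
  exact ⟨S, inferInstance, m, MonoidHom.id S, ⟨H, hfi, hm⟩, 0,
    ⟨fun x y => Subtype.ext (x.2.trans y.2.symm)⟩⟩

section

variable (hA : Ax.{u} CV DV NV) (hEgs : EgsxStatement.{u}) (hMrk : MrkStatement.{u})

include hA hEgs hMrk

/-- GEO for groups of semisimple rank one over algebraically closed fields. -/
theorem geoT_closed {Q : Type u} [Group Q] (hQ : T1x CV DV Q) {K : Type u} [Field K] [CharZero K]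
    [IsAlgClosed K] {r : ℕ} {d : Fin r → ℕ} {T : Type u} [Group T] (τ : T →* GL (TI d) K)
    (γ : T →* PGL(Fin 2, K)) (hR : RankT d τ γ) (hinj : ∀ t, τ t = 1 → γ t = 1 → t = 1) :
    GE DV Q T fun H => AlgP γ H := by
  obtain ⟨χ, hχ⟩ := edge_cv τ γ hR hinj
  have hC1 : CV PUnit.{u + 1} := fun S _ => ⟨PUnit, inferInstance, 0, 1, ⟨⊤, inferInstance, by
    show Subsingleton _
    infer_instance⟩, 0, by
    show Subsingleton _
    infer_instance⟩
  exact gpxQ hA hC1 hEgs hMrk hQ K T γ χ hχ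

/-- GEO for `K₀`; `τ` is over an extension of the field of `γ`. -/
theorem geoT_zero {Q : Type u} [Group Q] (hQ : T1x CV DV Q) {K L₀ : Type u} [Field K] [CharZero K]
    [Field L₀] (e₀ : K →+* L₀) {r : ℕ} {d : Fin r → ℕ} {Γ : Type u} [Group Γ] (χ : Γ →* Q)
    (τ : Γ →* GL (TI d) L₀) (γ : Γ →* PGL(Fin 2, K))
    (hR1 : RankT d τ ((ProjGenLinGroup.map e₀).comp γ))
    (hD : DV Γ (Q × (GL (TI d) L₀ × PGL(Fin 2, K))) (χ.prod (τ.prod γ)))
    (k : Type u) [Ring k] (hk : RegularRing k) :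
    ⨆ H : {H : Subgroup Γ // H.FG ∧ AlgP γ H}, img k H.1 = ⊤ := by
  have hcz₀ : CharZero L₀ := charZero_of_injective_ringHom e₀.injective
  let L := AlgebraicClosure L₀
  let a : L₀ →+* L := algebraMap L₀ L
  have hcz : CharZero L := charZero_of_injective_algebraMap a.injective
  let τ' : Γ →* GL (TI d) L := (GeneralLinearGroup.map a).comp τ
  let γ' : Γ →* PGL(Fin 2, L) := (ProjGenLinGroup.map a).comp ((ProjGenLinGroup.map e₀).comp γ)
  have h1 : ∀ g, τ' g = 1 ↔ τ g = 1 := fun g => ⟨fun h => map_gl_eq_oneP a h, fun h => by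
    show GeneralLinearGroup.map a (τ g) = 1
    rw [h, map_one]⟩
  have h2 : ∀ g, γ' g = 1 ↔ γ g = 1 := fun g =>
    ⟨fun h => P2.map_injective e₀ (Eq.trans (P2.map_injective a (h.trans (map_one _).symm))
      (map_one _).symm), fun h => by
      show ProjGenLinGroup.map a (ProjGenLinGroup.map e₀ (γ g)) = 1
      rw [h, map_one, map_one]⟩
  have hR2 := rankT_mapP a hR1
  let T : Subgroup (GL (TI d) L × PGL(Fin 2, L)) := (τ'.prod γ').range
  have hs : Function.Surjective (τ'.prod γ').rangeRestrict :=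
    (τ'.prod γ').rangeRestrict_surjective
  let τT : T →* GL (TI d) L := (MonoidHom.fst _ _).comp T.subtype
  let γT : T →* PGL(Fin 2, L) := (MonoidHom.snd _ _).comp T.subtype
  have hRT : RankT d τT γT := ⟨fun x => by
    obtain ⟨g, rfl⟩ := hs x
    exact hR2.tri g, fun x k => by
    obtain ⟨g, rfl⟩ := hs x
    exact hR2.lift g k⟩
  let f : Γ →* T × Q := ((τ'.prod γ').rangeRestrict).prod χ
  have hf : DV Γ (T × Q) f := by
    obtain ⟨X, _, δ, n, hV⟩ := hD
    refine ⟨X, inferInstance, δ, n, hV.mono (fun g h => ?_) fun g h => ?_⟩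
    · have a1 : χ g = 1 := congrArg Prod.fst h
      have a2 : τ g = 1 := congrArg (fun x => x.2.1) h
      have a3 : γ g = 1 := congrArg (fun x => x.2.2) h
      exact Prod.ext (Subtype.ext (Prod.ext ((h1 g).2 a2) ((h2 g).2 a3))) a1
    · have a1 : χ g = 1 := congrArg Prod.snd h
      have a2 : τ' g = 1 := congrArg (fun x => x.1.1.1) h
      have a3 : γ' g = 1 := congrArg (fun x => x.1.1.2) h
      exact Prod.ext a1 (Prod.ext ((h1 g).1 a2) ((h2 g).1 a3))
  have main := geoT_closed hA hEgs hMrk hQ τT γT hRT (fun t ht1 ht2 =>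
    Subtype.ext (Prod.ext ht1 ht2)) Γ f hf k hk
  rw [eq_top_iff, ← main]
  refine iSup_le fun H => ?_
  refine ER71.img_gen (fun G : {G : Subgroup (H.1.comap ((MonoidHom.fst T Q).comp f)) // G.FG} =>
    G.1) k (fg_gen _ k) _ fun G => ?_
  have hfg0 : (G.1.map (H.1.comap ((MonoidHom.fst T Q).comp f)).subtype : Subgroup Γ).FG := by
    classical
    obtain ⟨S, hS⟩ := G.2
    exact ⟨S.image (H.1.comap ((MonoidHom.fst T Q).comp f)).subtype, by
      rw [Finset.coe_image, ← MonoidHom.map_closure, hS]⟩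
  refine le_iSup (fun H : {H : Subgroup Γ // H.FG ∧ AlgP γ H} => img k H.1) ⟨_, hfg0, ?_⟩
  rintro _ ⟨h, _, rfl⟩ B hB
  have h5 := H.2 _ h.2 (GeneralLinearGroup.map a (GeneralLinearGroup.map e₀ B)) (by
    show _ = ProjGenLinGroup.map a (ProjGenLinGroup.map e₀ (γ h))
    rw [← Matrix.ProjGenLinGroup.map_mk, ← Matrix.ProjGenLinGroup.map_mk, hB]
    rfl)
  have h6 : (GeneralLinearGroup.map a (GeneralLinearGroup.map e₀ B)).1.trace ^ 2 /
      (GeneralLinearGroup.map a (GeneralLinearGroup.map e₀ B)).1.det =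
      (a.comp e₀) (B.1.trace ^ 2 / B.1.det) := by
    rw [Matrix.trace_fin_two, Matrix.det_fin_two, Matrix.trace_fin_two, Matrix.det_fin_two,
      map_div₀, map_pow, map_add, map_sub, map_mul, map_mul]
    rfl
  rw [h6] at h5
  exact (alg_iff (a.comp e₀) _).1 h5

/-- GEO. The reduction theorem for groups of semisimple rank one and groups `Q` with `T1x`. -/
theorem geoT {Q : Type u} [Group Q] (hQ : T1x CV DV Q) {K L₀ : Type u} [Field K] [CharZero K]
    [Field L₀] (e₀ : K →+* L₀) {r : ℕ} {d : Fin r → ℕ} {Γ : Type u} [Group Γ] (χ : Γ →* Q)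
    (τ : Γ →* GL (TI d) L₀) (γ : Γ →* PGL(Fin 2, K))
    (hR1 : RankT d τ ((ProjGenLinGroup.map e₀).comp γ))
    (hD : DV Γ (Q × (GL (TI d) L₀ × PGL(Fin 2, K))) (χ.prod (τ.prod γ)))
    (R : Type u) [Ring R] (hR : RegularRing R) (i : ℕ) :
    ⨆ H : {H : Subgroup Γ // H.FG ∧ AlgP γ H}, ((KNegFun i).hom (mdr R H.1.subtype)).range = ⊤ :=
  ER71.kneg_of_gen (fun H => H.FG ∧ AlgP γ H) (fun k _ hk =>
    geoT_zero hA hEgs hMrk hQ e₀ χ τ γ hR1 hD k hk) i R hR

end

end X5

end Pool.Agent.NegK.NT.NL
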