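import Pool.Agent.Lib.MP_28303a_al.NT.NL.Clsx
import Pool.Agent.Lib.MP_28303a_al.NT.NL.GnDefs

/-! # Local trees: generation by small subgroups -/

set_option autoImplicit false
set_option linter.unusedSectionVars false
set_option linter.unusedVariables false

namespace Pool.Agent.NegK.NT.NL

universe u

open Pool.Agent.NegK.TW Pool.Agent.NegK.TT Pool.Agent.NegK.NT.ER Pool.Agent.NegK.NT.ER61

namespace X5

variable {C N : GCls.{u}} {D : HCls.{u}}

/-- The generation for one homomorphism. -/
def GN (C : GCls.{u}) {Γ X : Type u} [Group Γ] [Group X] (f : Γ →* X) : Prop :=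
  ∀ (k : Type u) [Ring k], RegularRing k →
    ⨆ H : {H : Subgroup X // C H}, img k (H.1.comap f) = ⊤

theorem gn_push (hA : Ax C D N) {Γ X X' : Type u} [Group Γ] [Group X] [Group X'] (f : Γ →* X)
    (H0 : Subgroup Γ) (f' : H0 →* X') (j : X' →* X) (hj : Function.Injective j)
    (hc : ∀ h : H0, j (f' h) = f h.1) (h : GN C f') (k : Type u) [Ring k] (hk : RegularRing k) :
    img k H0 ≤ ⨆ H : {H : Subgroup X // C H}, img k (H.1.comap f) := by
  refine ER71.img_gen (fun H : {H : Subgroup X' // C H} => H.1.comap f') k (h k hk) _ fun H => ?_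
  have hC : C (H.1.map j) := hA.C_inj _ _ (H.1.equivMapOfInjective j hj).symm.toMonoidHom
    (H.1.equivMapOfInjective j hj).symm.injective H.2
  refine le_trans (img_mono ?_) (le_iSup (fun H : {H : Subgroup X // C H} =>
    img k (H.1.comap f)) ⟨_, hC⟩)
  rintro _ ⟨g, hg, rfl⟩
  exact ⟨f' g, hg, hc g⟩

theorem gn_pull (hA : Ax C D N) {Γ X Y : Type u} [Group Γ] [Group X] [Group Y] (f : Γ →* X)
    (e : X →* Y) (he : N e.ker) (h : GN C (e.comp f)) : GN C f := by
  intro k _ hk
  rw [eq_top_iff, ← h k hk]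
  refine iSup_le fun H => ?_
  have hC : C (H.1.comap e) := by
    refine hA.C_ext _ H.1
      { toFun := fun x => ⟨e x.1, x.2⟩
        map_one' := Subtype.ext (map_one e)
        map_mul' := fun x y => Subtype.ext (map_mul e _ _) } (hA.N_inj _ e.ker
      { toFun := fun x => ⟨x.1.1, congrArg Subtype.val x.2⟩
        map_one' := rfl
        map_mul' := fun x y => rfl } ?_ he) H.2
    intro x y hxy
    exact Subtype.ext (Subtype.ext (congrArg (fun z : e.ker => (z : X)) hxy))
  exact le_iSup (fun H : {H : Subgroup X // C H} => img k (H.1.comap f)) ⟨_, hC⟩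

theorem gn_pull' (hA : Ax C D N) {Γ X Y : Type u} [Group Γ] [Group X] [Group Y] (f : Γ →* X)
    (e : X →* Y) (he : Function.Injective e) (h : GN C (e.comp f)) : GN C f :=
  gn_pull hA f e (hA.N_one _ ⟨fun x y => Subtype.ext (he (x.2.trans y.2.symm))⟩) h

/-- Change of the second factor. -/
theorem gnx_of_hom (hA : Ax C D N) {Q Q' : Type u} [Group Q] [Group Q'] (f : Q' →* Q)
    (hf : N f.ker) (h : Gnx C D Q) : Gnx C D Q' := by
  intro P _ hP Γ _ g hg
  have hN : N ((MonoidHom.id P).prodMap f).ker := by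
    refine hA.N_inj _ f.ker
      { toFun := fun x => ⟨x.1.2, congrArg Prod.snd x.2⟩
        map_one' := rfl
        map_mul' := fun x y => rfl } ?_ hf
    intro x y hxy
    have h1 : x.1.1 = 1 := congrArg Prod.fst x.2
    have h2 : y.1.1 = 1 := congrArg Prod.fst y.2
    exact Subtype.ext (Prod.ext (h1.trans h2.symm) (congrArg Subtype.val hxy))
  exact gn_pull hA g _ hN (h P hP Γ _ (hA.comp _ _ _ g _ hg hN))

theorem gnx_inj (hA : Ax C D N) {Q Q' : Type u} [Group Q] [Group Q'] (f : Q' →* Q)
    (hf : Function.Injective f) (h : Gnx C D Q) : Gnx C D Q' :=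
  gnx_of_hom hA f (hA.N_one _ ⟨fun x y => Subtype.ext (hf (x.2.trans y.2.symm))⟩) h

theorem gnx_tk (hA : Ax C D N) {G G' Q : Type u} [Group G] [Group G'] [Group Q] (f : G →* G')
    (hf : N f.ker) (hQ : Gnx C D (G' × Q)) : Gnx C D (G × Q) := by
  refine gnx_of_hom hA (f.prodMap (MonoidHom.id Q)) (hA.N_inj _ f.ker
    { toFun := fun x => ⟨x.1.1, congrArg Prod.fst x.2⟩
      map_one' := rfl
      map_mul' := fun x y => rfl } ?_ hf) hQ
  intro x y hxy
  have h1 : x.1.2 = 1 := congrArg Prod.snd x.2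
  have h2 : y.1.2 = 1 := congrArg Prod.snd y.2
  exact Subtype.ext (Prod.ext (congrArg Subtype.val hxy) (h1.trans h2.symm))

/-- `P × (G × Q) → (P × G) × Q`. -/
def asc (P G Q : Type u) [Group P] [Group G] [Group Q] : P × (G × Q) →* (P × G) × Q where
  toFun x := ((x.1, x.2.1), x.2.2)
  map_one' := rfl
  map_mul' _ _ := rfl

theorem asc_inj (P G Q : Type u) [Group P] [Group G] [Group Q] :
    Function.Injective (asc P G Q) := fun x y hxy => by
  have e1 := congrArg (fun z => z.1.1) hxy
  have e2 := congrArg (fun z => z.1.2) hxy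
  have e3 := congrArg (fun z => z.2) hxy
  exact Prod.ext e1 (Prod.ext e2 e3)

theorem gnx_C (hA : Ax C D N) {G Q : Type u} [Group G] [Group Q] (h : C G) (hQ : Gnx C D Q) :
    Gnx C D (G × Q) := fun P _ hP Γ _ f hf =>
  gn_pull' hA f (asc P G Q) (asc_inj P G Q)
    (hQ (P × G) (hA.C_prod P G hP h) Γ _ (d_inj hA f _ (asc_inj P G Q) hf))

/-- Unions. -/
theorem gnx_fg (hA : Ax C D N) {G Q : Type u} [Group G] [Group Q]
    (h : ∀ S : Subgroup G, S.FG → Gnx C D (S × Q)) : Gnx C D (G × Q) := by
  classical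
  intro P _ hP Γ _ f hf k _ hk
  refine ER71.gen_loc k _ fun T => ?_
  let p : Γ →* G := (MonoidHom.fst G Q).comp ((MonoidHom.snd P (G × Q)).comp f)
  let H0 : Subgroup Γ := Subgroup.closure (T : Set Γ)
  let S : Subgroup G := H0.map p
  have hS : S.FG := ⟨T.image p, by rw [Finset.coe_image, ← MonoidHom.map_closure]⟩
  have hm : ∀ g : H0, p g.1 ∈ S := fun g => ⟨g.1, g.2, rfl⟩
  let f' : H0 →* P × (S × Q) :=
    { toFun := fun g => ((f g.1).1, (⟨p g.1, hm g⟩, (f g.1).2.2))
      map_one' := by
        refine Prod.ext ?_ (Prod.ext (Subtype.ext (map_one p)) ?_)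
        · exact congrArg (fun z => z.1) (map_one f)
        · exact congrArg (fun z => z.2.2) (map_one f)
      map_mul' := fun x y => by
        refine Prod.ext ?_ (Prod.ext (Subtype.ext (map_mul p _ _)) ?_)
        · exact congrArg (fun z => z.1) (map_mul f x.1 y.1)
        · exact congrArg (fun z => z.2.2) (map_mul f x.1 y.1) }
  let j : P × (S × Q) →* P × (G × Q) :=
    { toFun := fun x => (x.1, (x.2.1.1, x.2.2))
      map_one' := rfl
      map_mul' := fun x y => rfl }
  have hj : Function.Injective j := fun x y hxy => by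
    have e1 := congrArg (fun z => z.1) hxy
    have e2 := congrArg (fun z => z.2.1) hxy
    have e3 := congrArg (fun z => z.2.2) hxy
    exact Prod.ext e1 (Prod.ext (Subtype.ext e2) e3)
  refine ⟨H0, fun s hs => Subgroup.subset_closure hs, ?_⟩
  refine gn_push hA f H0 f' j hj (fun g => rfl) ?_ k hk
  exact h S hS P hP H0 f' (hA.sub Γ _ H0 _ f f' H0.subtype j H0.subtype_injective hj
    (fun g => rfl) hf)

section

variable {G : Type u} [Group G] {Y : Trees G} (hA : Ax C D N)
  (hEgs : EgsxStatement.{u}) (hMrk : MrkStatement.{u})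
  (he : ∀ (j : Fin Y.m) (v : ∀ i, Y.V i) (w : Y.V j), (Y.G j).Adj (v j) w →
    C (Y.st v ⊓ MulAction.stabilizer G w : Subgroup G))
  {Q : Type u} [Group Q] (hQ : T1x C D Q)
  (hv : ∀ v : ∀ j, Y.V j, Gnx C D (Y.st v × Q))
  (P : Type u) [Group P] (hP : C P)

include hA hEgs hMrk he hQ hv hP in
theorem gclaim : ∀ (n : ℕ) (R : Finset (Fin Y.m)), R.card = n →
    ∀ (G2 : Type u) [Group G2] (κ : G2 →* G), Function.Injective κ →
    (∀ j, j ∉ R → ∃ v : Y.V j, ∀ g : G2, κ g • v = v) →
    ∀ (Γ : Type u) [Group Γ] (f : Γ →* (P × G2) × Q), D Γ ((P × G2) × Q) f → GN C f := by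
  classical
  intro n
  induction n with
  | zero =>
    intro R hR G2 _ κ hκ hfix Γ _ f hf
    choose v hv' using fun j => hfix j (by
      rw [Finset.card_eq_zero.1 hR]
      exact Finset.notMem_empty j)
    have h1 : ∀ g : G2, κ g ∈ Y.st v := fun g => Subgroup.mem_iInf.2 fun j => hv' j g
    let e : (P × G2) × Q →* P × (Y.st v × Q) :=
      { toFun := fun x => (x.1.1, (⟨κ x.1.2, h1 x.1.2⟩, x.2))
        map_one' := Prod.ext rfl (Prod.ext (Subtype.ext (map_one κ)) rfl)
        map_mul' := fun x y => Prod.ext rfl (Prod.ext (Subtype.ext (map_mul κ _ _)) rfl) }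
    have hi : Function.Injective e := fun x y hxy => by
      have e1 := congrArg (fun z => z.1) hxy
      have e2 := congrArg (fun z => z.2.1.1) hxy
      have e3 := congrArg (fun z => z.2.2) hxy
      exact Prod.ext (Prod.ext e1 (hκ e2)) e3
    exact gn_pull' hA f e hi (hv v P hP Γ _ (d_inj hA f e hi hf))
  | succ n ih =>
    intro R hR G2 _ κ hκ hfix Γ _ f hf
    obtain ⟨i, hi⟩ : R.Nonempty := by
      rw [← Finset.card_pos, hR]
      exact Nat.succ_pos n
    have hcard : (R.erase i).card = n := by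
      rw [Finset.card_erase_of_mem hi, hR]
      rfl
    by_cases hedge : ∃ v w, (Y.G i).Adj v w
    · obtain ⟨M0, hM1, hM2⟩ := hMrk G (Y.V i) (Y.G i) (Y.tree i) hedge
      let W0 : Fin 0 → MTL (P × G2) := fun a => a.elim0
      have hW0 : Inv Y C κ ∅ W0 := by
        intro U _
        obtain ⟨v⟩ := exists_vert Y
        exact ⟨⊤, v, v, hA.C_inj _ P (⊤ : Subgroup P).subtype (Subgroup.subtype_injective _) hP,
          fun j hj => absurd hj (Finset.notMem_empty j), fun x _ => ⟨Subgroup.mem_top _,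
          fun j hj => absurd hj (Finset.notMem_empty j)⟩⟩
      have h1 := claim hA (inj_C hA) hA.C_prod hEgs hMrk he hQ P _ R (insert i ∅)
        (Finset.insert_subset hi (Finset.empty_subset _)) rfl G2 κ hκ hfix 1 _
        (hW0.cons (Finset.notMem_empty i) M0 hM2)
        (fun h => absurd h (Finset.insert_ne_empty _ _)) Γ f hf
      let L : TL Γ := (M0.cm ((κ.comp (MonoidHom.snd P G2)).comp
        ((MonoidHom.fst (P × G2) Q).comp f))).L
      have h2 : Ex (fun _ : Fin 1 => L) := by
        convert h1 using 1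
        funext a
        have ha : a = 0 := Subsingleton.elim _ _
        subst ha
        rfl
      intro k _ hk
      rw [eq_top_iff, ← gent Γ L h2 k hk]
      refine iSup_le fun x => ?_
      let x' : M0.L.B := x
      let G3 : Subgroup G2 := (MulAction.stabilizer G (α := M0.L.B) x').comap κ
      obtain ⟨v0, hv0⟩ := hM1 x'
      have h3 : ∀ g : MulAction.stabilizer Γ x, (f g.1).1.2 ∈ G3 := fun g => g.2
      let f' : MulAction.stabilizer Γ x →* (P × G3) × Q :=
        { toFun := fun g => (((f g.1).1.1, ⟨(f g.1).1.2, h3 g⟩), (f g.1).2)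
          map_one' := by
            refine Prod.ext (Prod.ext ?_ (Subtype.ext ?_)) ?_
            · exact congrArg (fun z => z.1.1) (map_one f)
            · exact congrArg (fun z => z.1.2) (map_one f)
            · exact congrArg (fun z => z.2) (map_one f)
          map_mul' := fun a b => by
            refine Prod.ext (Prod.ext ?_ (Subtype.ext ?_)) ?_
            · exact congrArg (fun z => z.1.1) (map_mul f a.1 b.1)
            · exact congrArg (fun z => z.1.2) (map_mul f a.1 b.1)
            · exact congrArg (fun z => z.2) (map_mul f a.1 b.1) }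
      let j : (P × G3) × Q →* (P × G2) × Q :=
        { toFun := fun x => ((x.1.1, x.1.2.1), x.2)
          map_one' := rfl
          map_mul' := fun x y => rfl }
      have hj : Function.Injective j := fun x y hxy => by
        have e1 := congrArg (fun z => z.1.1) hxy
        have e2 := congrArg (fun z => z.1.2) hxy
        have e3 := congrArg (fun z => z.2) hxy
        exact Prod.ext (Prod.ext e1 (Subtype.ext e2)) e3
      refine gn_push hA f _ f' j hj (fun g => rfl) ?_ k hk
      refine ih (R.erase i) hcard G3 (κ.comp G3.subtype) (hκ.comp G3.subtype_injective)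
        (fun a ha => ?_) _ f' (hA.sub Γ _ _ _ f f' (MulAction.stabilizer Γ x).subtype j
        (Subgroup.subtype_injective _) hj (fun g => rfl) hf)
      by_cases hai : a = i
      · subst hai
        exact ⟨v0, fun g => hv0 g.2⟩
      · obtain ⟨v, hv⟩ := hfix a fun h => ha (Finset.mem_erase.2 ⟨hai, h⟩)
        exact ⟨v, fun g => hv g.1⟩
    · refine ih (R.erase i) hcard G2 κ hκ (fun j hj => ?_) Γ f hf
      by_cases hji : j = i
      · subst hji
        exact fixed_of_no_edge Y κ j hedge
      · exact hfix j fun h => hj (Finset.mem_erase.2 ⟨hji, h⟩)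

include hA hEgs hMrk he hQ hv in
theorem gnx_tree : Gnx C D (G × Q) := fun P _ hP Γ _ f hf =>
  gn_pull' hA f (asc P G Q) (asc_inj P G Q) (gclaim hA hEgs hMrk he hQ hv P hP _ Finset.univ rfl
    G (MonoidHom.id G) Function.injective_id (fun j hj => absurd (Finset.mem_univ j) hj) Γ _
    (d_inj hA f _ (asc_inj P G Q) hf))

end

/-- GNX. -/
theorem gnx (hEgs : EgsxStatement.{u}) (hF : EgfxStatement.{u}) (hMrk : MrkStatement.{u}) :
    GnxStatement.{u} := by
  intro C D N hA G i h
  induction h with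
  | c0 G h => exact fun Q _ _ hQ' => gnx_C hA h hQ'
  | tk G G' f _ hf ih => exact fun Q _ hQ hQ' => gnx_tk hA f hf (ih Q hQ hQ')
  | fg G _ ih => exact fun Q _ hQ hQ' => gnx_fg hA fun S hS => ih S hS Q hQ hQ'
  | pr G G' h h' ih ih' =>
    intro Q _ hQ hQ'
    refine gnx_inj hA (Q := G × (G' × Q))
      { toFun := fun x => (x.1.1, (x.1.2, x.2))
        map_one' := rfl
        map_mul' := fun x y => rfl } (fun x y hxy => ?_)
      (ih _ (clsx hEgs hF hMrk C D N hA G' _ h' Q hQ) (ih' Q hQ hQ'))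
    have e1 := congrArg (fun z => z.1) hxy
    have e2 := congrArg (fun z => z.2.1) hxy
    have e3 := congrArg (fun z => z.2.2) hxy
    exact Prod.ext (Prod.ext e1 e2) e3
  | tree G Y he _ ih =>
    exact fun Q _ hQ hQ' => gnx_tree hA hEgs hMrk he hQ fun v => ih v Q hQ hQ'

theorem c_one (hA : Ax C D N) {G : Type u} {i : Group G} (h : Clx C N G i) :
    C PUnit.{u + 1} := by
  induction h with
  | c0 G h => exact hA.C_inj _ G 1 (fun x y _ => rfl) h
  | tk G G' f _ hf ih => exact ih
  | fg G _ ih => exact ih ⊥ ⟨∅, by simp⟩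
  | pr G G' _ _ ih _ => exact ih
  | tree G Y he _ ih =>
    obtain ⟨v⟩ := exists_vert Y
    exact ih v

theorem gnx_one (hA : Ax C D N) : Gnx C D PUnit.{u + 1} := by
  intro P _ hP Γ _ f hf k _ hk
  have hC : C (⊤ : Subgroup (P × PUnit.{u + 1})) := hA.C_inj _ P
    ((MonoidHom.fst P PUnit).comp (⊤ : Subgroup (P × PUnit.{u + 1})).subtype)
    (fun x y hxy => Subtype.ext (Prod.ext hxy rfl)) hP
  rw [eq_top_iff, ← ER71.img_top k Γ (H := (⊤ : Subgroup (P × PUnit.{u + 1})).comap f)
    (Subgroup.comap_top f)]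
  exact le_iSup (fun H : {H : Subgroup (P × PUnit.{u + 1}) // C H} => img k (H.1.comap f)) ⟨_, hC⟩

theorem t1_punit (hR : RefStatement.{u}) (hA : Ax C D N) : T1x C D PUnit.{u + 1} :=
  t1_j0 hR hA fun P Γ _ _ f hP hf => hA.rc Γ _ f hf (hA.C_inj _ P (MonoidHom.fst P PUnit)
    (fun x y hxy => Prod.ext hxy rfl) hP)

/-- The generation of `K₀` for one homomorphism. -/
theorem gn_of_clx (hR : RefStatement.{u}) (hEgs : EgsxStatement.{u}) (hF : EgfxStatement.{u})
    (hMrk : MrkStatement.{u}) (hA : Ax C D N) {G : Type u} {i : Group G} (h : Clx C N G i)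
    {Γ : Type u} [Group Γ] (f : Γ →* G) (hf : D Γ G f) : GN C f := by
  have h1 := gnx hEgs hF hMrk C D N hA G i h PUnit (t1_punit hR hA) (gnx_one hA) PUnit
    (c_one hA h) Γ
  let e : G →* PUnit.{u + 1} × (G × PUnit.{u + 1}) :=
    { toFun := fun x => (1, (x, 1))
      map_one' := rfl
      map_mul' := fun x y => rfl }
  have he : Function.Injective e := fun x y hxy => congrArg (fun z => z.2.1) hxy
  exact gn_pull' hA f e he (h1 (e.comp f) (d_inj hA f e he hf))

/-- GNM. -/
theorem gnm (hR : RefStatement.{u}) (hEgs : EgsxStatement.{u}) (hF : EgfxStatement.{u})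
    (hMrk : MrkStatement.{u}) : GnmStatement.{u} := by
  intro C D N hA G i h Γ _ f hf R _ hR' n
  have h1 := ER71.kneg_of_gen (fun H : Subgroup Γ => ∃ H' : Subgroup G, C H' ∧ H = H'.comap f)
    (fun k _ hk => ?_) n R hR'
  · rw [eq_top_iff, ← h1]
    refine iSup_le fun H => ?_
    obtain ⟨H, H', hC, rfl⟩ := H
    exact le_iSup (fun H : {H : Subgroup G // C H} =>
      ((KNegFun n).hom (mdr R (H.1.comap f).subtype)).range) ⟨H', hC⟩
  · rw [eq_top_iff, ← gn_of_clx hR hEgs hF hMrk hA h f hf k hk]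
    exact iSup_le fun H => le_iSup (fun H : {H : Subgroup Γ // ∃ H' : Subgroup G, C H' ∧
      H = H'.comap f} => img k H.1) ⟨H.1.comap f, H.1, H.2, rfl⟩

end X5

end Pool.Agent.NegK.NT.NL
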