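import Pool.Agent.Lib.MP_28303a_al.NT.NL.Defs

/-! # Row IMA: the induction functors -/

set_option autoImplicit false
set_option linter.unusedSectionVars false
set_option linter.unusedVariables false

namespace Pool.Agent.NegK.NT.NL

universe u

open CategoryTheory Limits Opposite Pretriangulated
open Pool.Agent.NegK.TW Pool.Agent.NegK.TT

/-! ### Homotopy categories, for several groups -/

section

variable {k₁ k₂ k₃ k₄ : Type u} [Ring k₁] [Ring k₂] [Ring k₃] [Ring k₄]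
  {G₁ G₂ G₃ G₄ : Type u} [Group G₁] [Group G₂] [Group G₃] [Group G₄]
  {B₁ B₂ B₃ B₄ : Type u} [MulAction G₁ B₁] [MulAction G₂ B₂] [MulAction G₃ B₃] [MulAction G₄ B₄]
  {P₁ : Pre G₁ B₁} {P₂ : Pre G₂ B₂} {P₃ : Pre G₃ B₃} {P₄ : Pre G₄ B₄}

/-- The functor of homotopy categories, for two groups. For one group it is `hk F` (by `rfl`). -/
noncomputable abbrev hg (F : Loc k₁ P₁ ⥤ Loc k₂ P₂) [F.Additive] : KK k₁ P₁ ⥤ KK k₂ P₂ :=
  F.mapHomotopyCategory (ComplexShape.up ℤ)

/-- Triangles of functors. -/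
noncomputable def hgTr {F : Loc k₁ P₁ ⥤ Loc k₂ P₂} {G : Loc k₂ P₂ ⥤ Loc k₃ P₃}
    {H : Loc k₁ P₁ ⥤ Loc k₃ P₃} [F.Additive] [G.Additive] [H.Additive] (e : F ⋙ G ≅ H) :
    hg F ⋙ hg G ≅ hg H :=
  Functor.mapHomotopyCategoryCompIso e _

/-- Isomorphic functors. -/
noncomputable def hgIso {F G : Loc k₁ P₁ ⥤ Loc k₂ P₂} [F.Additive] [G.Additive] (e : F ≅ G) :
    hg F ≅ hg G where
  hom := NatTrans.mapHomotopyCategory e.hom _
  inv := NatTrans.mapHomotopyCategory e.inv _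
  hom_inv_id := by
    rw [← NatTrans.mapHomotopyCategory_comp, e.hom_inv_id, NatTrans.mapHomotopyCategory_id]
  inv_hom_id := by
    rw [← NatTrans.mapHomotopyCategory_comp, e.inv_hom_id, NatTrans.mapHomotopyCategory_id]

/-- Squares of functors. -/
noncomputable def hgSq {F : Loc k₁ P₁ ⥤ Loc k₂ P₂} {G : Loc k₂ P₂ ⥤ Loc k₄ P₄}
    {F' : Loc k₁ P₁ ⥤ Loc k₃ P₃} {G' : Loc k₃ P₃ ⥤ Loc k₄ P₄}
    [F.Additive] [G.Additive] [F'.Additive] [G'.Additive] (e : F ⋙ G ≅ F' ⋙ G') :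
    hg F ⋙ hg G ≅ hg F' ⋙ hg G' :=
  hgTr e ≪≫ (hgTr (Iso.refl (F' ⋙ G'))).symm

/-- A functor which is isomorphic to the identity. -/
noncomputable def hgId {F : Loc k₁ P₁ ⥤ Loc k₁ P₁} [F.Additive] (e : F ≅ 𝟭 _) :
    hg F ≅ 𝟭 (KK k₁ P₁) :=
  hgIso e ≪≫ hkId

/-- A composition which is isomorphic to the identity. -/
noncomputable def hgInv {F : Loc k₁ P₁ ⥤ Loc k₂ P₂} {G : Loc k₂ P₂ ⥤ Loc k₁ P₁} [F.Additive]
    [G.Additive] (e : F ⋙ G ≅ 𝟭 _) : hg F ⋙ hg G ≅ 𝟭 (KK k₁ P₁) :=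
  hgTr (H := F ⋙ G) (Iso.refl _) ≪≫ hgId e

end

/-! ### Identity matrices -/

section

variable {k : Type u} [Ring k] {Γ : Type u} [Group Γ] {C : Type u} [MulAction Γ C] {Q : Pre Γ C}

theorem spt_one {ι : Type u} {l l' : ι → C} (h : ∀ i, Q.le (l i) (l' i)) :
    Loc.Spt (k := k) (P := Q) ⟨ι, l⟩ ⟨ι, l'⟩ LinearMap.id := by
  classical
  intro i j g hg
  rw [LinearMap.id_apply, Finsupp.single_apply] at hg
  split_ifs at hg with h1
  · subst h1
    rw [MonoidAlgebra.one_def, MonoidAlgebra.coeff_single, Finsupp.single_apply] at hg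
    split_ifs at hg with h2
    · rw [← h2, one_smul]
      exact h _
    · exact absurd rfl hg
  · exact absurd rfl hg

/-- The isomorphism of two objects with the same basis and equivalent locations. -/
noncomputable def oneIso {ι : Type u} {l l' : ι → C} (h : ∀ i, Q.le (l i) (l' i))
    (h' : ∀ i, Q.le (l' i) (l i)) : (⟨ι, l⟩ : Loc k Q) ≅ ⟨ι, l'⟩ where
  hom := ⟨LinearMap.id, spt_one h⟩
  inv := ⟨LinearMap.id, spt_one h'⟩
  hom_inv_id := rfl
  inv_hom_id := rfl

end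

section

variable {k : Type u} [Ring k] {H Γ Λ : Type u} [Group H] [Group Γ] [Group Λ]

theorem fm_fm (f : H →* Γ) (f' : Γ →* Λ) (ι : Type u) (x : ι →₀ MonoidAlgebra k H) :
    fm k f' ι (fm k f ι x) = fm k (f'.comp f) ι x := by
  ext1 i
  rw [fm_apply, fm_apply, fm_apply, mdr_comp_apply]

theorem fm_id (ι : Type u) (x : ι →₀ MonoidAlgebra k H) : fm k (MonoidHom.id H) ι x = x := by
  ext1 i
  rw [fm_apply, mdr_id, RingHom.id_apply]

theorem fm_mf {k' : Type u} [Ring k'] (φ : k →+* k') (f : H →* Γ) (ι : Type u)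
    (x : ι →₀ MonoidAlgebra k H) : fm k' f ι (Loc.mf φ ι x) = Loc.mf φ ι (fm k f ι x) := by
  ext1 i
  rw [fm_apply, Loc.mf_apply, Loc.mf_apply, fm_apply]
  have h : (mdr k' f).comp (MonoidAlgebra.mapRingHom H φ) =
      (MonoidAlgebra.mapRingHom Γ φ).comp (mdr k f) := by
    refine MonoidAlgebra.ringHom_ext (fun r => ?_) (fun a => ?_) <;>
    simp only [RingHom.comp_apply, MonoidAlgebra.mapRingHom_single, mdr_single]
  exact RingHom.congr_fun h (x i)

theorem fm_injective {f : H →* Γ} (hf : Function.Injective f) (ι : Type u) :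
    Function.Injective (fm k f ι) := by
  intro x y hxy
  ext1 i
  refine mdr_injective (k := k) hf ?_
  rw [← fm_apply, ← fm_apply, hxy]

end

/-! ### Triangles and squares -/

section

variable {k : Type u} [Ring k] {H Γ Λ Λ' : Type u} [Group H] [Group Γ] [Group Λ] [Group Λ']
  {f : H →* Γ} {f' : Γ →* Λ} {f'' : H →* Λ} {g : H →* Λ'} {g' : Λ' →* Λ}
  {B C D E : Type u} [MulAction H B] [MulAction Γ C] [MulAction Λ D] [MulAction Λ' E]
  {P : Pre H B} {Q : Pre Γ C} {R : Pre Λ D} {S : Pre Λ' E}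

/-- The image of a basis element. -/
theorem IM.hm_single (m : IM f P Q) {A A' : Loc k P} (a : A ⟶ A') (i : A.ι) :
    Loc.lin (m.hm k a) (Finsupp.single i 1) = fm k f A'.ι (Loc.lin a (Finsupp.single i 1)) :=
  Loc.lin_ofB (A := m.ob k A) (A' := m.ob k A') _ _ i

/-- The composition. -/
def IM.comp (m : IM f P Q) (m' : IM f' Q R) : IM (f'.comp f) P R where
  φ x := m'.φ (m.φ x)
  le x y h hxy := m'.le _ _ _ (m.le _ _ _ hxy)

/-- Monotone equivariant maps. -/
def IM.ofMono {B' : Type u} [MulAction H B'] {P' : Pre H B'} (n : Loc.Mono P P') :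
    IM (MonoidHom.id H) P P' where
  φ := n.φ
  le x y h hxy := by
    have h1 := n.le hxy
    rw [n.smul] at h1
    exact h1

theorem IM.hm_hm (m : IM f P Q) (m' : IM f' Q R) (m'' : IM f'' P R) (hf : f'' = f'.comp f)
    {A A' : Loc k P} (a : A ⟶ A') :
    Loc.lin (m'.hm k (m.hm k a)) = (Loc.lin (m''.hm k a) :
      (A.ι →₀ MonoidAlgebra k Λ) →ₗ[MonoidAlgebra k Λ] (A'.ι →₀ MonoidAlgebra k Λ)) := by
  subst hf
  refine Finsupp.lhom_ext fun i b => ?_
  have h0 : Finsupp.single i b = b • (Finsupp.single i (1 : MonoidAlgebra k Λ)) := by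
    rw [Finsupp.smul_single, smul_eq_mul, mul_one]
  rw [h0, map_smul, map_smul]
  congr 1
  refine (m'.hm_single (k := k) (m.hm k a) i).trans ?_
  refine Eq.trans ?_ (m''.hm_single (k := k) a i).symm
  refine Eq.trans ?_ (fm_fm f f' A'.ι _)
  exact congrArg (fm k f' A'.ι) (m.hm_single (k := k) a i)

/-- A triangle of maps of locations, up to equivalence of the locations. -/
noncomputable def IM.tri (m : IM f P Q) (m' : IM f' Q R) (m'' : IM f'' P R)
    (hf : f'' = f'.comp f) (h : ∀ x, R.le (m'.φ (m.φ x)) (m''.φ x))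
    (h' : ∀ x, R.le (m''.φ x) (m'.φ (m.φ x))) : m.F k ⋙ m'.F k ≅ m''.F k :=
  NatIso.ofComponents (fun A => oneIso (l := fun i => m'.φ (m.φ (A.loc i)))
    (l' := fun i => m''.φ (A.loc i)) (fun i => h _) (fun i => h' _)) (by
    intro A A' a
    refine Loc.hom_ext ?_
    exact m.hm_hm m' m'' hf a)

/-- The composition, as a functor. -/
noncomputable def IM.compIso (m : IM f P Q) (m' : IM f' Q R) :
    m.F k ⋙ m'.F k ≅ (m.comp m').F k :=
  m.tri m' (m.comp m') rfl (fun _ => R.refl _) fun _ => R.refl _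

/-- A square of maps of locations, up to equivalence of the locations. -/
noncomputable def IM.sq (m : IM f P Q) (m' : IM f' Q R) (n : IM g P S) (n' : IM g' S R)
    (hf : f'.comp f = g'.comp g) (h : ∀ x, R.le (m'.φ (m.φ x)) (n'.φ (n.φ x)))
    (h' : ∀ x, R.le (n'.φ (n.φ x)) (m'.φ (m.φ x))) : m.F k ⋙ m'.F k ≅ n.F k ⋙ n'.F k :=
  m.compIso m' ≪≫ (n.tri n' (m.comp m') hf h' h).symm

/-- Maps of locations over the same homomorphism with equivalent values. -/
noncomputable def IM.congr (m m' : IM f P Q) (h : ∀ x, Q.le (m.φ x) (m'.φ x))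
    (h' : ∀ x, Q.le (m'.φ x) (m.φ x)) : m.F k ≅ m'.F k :=
  NatIso.ofComponents (fun A => oneIso (l := fun i => m.φ (A.loc i))
    (l' := fun i => m'.φ (A.loc i)) (fun i => h _) (fun i => h' _)) (by
    intro A A' a
    refine Loc.hom_ext ?_
    rfl)

theorem IM.hm_id (m : IM (MonoidHom.id H) P P) {A A' : Loc k P} (a : A ⟶ A') :
    (Loc.lin (A := m.ob k A) (A' := m.ob k A') (m.hm k a) :
      (A.ι →₀ MonoidAlgebra k H) →ₗ[MonoidAlgebra k H] (A'.ι →₀ MonoidAlgebra k H)) =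
      Loc.lin a := by
  refine Finsupp.lhom_ext fun i b => ?_
  have h0 : Finsupp.single i b = b • (Finsupp.single i (1 : MonoidAlgebra k H)) := by
    rw [Finsupp.smul_single, smul_eq_mul, mul_one]
  rw [h0, map_smul, map_smul]
  congr 1
  refine (m.hm_single (k := k) a i).trans ?_
  exact fm_id _ _

/-- Maps of locations over the identity which are equivalent to the identity. -/
noncomputable def IM.idIso (m : IM (MonoidHom.id H) P P) (h : ∀ x, P.le (m.φ x) x)
    (h' : ∀ x, P.le x (m.φ x)) : m.F k ≅ 𝟭 (Loc k P) :=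
  NatIso.ofComponents (fun A => oneIso (l := fun i => m.φ (A.loc i)) (l' := A.loc)
    (fun i => h _) (fun i => h' _)) (by
    intro A A' a
    refine Loc.hom_ext ?_
    exact m.hm_id a)

theorem IM.hm_push {B' : Type u} [MulAction H B'] {P' : Pre H B'} (n : Loc.Mono P P')
    (m : IM (MonoidHom.id H) P P') {A A' : Loc k P} (a : A ⟶ A') :
    (Loc.lin (A := m.ob k A) (A' := m.ob k A') (m.hm k a) :
      (A.ι →₀ MonoidAlgebra k H) →ₗ[MonoidAlgebra k H] (A'.ι →₀ MonoidAlgebra k H)) =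
      Loc.lin a := by
  refine Finsupp.lhom_ext fun i b => ?_
  have h0 : Finsupp.single i b = b • (Finsupp.single i (1 : MonoidAlgebra k H)) := by
    rw [Finsupp.smul_single, smul_eq_mul, mul_one]
  rw [h0, map_smul, map_smul]
  congr 1
  refine (m.hm_single (k := k) a i).trans ?_
  exact fm_id _ _

/-- Maps of locations over the identity and `push`. -/
noncomputable def IM.pushIso {B' : Type u} [MulAction H B'] {P' : Pre H B'}
    (m : IM (MonoidHom.id H) P P') (n : Loc.Mono P P') (h : ∀ x, P'.le (m.φ x) (n.φ x))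
    (h' : ∀ x, P'.le (n.φ x) (m.φ x)) : m.F k ≅ Loc.push n :=
  NatIso.ofComponents (fun A => oneIso (l := fun i => m.φ (A.loc i))
    (l' := fun i => n.φ (A.loc i)) (fun i => h _) (fun i => h' _)) (by
    intro A A' a
    refine Loc.hom_ext ?_
    exact IM.hm_push n m a)

/-- `push` as an induction functor. -/
noncomputable def IM.ofMonoIso {B' : Type u} [MulAction H B'] {P' : Pre H B'}
    (n : Loc.Mono P P') : (IM.ofMono n).F k ≅ Loc.push n :=
  (IM.ofMono n).pushIso n (fun _ => P'.refl _) fun _ => P'.refl _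

/-- The square with two changes of the locations. -/
noncomputable def IM.pushSq {B' C' : Type u} [MulAction H B'] [MulAction Γ C'] {P' : Pre H B'}
    {Q' : Pre Γ C'} (m : IM f P Q) (m' : IM f P' Q') (n : Loc.Mono P P') (n' : Loc.Mono Q Q')
    (h : ∀ x, Q'.le (n'.φ (m.φ x)) (m'.φ (n.φ x)))
    (h' : ∀ x, Q'.le (m'.φ (n.φ x)) (n'.φ (m.φ x))) :
    m.F k ⋙ Loc.push n' ≅ Loc.push n ⋙ m'.F k :=
  NatIso.ofComponents (fun A => oneIso (l := fun i => n'.φ (m.φ (A.loc i)))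
    (l' := fun i => m'.φ (n.φ (A.loc i))) (fun i => h _) (fun i => h' _)) (by
    intro A A' a
    refine Loc.hom_ext ?_
    rfl)

/-- The square with the change of the ring. -/
noncomputable def IM.bcSq {k' : Type u} [Ring k'] (φ : k →+* k') (m : IM f P Q) :
    m.F k ⋙ Loc.bc φ ≅ Loc.bc φ ⋙ m.F k' :=
  NatIso.ofComponents (fun A => oneIso (l := fun i => m.φ (A.loc i))
    (l' := fun i => m.φ (A.loc i)) (fun i => Q.refl _) (fun i => Q.refl _)) (by
    intro A A' a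
    refine Loc.hom_ext ?_
    change Loc.lin (Loc.bm φ (m.hm k a)) = Loc.lin (m.hm k' (Loc.bm φ a))
    refine Finsupp.lhom_ext fun i b => ?_
    have h0 : Finsupp.single i b = b • (Finsupp.single i (1 : MonoidAlgebra k' Γ)) := by
      rw [Finsupp.smul_single, smul_eq_mul, mul_one]
    rw [h0, map_smul, map_smul]
    congr 1
    refine (bm_single φ (m.hm k a) i).trans ?_
    refine Eq.trans ?_ (m.hm_single (k := k') (Loc.bm φ a) i).symm
    refine (congrArg (Loc.mf φ A'.ι) (m.hm_single (k := k) a i)).trans ?_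
    refine (fm_mf φ f A'.ι _).symm.trans ?_
    exact congrArg (fm k' f A'.ι) (bm_single φ a i).symm)

/-! ### Homotopy categories -/

/-- The functor of homotopy categories. -/
noncomputable abbrev IM.hF (m : IM f P Q) (k : Type u) [Ring k] : KK k P ⥤ KK k Q := hg (m.F k)

noncomputable def IM.hTri (k : Type u) [Ring k] (m : IM f P Q) (m' : IM f' Q R)
    (m'' : IM f'' P R) (hf : f'' = f'.comp f) (h : ∀ x, R.le (m'.φ (m.φ x)) (m''.φ x))
    (h' : ∀ x, R.le (m''.φ x) (m'.φ (m.φ x))) : m.hF k ⋙ m'.hF k ≅ m''.hF k :=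
  hgTr (m.tri m' m'' hf h h')

noncomputable def IM.hComp (k : Type u) [Ring k] (m : IM f P Q) (m' : IM f' Q R) :
    m.hF k ⋙ m'.hF k ≅ (m.comp m').hF k :=
  hgTr (m.compIso m')

noncomputable def IM.hSq (k : Type u) [Ring k] (m : IM f P Q) (m' : IM f' Q R) (n : IM g P S)
    (n' : IM g' S R) (hf : f'.comp f = g'.comp g)
    (h : ∀ x, R.le (m'.φ (m.φ x)) (n'.φ (n.φ x)))
    (h' : ∀ x, R.le (n'.φ (n.φ x)) (m'.φ (m.φ x))) : m.hF k ⋙ m'.hF k ≅ n.hF k ⋙ n'.hF k :=
  hgSq (m.sq m' n n' hf h h')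

noncomputable def IM.hCongr (k : Type u) [Ring k] (m m' : IM f P Q)
    (h : ∀ x, Q.le (m.φ x) (m'.φ x)) (h' : ∀ x, Q.le (m'.φ x) (m.φ x)) : m.hF k ≅ m'.hF k :=
  hgIso (m.congr m' h h')

noncomputable def IM.hId (k : Type u) [Ring k] (m : IM (MonoidHom.id H) P P)
    (h : ∀ x, P.le (m.φ x) x) (h' : ∀ x, P.le x (m.φ x)) : m.hF k ≅ 𝟭 (KK k P) :=
  hgId (m.idIso h h')

/-- Two inverse maps over the identity. -/
noncomputable def IM.hInv (k : Type u) [Ring k] {B' : Type u} [MulAction H B'] {P' : Pre H B'}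
    (m : IM (MonoidHom.id H) P P') (m' : IM (MonoidHom.id H) P' P)
    (h : ∀ x, P.le (m'.φ (m.φ x)) x) (h' : ∀ x, P.le x (m'.φ (m.φ x))) :
    m.hF k ⋙ m'.hF k ≅ 𝟭 (KK k P) :=
  m.hComp k m' ≪≫ IM.hId k (m.comp m' : IM (MonoidHom.id H) P P) h h'

noncomputable def IM.hPushIso (k : Type u) [Ring k] {B' : Type u} [MulAction H B']
    {P' : Pre H B'} (m : IM (MonoidHom.id H) P P') (n : Loc.Mono P P')
    (h : ∀ x, P'.le (m.φ x) (n.φ x)) (h' : ∀ x, P'.le (n.φ x) (m.φ x)) :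
    m.hF k ≅ hk (Loc.push n) :=
  hgIso (m.pushIso n h h')

noncomputable def IM.hPushSq (k : Type u) [Ring k] {B' C' : Type u} [MulAction H B']
    [MulAction Γ C'] {P' : Pre H B'} {Q' : Pre Γ C'} (m : IM f P Q) (m' : IM f P' Q')
    (n : Loc.Mono P P') (n' : Loc.Mono Q Q') (h : ∀ x, Q'.le (n'.φ (m.φ x)) (m'.φ (n.φ x)))
    (h' : ∀ x, Q'.le (m'.φ (n.φ x)) (n'.φ (m.φ x))) :
    m.hF k ⋙ hk (Loc.push n') ≅ hk (Loc.push n) ⋙ m'.hF k :=
  hgSq (m.pushSq m' n n' h h')

noncomputable def IM.hBcSq {k k' : Type u} [Ring k] [Ring k'] (φ : k →+* k') (m : IM f P Q) :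
    m.hF k ⋙ hk (Loc.bc φ) ≅ hk (Loc.bc φ) ⋙ m.hF k' :=
  hgSq (m.bcSq φ)

/-- Localization and induction. -/
noncomputable def IM.hLoc (k : Type u) [Ring k] (m : IM f P Q) :
    m.hF (Polynomial k) ⋙ loc k Q ≅ loc k P ⋙ m.hF (LaurentPolynomial k) :=
  IM.hBcSq (k := Polynomial k) (k' := LaurentPolynomial k) (Polynomial.toLaurent (R := k)) m

/-! ### Finite complexes -/

theorem IM.finC (m : IM f P Q) {E : CochainComplex (Loc k P) ℤ} (hE : FinC E) :
    FinC (((m.F k).mapHomologicalComplex (ComplexShape.up ℤ)).obj E) :=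
  { fin := fun n => by
      change Finite (E.X n).ι
      exact hE.fin n
    bdd := by
      obtain ⟨a, b, hab⟩ := hE.bdd
      refine ⟨a, b, fun n hn => ?_⟩
      change IsEmpty (E.X n).ι
      exact hab n hn }

theorem IM.per (m : IM f P Q) {X : KK k P} (hX : Per X) : Per ((m.hF k).obj X) := by
  obtain ⟨E, hE, ⟨r⟩⟩ := hX
  exact per_ret (r.map (m.hF k)) (per_iso
    (((m.F k).mapHomotopyCategoryFactors (ComplexShape.up ℤ)).app E).symm (per_qo (m.finC hE)))

end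

end Pool.Agent.NegK.NT.NL
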