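import Pool.Agent.Lib.MP_28303a_al.NT.NL.GnDefs
import Pool.Agent.Lib.MP_28303a_al.PL.Pzk

/-! # K0Z: the bijectivity for `K₀` -/

set_option autoImplicit false
set_option linter.unusedSectionVars false
set_option linter.unusedVariables false

namespace Pool.Agent.NegK.NT.NL

universe u

open Pool.Agent.NegK.TW Pool.Agent.NegK.TT

namespace K0z

open Pool.Agent.NegK.PL (PZ)

/-- Torsionfree groups with an injective homomorphism to a group in `CZ`. -/
theorem inK_cz {K H : Type u} [Group K] [Group H] (hK : TorsionFree K) (j : K →* H)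
    (hj : Function.Injective j) (hH : CZ H) : InK K := by
  classical
  obtain ⟨E, iE, q, hE, hq⟩ := hH
  have hinj : Function.Injective (q.comp j) := by
    rw [injective_iff_map_eq_one]
    intro x hx
    obtain ⟨n, hn, h1⟩ := isOfFinOrder_iff_pow_eq_one.1 (hq (j x) hx)
    refine hK x n hn (hj ?_)
    rw [map_pow, h1, map_one]
  refine inK_loc K fun S => ⟨Subgroup.closure (S : Set K), fun s hs =>
    Subgroup.subset_closure hs, ?_⟩
  have hfg : Group.FG (Subgroup.closure (S : Set K)) :=
    (Group.fg_iff_subgroup_fg _).2 ⟨S, rfl⟩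
  let a : Subgroup.closure (S : Set K) →* E := (q.comp j).comp (Subgroup.closure (S : Set K)).subtype
  have h1 : Group.FG a.range := Group.fg_of_surjective a.rangeRestrict_surjective
  obtain ⟨n, hn⟩ := hE a.range ((Group.fg_iff_subgroup_fg _).1 h1)
  refine PL.pz_inK n _ (PL.PZ.of_injective n a.rangeRestrict ?_ hn)
  intro x y hxy
  exact Subtype.ext (hinj (congrArg Subtype.val hxy))

/-- Injective homomorphisms of torsionfree groups are good. -/
theorem gd_inj {Γ G : Type u} [Group Γ] [Group G] (f : Γ →* G) (hΓ : TorsionFree Γ)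
    (hf : Function.Injective f) : Gd f := by
  constructor
  · rintro ⟨y, x, rfl⟩ n hn h
    have h1 : f (x ^ n) = 1 := by
      rw [map_pow]
      exact congrArg Subtype.val h
    have h2 : x ^ n = 1 := hf (by rw [h1, map_one])
    refine Subtype.ext ?_
    show f x = 1
    rw [hΓ x n hn h2, map_one]
  · exact inN_of_subsingleton _ fun x => Subtype.ext (hf (x.2.trans (map_one f).symm))

end K0z

/-- K0Z (uses GNM, AXZ). -/
theorem k0z (hgnm : GnmStatement.{u}) (haxz : AxzStatement.{u}) : K0zStatement.{u} := by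
  intro G i hG Γ _ f hΓ hf R _ hR
  have h := hgnm _ _ _ haxz G i hG Γ f (K0z.gd_inj f hΓ hf) R hR 0
  rw [← AddMonoidHom.range_eq_top, eq_top_iff]
  refine (le_of_eq h.symm).trans (iSup_le fun H => ?_)
  rintro _ ⟨y, rfl⟩
  have hK : InK (H.1.comap f) := by
    refine K0z.inK_cz (fun g n hn hg => ?_) (f.subgroupComap H.1) ?_ H.2
    · exact Subtype.ext (hΓ g.1 n hn (by simpa using congrArg Subtype.val hg))
    · intro x y hxy
      exact Subtype.ext (hf (congrArg Subtype.val hxy))
  obtain ⟨x, hx⟩ := hK R hR y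
  refine ⟨x, ?_⟩
  show K0.map (cst R Γ) x = K0.map (mdr R (H.1.comap f).subtype) y
  rw [← hx, k0_map_map, mdr_comp_cst]

end Pool.Agent.NegK.NT.NL
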