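import Pool.Agent.Lib.MP_28303a_al.NT.NL.Defs

/-! # Located free modules over `C × B`: the layer of an orbit of `C` -/

set_option autoImplicit false
set_option linter.unusedSectionVars false
set_option linter.unusedVariables false

namespace Pool.Agent.NegK.NT.NL53

universe u

open CategoryTheory Limits
open Pool.Agent.NegK.NT.NL
open Pool.Agent.NegK.NT.EX73 (rs rs_mul rs_mdr mdr_rs rs_single rs_single0)

section

variable {k : Type u} [Ring k] {Γ C : Type u} [Group Γ] [MulAction Γ C] (c : C)

/-- The indices over the orbit. -/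
abbrev Ix (Γ : Type u) [Group Γ] {C : Type u} [MulAction Γ C] (c : C) {ι : Type u} (l : ι → C) :
    Type u := {i : ι // ∃ g : Γ, l i = g • c}

variable {ι : Type u} (l : ι → C)

/-- A group element which maps `c` to the location. -/
noncomputable def ga (i : Ix Γ c l) : Γ := i.2.choose

theorem ga_spec (i : Ix Γ c l) : l i.1 = ga c l i • c := i.2.choose_spec

theorem ga_inv (i : Ix Γ c l) : (ga c l i)⁻¹ • l i.1 = c := by
  rw [ga_spec c l i, inv_smul_smul]

open Classical in
/-- The coordinates in the layer. -/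
noncomputable def ro : (ι →₀ MonoidAlgebra k Γ) →+
    (Ix Γ c l →₀ MonoidAlgebra k (MulAction.stabilizer Γ c)) :=
  Finsupp.liftAddHom fun j => if h : ∃ g : Γ, l j = g • c then
    (Finsupp.singleAddHom (⟨j, h⟩ : Ix Γ c l)).comp ((rs k (MulAction.stabilizer Γ c)).comp
      (AddMonoidHom.mulRight (MonoidAlgebra.single (ga c l (⟨j, h⟩ : Ix Γ c l)) 1))) else 0

theorem ro_pos (i : Ix Γ c l) (a : MonoidAlgebra k Γ) :
    ro (k := k) c l (Finsupp.single i.1 a) = Finsupp.single i
      (rs k _ (a * MonoidAlgebra.single (ga c l i) 1)) := by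
  rw [ro, Finsupp.liftAddHom_apply_single, dif_pos i.2]
  rfl

theorem ro_neg {j : ι} (h : ¬ ∃ g : Γ, l j = g • c) (a : MonoidAlgebra k Γ) :
    ro (k := k) c l (Finsupp.single j a) = 0 := by
  rw [ro, Finsupp.liftAddHom_apply_single, dif_neg h]
  rfl

theorem ro_apply (x : ι →₀ MonoidAlgebra k Γ) (i : Ix Γ c l) :
    ro (k := k) c l x i = rs k _ (x i.1 * MonoidAlgebra.single (ga c l i) 1) := by
  classical
  induction x using Finsupp.induction_linear with
  | zero =>
    rw [map_zero, Finsupp.zero_apply, Finsupp.zero_apply, zero_mul, map_zero]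
  | add x y hx hy => rw [map_add, Finsupp.add_apply, hx, hy, Finsupp.add_apply, add_mul, map_add]
  | single j a =>
    by_cases h : ∃ g : Γ, l j = g • c
    · have h1 := ro_pos (k := k) c l ⟨j, h⟩ a
      refine (DFunLike.congr_fun h1 i).trans ?_
      rw [Finsupp.single_apply, Finsupp.single_apply]
      by_cases h2 : (⟨j, h⟩ : Ix Γ c l) = i
      · subst h2
        rw [if_pos rfl, if_pos rfl]
      · rw [if_neg h2, if_neg fun h3 => h2 (Subtype.ext h3), zero_mul, map_zero]
    · rw [ro_neg c l h, Finsupp.zero_apply, Finsupp.single_apply, if_neg (by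
        rintro rfl
        exact h i.2), zero_mul, map_zero]

theorem ro_coeff (x : ι →₀ MonoidAlgebra k Γ) (i : Ix Γ c l) (η : MulAction.stabilizer Γ c) :
    (ro (k := k) c l x i).coeff η = (x i.1).coeff (η.1 * (ga c l i)⁻¹) := by
  rw [ro_apply]
  change (x i.1 * MonoidAlgebra.single (ga c l i) 1).coeff η.1 = _
  rw [MonoidAlgebra.coeff_mul_single_apply, mul_one]

theorem ro_smul (b : MonoidAlgebra k (MulAction.stabilizer Γ c)) (v : ι →₀ MonoidAlgebra k Γ) :
    ro (k := k) c l (mdr k (MulAction.stabilizer Γ c).subtype b • v) = b • ro c l v := by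
  ext1 i
  rw [ro_apply, Finsupp.smul_apply, Finsupp.smul_apply, ro_apply, smul_eq_mul, smul_eq_mul,
    mul_assoc, rs_mul]

/-- The elements with the coordinates in the layer. -/
noncomputable def si : (Ix Γ c l →₀ MonoidAlgebra k (MulAction.stabilizer Γ c)) →+
    (ι →₀ MonoidAlgebra k Γ) :=
  Finsupp.liftAddHom fun i => (Finsupp.singleAddHom i.1).comp
    ((AddMonoidHom.mulRight (MonoidAlgebra.single (ga c l i)⁻¹ 1)).comp
      (mdr k (MulAction.stabilizer Γ c).subtype).toAddMonoidHom)

theorem si_single (i : Ix Γ c l) (b : MonoidAlgebra k (MulAction.stabilizer Γ c)) :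
    si (k := k) c l (Finsupp.single i b) = Finsupp.single i.1
      (mdr k (MulAction.stabilizer Γ c).subtype b * MonoidAlgebra.single (ga c l i)⁻¹ 1) := by
  rw [si, Finsupp.liftAddHom_apply_single]
  rfl

theorem si_one (i : Ix Γ c l) :
    si (k := k) c l (Finsupp.single i 1) =
      (MonoidAlgebra.single (ga c l i)⁻¹ (1 : k)) • Finsupp.single i.1 (1 : MonoidAlgebra k Γ) := by
  rw [si_single, map_one, one_mul, Finsupp.smul_single, smul_eq_mul, mul_one]

theorem si_smul (b : MonoidAlgebra k (MulAction.stabilizer Γ c))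
    (x : Ix Γ c l →₀ MonoidAlgebra k (MulAction.stabilizer Γ c)) :
    si (k := k) c l (b • x) = mdr k (MulAction.stabilizer Γ c).subtype b • si c l x := by
  induction x using Finsupp.induction_linear with
  | zero => rw [smul_zero, map_zero, smul_zero]
  | add x y hx hy => rw [smul_add, map_add, hx, hy, map_add, smul_add]
  | single i a =>
    rw [Finsupp.smul_single, si_single, si_single, smul_eq_mul, map_mul, Finsupp.smul_single,
      smul_eq_mul, mul_assoc]

theorem ro_si (x : Ix Γ c l →₀ MonoidAlgebra k (MulAction.stabilizer Γ c)) :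
    ro (k := k) c l (si c l x) = x := by
  induction x using Finsupp.induction_linear with
  | zero => rw [map_zero, map_zero]
  | add x y hx hy => rw [map_add, map_add, hx, hy]
  | single i a =>
    rw [si_single, ro_pos, mul_assoc, MonoidAlgebra.single_mul_single, inv_mul_cancel, mul_one,
      ← MonoidAlgebra.one_def, mul_one, rs_mdr]

/-- The projection to the elements of degree `c`: monomials. -/
theorem si_ro_pos {j : ι} {g : Γ} (h : g • l j = c) (r : k) :
    si (k := k) c l (ro c l (Finsupp.single j (MonoidAlgebra.single g r))) =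
      Finsupp.single j (MonoidAlgebra.single g r) := by
  have hj : ∃ g : Γ, l j = g • c := ⟨g⁻¹, by rw [← h, inv_smul_smul]⟩
  have h1 := ro_pos (k := k) c l ⟨j, hj⟩ (MonoidAlgebra.single g r)
  have h2 : g * ga c l ⟨j, hj⟩ ∈ MulAction.stabilizer Γ c := by
    rw [MulAction.mem_stabilizer_iff, mul_smul, ← ga_spec c l ⟨j, hj⟩]
    exact h
  rw [MonoidAlgebra.single_mul_single, mul_one] at h1
  have h3 := rs_single (k := k) (MulAction.stabilizer Γ c) ⟨_, h2⟩ r
  have h4 : ro (k := k) c l (Finsupp.single j (MonoidAlgebra.single g r)) =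
      Finsupp.single (⟨j, hj⟩ : Ix Γ c l) (MonoidAlgebra.single ⟨_, h2⟩ r) := by
    refine h1.trans ?_
    exact congrArg _ h3
  rw [h4, si_single, EX73.mdr_single, MonoidAlgebra.single_mul_single, mul_inv_cancel_right,
    mul_one]

theorem ro_zero {j : ι} {g : Γ} (h : g • l j ≠ c) (r : k) :
    ro (k := k) c l (Finsupp.single j (MonoidAlgebra.single g r)) = 0 := by
  by_cases hj : ∃ g : Γ, l j = g • c
  · have h1 := ro_pos (k := k) c l ⟨j, hj⟩ (MonoidAlgebra.single g r)
    refine h1.trans ?_
    rw [MonoidAlgebra.single_mul_single, mul_one, rs_single0, Finsupp.single_zero]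
    intro h2
    refine h ?_
    rw [MulAction.mem_stabilizer_iff, mul_smul, ← ga_spec c l ⟨j, hj⟩] at h2
    exact h2
  · exact ro_neg c l hj _

/-- The vanishing of the coordinates. -/
theorem ro_eq_zero (x : ι →₀ MonoidAlgebra k Γ)
    (h : ∀ j g, (x j).coeff g ≠ 0 → g • l j ≠ c) : ro (k := k) c l x = 0 := by
  refine Finsupp.ext fun i => MonoidAlgebra.coeff_injective (Finsupp.ext fun η => ?_)
  rw [ro_coeff]
  by_contra hc
  refine h _ _ hc ?_
  rw [mul_smul, ga_inv]
  exact η.2

/-- The expansion of an element in monomials. -/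
theorem expand (v : ι →₀ MonoidAlgebra k Γ) : v = ∑ i ∈ v.support, ∑ g ∈ (v i).coeff.support,
    Finsupp.single i (MonoidAlgebra.single g ((v i).coeff g)) := by
  conv_lhs => rw [← Finsupp.sum_single v]
  refine Finset.sum_congr rfl fun i _ => ?_
  have h2 : v i = ∑ g ∈ (v i).coeff.support, MonoidAlgebra.single g ((v i).coeff g) := by
    refine MonoidAlgebra.coeff_injective ?_
    rw [MonoidAlgebra.coeff_sum]
    conv_lhs => rw [← Finsupp.sum_single (v i).coeff]
    refine Finset.sum_congr rfl fun g _ => ?_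
    rw [MonoidAlgebra.coeff_single]
  conv_lhs => rw [h2]
  exact map_sum (Finsupp.singleAddHom i) _ _

/-- Additive maps which agree on the monomials of `v` agree on `v`. -/
theorem eq_on {Z : Type*} [AddCommGroup Z] (f h : (ι →₀ MonoidAlgebra k Γ) →+ Z)
    (v : ι →₀ MonoidAlgebra k Γ)
    (H : ∀ j g r, (v j).coeff g ≠ 0 → f (Finsupp.single j (MonoidAlgebra.single g r)) =
      h (Finsupp.single j (MonoidAlgebra.single g r))) : f v = h v := by
  rw [expand v, map_sum, map_sum]
  refine Finset.sum_congr rfl fun i _ => ?_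
  rw [map_sum, map_sum]
  exact Finset.sum_congr rfl fun g hg => H i g _ (Finsupp.mem_support_iff.1 hg)

end

/-! ### The layer functor -/

section

variable {k : Type u} [Ring k] {Γ C B : Type u} [Group Γ] [MulAction Γ C] [MulAction Γ B]
  {Q : Pre Γ C} {P : Pre Γ B} (c : C)

/-- The layer. -/
noncomputable abbrev lob (A : Loc k (prP Q P)) : Loc k (sbP P (MulAction.stabilizer Γ c)) :=
  ⟨Ix Γ c (fun i => (A.loc i).1), fun i => (ga c (fun i => (A.loc i).1) i)⁻¹ • (A.loc i.1).2⟩

/-- The supports. -/
theorem supp1 {A A' : Loc k (prP Q P)} (f : A ⟶ A') (i : (lob c A).ι) (j : A'.ι) (g : Γ)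
    (h : ((Loc.lin f (si c _ (Finsupp.single i 1))) j).coeff g ≠ 0) :
    (prP Q P).le (c, (lob c A).loc i) (g • A'.loc j) := by
  rw [si_one, map_smul, Finsupp.smul_apply, smul_eq_mul,
    MonoidAlgebra.coeff_single_mul_apply, one_mul, inv_inv] at h
  have h1 := Loc.spt_lin f i.1 j _ h
  have h2 := (prP Q P).smul (ga c (fun i => (A.loc i).1) i)⁻¹ h1
  rw [smul_smul, inv_mul_cancel_left] at h2
  have h3 : (ga c (fun i => (A.loc i).1) i)⁻¹ • A.loc i.1 = (c, (lob c A).loc i) :=
    Prod.ext (ga_inv c (fun i => (A.loc i).1) i) rfl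
  rwa [h3] at h2

/-- The map of the layers. -/
noncomputable def lmp {A A' : Loc k (prP Q P)} (f : A ⟶ A') : lob c A ⟶ lob c A' :=
  Loc.ofB (A := lob c A) (A' := lob c A')
    (fun i => ro c _ (Loc.lin f (si c _ (Finsupp.single i 1)))) (by
    intro i j η h
    rw [ro_coeff] at h
    have h1 := (supp1 c f i j.1 _ h).2
    have h2 : ((η.1 * (ga c (fun i => (A'.loc i).1) j)⁻¹) • A'.loc j.1).2 =
      η • (lob c A').loc j := mul_smul _ _ _
    rw [h2] at h1
    exact h1)

theorem lin_lmp {A A' : Loc k (prP Q P)} (f : A ⟶ A') (x : (lob c A).F) :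
    Loc.lin (lmp c f) x = ro c _ (Loc.lin f (si c _ x)) := by
  induction x using Finsupp.induction_linear with
  | zero => rw [map_zero, map_zero, map_zero, map_zero]
  | add x y hx hy => rw [map_add, hx, hy, map_add, map_add, map_add]
  | single i b =>
    have h1 : (Finsupp.single i b : (lob c A).F) =
        b • Finsupp.single i (1 : MonoidAlgebra k (MulAction.stabilizer Γ c)) := by
      rw [Finsupp.smul_single, smul_eq_mul, mul_one]
    rw [h1, map_smul, si_smul, map_smul, ro_smul]
    exact congrArg (fun z => b • z) (Loc.lin_ofB (A := lob c A) (A' := lob c A') _ _ i)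

variable {sz : C → ℕ} (h1 : ∀ (g : Γ) (c : C), sz (g • c) = sz c)
  (h2 : ∀ c c', Q.le c c' → c ≠ c' → sz c < sz c')

include h2 in
/-- The order. -/
theorem sandw {x : C} (h : Q.le c x) (h' : Q.le x c) : x = c := by
  by_contra hc
  have h3 := h2 _ _ h (Ne.symm hc)
  have h4 := h2 _ _ h' hc
  omega

include h2 in
/-- The projection to the elements of degree `c` does not change the coordinates in the layer of the
image. -/
theorem ro_lin {A A' : Loc k (prP Q P)} (f : A ⟶ A') (v : A.F)
    (hv : ∀ j g, (v j).coeff g ≠ 0 → Q.le c (g • (A.loc j).1)) :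
    ro c (fun i => (A'.loc i).1) (Loc.lin f (si c _ (ro c (fun i => (A.loc i).1) v))) =
      ro c _ (Loc.lin f v) := by
  refine eq_on (((ro c (fun i => (A'.loc i).1)).comp (Loc.lin f).toAddMonoidHom).comp
    ((si c _).comp (ro c (fun i => (A.loc i).1))))
    ((ro c (fun i => (A'.loc i).1)).comp (Loc.lin f).toAddMonoidHom) v fun j g r hg => ?_
  have h3 := hv j g hg
  by_cases h : g • (A.loc j).1 = c
  · show ro c _ (Loc.lin f (si c _ (ro c (fun i => (A.loc i).1)
      (Finsupp.single j (MonoidAlgebra.single g r))))) = ro c _ (Loc.lin f _)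
    rw [si_ro_pos c (fun i => (A.loc i).1) h]
  · show ro c _ (Loc.lin f (si c _ (ro c (fun i => (A.loc i).1)
      (Finsupp.single j (MonoidAlgebra.single g r))))) = ro c _ (Loc.lin f _)
    rw [ro_zero c (fun i => (A.loc i).1) h, map_zero, map_zero, map_zero]
    refine (ro_eq_zero c _ _ fun l g' hg' hl => ?_).symm
    have h4 : (Finsupp.single j (MonoidAlgebra.single g r) : A.F) =
        MonoidAlgebra.single g r • Finsupp.single j 1 := by
      rw [Finsupp.smul_single, smul_eq_mul, mul_one]
    rw [h4, map_smul, Finsupp.smul_apply, smul_eq_mul] at hg'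
    obtain ⟨g₁, g₂, h5, h6, rfl⟩ := Loc.exists_of_mul hg'
    have h7 : g = g₁ := by
      classical
      rw [MonoidAlgebra.coeff_single, Finsupp.single_apply] at h5
      by_contra hc
      rw [if_neg hc] at h5
      exact h5 rfl
    subst h7
    have h8 := Q.smul g (Loc.spt_lin f j l g₂ h6).1
    have h9 : g • (g₂ • A'.loc l).1 = c := by
      rw [← hl]
      exact (mul_smul _ _ _).symm
    rw [h9] at h8
    exact h (sandw c h2 h3 h8)

/-- The layer functor. -/
noncomputable def lay : Loc k (prP Q P) ⥤ Loc k (sbP P (MulAction.stabilizer Γ c)) where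
  obj A := lob c A
  map f := lmp c f
  map_id A := by
    refine Loc.ext_basis (A := lob c A) (A' := lob c A) fun i => ?_
    rw [lin_lmp, Loc.lin_id, LinearMap.id_apply, ro_si]
    rfl
  map_comp {A A' A''} f g := by
    refine Loc.ext_basis (A := lob c A) (A' := lob c A'') fun i => ?_
    rw [Loc.lin_comp, LinearMap.comp_apply, lin_lmp, lin_lmp, lin_lmp, Loc.lin_comp,
      LinearMap.comp_apply]
    exact (ro_lin c h2 g _ fun j g' h => (supp1 c f i j g' h).1).symm

theorem lmp_add {A A' : Loc k (prP Q P)} (f g : A ⟶ A') :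
    lmp c (f + g) = lmp c f + lmp c g := by
  refine Loc.ext_basis (A := lob c A) (A' := lob c A') fun i => ?_
  rw [Loc.lin_add, LinearMap.add_apply, lin_lmp, lin_lmp, lin_lmp, Loc.lin_add,
    LinearMap.add_apply, map_add]

theorem lay_add : (lay (k := k) (P := P) c h2).Additive where
  map_add {A A' f g} := lmp_add c f g

end

end Pool.Agent.NegK.NT.NL53
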