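import Pool.Agent.Lib.MP_28303a_al.NT.NL.AxV

/-! # Solvable groups of finite exponent -/

set_option autoImplicit false
set_option linter.unusedSectionVars false
set_option linter.unusedVariables false

namespace Pool.Agent.NegK.NT.NL

universe u

open Pool.Agent.NegK.TW Pool.Agent.NegK.TT Pool.Agent.NegK.RK

theorem map_derived {G : Type u} [Group G] : ∀ n : ℕ,
    (derivedSeries (commutator G) n).map (commutator G).subtype = derivedSeries G (n + 1)
  | 0 => by
    rw [derivedSeries_zero, ← MonoidHom.range_eq_map, Subgroup.range_subtype, derivedSeries_one]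
  | n + 1 => by
    rw [derivedSeries_succ, Subgroup.map_commutator, map_derived n, ← derivedSeries_succ]

/-- Solvable groups of finite exponent. -/
theorem bx_of : ∀ (n : ℕ) (G : Type u) [Group G] (e : ℕ), 0 < e → (∀ g : G, g ^ e = 1) →
    derivedSeries G n = ⊥ → BX n G
  | 0, G, _, e, he, h, hd => by
    rw [derivedSeries_zero] at hd
    exact ⟨fun a b => by
      have ha : a ∈ (⊥ : Subgroup G) := by
        rw [← hd]
        exact Subgroup.mem_top a
      have hb : b ∈ (⊥ : Subgroup G) := by
        rw [← hd]
        exact Subgroup.mem_top b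
      rw [Subgroup.mem_bot.1 ha, Subgroup.mem_bot.1 hb]⟩
  | n + 1, G, _, e, he, h, hd => by
    have h1 : BX n (commutator G) := by
      refine bx_of n (commutator G) e he (fun g => Subtype.ext ?_) ?_
      · rw [SubmonoidClass.coe_pow]
        exact h g.1
      · have h2 := map_derived (G := G) n
        rw [hd] at h2
        exact (Subgroup.map_eq_bot_iff_of_injective _ (commutator G).subtype_injective).1 h2
    have h3 : (Abelianization.of : G →* Abelianization G).ker = commutator G :=
      Abelianization.ker_of G
    refine ⟨Abelianization G, inferInstance, e, Abelianization.of, he, fun a => ?_, ?_⟩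
    · obtain ⟨g, rfl⟩ := QuotientGroup.mk_surjective a
      have h4 : (QuotientGroup.mk g : Abelianization G) = Abelianization.of g := rfl
      rw [h4, ← map_pow, h, map_one]
    · rw [h3]
      exact h1

/-- The converse. -/
theorem of_bx : ∀ (n : ℕ) (G : Type u) [Group G], BX n G →
    Group.IsSolvable G ∧ ∃ e, 0 < e ∧ ∀ g : G, g ^ e = 1
  | 0, G, _, h => by
    have : Subsingleton G := h
    exact ⟨inferInstance, 1, one_pos, fun g => Subsingleton.elim _ _⟩
  | n + 1, G, _, ⟨A, _, e, f, he, hA, h⟩ => by
    obtain ⟨h1, e', he', h2⟩ := of_bx n f.ker h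
    have h5 : Group.IsSolvable G :=
      Group.isSolvable_of_ker_le_range f.ker.subtype f (by rw [Subgroup.range_subtype])
    refine ⟨h5, e * e', Nat.mul_pos he he', fun g => ?_⟩
    · have h3 : f (g ^ e) = 1 := by rw [map_pow, hA]
      have h4 := congrArg Subtype.val (h2 ⟨g ^ e, h3⟩)
      rw [SubmonoidClass.coe_pow, OneMemClass.coe_one] at h4
      rw [pow_mul]
      exact h4

theorem nv_iff (G : Type u) [Group G] :
    NV G ↔ Group.IsSolvable G ∧ ∃ e, 0 < e ∧ ∀ g : G, g ^ e = 1 := by
  constructor
  · rintro ⟨k, h⟩
    exact of_bx k G h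
  · rintro ⟨⟨n, hn⟩, e, he, h⟩
    exact ⟨n, bx_of n G e he h hn⟩

end Pool.Agent.NegK.NT.NL
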