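import Pool.Agent.Lib.MP_28303a_al.NT.NL.Axz
import Pool.Agent.Lib.MP_28303a_al.NT.NL.Slv
import Pool.Agent.Lib.MP_28303a_al.PL.Ptf

/-! # Classes of groups with actions on trees -/

set_option autoImplicit false
set_option linter.unusedSectionVars false
set_option linter.unusedVariables false

namespace Pool.Agent.NegK.TreeClasses

universe u

open Pool.Agent.NegK Pool.Agent.NegK.TW

/-- The class `𝒩`: for every regular ring `R` the group ring `R[G]` is a regular ring. -/
def ClassN (G : Type u) [Group G] : Prop :=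
  ∀ (R : Type u) [Ring R], RegularRing R → RegularRing (MonoidAlgebra R G)

/-- Poly-`ℤ` groups: the smallest class of groups which contains the trivial groups and every group
`G` with a homomorphism to `ℤ` whose kernel is in the class. -/
inductive PolyZ : (G : Type u) → [Group G] → Prop
  | triv (G : Type u) [Group G] : Subsingleton G → PolyZ G
  | ext (G : Type u) [Group G] (φ : G →* Multiplicative ℤ) : PolyZ φ.ker → PolyZ G

/-- Groups with a poly-`ℤ` subgroup of finite index. -/
def VirtuallyPolyZ (G : Type u) [Group G] : Prop :=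
  ∃ H : Subgroup G, H.FiniteIndex ∧ PolyZ H

/-- Solvable groups of finite exponent. -/
def Bounded (G : Type u) [Group G] : Prop :=
  Group.IsSolvable G ∧ ∃ e, 0 < e ∧ ∀ g : G, g ^ e = 1

/-- Groups all whose elements have finite order. -/
def Torsion (G : Type u) [Group G] : Prop := ∀ g : G, ∃ n, 0 < n ∧ g ^ n = 1

/-- The homomorphism `χ` is good: there is a normal subgroup `N` in the class `𝒩` such that `Γ / N`
is torsionfree, `N` is contained in the kernel of `χ` and the image of this kernel in `Γ / N` is
virtually poly-`ℤ`. -/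
def Good {Γ P : Type u} [Group Γ] [Group P] (χ : Γ →* P) : Prop :=
  ∃ (N : Subgroup Γ) (_ : N.Normal), ClassN N ∧ TorsionFree (Γ ⧸ N) ∧ N ≤ χ.ker ∧
    VirtuallyPolyZ (χ.ker.map (QuotientGroup.mk' N))

/-- `G` acts on the tree `T` without inversions. -/
structure IsTreeAction (G : Type u) [Group G] {V : Type u} [MulAction G V] (T : SimpleGraph V) :
    Prop where
  tree : T.IsTree
  adj : ∀ (g : G) (v w : V), T.Adj v w → T.Adj (g • v) (g • w)
  no_inversion : ∀ (g : G) (v w : V), T.Adj v w → ¬ (g • v = w ∧ g • w = v)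

section

variable (A B : (E : Type u) → [Group E] → Prop)

/-- Every finitely generated subgroup `S` of `G` has a normal subgroup `N` in the class `A` such that
`S / N` is in the class `B`. -/
def Small (G : Type u) [Group G] : Prop :=
  ∀ S : Subgroup G, S.FG → ∃ (N : Subgroup S) (_ : N.Normal), A N ∧ B (S ⧸ N)

/-- The smallest class of groups with the following properties.  It contains the groups in `Small`.
It contains a group `G` if there is a homomorphism from `G` to a group of the class with kernel in
`A`, or if all finitely generated subgroups of `G` are in the class, or if `G` is the product of two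
groups of the class.  It contains a group `G` which acts without inversions on trees
`T 0, ..., T (m - 1)` if the stabilizers of all tuples of vertices `(v 0, ..., v (m - 1))` are in the
class and the intersections of such a stabilizer and the stabilizer of a neighbour `w` of one of the
vertices `v j` are in `Small`. -/
inductive TreeClass : (G : Type u) → Group G → Prop
  | small (G : Type u) [i : Group G] : Small A B G → TreeClass G i
  | ker (G Q : Type u) [i : Group G] [j : Group Q] (f : G →* Q) : TreeClass Q j → A f.ker →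
      TreeClass G i
  | union (G : Type u) [i : Group G] : (∀ S : Subgroup G, S.FG → TreeClass S inferInstance) →
      TreeClass G i
  | prod (G G' : Type u) [i : Group G] [j : Group G'] : TreeClass G i → TreeClass G' j →
      TreeClass (G × G') inferInstance
  | trees (G : Type u) [i : Group G] (m : ℕ) (V : Fin m → Type u) [∀ j, MulAction G (V j)]
      (T : ∀ j, SimpleGraph (V j)) : (∀ j, IsTreeAction G (T j)) →
      (∀ (v : ∀ j, V j) (j : Fin m) (w : V j), (T j).Adj (v j) w →
        Small A B ((⨅ j, MulAction.stabilizer G (v j)) ⊓ MulAction.stabilizer G w : Subgroup G)) →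
      (∀ v : ∀ j, V j, TreeClass (⨅ j, MulAction.stabilizer G (v j) : Subgroup G) inferInstance) →
      TreeClass G i

end

/-! ### Comparison with the classes of the proof -/

open NT.NL

theorem PolyZ.pz {G : Type u} [Group G] (h : PolyZ G) : ∃ n, PL.PZ n G := by
  induction h with
  | triv G h => exact ⟨0, h⟩
  | ext G φ _ ih =>
    obtain ⟨n, hn⟩ := ih
    exact ⟨n + 1, φ, hn⟩

theorem polyZ_of : ∀ (n : ℕ) {G : Type u} [Group G], PL.PZ n G → PolyZ G
  | 0, G, _, h => PolyZ.triv G h
  | n + 1, G, _, ⟨φ, h⟩ => PolyZ.ext G φ (polyZ_of n h)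

theorem VirtuallyPolyZ.vz {G : Type u} [Group G] (h : VirtuallyPolyZ G) : ∃ n, RK.VZ n G := by
  obtain ⟨H, h1, h2⟩ := h
  obtain ⟨n, hn⟩ := h2.pz
  exact ⟨n, H, h1, hn⟩

theorem VirtuallyPolyZ.of {n : ℕ} {G : Type u} [Group G] (h : RK.VZ n G) : VirtuallyPolyZ G := by
  obtain ⟨H, h1, h2⟩ := h
  exact ⟨H, h1, polyZ_of n h2⟩

theorem Good.vk {Γ P : Type u} [Group Γ] [Group P] {χ : Γ →* P} (h : Good χ) :
    ∃ (D : Type u) (_ : Group D) (δ : Γ →* D) (n : ℕ), RK.VK n δ χ := by
  obtain ⟨N, hn, h1, h2, h3, h4⟩ := h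
  obtain ⟨n, h5⟩ := h4.vz
  refine ⟨Γ ⧸ N, inferInstance, QuotientGroup.mk' N, n, fun g m hm hg => h2 _ m hm hg, ?_,
    fun g hg => h3 ((QuotientGroup.eq_one_iff g).1 hg), h5⟩
  have key : ∀ M : Subgroup Γ, N = M → TT.InN M := by
    rintro _ rfl
    exact h1
  exact key _ (QuotientGroup.ker_mk' N).symm

theorem classN_of_subsingleton {G : Type u} [Group G] (h : ∀ x : G, x = 1) : ClassN G :=
  TT.inN_of_subsingleton G h

/-- Torsionfree groups: homomorphisms with virtually poly-`ℤ` kernel are good. -/
theorem good_of_tf {Γ P : Type u} [Group Γ] [Group P] (htf : TorsionFree Γ) (χ : Γ →* P)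
    (h : VirtuallyPolyZ χ.ker) : Good χ := by
  refine ⟨⊥, inferInstance, classN_of_subsingleton fun x => Subtype.ext x.2, ?_, bot_le, ?_⟩
  · intro g m hm hg
    obtain ⟨g, rfl⟩ := QuotientGroup.mk_surjective g
    have h1 : g ^ m ∈ (⊥ : Subgroup Γ) := (QuotientGroup.eq_one_iff _).1 hg
    have h2 : g = 1 := htf g m hm h1
    rw [h2]
    rfl
  · obtain ⟨n, hn⟩ := h.vz
    have hinj : Function.Injective (QuotientGroup.mk' (⊥ : Subgroup Γ)) := by
      rw [← MonoidHom.ker_eq_bot_iff, QuotientGroup.ker_mk']
    exact VirtuallyPolyZ.of (RK.VZ.of_injective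
      (χ.ker.equivMapOfInjective _ hinj).symm.toMonoidHom
      (χ.ker.equivMapOfInjective _ hinj).symm.injective hn)

theorem tr_of {G : Type u} [Group G] {V : Type u} [MulAction G V] {T : SimpleGraph V}
    (h : IsTreeAction G T) : TreeAct G T := ⟨h.tree, h.adj, h.no_inversion⟩

theorem tr_to {G : Type u} [Group G] {V : Type u} [MulAction G V] {T : SimpleGraph V}
    (h : TreeAct G T) : IsTreeAction G T := ⟨h.tree, h.adj, h.noinv⟩

section

variable {A B : (E : Type u) → [Group E] → Prop} {C N : GCls.{u}}

theorem class_to (h1 : ∀ (G : Type u) [Group G], Small A B G → C G)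
    (h2 : ∀ (G : Type u) [Group G], A G → N G) {G : Type u} {i : Group G}
    (h : TreeClass A B G i) : Clx C N G i := by
  induction h with
  | small G h => exact Clx.c0 G (h1 G h)
  | ker G Q f _ hf ih => exact Clx.tk G Q f ih (h2 _ hf)
  | union G _ ih => exact Clx.fg G ih
  | prod G G' _ _ ih ih' => exact Clx.pr G G' ih ih'
  | trees G m V T hT he _ ih =>
    exact Clx.tree G ⟨m, V, fun j => inferInstance, T, fun j => tr_of (hT j)⟩
      (fun j v w hvw => h1 _ (he v j w hvw)) ih

theorem class_of (h1 : ∀ (G : Type u) [Group G], C G → Small A B G)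
    (h2 : ∀ (G : Type u) [Group G], N G → A G) {G : Type u} {i : Group G}
    (h : Clx C N G i) : TreeClass A B G i := by
  induction h with
  | c0 G h => exact TreeClass.small G (h1 G h)
  | tk G Q f _ hf ih => exact TreeClass.ker G Q f ih (h2 _ hf)
  | fg G _ ih => exact TreeClass.union G ih
  | pr G G' _ _ ih ih' => exact TreeClass.prod G G' ih ih'
  | tree G Y he _ ih =>
    exact TreeClass.trees G Y.m Y.V Y.G (fun j => tr_to (Y.tree j))
      (fun v j w hvw => h1 _ (he j v w hvw)) ih

end

/-! The first version: solvable kernels of finite exponent, virtually poly-`ℤ` groups. -/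

theorem small_cv (G : Type u) [Group G] : Small Bounded VirtuallyPolyZ G ↔ CV G := by
  constructor
  · intro h S hS
    obtain ⟨N, hN, h1, h2⟩ := h S hS
    obtain ⟨m, hm⟩ := h2.vz
    refine ⟨S ⧸ N, inferInstance, m, QuotientGroup.mk' N, hm, ?_⟩
    have key : ∀ M : Subgroup S, N = M → NV M := by
      rintro _ rfl
      exact (nv_iff _).2 h1
    exact key _ (QuotientGroup.ker_mk' N).symm
  · intro h S hS
    obtain ⟨E, _, m, q, hE, hq⟩ := h S hS
    exact ⟨q.ker, inferInstance, (nv_iff _).1 hq, VirtuallyPolyZ.of (RK.VZ.of_injective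
      (QuotientGroup.kerLift q) (QuotientGroup.kerLift_injective q) hE)⟩

theorem class_cv {G : Type u} {i : Group G} :
    TreeClass Bounded VirtuallyPolyZ G i ↔ Clx CV NV G i :=
  ⟨class_to (fun G _ => (small_cv G).1) fun G _ => (nv_iff G).2,
    class_of (fun G _ => (small_cv G).2) fun G _ => (nv_iff G).1⟩

/-! The second version: torsion kernels, poly-`ℤ` groups. -/

theorem tor_iff (G : Type u) [Group G] : Torsion G ↔ ∀ g : G, IsOfFinOrder g :=
  forall_congr' fun g => isOfFinOrder_iff_pow_eq_one.symm

theorem pz_tf : ∀ (n : ℕ) {G : Type u} [Group G], PL.PZ n G → TorsionFree G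
  | 0, G, _, h => fun g _ _ _ => by
    have : Subsingleton G := h
    exact Subsingleton.elim _ _
  | n + 1, G, _, ⟨φ, h⟩ => fun g m hm hg => by
    have h1 : φ g = 1 := by
      have h2 : φ g ^ m = 1 := by rw [← map_pow, hg, map_one]
      have h3 : (m : ℤ) * Multiplicative.toAdd (φ g) = 0 := by
        have h4 := congrArg Multiplicative.toAdd h2
        rw [toAdd_pow, toAdd_one, nsmul_eq_mul] at h4
        exact h4
      rcases mul_eq_zero.1 h3 with h5 | h5
      · exact absurd (by exact_mod_cast h5) hm.ne'
      · exact Multiplicative.toAdd.injective h5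
    exact congrArg Subtype.val (pz_tf n h ⟨g, h1⟩ m hm (Subtype.ext hg))

theorem small_cz (G : Type u) [Group G] : Small Torsion PolyZ G ↔ CZ G := by
  classical
  constructor
  · intro h
    have key : ∀ (S : Subgroup G), S.FG → ∃ (N : Subgroup S) (_ : N.Normal),
        (∀ x : S, x ∈ N ↔ IsOfFinOrder (x : G)) ∧ PolyZ (S ⧸ N) := by
      intro S hS
      obtain ⟨N, hN, h1, h2⟩ := h S hS
      refine ⟨N, hN, fun x => ⟨fun hx => ?_, fun hx => ?_⟩, h2⟩
      · obtain ⟨n, hn, h3⟩ := h1 ⟨x, hx⟩
        refine isOfFinOrder_iff_pow_eq_one.2 ⟨n, hn, ?_⟩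
        have h4 : x ^ n = 1 := congrArg Subtype.val h3
        exact congrArg Subtype.val h4
      · obtain ⟨n, hn⟩ := h2.pz
        obtain ⟨m, hm, h3⟩ := isOfFinOrder_iff_pow_eq_one.1 hx
        have h4 : x ^ m = 1 := Subtype.ext h3
        refine (QuotientGroup.eq_one_iff x).1 (pz_tf n hn _ m hm ?_)
        show (QuotientGroup.mk' N x) ^ m = 1
        rw [← map_pow, h4, map_one]
    -- the torsion elements
    let T : Subgroup G :=
      { carrier := {g | IsOfFinOrder g}
        one_mem' := IsOfFinOrder.one
        inv_mem' := fun {x} hx => hx.inv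
        mul_mem' := fun {x y} hx hy => by
          obtain ⟨N, hN, h1, h2⟩ := key (Subgroup.closure {x, y})
            ⟨{x, y}, by rw [Finset.coe_insert, Finset.coe_singleton]⟩
          have hx' : x ∈ Subgroup.closure ({x, y} : Set G) :=
            Subgroup.subset_closure (Set.mem_insert _ _)
          have hy' : y ∈ Subgroup.closure ({x, y} : Set G) :=
            Subgroup.subset_closure (Set.mem_insert_of_mem _ rfl)
          have h3 := N.mul_mem ((h1 ⟨x, hx'⟩).2 hx) ((h1 ⟨y, hy'⟩).2 hy)
          exact (h1 _).1 h3 }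
    have hT : T.Normal := ⟨fun x hx g => by
      obtain ⟨n, hn, h1⟩ := isOfFinOrder_iff_pow_eq_one.1 hx
      refine isOfFinOrder_iff_pow_eq_one.2 ⟨n, hn, ?_⟩
      rw [conj_pow, h1, mul_one, mul_inv_cancel]⟩
    refine ⟨G ⧸ T, inferInstance, QuotientGroup.mk' T, ?_,
      fun g hg => (QuotientGroup.eq_one_iff g).1 hg⟩
    intro S hS
    obtain ⟨X, hX⟩ := hS
    obtain ⟨Y, hY⟩ : ∃ Y : Finset G, Y.image (QuotientGroup.mk' T) = X := by
      refine ⟨X.image Quotient.out, ?_⟩
      rw [Finset.image_image]
      refine (Finset.image_congr fun x _ => ?_).trans Finset.image_id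
      exact Quotient.out_eq x
    let S' : Subgroup G := Subgroup.closure (Y : Set G)
    have hS' : S'.map (QuotientGroup.mk' T) = S := by
      rw [← hX, ← hY, Finset.coe_image, MonoidHom.map_closure]
    obtain ⟨N, hN, h1, h2⟩ := key S' ⟨Y, rfl⟩
    obtain ⟨n, hn⟩ := h2.pz
    refine ⟨n, ?_⟩
    let a : S' →* G ⧸ T := (QuotientGroup.mk' T).comp S'.subtype
    have ha : a.ker = N := by
      ext x
      rw [h1]
      exact QuotientGroup.eq_one_iff x.1
    have har : a.range = S := by
      rw [← hS', MonoidHom.range_comp, Subgroup.range_subtype]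
    have e1 : PL.PZ n a.range := by
      have e2 : PL.PZ n (S' ⧸ a.ker) := by
        have key2 : ∀ (M : Subgroup S') (_ : M.Normal), N = M → PL.PZ n (S' ⧸ M) := by
          rintro _ _ rfl
          exact hn
        exact key2 _ inferInstance ha.symm
      exact PL.PZ.of_injective n (QuotientGroup.quotientKerEquivRange a).symm.toMonoidHom
        (QuotientGroup.quotientKerEquivRange a).symm.injective e2
    have key3 : ∀ M : Subgroup (G ⧸ T), a.range = M → PL.PZ n M := by
      rintro _ rfl
      exact e1
    exact key3 _ har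
  · rintro ⟨E, _, q, hE, hq⟩ S hS
    have hS' : Group.FG S := (Group.fg_iff_subgroup_fg S).2 hS
    obtain ⟨n, hn⟩ := Axz.map hE hS' (q.comp S.subtype)
    refine ⟨(q.comp S.subtype).ker, inferInstance, fun x => ?_, polyZ_of n
      (PL.PZ.of_injective n (QuotientGroup.quotientKerEquivRange (q.comp S.subtype)).toMonoidHom
        (QuotientGroup.quotientKerEquivRange (q.comp S.subtype)).injective hn)⟩
    obtain ⟨m, hm, h1⟩ := isOfFinOrder_iff_pow_eq_one.1 (hq x.1.1 x.2)
    exact ⟨m, hm, Subtype.ext (Subtype.ext h1)⟩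

theorem class_cz {G : Type u} {i : Group G} :
    TreeClass Torsion PolyZ G i ↔
      Clx (fun G _ => CZ G) (fun G _ => ∀ g : G, IsOfFinOrder g) G i :=
  ⟨class_to (fun G _ => (small_cz G).1) fun G _ => (tor_iff G).1,
    class_of (fun G _ => (small_cz G).2) fun G _ => (tor_iff G).2⟩

end Pool.Agent.NegK.TreeClasses
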