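import Pool.Agent.Lib.MP_28303a_al.NT.NL.Defs

/-! # Row RESA: functors which are acyclic in all directions have finite resolutions -/

set_option autoImplicit false
set_option linter.unusedSectionVars false
set_option linter.unusedVariables false

namespace Pool.Agent.NegK.NT.NL

universe u

open CategoryTheory Limits Opposite
open Pool.Agent.NegK.TW Pool.Agent.NegK.NT.ER

section

variable {Γ : Type u} [Group Γ] {T : Sys Γ} {D : T.Tr} [∀ j, MulAction Γ (D.V j)]
  [∀ j, MulAction Γ (D.E j)] (K : ∀ j, Mk D j) (k : Type u) [Ring k]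

/-- The composition of the functors `Xf` (the first element of the list is applied first). -/
noncomputable def XL : List (Bool × Fin T.m) → (Fn k (T.P Finset.univ) ⥤ Fn k (T.P Finset.univ))
  | [] => 𝟭 _
  | p :: l => Xf K k p ⋙ XL l

variable {K k}

theorem exct_id : Exct (T := T) k (𝟭 _) := fun S hS => ⟨S.zero, hS⟩

theorem exct_comp {F G : Fn k (T.P Finset.univ) ⥤ Fn k (T.P Finset.univ)} (hF : Exct k F)
    (hG : Exct k G) : Exct k (F ⋙ G) := fun S hS => by
  obtain ⟨w, hw⟩ := hF S hS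
  exact hG _ hw

theorem Xf_true (j : Fin T.m) : Xf K k (true, j) = Yf K k j := rfl

theorem Xf_false (j : Fin T.m) : Xf K k (false, j) = Zf K k j := rfl

theorem exct_Xf (hE : ExzStatement.{u}) (p : Bool × Fin T.m) : Exct k (Xf K k p) := by
  obtain ⟨b, j⟩ := p
  cases b
  · exact (hE Γ T D K k j).1
  · exact (hE Γ T D K k j).2

theorem exct_XL (hE : ExzStatement.{u}) (l : List (Bool × Fin T.m)) : Exct k (XL K k l) := by
  induction l with
  | nil => exact exct_id
  | cons p l ih => exact exct_comp (exct_Xf hE p) ih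

theorem vn_Xf (hV : VnzStatement.{u}) (p : Bool × Fin T.m) (A : Finset (Fin T.m))
    (M : Fn k (T.P Finset.univ)) (h : Vn D A M) : Vn D (A.erase p.2) ((Xf K k p).obj M) := by
  obtain ⟨b, j⟩ := p
  cases b
  · exact (hV Γ T D K k j A M h).1
  · exact (hV Γ T D K k j A M h).2

theorem vn_XL (hV : VnzStatement.{u}) (l : List (Bool × Fin T.m)) :
    ∀ (A : Finset (Fin T.m)) (M : Fn k (T.P Finset.univ)), Vn D A M →
      (∀ j ∈ A, ∃ b, (b, j) ∈ l) → Vn D ∅ ((XL K k l).obj M) := by
  induction l with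
  | nil =>
    intro A M hM hA
    have h : A = ∅ := Finset.eq_empty_of_forall_notMem fun j hj => by
      obtain ⟨b, hb⟩ := hA j hj
      exact (List.not_mem_nil hb).elim
    subst h
    exact hM
  | cons p l ih =>
    intro A M hM hA
    refine ih (A.erase p.2) _ (vn_Xf hV p A M hM) fun j hj => ?_
    obtain ⟨b, hb⟩ := hA j (Finset.mem_of_mem_erase hj)
    rcases List.mem_cons.1 hb with h | h
    · exact absurd (congrArg Prod.snd h) (Finset.ne_of_mem_erase hj)
    · exact ⟨b, h⟩

theorem isZero_of_vn {M : Fn k (T.P Finset.univ)} (h : Vn D ∅ M) : IsZero M := by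
  rw [IsZero.iff_id_eq_zero]
  refine NatTrans.ext (funext fun W => ModuleCat.hom_ext (LinearMap.ext fun x => ?_))
  have h1 := h W.unop.pt fun j hj => absurd hj (Finset.notMem_empty j)
  exact @Subsingleton.elim _ h1 _ _

theorem vn_of_isZero {M : Fn k (T.P Finset.univ)} (h : IsZero M) (A : Finset (Fin T.m)) :
    Vn D A M := fun U _ => by
  have h1 : (𝟙 M) = 0 := h.eq_of_src _ _
  refine ⟨fun x y => ?_⟩
  have h2 : ∀ x : M.obj (op (Bx.of U)), x = 0 := fun x =>
    congrArg (fun f => ModuleCat.Hom.hom (NatTrans.app f (op (Bx.of U))) x) h1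
  rw [h2 x, h2 y]

theorem isZero_XL (hV : VnzStatement.{u}) (l : List (Bool × Fin T.m))
    {M : Fn k (T.P Finset.univ)} (h : IsZero M) : IsZero ((XL K k l).obj M) :=
  isZero_of_vn (vn_XL hV l ∅ M (vn_of_isZero h ∅) fun j hj => absurd hj (Finset.notMem_empty j))

/-- The values at finite located modules. -/
theorem rsl_ev (hE : ExzStatement.{u}) (hY : YevStatement.{u}) (hZs : ZsStatement.{u})
    (hVe : VeStatement.{u}) (hG : GoodStatement.{u}) (l : List (Bool × Fin T.m)) :
    ∀ A : Loc k (T.P Finset.univ), Finite A.ι → Rsl ((XL K k l).obj (Loc.ev.obj A)) := by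
  obtain ⟨h1, h2, h3, h4, h5, h6⟩ := hG k Γ T.Box (T.P Finset.univ)
  induction l with
  | nil => exact fun A hA => h6 _ A hA ⟨Retract.refl _⟩
  | cons p l ih =>
    intro A hA
    obtain ⟨b, j⟩ := p
    cases b
    · obtain ⟨w, hw⟩ := (hZs k Γ T.Box (T.P Finset.univ) (nv (K j)) (up_nv (K j))).1
        (Loc.ev.obj A)
      obtain ⟨A', hA', ⟨e⟩⟩ := hVe Γ T D j (K j) k A hA
      obtain ⟨w', hw'⟩ := exct_XL (K := K) hE l _ hw
      exact h3 _ hw' (h5 _ _ ⟨(XL K k l).mapIso e.symm⟩ (ih A' hA')) (ih A hA)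
    · obtain ⟨A', hA', ⟨e⟩⟩ := hY Γ T D K k j A hA
      exact h5 _ _ ⟨(XL K k l).mapIso e.symm⟩ (ih A' hA')

/-- The part outside `nva` vanishes at the boxes in `nva`. -/
theorem vn_vp (M : Fn k (T.P Finset.univ)) : Vn D Finset.univ (vp (up_nva K) M) := fun U hU => by
  have hU' : U ∈ nva K := fun j v => hU j (Finset.mem_univ j) v
  refine ⟨fun x y => ?_⟩
  refine Subtype.ext ?_
  have hx := x.2 hU'
  have hy := y.2 hU'
  exact hx.trans hy.symm

/-- The comparison with the extension by zero of the restriction. -/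
theorem rsl_zz_iff (hE : ExzStatement.{u}) (hV : VnzStatement.{u}) (hZs : ZsStatement.{u})
    (hG : GoodStatement.{u}) (l : List (Bool × Fin T.m)) (hl : ∀ j, ∃ b, (b, j) ∈ l)
    (M : Fn k (T.P Finset.univ)) :
    Rsl ((XL K k l).obj M) ↔ Rsl ((XL K k l).obj ((ER.zz (up_nva K)).obj
      ((pb k (inc (T.P Finset.univ) (nva K))).obj M))) := by
  obtain ⟨h1, h2, h3, h4, h5, h6⟩ := hG k Γ T.Box (T.P Finset.univ)
  obtain ⟨w, hw⟩ := (hZs k Γ T.Box (T.P Finset.univ) (nva K) (up_nva K)).1 M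
  obtain ⟨w', hw'⟩ := exct_XL (K := K) hE l _ hw
  have hz : Rsl ((XL K k l).obj (vp (up_nva K) M)) :=
    h4 _ (isZero_of_vn (vn_XL hV l Finset.univ _ (vn_vp M) fun j _ => hl j))
  exact ⟨fun h => h3 _ hw' hz h, fun h => h2 _ hw' hz h⟩

/-- The functors of a list which contains all directions. -/
theorem rsl_all (hE : ExzStatement.{u}) (hV : VnzStatement.{u}) (hY : YevStatement.{u})
    (hZs : ZsStatement.{u}) (hVe : VeStatement.{u}) (hRr : RrStatement.{u})
    (hG : GoodStatement.{u}) (hf : ∀ (i : Fin T.m) (x : T.B i), {y | y ≤ x}.Finite)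
    (hst : ∀ U ∈ nva K, InRC (MulAction.stabilizer Γ U)) (hk : RegularRing k)
    (l : List (Bool × Fin T.m)) (hl : ∀ j, ∃ b, (b, j) ∈ l) (M : Fn k (T.P Finset.univ))
    (hM : AA (nva K) M) : Rsl ((XL K k l).obj M) := by
  obtain ⟨h1, h2, h3, h4, h5, h6⟩ := hG k Γ T.Box (T.P Finset.univ)
  obtain ⟨z1, z2⟩ := hZs k Γ T.Box (T.P Finset.univ) (nva K) (up_nva K)
  have hF := H78.fin0 T hf
  have hFs := ER47.fin0_sub' (nva K) hF
  have hRs : ∀ U : Bx (sub (T.P Finset.univ) (nva K)), H78.RC (H78.Rg k U) := fun U =>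
    H78.rc_end hFs U (by
      have h1 := hst U.pt.1 U.pt.2 k hk
      rw [ER47.stab_sub]
      exact h1)
  have hΦ : H78.Good (fun N : H78.Fn k (Bx (sub (T.P Finset.univ) (nva K))) =>
      Rsl ((XL K k l).obj ((ER.zz (k := k) (up_nva K)).obj N))) :=
    { left := fun S hS a b => by
        obtain ⟨w, hw⟩ := z2 S hS
        obtain ⟨w', hw'⟩ := exct_XL (K := K) hE l _ hw
        exact h1 _ hw' a b
      mid := fun S hS a b => by
        obtain ⟨w, hw⟩ := z2 S hS
        obtain ⟨w', hw'⟩ := exct_XL (K := K) hE l _ hw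
        exact h2 _ hw' a b
      right := fun S hS a b => by
        obtain ⟨w, hw⟩ := z2 S hS
        obtain ⟨w', hw'⟩ := exct_XL (K := K) hE l _ hw
        exact h3 _ hw' a b
      iso := fun M N e h => e.elim fun e =>
        h5 _ _ ⟨(XL K k l).mapIso ((ER.zz (k := k) (up_nva K)).mapIso e)⟩ h
      zero := fun M h => h4 _ (isZero_XL hV l (H60.zz_isZero (up_nva K) h))
      rep := fun n U M hM => by
        obtain ⟨ρ⟩ := hM
        obtain ⟨A, hA, ⟨e⟩⟩ := H78.exists_iso_ev (k := k) n (Bx.of (U.pt : T.Box) : Bx (T.P Finset.univ))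
        have e1 : H78.PS k (fun _ : Fin n => U) ≅
            (pb k (inc (T.P Finset.univ) (nva K))).obj (Loc.ev.obj A) :=
          H60.psI k n U ≪≫ (pb k (inc (T.P Finset.univ) (nva K))).mapIso e
        have h7 : Rsl ((XL K k l).obj ((ER.zz (k := k) (up_nva K)).obj
            (H78.PS k (fun _ : Fin n => U)))) :=
          h5 _ _ ⟨(XL K k l).mapIso ((ER.zz (k := k) (up_nva K)).mapIso e1.symm)⟩
            ((rsl_zz_iff hE hV hZs hG l hl _).1 (rsl_ev hE hY hZs hVe hG l A hA))
        exact hRr k Γ T.Box (T.P Finset.univ) _ _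
          ⟨(ρ.map (ER.zz (k := k) (up_nva K))).map (XL K k l)⟩ h7 }
  exact (rsl_zz_iff hE hV hZs hG l hl M).2 (H78.Good.all (H78.ei hFs) hRs hΦ _ hM)

/-- The downward induction. -/
theorem down (hZs : ZsStatement.{u}) (hTr : TrStatement.{u}) (hRr : RrStatement.{u})
    (hG : GoodStatement.{u}) (hTz : TczStatement.{u}) (hTy : TcyStatement.{u}) (n : ℕ) :
    ∀ (A : Finset (Fin T.m)), A.card = n → ∀ (M : Fn k (T.P Finset.univ)),
      (∀ j ∈ A, D.Tac M j) → (∀ l : List (Bool × Fin T.m), (∀ j ∈ A, ∃ b, (b, j) ∈ l) →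
        Rsl ((XL K k l).obj M)) → Rsl M := by
  induction n with
  | zero =>
    intro A hA M _ h
    exact h [] fun j hj => by
      rw [Finset.card_eq_zero.1 hA] at hj
      exact absurd hj (Finset.notMem_empty j)
  | succ n ih =>
    intro A hA M hT h
    obtain ⟨j, hj⟩ : A.Nonempty := Finset.card_pos.1 (by omega)
    have hc : (A.erase j).card = n := by
      rw [Finset.card_erase_of_mem hj, hA]
      rfl
    have h1 : ∀ b : Bool, Rsl ((Xf K k (b, j)).obj M) := by
      intro b
      refine ih (A.erase j) hc _ (fun i hi => ?_) fun l hl => ?_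
      · have hij : j ≠ i := (Finset.ne_of_mem_erase hi).symm
        cases b
        · exact hTz Γ T D K k j i M hij (hT i (Finset.mem_of_mem_erase hi))
        · exact hTy Γ T D K k j i M hij (hT i (Finset.mem_of_mem_erase hi))
      · refine h ((b, j) :: l) fun i hi => ?_
        by_cases hij : i = j
        · exact ⟨b, by rw [hij]; exact List.mem_cons_self⟩
        · obtain ⟨b', hb'⟩ := hl i (Finset.mem_erase.2 ⟨hij, hi⟩)
          exact ⟨b', List.mem_cons_of_mem _ hb'⟩
    obtain ⟨w, hS⟩ := (hZs k Γ T.Box (T.P Finset.univ) (nv (K j)) (up_nv (K j))).1 M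
    exact (hG k Γ T.Box (T.P Finset.univ)).2.1 _ hS
      (hRr k Γ T.Box (T.P Finset.univ) _ _ (hTr Γ T D j (K j) k M (hT j hj)) (h1 true))
      (h1 false)

end

/-- Row RESA. -/
theorem resa (hE : ExzStatement.{u}) (hV : VnzStatement.{u}) (hY : YevStatement.{u})
    (hTz : TczStatement.{u}) (hTy : TcyStatement.{u}) : ResaStatement.{u} := by
  intro Γ _ T D _ _ K hf hst k _ hk M hM hT
  exact down (K := K) ER.zs ER47.tr ER73.rrS goodS hTz hTy _ Finset.univ rfl M
    (fun j _ => hT j) fun l hl => rsl_all hE hV hY ER.zs ER.ve ER73.rrS goodS hf hst hk l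
      (fun j => hl j (Finset.mem_univ j)) M hM

end Pool.Agent.NegK.NT.NL
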