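import Pool.Agent.Lib.MP_28303a_al.NT.NL.Clw
import Pool.Agent.Lib.MP_28303a_al.NT.NL.Resa

/-! # Row REF: the base of the induction -/

set_option autoImplicit false
set_option linter.unusedSectionVars false
set_option linter.unusedVariables false

namespace Pool.Agent.NegK.NT.NL

universe u

open CategoryTheory Limits Opposite
open Pool.Agent.NegK.TW Pool.Agent.NegK.NT.ER Pool.Agent.NegK.NT.ER61

/-- The marking of the system. -/
theorem mkS {Γ : Type u} [Group Γ] {m : ℕ} (M : Fin m → MTL Γ) (j : Fin m) :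
    @Mk Γ _ (TL.sys fun i => (M i).L) (TL.tr fun i => (M i).L) j (M j).aV (M j).aE :=
  letI : MulAction Γ (M j).L.V := (M j).aV
  letI : MulAction Γ (M j).L.E := (M j).aE
  letI : MulAction Γ ((TL.tr fun i => (M i).L).V j) := (M j).aV
  letI : MulAction Γ ((TL.tr fun i => (M i).L).E j) := (M j).aE
  { vt_smul := (M j).K.vt_smul
    ed_smul := (M j).K.ed_smul
    s_smul := (M j).K.s_smul
    t_smul := (M j).K.t_smul
    vt_inj := (M j).K.vt_inj
    ed_inj := (M j).K.ed_inj
    st := (M j).K.st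
    vt_min := (M j).K.vt_min
    vt_ed := (M j).K.vt_ed
    ed_le := (M j).K.ed_le
    ed_vt := (M j).K.ed_vt
    fin := TL.fin_sys fun i => (M i).L }

/-- Row REF. -/
theorem ref (hR : ResaStatement.{u}) (hB : BajStatement.{u}) : RefStatement.{u} := by
  intro Γ _ m M hst
  let T : Sys Γ := TL.sys fun i => (M i).L
  let D : T.Tr := TL.tr fun i => (M i).L
  let aV : ∀ j, MulAction Γ (D.V j) := fun j => (M j).aV
  let aE : ∀ j, MulAction Γ (D.E j) := fun j => (M j).aE
  let K : ∀ j, Mk D j := mkS M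
  have hU : ∀ U ∈ nva K, InRC (MulAction.stabilizer Γ U) := fun U hU => hst U hU
  exact hB Γ T D (H32.ret T (H47.kos T)) fun k _ hk =>
    ⟨fun N => AA (nva K) N, clw Γ T D K (TL.fin_sys fun i => (M i).L) hU k hk,
      fun N hN hT => hR Γ T D K (TL.fin_sys fun i => (M i).L) hU k hk N hN hT⟩

end Pool.Agent.NegK.NT.NL
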