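import Pool.Agent.Lib.MP_28303a_al.NT.NL.AxV
import Pool.Agent.Lib.MP_28303a_al.RK.TreeL

/-! # Local trees: the last factor is a linear group of semisimple rank one over a rigid field -/

set_option autoImplicit false
set_option linter.unusedSectionVars false
set_option linter.unusedVariables false

namespace Pool.Agent.NegK.NT.NL

universe u

open Matrix
open scoped MatrixGroups
open Pool.Agent.NegK.TW Pool.Agent.NegK.TT Pool.Agent.NegK.NT.ER Pool.Agent.NegK.NT.ER61
open Pool.Agent.NegK.RK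

/-- The conditions on the stabilizers. -/
def StV {K L : Type u} [Field K] [Field L] {r : ℕ} {d : Fin r → ℕ} {V : Type u} [Group V]
    (τ : V →* GL (TI d) L) (γ : V →* PGL(Fin 2, K)) : Prop :=
  ∀ h, (∀ B : GL (Fin 2) K, ProjGenLinGroup.mk B = γ h →
    ∃ z : ℤ, B.1.trace ^ 2 = (z : K) * B.1.det) ∧
    ∀ k, IsIntegral ℤ ((τ h).1.submatrix (Sigma.mk k) (Sigma.mk k)).det

/-- The stabilizers are in `J0`. -/
theorem j0V (hMix : MixVStatement.{u}) (hX : BvxStatement.{u}) {K L : Type u} [Field K] [Field L]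
    (hK : H70.Rig K) (e : K →+* L) {r : ℕ} {d : Fin r → ℕ} {V : Type u} [Group V]
    (τ : V →* GL (TI d) L) (γ : V →* PGL(Fin 2, K))
    (hR : RankT d τ ((ProjGenLinGroup.map e).comp γ)) (hinj : ∀ g, τ g = 1 → γ g = 1 → g = 1)
    (hc : StV τ γ) : J0x CV DV V := by
  rintro P Γ _ _ f hP ⟨X, _, δ, n, hV⟩
  refine ((TT.main.{u}).2.2.2.1 Γ).2.2.2.2.2.1 fun T => ⟨Subgroup.closure (T : Set Γ),
    fun s hs => Subgroup.subset_closure hs, ?_⟩
  have hfg : Group.FG (Subgroup.closure (T : Set Γ)) := (Group.fg_iff_subgroup_fg _).2 ⟨T, rfl⟩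
  let S := Subgroup.closure (T : Set Γ)
  let f' : S →* P × V := f.comp S.subtype
  have hV' : VK n (δ.comp S.subtype) f' := hV.comp S.subtype S.subtype_injective
  let p : S →* P := (MonoidHom.fst P V).comp f'
  have hp : p.range.FG := (Group.fg_iff_subgroup_fg _).1 (Group.fg_range p)
  obtain ⟨E, _, m, q, hE, k, hB⟩ := hP p.range hp
  let τ' : S →* GL (TI d) L := τ.comp ((MonoidHom.snd P V).comp f')
  let γ' : S →* PGL(Fin 2, K) := γ.comp ((MonoidHom.snd P V).comp f')
  let σ : S →* PUnit.{u + 1} × GL (TI d) L × PGL(Fin 2, K) := (1 : S →* PUnit).prod (τ'.prod γ')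
  let ρ : σ.ker →* E := q.comp (p.rangeRestrict.comp σ.ker.subtype)
  have hσ : ∀ g, f' g = 1 → σ g = 1 := by
    intro g hg
    have h1 : (f' g).2 = 1 := congrArg Prod.snd hg
    refine Prod.ext rfl (Prod.ext ?_ ?_)
    · show τ (f' g).2 = 1
      rw [h1, map_one]
    · show γ (f' g).2 = 1
      rw [h1, map_one]
  have hσ2 : ∀ g : σ.ker, (f' g.1).2 = 1 := fun g => hinj _
    (congrArg (fun x : PUnit.{u + 1} × GL (TI d) L × PGL(Fin 2, K) => x.2.1) g.2)
    (congrArg (fun x : PUnit.{u + 1} × GL (TI d) L × PGL(Fin 2, K) => x.2.2) g.2)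
  have hp1 : ∀ g, f' g = 1 → p.rangeRestrict g = 1 := fun g hg =>
    Subtype.ext (congrArg Prod.fst hg)
  let F : ρ.ker →* q.ker :=
    { toFun := fun x => ⟨p.rangeRestrict x.1.1, x.2⟩
      map_one' := Subtype.ext (map_one _)
      map_mul' := fun x y => Subtype.ext (map_mul _ _ _) }
  have hF : ∀ g : ρ.ker, F g = 1 ↔ f' g.1.1 = 1 := by
    intro g
    constructor
    · intro h1
      have h2 : (f' g.1.1).1 = 1 := congrArg (fun x : q.ker => ((x.1 : p.range) : P)) h1
      exact Prod.ext h2 (hσ2 g.1)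
    · intro h1
      exact Subtype.ext (hp1 _ h1)
  obtain ⟨m', hm'⟩ := vk_ext hX hV' σ hσ ρ hE (fun g hg => by
    show q (p.rangeRestrict g.1) = 1
    rw [hp1 _ hg, map_one]) F hF hB
  exact hMix K L hK e r d S X PUnit (δ.comp S.subtype) 1 τ' γ' m' hm'
    (hR.comp ((MonoidHom.snd P V).comp f')) (fun h => (hc _).1) (fun k h => (hc _).2 k)

/-- Finitely many trees as a family indexed by `Fin m`. -/
theorem exists_trees {S : Type u} [Group S] {ι : Type} [Finite ι] (T : ι → H1.TD S) :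
    ∃ Y : Trees S, ∀ v, ∀ g ∈ Y.st v, ∀ a, (T a).Ell g := by
  let e := Finite.equivFin ι
  refine ⟨⟨Nat.card ι, fun i => (T (e.symm i)).V, fun i => (T (e.symm i)).act,
    fun i => (T (e.symm i)).G, fun i => (T (e.symm i)).tree⟩, fun v g hg a => ?_⟩
  obtain ⟨i, rfl⟩ := e.symm.surjective a
  exact ⟨v i, Subgroup.mem_iInf.1 hg i⟩

/-- RIG. The groups of semisimple rank one over rigid fields. -/
theorem rigV (hAx : AxvStatement.{u}) (hTj : TjxStatement.{u}) (hMix : MixVStatement.{u})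
    (hX : BvxStatement.{u}) {K L : Type u} [Field K] [Field L]
    (hK : H70.Rig K) (e : K →+* L) {r : ℕ} {d : Fin r → ℕ} {Q : Type u} [Group Q]
    (τ : Q →* GL (TI d) L) (γ : Q →* PGL(Fin 2, K))
    (hR : RankT d τ ((ProjGenLinGroup.map e).comp γ)) (hinj : ∀ g, τ g = 1 → γ g = 1 → g = 1) :
    T1x CV DV Q := by
  refine hTj CV DV NV hAx Q fun S hS => ?_
  have hfg : Group.FG S := (Group.fg_iff_subgroup_fg _).2 hS
  obtain ⟨ι, _, T, hT⟩ := trees_TL hK e S (τ.comp S.subtype) (γ.comp S.subtype)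
    (hR.comp S.subtype)
  obtain ⟨Y, hY⟩ := exists_trees T
  refine ⟨Y, fun v => j0V hMix hX hK e (τ.comp (S.subtype.comp (Y.st v).subtype))
    (γ.comp (S.subtype.comp (Y.st v).subtype)) (hR.comp (S.subtype.comp (Y.st v).subtype))
    (fun g h1 h2 => Subtype.ext (Subtype.ext (hinj _ h1 h2))) fun h => hT h.1 (hY v h.1 h.2)⟩

end Pool.Agent.NegK.NT.NL
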