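import Pool.Agent.Lib.MP_28303a_al.NT.NL.Ax

/-! # Local trees: the last factor -/

set_option autoImplicit false
set_option linter.unusedSectionVars false
set_option linter.unusedVariables false

namespace Pool.Agent.NegK.NT.NL

universe u

open Pool.Agent.NegK.TW Pool.Agent.NegK.TT Pool.Agent.NegK.NT.ER Pool.Agent.NegK.NT.ER61

theorem Ax.D_inj {C N : GCls.{u}} {D : HCls.{u}} (h : Ax C D N) (Γ Q P : Type u) [Group Γ]
    [Group Q] [Group P] (f : Γ →* Q) (g : Q →* P) (hg : Function.Injective g) (hf : D Γ Q f) :
    D Γ P (g.comp f) :=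
  h.comp Γ Q P f g hf (h.N_one _ ⟨fun x y => Subtype.ext (hg (x.2.trans y.2.symm))⟩)

/-- The induction on the number of the trees which are not yet used. -/
theorem tj_aux (hRef : RefStatement.{u}) (hS : EgsxStatement.{u}) (hM : MrkStatement.{u})
    {C N : GCls.{u}} {D : HCls.{u}} (h : Ax C D N) {P Q : Type u} [Group P] [Group Q]
    (Y : Trees Q) (hJ : ∀ v, J0x C D (Y.st v)) :
    ∀ (n : ℕ) (R : Finset (Fin Y.m)), R.card = n → ∀ (G : Type u) [Group G] (g : G →* Q),
      Function.Injective g → ∀ (m : ℕ) (W : Fin m → MTL (P × G)),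
      (∀ U : ∀ i, (W i).L.B, (∀ i v, U i ≠ (W i).L.vt v) →
        ∃ (A : Subgroup P) (v : ∀ j, Y.V j), C A ∧
          ∀ x ∈ MulAction.stabilizer (P × G) U, x.1 ∈ A ∧ ∀ j ∉ R, g x.2 • v j = v j) →
      EGx D W := by
  classical
  intro n
  induction n with
  | zero =>
    intro R hR G _ g hg m W hW Γ _ f hf
    have hR' : R = ∅ := Finset.card_eq_zero.1 hR
    subst hR'
    refine hRef Γ m (cms f W) fun U hU => ?_
    obtain ⟨A, v, hA, hv⟩ := hW U hU
    let i : P × G →* P × Q := (MonoidHom.id P).prodMap g
    have hi : Function.Injective i := fun x y hxy => by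
      have h1 : (x.1, g x.2) = (y.1, g y.2) := hxy
      exact Prod.ext (congrArg (fun z : P × Q => z.1) h1)
        (hg (congrArg (fun z : P × Q => z.2) h1))
    have hst : ∀ x : MulAction.stabilizer Γ U, f x.1 ∈ MulAction.stabilizer (P × G) U :=
      fun x => x.2
    let f' : MulAction.stabilizer Γ U →* A × Y.st v :=
      { toFun := fun x => (⟨(f x.1).1, (hv _ (hst x)).1⟩, ⟨g (f x.1).2, by
          rw [Trees.st, Subgroup.mem_iInf]
          exact fun j => (hv _ (hst x)).2 j (Finset.notMem_empty j)⟩)
        map_one' := by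
          refine Prod.ext (Subtype.ext ?_) (Subtype.ext ?_)
          · show (f 1).1 = 1
            rw [map_one]
            rfl
          · show g (f 1).2 = 1
            rw [map_one]
            exact map_one g
        map_mul' := fun x y => by
          refine Prod.ext (Subtype.ext ?_) (Subtype.ext ?_)
          · show (f (x.1 * y.1)).1 = (f x.1).1 * (f y.1).1
            rw [map_mul]
            rfl
          · show g (f (x.1 * y.1)).2 = g (f x.1).2 * g (f y.1).2
            rw [map_mul f]
            exact map_mul g _ _ }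
    refine hJ v A (MulAction.stabilizer Γ U) f' hA (h.sub Γ (P × Q) _ _ (i.comp f) f'
      (MulAction.stabilizer Γ U).subtype ((Subgroup.subtype A).prodMap (Subgroup.subtype _))
      Subtype.val_injective (fun x y hxy => ?_) (fun x => rfl) (h.D_inj Γ (P × G) (P × Q) f i hi hf))
    exact Prod.ext (Subtype.ext (congrArg Prod.fst hxy)) (Subtype.ext (congrArg Prod.snd hxy))
  | succ n ih =>
    intro R hR G _ g hg m W hW
    obtain ⟨i, hi⟩ : R.Nonempty := Finset.card_pos.1 (by omega)
    have hcard : (R.erase i).card = n := by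
      rw [Finset.card_erase_of_mem hi, hR]
      rfl
    have hne : ∀ j, Nonempty (Y.V j) := fun j => (Y.tree j).tree.connected.nonempty
    by_cases he : ∃ v w, (Y.G i).Adj v w
    · obtain ⟨M₀, h1, -⟩ := hM Q (Y.V i) (Y.G i) (Y.tree i) he
      let gs : P × G →* Q := g.comp (MonoidHom.snd P G)
      let Z : MTL (P × G) := M₀.cm gs
      refine hS C D N h (P × G) m W Z ?_ fun c => ?_
      · refine ih (R.erase i) hcard G g hg (m + 1) _ fun U hU => ?_
        obtain ⟨A, v, hA, hv⟩ := hW (fun j => U j.succ) fun j w => hU j.succ w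
        obtain ⟨w, hw⟩ := h1 (show M₀.L.B from U 0)
        refine ⟨A, Function.update v i w, hA, fun x hx => ?_⟩
        have hx1 : x ∈ MulAction.stabilizer (P × G) (fun j : Fin m => U j.succ) :=
          funext fun j => congrFun hx j.succ
        have hx0 : gs x ∈ MulAction.stabilizer Q (show M₀.L.B from U 0) := congrFun hx 0
        refine ⟨(hv x hx1).1, fun j hj => ?_⟩
        by_cases hji : j = i
        · subst hji
          rw [Function.update_self]
          exact hw hx0
        · rw [Function.update_of_ne hji]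
          exact (hv x hx1).2 j fun hjR => hj (Finset.mem_erase.2 ⟨hji, hjR⟩)
      · obtain ⟨w, hw⟩ := h1 c
        let S : Subgroup G := (MulAction.stabilizer Q (show M₀.L.B from c)).comap g
        have h2 := ih (R.erase i) hcard S (g.comp S.subtype) (hg.comp Subtype.val_injective) m
          (cms ((MonoidHom.id P).prodMap S.subtype) W) fun U hU => ?_
        · intro Γ _ f hf
          let j : MulAction.stabilizer (P × G) (show Z.L.B from c) →* P × S :=
            { toFun := fun x => (x.1.1, ⟨x.1.2, x.2⟩)
              map_one' := rfl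
              map_mul' := fun _ _ => rfl }
          have hj : Function.Injective j := fun x y hxy => Subtype.ext (Prod.ext
            (congrArg (fun z : P × S => z.1) hxy) (congrArg (fun z : P × S => (z.2 : G)) hxy))
          exact h2 Γ (j.comp f) (h.D_inj _ _ _ f j hj hf)
        · obtain ⟨A, v, hA, hv⟩ := hW U hU
          refine ⟨A, Function.update v i w, hA, fun x hx => ?_⟩
          have hx1 : (MonoidHom.id P).prodMap S.subtype x ∈ MulAction.stabilizer (P × G) U := hx
          refine ⟨(hv _ hx1).1, fun j hj => ?_⟩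
          by_cases hji : j = i
          · subst hji
            rw [Function.update_self]
            exact hw x.2.2
          · rw [Function.update_of_ne hji]
            exact (hv _ hx1).2 j fun hjR => hj (Finset.mem_erase.2 ⟨hji, hjR⟩)
    · have hs : Subsingleton (Y.V i) := by
        refine ⟨fun a b => ?_⟩
        by_contra hab
        obtain ⟨p⟩ := (Y.tree i).tree.connected.preconnected a b
        cases p with
        | nil => exact hab rfl
        | cons hadj _ => exact he ⟨_, _, hadj⟩
      refine ih (R.erase i) hcard G g hg m W fun U hU => ?_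
      obtain ⟨A, v, hA, hv⟩ := hW U hU
      refine ⟨A, v, hA, fun x hx => ⟨(hv x hx).1, fun j hj => ?_⟩⟩
      by_cases hji : j = i
      · subst hji
        exact hs.elim _ _
      · exact (hv x hx).2 j fun hjR => hj (Finset.mem_erase.2 ⟨hji, hjR⟩)

/-- TJ. -/
theorem tjx (hRef : RefStatement.{u}) (hS : EgsxStatement.{u}) (hF : EgfxStatement.{u})
    (hM : MrkStatement.{u}) : TjxStatement.{u} := by
  classical
  intro C D N h Q _ hQ P _ m M hB
  refine hF C D N h (P × Q) m _ fun S hSfg => ?_
  let Q' : Subgroup Q := S.map (MonoidHom.snd P Q)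
  have hQ' : Q'.FG := by
    obtain ⟨T, hT⟩ := hSfg
    exact ⟨T.image (MonoidHom.snd P Q), by
      rw [Finset.coe_image, ← MonoidHom.map_closure, hT]⟩
  obtain ⟨Y, hY⟩ := hQ Q' hQ'
  have key := tj_aux hRef hS hM h (P := P) Y hY (Finset.univ : Finset (Fin Y.m)).card
    Finset.univ rfl Q' (MonoidHom.id Q') (fun _ _ h => h) m (cms (MonoidHom.fst P Q') M)
    fun U hU => ?_
  · intro Γ _ f hf
    let j : S →* P × Q' :=
      { toFun := fun x => (x.1.1, ⟨x.1.2, x.1, x.2, rfl⟩)
        map_one' := rfl
        map_mul' := fun _ _ => rfl }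
    have hj : Function.Injective j := fun x y hxy => Subtype.ext (Prod.ext
      (congrArg (fun z : P × Q' => z.1) hxy) (congrArg (fun z : P × Q' => (z.2 : Q)) hxy))
    exact key Γ (j.comp f) (h.D_inj _ _ _ f j hj hf)
  · have hne : ∀ j, Nonempty (Y.V j) := fun j => (Y.tree j).tree.connected.nonempty
    refine ⟨MulAction.stabilizer P U, fun j => (hne j).some, hB U hU, fun x hx =>
      ⟨hx, fun j hj => absurd (Finset.mem_univ j) hj⟩⟩

end Pool.Agent.NegK.NT.NL
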