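import Pool.Agent.Lib.MP_28303a_al.NT.H80.Perf

/-! # Truncation functors: the part of a located complex in a convex set of locations -/

set_option autoImplicit false
set_option linter.unusedSectionVars false
set_option linter.unusedVariables false

namespace Pool.Agent.NegK.NT.L92

universe u

open CategoryTheory Limits Pretriangulated

/-- Invariant convex sets of locations. -/
structure Cv {Γ : Type u} [Group Γ] {B : Type u} [MulAction Γ B] (P : Pre Γ B) (S : Set B) :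
    Prop where
  smul : ∀ (g : Γ) (x : B), x ∈ S → g • x ∈ S
  conv : ∀ {x y z : B}, P.le x y → P.le y z → x ∈ S → z ∈ S → y ∈ S

section

variable {k : Type u} [Ring k] {Γ : Type u} [Group Γ] {B : Type u} [MulAction Γ B] {P : Pre Γ B}

theorem Cv.inv {S : Set B} (hS : Cv P S) {g : Γ} {x : B} (h : g • x ∈ S) : x ∈ S := by
  have := hS.smul g⁻¹ _ h
  rwa [inv_smul_smul] at this

/-- The part of a located module in `S`. -/
abbrev pt (S : Set B) (A : Loc k P) : Loc k P := ⟨{i : A.ι // A.loc i ∈ S}, fun i => A.loc i.1⟩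

/-- The inclusion of the part in `S`. -/
noncomputable def pin (S : Set B) (A : Loc k P) : pt S A ⟶ A :=
  Loc.par (A := pt S A) (A' := A) (fun i => some i.1) (by
    intro i j h
    cases h
    exact P.refl _)

open Classical in
/-- The projection to the part in `S`. -/
noncomputable def ppr (S : Set B) (A : Loc k P) : A ⟶ pt S A :=
  Loc.par (A := A) (A' := pt S A) (fun i => if h : A.loc i ∈ S then some ⟨i, h⟩ else none) (by
    intro i j h
    split_ifs at h with h1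
    cases h
    exact P.refl _)

theorem pin_single (S : Set B) (A : Loc k P) (i : (pt S A).ι) :
    Loc.lin (pin S A) (Finsupp.single i 1) = Finsupp.single i.1 1 :=
  Loc.par_some (A := pt S A) (A' := A) _ _ rfl

theorem ppr_mem (S : Set B) (A : Loc k P) {i : A.ι} (h : A.loc i ∈ S) :
    Loc.lin (ppr S A) (Finsupp.single i 1) = Finsupp.single (⟨i, h⟩ : (pt S A).ι) 1 :=
  Loc.par_some (A := A) (A' := pt S A) _ _ (by rw [dif_pos h])

theorem ppr_nmem (S : Set B) (A : Loc k P) {i : A.ι} (h : A.loc i ∉ S) :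
    Loc.lin (ppr S A) (Finsupp.single i 1) = 0 :=
  Loc.par_none (A := A) (A' := pt S A) _ _ (by rw [dif_neg h])

@[reassoc (attr := simp)]
theorem pin_ppr (S : Set B) (A : Loc k P) : pin S A ≫ ppr S A = 𝟙 _ := by
  refine Loc.ext_basis fun i => ?_
  rw [Loc.lin_comp, LinearMap.comp_apply, pin_single, ppr_mem S A i.2]
  rfl

theorem pin_ppr_disj {S S' : Set B} (h : Disjoint S S') (A : Loc k P) :
    pin S A ≫ ppr S' A = 0 := by
  refine Loc.ext_basis fun i => ?_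
  rw [Loc.lin_comp, LinearMap.comp_apply, pin_single,
    ppr_nmem S' A (Set.disjoint_left.1 h i.2)]
  rfl

/-- The sum of the projections to the parts of a partition. -/
theorem ppr_pin_add {S₁ S₂ : Set B} (h : Disjoint S₁ S₂) (A : Loc k P) :
    ppr S₁ A ≫ pin S₁ A + ppr S₂ A ≫ pin S₂ A = ppr (S₁ ∪ S₂) A ≫ pin (S₁ ∪ S₂) A := by
  refine Loc.ext_basis fun i => ?_
  simp only [Loc.lin_add, LinearMap.add_apply, Loc.lin_comp, LinearMap.comp_apply]
  by_cases h1 : A.loc i ∈ S₁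
  · rw [ppr_mem S₁ A h1, ppr_nmem S₂ A (Set.disjoint_left.1 h h1),
      ppr_mem (S₁ ∪ S₂) A (Or.inl h1), pin_single, pin_single, map_zero, add_zero]
  · by_cases h2 : A.loc i ∈ S₂
    · rw [ppr_nmem S₁ A h1, ppr_mem S₂ A h2,
        ppr_mem (S₁ ∪ S₂) A (Or.inr h2), pin_single, pin_single, map_zero, zero_add]
    · rw [ppr_nmem S₁ A h1, ppr_nmem S₂ A h2, ppr_nmem (S₁ ∪ S₂) A (by rintro (h | h) <;> tauto),
        map_zero, map_zero, map_zero, add_zero]

theorem ppr_pin_compl (S : Set B) (A : Loc k P) :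
    ppr S A ≫ pin S A + ppr Sᶜ A ≫ pin Sᶜ A = 𝟙 A := by
  refine Loc.ext_basis fun i => ?_
  simp only [Loc.lin_add, LinearMap.add_apply, Loc.lin_comp, LinearMap.comp_apply]
  by_cases h1 : A.loc i ∈ S
  · rw [ppr_mem S A h1, ppr_nmem Sᶜ A (fun h => h h1), pin_single, map_zero, add_zero]
    rfl
  · rw [ppr_nmem S A h1, ppr_mem Sᶜ A h1, map_zero, pin_single, zero_add]
    rfl

theorem ppr_apply (S : Set B) (A : Loc k P) (x : A.F) (j : (pt S A).ι) :
    Loc.lin (ppr S A) x j = x j.1 := by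
  classical
  rw [Loc.map_apply, Finsupp.sum]
  have h1 : ∀ i ∈ x.support, x i * (Loc.lin (ppr S A) (Finsupp.single i 1)) j =
      if i = j.1 then x j.1 else 0 := by
    intro i _
    by_cases h : A.loc i ∈ S
    · rw [ppr_mem S A h, Finsupp.single_apply]
      by_cases h2 : i = j.1
      · subst h2
        rw [if_pos rfl, if_pos rfl, mul_one]
      · rw [if_neg (fun h3 => h2 (congrArg Subtype.val h3)), if_neg h2, mul_zero]
    · rw [ppr_nmem S A h, Finsupp.zero_apply, mul_zero, if_neg]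
      rintro rfl
      exact h j.2
  rw [Finset.sum_congr rfl h1, Finset.sum_ite_eq']
  split_ifs with h
  · rfl
  · exact (Finsupp.notMem_support_iff.1 h).symm

/-- The entries of the middle part of a morphism. -/
theorem pfp_apply (S S' : Set B) {A A' : Loc k P} (f : A ⟶ A') (i : (pt S A).ι)
    (j : (pt S' A').ι) :
    Loc.lin (pin S A ≫ f ≫ ppr S' A') (Finsupp.single i 1) j =
      Loc.lin f (Finsupp.single i.1 1) j.1 := by
  rw [Loc.lin_comp, Loc.lin_comp, LinearMap.comp_apply, LinearMap.comp_apply, pin_single,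
    ppr_apply]

theorem pfp_zero {S S' : Set B} (hS' : ∀ (g : Γ) (x : B), x ∈ S' → g • x ∈ S')
    (h : ∀ x ∈ S, ∀ y ∈ S', ¬ P.le x y) {A A' : Loc k P} (f : A ⟶ A') :
    pin S A ≫ f ≫ ppr S' A' = 0 := by
  refine Loc.ext_basis fun i => Finsupp.ext fun j => ?_
  rw [pfp_apply]
  refine MonoidAlgebra.ext (Finsupp.ext fun g => ?_)
  by_contra hc
  exact h _ i.2 _ (hS' g _ j.2) (Loc.spt_lin f i.1 j.1 g hc)

/-- The passage through the complement of a convex set is zero. -/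
theorem pfcp_zero {S : Set B} (hS : Cv P S) {A A' A'' : Loc k P} (f : A ⟶ A') (g : A' ⟶ A'') :
    pin S A ≫ f ≫ ppr Sᶜ A' ≫ pin Sᶜ A' ≫ g ≫ ppr S A'' = 0 := by
  classical
  refine Loc.ext_basis fun i => Finsupp.ext fun l => ?_
  have h0 : pin S A ≫ f ≫ ppr Sᶜ A' ≫ pin Sᶜ A' ≫ g ≫ ppr S A'' =
    (pin S A ≫ f ≫ ppr Sᶜ A') ≫ (pin Sᶜ A' ≫ g ≫ ppr S A'') := by
    simp only [Category.assoc]
  rw [h0, Loc.lin_comp, LinearMap.comp_apply, Loc.map_apply, Finsupp.sum]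
  refine Finset.sum_eq_zero fun j _ => ?_
  rw [pfp_apply, pfp_apply]
  refine MonoidAlgebra.ext (Finsupp.ext fun γ => ?_)
  by_contra hc
  obtain ⟨g₁, g₂, h1, h2, rfl⟩ := Loc.exists_of_mul hc
  have h3 := Loc.spt_lin f _ _ _ h1
  have h4 := P.smul g₁ (Loc.spt_lin g _ _ _ h2)
  rw [← mul_smul] at h4
  exact j.2 (hS.inv (hS.conv h3 h4 i.2 (hS.smul _ _ l.2)))

theorem pfp_comp {S : Set B} (hS : Cv P S) {A A' A'' : Loc k P} (f : A ⟶ A') (g : A' ⟶ A'') :
    (pin S A ≫ f ≫ ppr S A') ≫ (pin S A' ≫ g ≫ ppr S A'') = pin S A ≫ (f ≫ g) ≫ ppr S A'' := by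
  have h1 : f ≫ g = f ≫ (ppr S A' ≫ pin S A' + ppr Sᶜ A' ≫ pin Sᶜ A') ≫ g := by
    rw [ppr_pin_compl, Category.id_comp]
  rw [h1]
  simp only [Preadditive.add_comp, Preadditive.comp_add, Category.assoc]
  rw [pfcp_zero hS, add_zero]

/-- The part of a located module in a convex set. -/
noncomputable def prt {S : Set B} (hS : Cv P S) : Loc k P ⥤ Loc k P where
  obj A := pt S A
  map {A A'} f := pin S A ≫ f ≫ ppr S A'
  map_id A := by rw [Category.id_comp, pin_ppr]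
  map_comp f g := (pfp_comp hS f g).symm

instance {S : Set B} (hS : Cv P S) : (prt (k := k) hS).Additive where
  map_add {A A'} {f g} := by
    change pin S A ≫ (f + g) ≫ ppr S A' = pin S A ≫ f ≫ ppr S A' + pin S A ≫ g ≫ ppr S A'
    rw [Preadditive.add_comp, Preadditive.comp_add]

/-! ### Unions -/

section

variable {S₁ S₂ : Set B} (hd : Disjoint S₁ S₂)

include hd

theorem pin₁_pp (A : Loc k P) :
    pin S₁ A ≫ ppr (S₁ ∪ S₂) A ≫ pin (S₁ ∪ S₂) A = pin S₁ A := by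
  rw [← ppr_pin_add hd, Preadditive.comp_add, pin_ppr_assoc, ← Category.assoc,
    pin_ppr_disj hd, zero_comp, add_zero]

theorem pin₂_pp (A : Loc k P) :
    pin S₂ A ≫ ppr (S₁ ∪ S₂) A ≫ pin (S₁ ∪ S₂) A = pin S₂ A := by
  rw [← ppr_pin_add hd, Preadditive.comp_add, pin_ppr_assoc, ← Category.assoc,
    pin_ppr_disj hd.symm, zero_comp, zero_add]

theorem pp_ppr₁ (A : Loc k P) :
    ppr (S₁ ∪ S₂) A ≫ pin (S₁ ∪ S₂) A ≫ ppr S₁ A = ppr S₁ A := by
  rw [← Category.assoc, ← ppr_pin_add hd, Preadditive.add_comp, Category.assoc, Category.assoc,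
    pin_ppr, pin_ppr_disj hd.symm, comp_zero, add_zero, Category.comp_id]

theorem pp_ppr₂ (A : Loc k P) :
    ppr (S₁ ∪ S₂) A ≫ pin (S₁ ∪ S₂) A ≫ ppr S₂ A = ppr S₂ A := by
  rw [← Category.assoc, ← ppr_pin_add hd, Preadditive.add_comp, Category.assoc, Category.assoc,
    pin_ppr, pin_ppr_disj hd, comp_zero, zero_add, Category.comp_id]

end

/-- A partition of a convex set in an upper part `S₁` and a lower part `S₂`. -/
structure Part (P : Pre Γ B) (S₁ S₂ : Set B) : Prop where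
  cv : Cv P (S₁ ∪ S₂)
  cv₁ : Cv P S₁
  cv₂ : Cv P S₂
  dis : Disjoint S₁ S₂
  up : ∀ x ∈ S₁, ∀ y ∈ S₂, ¬ P.le x y

variable {S₁ S₂ : Set B} (h : Part P S₁ S₂)

/-- The inclusion of the upper part. -/
noncomputable def Part.inl : prt (k := k) h.cv₁ ⟶ prt h.cv where
  app A := pin S₁ A ≫ ppr (S₁ ∪ S₂) A
  naturality A A' f := by
    change (pin S₁ A ≫ f ≫ ppr S₁ A') ≫ pin S₁ A' ≫ ppr (S₁ ∪ S₂) A' =
      (pin S₁ A ≫ ppr (S₁ ∪ S₂) A) ≫ pin (S₁ ∪ S₂) A ≫ f ≫ ppr (S₁ ∪ S₂) A'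
    have h1 : ppr (S₁ ∪ S₂) A' = ppr (S₁ ∪ S₂) A' ≫ pin (S₁ ∪ S₂) A' ≫ ppr (S₁ ∪ S₂) A' := by
      rw [pin_ppr, Category.comp_id]
    have h2 : pin S₁ A ≫ f ≫ ppr (S₁ ∪ S₂) A' =
        (pin S₁ A ≫ f ≫ ppr S₁ A') ≫ pin S₁ A' ≫ ppr (S₁ ∪ S₂) A' := by
      conv_lhs => rw [h1, ← Category.assoc (ppr (S₁ ∪ S₂) A'), ← ppr_pin_add h.dis]
      simp only [Preadditive.add_comp, Preadditive.comp_add, Category.assoc]
      have h3 := pfp_zero (k := k) h.cv₂.smul h.up f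
      have h4 : pin S₁ A ≫ f ≫ ppr S₂ A' ≫ pin S₂ A' ≫ ppr (S₁ ∪ S₂) A' =
        (pin S₁ A ≫ f ≫ ppr S₂ A') ≫ pin S₂ A' ≫ ppr (S₁ ∪ S₂) A' := by
        simp only [Category.assoc]
      rw [h4, h3, zero_comp, add_zero]
    have h5 := pin₁_pp h.dis A
    rw [← h2]
    calc pin S₁ A ≫ f ≫ ppr (S₁ ∪ S₂) A'
        = (pin S₁ A ≫ ppr (S₁ ∪ S₂) A ≫ pin (S₁ ∪ S₂) A) ≫ f ≫ ppr (S₁ ∪ S₂) A' := by rw [h5]
      _ = _ := by simp only [Category.assoc]

/-- The projection to the lower part. -/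
noncomputable def Part.snd : prt (k := k) h.cv ⟶ prt h.cv₂ where
  app A := pin (S₁ ∪ S₂) A ≫ ppr S₂ A
  naturality A A' f := by
    change (pin (S₁ ∪ S₂) A ≫ f ≫ ppr (S₁ ∪ S₂) A') ≫ pin (S₁ ∪ S₂) A' ≫ ppr S₂ A' =
      (pin (S₁ ∪ S₂) A ≫ ppr S₂ A) ≫ pin S₂ A ≫ f ≫ ppr S₂ A'
    have h1 : pin (S₁ ∪ S₂) A = pin (S₁ ∪ S₂) A ≫ ppr (S₁ ∪ S₂) A ≫ pin (S₁ ∪ S₂) A := by
      rw [pin_ppr_assoc]
    have h2 : pin (S₁ ∪ S₂) A ≫ f ≫ ppr S₂ A' =
        (pin (S₁ ∪ S₂) A ≫ ppr S₂ A) ≫ pin S₂ A ≫ f ≫ ppr S₂ A' := by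
      conv_lhs => rw [h1, ← ppr_pin_add h.dis]
      simp only [Preadditive.add_comp, Preadditive.comp_add, Category.assoc]
      have h3 := pfp_zero (k := k) h.cv₂.smul h.up f
      rw [h3, comp_zero, comp_zero, zero_add]
    have h5 := pp_ppr₂ h.dis A'
    rw [← h2]
    calc (pin (S₁ ∪ S₂) A ≫ f ≫ ppr (S₁ ∪ S₂) A') ≫ pin (S₁ ∪ S₂) A' ≫ ppr S₂ A'
        = pin (S₁ ∪ S₂) A ≫ f ≫ (ppr (S₁ ∪ S₂) A' ≫ pin (S₁ ∪ S₂) A' ≫ ppr S₂ A') := by
          simp only [Category.assoc]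
      _ = _ := by rw [h5]

/-- The degreewise split exact sequence of complexes. -/
noncomputable def Part.sc (E : CochainComplex (Loc k P) ℤ) :
    ShortComplex (CochainComplex (Loc k P) ℤ) :=
  ShortComplex.mk
    (X₁ := ((prt h.cv₁).mapHomologicalComplex (ComplexShape.up ℤ)).obj E)
    (X₂ := ((prt h.cv).mapHomologicalComplex (ComplexShape.up ℤ)).obj E)
    (X₃ := ((prt h.cv₂).mapHomologicalComplex (ComplexShape.up ℤ)).obj E)
    ((NatTrans.mapHomologicalComplex h.inl (ComplexShape.up ℤ)).app E)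
    ((NatTrans.mapHomologicalComplex h.snd (ComplexShape.up ℤ)).app E) (by
      refine HomologicalComplex.hom_ext _ _ fun n => ?_
      change (pin S₁ (E.X n) ≫ ppr (S₁ ∪ S₂) (E.X n)) ≫ pin (S₁ ∪ S₂) (E.X n) ≫ ppr S₂ (E.X n) = 0
      rw [Category.assoc, pp_ppr₂ h.dis, pin_ppr_disj h.dis])

/-- The splittings. -/
noncomputable def Part.spl (E : CochainComplex (Loc k P) ℤ) (n : ℤ) :
    ((h.sc E).map (HomologicalComplex.eval (Loc k P) (ComplexShape.up ℤ) n)).Splitting where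
  r := pin (S₁ ∪ S₂) (E.X n) ≫ ppr S₁ (E.X n)
  s := pin S₂ (E.X n) ≫ ppr (S₁ ∪ S₂) (E.X n)
  f_r := by
    change (pin S₁ (E.X n) ≫ ppr (S₁ ∪ S₂) (E.X n)) ≫ pin (S₁ ∪ S₂) (E.X n) ≫ ppr S₁ (E.X n) = 𝟙 _
    rw [Category.assoc, pp_ppr₁ h.dis, pin_ppr]
  s_g := by
    change (pin S₂ (E.X n) ≫ ppr (S₁ ∪ S₂) (E.X n)) ≫ pin (S₁ ∪ S₂) (E.X n) ≫ ppr S₂ (E.X n) = 𝟙 _
    rw [Category.assoc, pp_ppr₂ h.dis, pin_ppr]
  id := by
    change (pin (S₁ ∪ S₂) (E.X n) ≫ ppr S₁ (E.X n)) ≫ pin S₁ (E.X n) ≫ ppr (S₁ ∪ S₂) (E.X n) +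
      (pin (S₁ ∪ S₂) (E.X n) ≫ ppr S₂ (E.X n)) ≫ pin S₂ (E.X n) ≫ ppr (S₁ ∪ S₂) (E.X n) = 𝟙 _
    have h1 := congrArg (fun z => pin (S₁ ∪ S₂) (E.X n) ≫ z ≫ ppr (S₁ ∪ S₂) (E.X n))
      (ppr_pin_add h.dis (E.X n))
    simp only [Preadditive.add_comp, Preadditive.comp_add, Category.assoc, pin_ppr,
      Category.comp_id] at h1 ⊢
    exact h1

/-- The triangle of a partition. -/
theorem Part.tri (X : KK k P) :
    ∃ (f : (hk (prt h.cv₁)).obj X ⟶ (hk (prt h.cv)).obj X)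
      (g : (hk (prt h.cv)).obj X ⟶ (hk (prt h.cv₂)).obj X)
      (δ : (hk (prt h.cv₂)).obj X ⟶ ((hk (prt h.cv₁)).obj X)⟦(1 : ℤ)⟧),
      Triangle.mk f g δ ∈ distTriang (KK k P) := by
  have h1 := (HomotopyCategory.distinguished_iff_iso_trianglehOfDegreewiseSplit
    (CochainComplex.trianglehOfDegreewiseSplit (h.sc X.as) (h.spl X.as))).2
      ⟨_, _, ⟨Iso.refl _⟩⟩
  exact ⟨_, _, _, h1⟩

end

/-! ### Properties of the part functors -/

section

variable {k : Type u} [Ring k] {Γ : Type u} [Group Γ] {B : Type u} [MulAction Γ B] {P : Pre Γ B}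

theorem keepFin_prt {S : Set B} (hS : Cv P S) : KeepFin (prt (k := k) hS) where
  fin A h := by
    have := h
    exact Subtype.finite
  emp A h := ⟨fun i => h.elim i.1⟩

theorem per_prt {S : Set B} (hS : Cv P S) {X : KK k P} (h : Per X) :
    Per ((hk (prt hS)).obj X) := per_hk _ (keepFin_prt hS) h

/-- Everything is convex. -/
theorem Cv.univ (P : Pre Γ B) : Cv P Set.univ := ⟨fun _ _ _ => trivial, fun _ _ _ _ => trivial⟩

theorem ppr_pin_of {S : Set B} {A : Loc k P} (h : ∀ i, A.loc i ∈ S) :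
    ppr S A ≫ pin S A = 𝟙 A := by
  refine Loc.ext_basis fun i => ?_
  rw [Loc.lin_comp, LinearMap.comp_apply, ppr_mem S A (h i), pin_single]
  rfl

/-- The part in the set of all locations. -/
noncomputable def prtUniv : prt (k := k) (Cv.univ P) ≅ 𝟭 (Loc k P) :=
  NatIso.ofComponents (fun A => ⟨pin Set.univ A, ppr Set.univ A, pin_ppr _ _,
    ppr_pin_of fun _ => trivial⟩) (by
      intro A A' f
      change (pin Set.univ A ≫ f ≫ ppr Set.univ A') ≫ pin Set.univ A' = pin Set.univ A ≫ f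
      rw [Category.assoc, Category.assoc,
        ppr_pin_of (A := A') (fun _ => Set.mem_univ _), Category.comp_id])

/-- The part in the set of all locations. -/
noncomputable def hkPrtUniv (X : KK k P) : (hk (prt (Cv.univ P))).obj X ≅ X :=
  ((hkIso (prtUniv (k := k) (P := P))).app X) ≪≫
    (show (hk (𝟭 (Loc k P))).obj X ≅ X from
      Iso.refl _)

/-- The part in a set without locations is zero. -/
theorem prt_qo_zero {S : Set B} (hS : Cv P S) {E : CochainComplex (Loc k P) ℤ}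
    (h : ∀ n i, (E.X n).loc i ∉ S) : IsZero ((hk (prt hS)).obj (qo E)) := by
  have h1 : IsZero (((prt hS).mapHomologicalComplex (ComplexShape.up ℤ)).obj E) := by
    rw [IsZero.iff_id_eq_zero]
    refine HomologicalComplex.hom_ext _ _ fun n => ?_
    have : IsEmpty ((((prt hS).mapHomologicalComplex (ComplexShape.up ℤ)).obj E).X n).ι :=
      ⟨fun i => h n i.1 i.2⟩
    exact (Loc.isZero_of_isEmpty _).eq_of_src _ _
  exact ((HomotopyCategory.quotient (Loc k P) (ComplexShape.up ℤ)).map_isZero h1).of_iso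
    (((prt hS).mapHomotopyCategoryFactors (ComplexShape.up ℤ)).app E)

theorem isZero_of_retract {C : Type*} [Category C] [Preadditive C] {X Y : C} (r : Retract X Y)
    (h : IsZero Y) : IsZero X := by
  rw [IsZero.iff_id_eq_zero, ← r.retract, h.eq_of_tgt r.i 0, zero_comp]

/-- The part in a set without locations is zero, for retracts. -/
theorem prt_zero {S : Set B} (hS : Cv P S) {X : KK k P} {E : CochainComplex (Loc k P) ℤ}
    (r : Retract X (qo E)) (h : ∀ n i, (E.X n).loc i ∉ S) : IsZero ((hk (prt hS)).obj X) :=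
  isZero_of_retract (r.map (hk (prt hS))) (prt_qo_zero hS h)

end

section

variable {k : Type u} [Ring k] {Γ : Type u} [Group Γ] {B B' : Type u} [MulAction Γ B]
  [MulAction Γ B'] {P : Pre Γ B} {Q : Pre Γ B'}

/-- The part functors and the change of the locations. -/
noncomputable def prtPush (m : Loc.Mono P Q) {S' : Set B'} (hS : Cv P (m.φ ⁻¹' S'))
    (hS' : Cv Q S') : prt (k := k) hS ⋙ Loc.push m ≅ Loc.push m ⋙ prt hS' :=
  NatIso.ofComponents (fun A => Iso.refl _) (fun {A A'} f => by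
    refine Loc.hom_ext ?_
    rfl)

/-- The part functors and the change of the locations. -/
noncomputable def hkPrtPush (m : Loc.Mono P Q) {S' : Set B'} (hS : Cv P (m.φ ⁻¹' S'))
    (hS' : Cv Q S') (X : KK k P) :
    (hk (Loc.push m)).obj ((hk (prt hS)).obj X) ≅ (hk (prt hS')).obj ((hk (Loc.push m)).obj X) :=
  (hkSq _ _ _ _ (prtPush m hS hS')).app X

end

end Pool.Agent.NegK.NT.L92
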